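import Mathlib

/-!
# Basic notions for MP_05dae2_an

Configurations on `ℤ^d`, shifts of finite type given by finitely many forbidden patterns,
pattern counting and entropy.
-/

namespace Pool.Agent.Lib.P05dae2

/-- The group `ℤ^d`. -/
abbrev Pt (d : ℕ) := Fin d → ℤ

/-- Configurations: maps from `ℤ^d` to the alphabet `S`. -/
abbrev Cfg (d : ℕ) (S : Type) := Pt d → S

/-- A pattern: a map from a finite subset of `ℤ^d` to the alphabet. -/
abbrev Pat (d : ℕ) (S : Type) := (F : Finset (Pt d)) × (F → S)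

/-- The translate of the pattern `p` by `v` occurs in the configuration `x`. -/
def Occurs {d : ℕ} {S : Type} (p : Pat d S) (v : Pt d) (x : Cfg d S) : Prop :=
  ∀ u : p.1, x (v + (u : Pt d)) = p.2 u

/-- `X` is a shift of finite type: the set of configurations in which no translate of any
pattern of some finite set `𝓕` occurs. -/
def IsSFT {d : ℕ} {S : Type} (X : Set (Cfg d S)) : Prop :=
  ∃ 𝓕 : Set (Pat d S), 𝓕.Finite ∧ X = {x | ∀ p ∈ 𝓕, ∀ v : Pt d, ¬ Occurs p v x}

/-- The set of patterns on `{0,…,n-1}^d` which occur in elements of `X`. -/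
def patSet {d : ℕ} {S : Type} (X : Set (Cfg d S)) (n : ℕ) : Set ((Fin d → Fin n) → S) :=
  {q | ∃ x ∈ X, ∀ i : Fin d → Fin n, q i = x (fun j => ((i j : ℕ) : ℤ))}

/-- The number of patterns on `{0,…,n-1}^d` which occur in elements of `X`. -/
noncomputable def numPat {d : ℕ} {S : Type} (X : Set (Cfg d S)) (n : ℕ) : ℕ :=
  (patSet X n).ncard

/-- `X` has entropy `h`: the limit of `log N_X(n) / n^d` is `h`. -/
def HasEnt {d : ℕ} {S : Type} (X : Set (Cfg d S)) (h : ℝ) : Prop :=
  Filter.Tendsto (fun n : ℕ => Real.log (numPat X n) / (n : ℝ) ^ d) Filter.atTop (nhds h)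

/-- Unit vector in direction `j`. -/
def ev {d : ℕ} (j : Fin d) : Pt d := fun l => if l = j then 1 else 0

/-- Nearest neighbour system: every cell is admissible (`Ok`) and neighbouring cells are
compatible; `Adj j s s'` is the condition on the state `s` of `p - e_j` and the state `s'`
of `p`. -/
def NN {d : ℕ} {S : Type} (Ok : S → Prop) (Adj : Fin d → S → S → Prop) : Set (Cfg d S) :=
  {x | (∀ p, Ok (x p)) ∧ ∀ p j, Adj j (x (p - ev j)) (x p)}

/-- Substitution: the cell `p` of `SubC r sub y` is cell `p mod r` of the block of the state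
`y (p div r)`. -/
def SubC {d : ℕ} {S T : Type} (r : ℕ) (sub : S → Pt d → T) (y : Cfg d S) : Cfg d T :=
  fun p => sub (y (fun j => p j / (r : ℤ))) (fun j => p j % (r : ℤ))

/-- Iterated descendants: `Desc r sub k M s t` says that the level `k` state `t` occurs in the
`M`-fold substitution of the level `k + M` state `s`. -/
def Desc {d : ℕ} {S : ℕ → Type} (r : ℕ → ℕ) (sub : ∀ k, S (k + 1) → Pt d → S k) (k : ℕ) :
    (M : ℕ) → S (k + M) → S k → Prop
  | 0, s, t => t = s
  | (M + 1), s, t => ∃ i : Pt d, (∀ j, 0 ≤ i j ∧ i j < (r (k + M) : ℤ)) ∧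
      Desc r sub k M (sub (k + M) s i) t

end Pool.Agent.Lib.P05dae2
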