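import Mathlib
import Pool.Agent.Lib.P05dae2.Basic

/-!
# The finite alphabet of the construction (MP_05dae2_an)

The dimension is `e + 2`.  `n` is the number of bits used for kinds.
-/

namespace Pool.Agent.Lib.P05dae2

/-- Names of pad bits. -/
inductive Pad (e : ℕ)
  | w (j : Fin (e + 2))
  | h
  | v
  deriving DecidableEq, Fintype

/-- Names of the bits of a type. -/
inductive TyBit (e n : ℕ)
  | mu (q : Pad e)
  | fF (j : Fin (e + 2))
  | lL (j : Fin (e + 2))
  | dl (j : Fin (e + 2))
  | ka (i : Fin n)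
  deriving DecidableEq, Fintype

/-- Kinds of cells (gadgets). -/
inductive Kind (e n : ℕ)
  | dd
  | port (j : Fin (e + 2))
  | tap
  | tr
  | rt (t : TyBit e n)
  | fb
  | fm
  | one
  | v1
  | pp (b : Bool)
  | bad
  | zz
  deriving DecidableEq, Fintype

/-- The type of a label: first flags, last flags, diagonal flags, kind and pads. -/
@[ext]
structure Typ (e n : ℕ) where
  F : Fin (e + 2) → Bool
  L : Fin (e + 2) → Bool
  Dl : Fin (e + 2) → Bool
  ka : Kind e n
  mu : Pad e → Bool
  deriving DecidableEq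

/-- Marks. -/
inductive Mark
  | pre
  | z
  | dot
  deriving DecidableEq, Fintype

/-- The content of an edge in one direction. -/
@[ext]
structure Edge (e n : ℕ) where
  f : Fin (e + 2) → Mark
  T : Typ e n
  s : Bool
  g : Bool
  w : Bool
  m : Bool
  h : Bool
  v : Bool
  deriving DecidableEq

/-- The own content of a cell. -/
@[ext]
structure Own (e n : ℕ) where
  f : Fin (e + 2) → Mark
  T : Typ e n
  s : Fin (e + 2) → Bool
  g : Fin (e + 2) → Bool
  w : Fin (e + 2) → Bool
  m : Bool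
  be : Bool
  h : Bool
  v : Bool
  deriving DecidableEq

/-- The state of a cell without its label: type, in-edges, own content. -/
@[ext]
structure St (e n : ℕ) where
  typ : Typ e n
  inn : Fin (e + 2) → Edge e n
  own : Own e n
  deriving DecidableEq

variable {e n : ℕ}

instance : Finite (Typ e n) :=
  Finite.of_injective (fun T : Typ e n => (T.F, T.L, T.Dl, T.ka, T.mu)) (by
    rintro ⟨⟩ ⟨⟩ h
    simp only [Prod.mk.injEq] at h
    simp [h])

instance : Finite (Edge e n) :=
  Finite.of_injective (fun E : Edge e n => (E.f, E.T, E.s, E.g, E.w, E.m, E.h, E.v)) (by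
    rintro ⟨⟩ ⟨⟩ h
    simp only [Prod.mk.injEq] at h
    simp [h])

instance : Finite (Own e n) :=
  Finite.of_injective
    (fun o : Own e n => (o.f, o.T, o.s, o.g, o.w, o.m, o.be, o.h, o.v)) (by
    rintro ⟨⟩ ⟨⟩ h
    simp only [Prod.mk.injEq] at h
    simp [h])

instance : Finite (St e n) :=
  Finite.of_injective (fun θ : St e n => (θ.typ, θ.inn, θ.own)) (by
    rintro ⟨⟩ ⟨⟩ h
    simp only [Prod.mk.injEq] at h
    simp [h])

/-- The out-edge in direction `j` of a cell with last flags `L` and own content `o`. -/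
def out (j : Fin (e + 2)) (L : Fin (e + 2) → Bool) (o : Own e n) : Edge e n where
  f := o.f
  T := o.T
  s := o.s j
  g := o.g j
  w := o.w j
  m := !L j && o.m
  h := decide (j = 0) && !L j && o.h
  v := decide (j = 1) && !L j && o.v

/-- The transverse direction of `j`. -/
def tv (j : Fin (e + 2)) : Fin (e + 2) := if j = 0 then 1 else 0

/-- The index of the diagonal flag used for direction `j`. -/
def di (j : Fin (e + 2)) : Fin (e + 2) := if j = 0 then 1 else j

/-- The bits of a type. -/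
def tbit (enc : Kind e n → Fin n → Bool) (T : Typ e n) : TyBit e n → Bool
  | .mu q => T.mu q
  | .fF j => T.F j
  | .lL j => T.L j
  | .dl j => T.Dl j
  | .ka i => enc T.ka i

/-- The local rules of a single cell. -/
structure Rules (enc : Kind e n → Fin n → Bool) (θ : St e n) : Prop where
  r1 : ∀ j l, l ≠ j → (θ.inn j).f l = θ.own.f l
  r2 : ∀ j, θ.own.f j = .z ↔ (θ.inn j).f j = .pre
  r3 : ∀ j, θ.typ.F j = false → (θ.inn j).T = θ.own.T ∧ (θ.inn j).m = θ.own.m
  r4 : ∀ j, θ.typ.F j = true → (θ.own.T.F j = true ↔ θ.own.f j = .z)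
  r5 : ∀ j, θ.typ.L j = true → (θ.own.T.L j = true ↔ θ.own.f j = .pre)
  r6 : ∀ j, θ.typ.Dl j = true →
    (θ.own.T.Dl j = true → θ.own.f j = θ.own.f 0) ∧
    (θ.own.T.Dl j = false → ¬ (θ.own.f j = θ.own.f 0 ∧ θ.own.f 0 ≠ .dot))
  r7 : (∀ j, θ.own.f j = .z ∨ (θ.typ.L j = true ∧ θ.own.f j = .pre)) →
    θ.own.T.ka = θ.typ.ka ∧ θ.own.T.mu = θ.typ.mu
  r8 : ∀ j, (θ.typ.Dl (di j) = false → θ.own.s j = (θ.inn j).s) ∧
    (θ.typ.Dl (di j) = true →
      ((θ.inn j).s = true ↔ θ.own.f j = .pre) ∧ (θ.own.s j = true ↔ θ.own.f j = .z))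
  r9 : ∀ j, (∀ l, l ≠ j → θ.typ.F l = true) →
    (θ.own.f j = .z → (θ.typ.F j = false → (θ.inn j).g = false) ∧ θ.own.g j = true) ∧
    (θ.own.f j ≠ .z → θ.own.g j = (!θ.typ.F j && (θ.inn j).g)) ∧
    (θ.typ.F j = true → ((θ.inn j).g = false ↔ θ.own.f j = .z))
  r9' : ∀ j, (∃ l, l ≠ j ∧ θ.typ.F l = false) → θ.own.g j = false
  r10 : ∀ j, (θ.typ.F j = false → θ.own.w j = (θ.inn j).w) ∧
    (θ.typ.F j = true → θ.typ.ka ≠ .port j → θ.own.w j = false)
  r11 : match θ.typ.ka with
    | .port j => if j = 1 then θ.own.h = (!θ.typ.F 0 && (θ.inn 0).h) else θ.own.h = θ.own.w j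
    | .tap => θ.own.h = (θ.inn 1).w
    | .tr => θ.own.h = (θ.inn 1).v
    | .rt t => θ.own.h = tbit enc θ.own.T t
    | .fb => True
    | .fm => θ.own.m = true → θ.own.h = true ∧ ∃ j, θ.own.T.F j = false
    | .one => θ.own.h = true
    | .zz => θ.own.h = false
    | _ => θ.own.h = (!θ.typ.F 0 && (θ.inn 0).h)
  r12 : match θ.typ.ka with
    | .port j => θ.own.v = (θ.inn j).w
    | .tr => θ.own.v = false
    | .v1 => θ.own.v = true
    | .pp b => θ.own.v = ((θ.inn 1).v && (θ.own.h == b))
    | .bad => (θ.inn 1).v = false ∧ θ.own.v = false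
    | _ => θ.own.v = (!θ.typ.F 1 && (θ.inn 1).v)
  r13 : θ.own.be = true → θ.own.m = true ∧ ∃ j, θ.typ.F j = false

/-- Names of the bits of an edge. -/
inductive EB (e n : ℕ)
  | fp (l : Fin (e + 2))
  | fz (l : Fin (e + 2))
  | tb (t : TyBit e n)
  | s
  | g
  | w
  | m
  | h
  | v
  deriving DecidableEq, Fintype

/-- Rows: the names of the bits of the code of a state. -/
inductive Row (e n : ℕ)
  | ty (t : TyBit e n)
  | iB (j : Fin (e + 2)) (b : EB e n)
  | oA (j : Fin (e + 2)) (b : EB e n)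
  | om
  | be
  | oh
  | ov
  | one
  deriving DecidableEq, Fintype

/-- The bits of an edge in direction `j`; the wire bits are hidden by the pads of the edge. -/
def ebit (enc : Kind e n → Fin n → Bool) (j : Fin (e + 2)) (E : Edge e n) : EB e n → Bool
  | .fp l => decide (E.f l = .pre)
  | .fz l => decide (E.f l = .z)
  | .tb t => tbit enc E.T t
  | .s => E.s
  | .g => E.g
  | .w => xor E.w (E.T.mu (.w j))
  | .m => E.m
  | .h => xor E.h (E.T.mu .h)
  | .v => xor E.v (E.T.mu .v)

/-- The code of a state. -/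
def code (enc : Kind e n → Fin n → Bool) (θ : St e n) : Row e n → Bool
  | .ty t => tbit enc θ.typ t
  | .iB j b => ebit enc j (θ.inn j) b
  | .oA j b => ebit enc j (out j θ.typ.L θ.own) b
  | .om => θ.own.m
  | .be => θ.own.be
  | .oh => xor θ.own.h (θ.own.T.mu .h)
  | .ov => xor θ.own.v (θ.own.T.mu .v)
  | .one => true

/-- Strings which are not codes of admissible states. -/
def Bad (enc : Kind e n → Fin n → Bool) : Type :=
  {c : Row e n → Bool // ∀ θ : St e n, Rules enc θ → code enc θ ≠ c}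

instance (enc : Kind e n → Fin n → Bool) : Finite (Bad enc) := by
  unfold Bad; infer_instance

/-- Columns: every bad string has `2 e + 5` columns. -/
abbrev Col (enc : Kind e n → Fin n → Bool) : Type := Bad enc × Fin (2 * e + 5)

end Pool.Agent.Lib.P05dae2
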