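import Mathlib
import Pool.Agent.Lib.P05dae2.Defs

/-!
# The picture and the block map (MP_05dae2_an)
-/

namespace Pool.Agent.Lib.P05dae2

variable {e n : ℕ}

/-- The geometric data of the picture: heights of rows, positions of the wires, of the columns
and of the palette. -/
structure Geo {e n : ℕ} (enc : Kind e n → Fin n → Bool) where
  hgt : Row e n → ℤ
  Yt : ℤ
  xp : EB e n → ℤ
  XR : ℤ
  colx : Col enc → ℤ
  XZ : ℤ
  pal : (Pad e → Bool) × (Pad e → Bool) → ℤ
  r0 : ℕ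
  enc_inj : Function.Injective enc
  hgt_inj : Function.Injective hgt
  hgt_even : ∀ ρ, hgt ρ % 2 = 0
  hgt_first : hgt (.ty (.mu (.w 0))) = 4
  hgt_ge : ∀ ρ, 4 ≤ hgt ρ
  hgt_ty : ∀ t ρ, (∀ t', ρ ≠ .ty t') → hgt (.ty t) < hgt ρ
  hgt_pair : ∀ j b, j ≠ 1 → hgt (.iB j b) = hgt (.oA j b) + 2
  hgt_one : ∀ ρ, ρ ≠ .one → hgt ρ < hgt .one
  Yt_eq : Yt = hgt .one + 2
  xp_pos : ∀ b, 1 ≤ xp b
  xp_inj : Function.Injective xp
  xp_XR : ∀ b, xp b < XR
  xp_iB : ∀ b b', xp b' ≤ xp b → hgt (.iB 1 b) ≤ hgt (.iB 1 b')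
  iB1_lt_oA1 : ∀ b b', hgt (.iB 1 b) < hgt (.oA 1 b')
  iB1_lt_oA : ∀ b j b', j ≠ 1 → hgt (.iB 1 b) < hgt (.oA j b')
  colx_XR : ∀ q, XR + 3 ≤ colx q
  colx_Yt : ∀ q, Yt + 3 ≤ colx q
  colx_sep : ∀ q q', q ≠ q' → 3 ≤ |colx q - colx q'|
  colx_XZ : ∀ q, colx q + 3 ≤ XZ
  XR_XZ : XR + 3 ≤ XZ
  Yt_XZ : Yt + 3 ≤ XZ
  pal_ge : ∀ γ, XZ + 3 ≤ pal γ
  pal_sep : ∀ γ γ', γ ≠ γ' → 3 ≤ |pal γ - pal γ'|
  pal_r0 : ∀ γ, pal γ + 3 ≤ (r0 : ℤ)
  XZ_r0 : XZ + 3 ≤ (r0 : ℤ)

variable {enc : Kind e n → Fin n → Bool} (G : Geo enc)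

/-- Being in the plane spanned by the directions `0` and `1`. -/
def InPl (a : Pt (e + 2)) : Prop := ∀ l : Fin (e + 2), l ≠ 0 → l ≠ 1 → a l = 0

/-- Abscissa of the port of the bit `b` in direction `j`. -/
def Geo.px (j : Fin (e + 2)) (b : EB e n) : ℤ := if j = 1 then G.xp b else 0

/-- Position of the port of the bit `b` in direction `j`. -/
def Geo.io (j : Fin (e + 2)) (b : EB e n) : Pt (e + 2) := fun l =>
  if l = 0 then G.px j b else if l = 1 then (if j = 1 then 0 else G.hgt (.oA j b)) else 0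

/-- Abscissa where a row starts. -/
def Geo.xs : Row e n → ℤ
  | .iB j b => G.px j b
  | .oA j b => G.px j b
  | _ => G.XR

/-- The gadgets of the picture. -/
inductive Geo.KAt (a : Pt (e + 2)) : Kind e n → Prop
  | port (j : Fin (e + 2)) (b : EB e n) (h : a = G.io j b) : Geo.KAt a (.port j)
  | tr (j : Fin (e + 2)) (b : EB e n) (hp : InPl a) (h0 : a 0 = G.px j b)
      (h1 : a 1 = G.hgt (.iB j b)) : Geo.KAt a .tr
  | tap (b : EB e n) (hp : InPl a) (h0 : a 0 = G.xp b)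
      (h1 : a 1 = G.hgt (.oA 1 b)) : Geo.KAt a .tap
  | rt (t : TyBit e n) (hp : InPl a) (h0 : a 0 = G.XR)
      (h1 : a 1 = G.hgt (.ty t)) : Geo.KAt a (.rt t)
  | fm (hp : InPl a) (h0 : a 0 = G.XR) (h1 : a 1 = G.hgt .om) : Geo.KAt a .fm
  | fb (ρ : Row e n) (hρ : ρ = .be ∨ ρ = .oh ∨ ρ = .ov) (hp : InPl a) (h0 : a 0 = G.XR)
      (h1 : a 1 = G.hgt ρ) : Geo.KAt a .fb
  | one (hp : InPl a) (h0 : a 0 = G.XR) (h1 : a 1 = G.hgt .one) : Geo.KAt a .one
  | v1 (q : Col enc) (hp : InPl a) (h0 : a 0 = G.colx q) (h1 : a 1 = 2) : Geo.KAt a .v1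
  | pp (q : Col enc) (ρ : Row e n) (hp : InPl a) (h0 : a 0 = G.colx q)
      (h1 : a 1 = G.hgt ρ) : Geo.KAt a (.pp (q.1.1 ρ))
  | bad (q : Col enc) (hp : InPl a) (h0 : a 0 = G.colx q) (h1 : a 1 = G.Yt) : Geo.KAt a .bad
  | zz (ρ : Row e n) (hp : InPl a) (h0 : a 0 = G.XZ) (h1 : a 1 = G.hgt ρ) : Geo.KAt a .zz

open Classical in
/-- The kind of a label. -/
noncomputable def Geo.ka0 (a : Pt (e + 2)) : Kind e n :=
  if h : ∃ k, G.KAt a k then h.choose else .dd

/-- Pads of the string of a column. -/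
def muOf (q : Col enc) : Pad e → Bool := fun p => q.1.1 (.ty (.mu p))

/-- Some coordinate of `a` is within `1` of the column `q`. -/
def Geo.Near (a : Pt (e + 2)) (q : Col enc) : Prop := ∃ l, |a l - G.colx q| ≤ 1

open Classical in
/-- Choice of a pad vector outside a given set. -/
noncomputable def avoid (s : Set (Pad e → Bool)) : Pad e → Bool :=
  if h : ∃ μ, μ ∉ s then h.choose else fun _ => false

open Classical in
/-- The pads of a label. -/
noncomputable def Geo.mu0 (a : Pt (e + 2)) : Pad e → Bool :=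
  if h : ∃ γ, ∀ l, a l = G.pal γ then h.choose.2
  else if h : ∃ γ, ∃ j : Fin (e + 2), ∀ l, a l = G.pal γ - (if l = j then 1 else 0) then
    h.choose.1
  else avoid {μ | ∃ q, G.Near a q ∧ μ = muOf q}

/-- The type of the label `a` at a level with blocks of side `r`. -/
noncomputable def Geo.Ty (r : ℤ) (a : Pt (e + 2)) : Typ e n where
  F := fun j => decide (a j = 0)
  L := fun j => decide (a j = r - 1)
  Dl := fun j => decide (a j = a 0)
  ka := G.ka0 a
  mu := G.mu0 a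

/-- Marks of the label `A` at the coordinate `a`. -/
def nf (a A : ℤ) : Mark := if A = a then .z else if A = a + 1 then .pre else .dot

/-- Value of the `w`-wire in direction `j`. -/
def Geo.WW (c : Row e n → Bool) (j : Fin (e + 2)) (a : Pt (e + 2)) : Prop :=
  ∃ b, (∀ l, l ≠ j → a l = G.io j b l) ∧ c (.oA j b) = true

/-- Value of the `w`-wire in direction `j` entering the block. -/
def Geo.WI (c : Row e n → Bool) (j : Fin (e + 2)) (a : Pt (e + 2)) : Prop :=
  ∃ b, (∀ l, l ≠ j → a l = G.io j b l) ∧ c (.iB j b) = true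

/-- Value of the `h`-wire. -/
def Geo.HH (c : Row e n → Bool) (a : Pt (e + 2)) : Prop :=
  InPl a ∧ ∃ ρ, a 1 = G.hgt ρ ∧ G.xs ρ ≤ a 0 ∧ a 0 < G.XZ ∧ c ρ = true

/-- Lower end of the `v`-wire of the port `(j,b)`. -/
def Geo.vs (j : Fin (e + 2)) (b : EB e n) : ℤ := if j = 1 then 0 else G.hgt (.oA j b)

/-- Value of the `v`-wire. -/
def Geo.VV (c : Row e n → Bool) (a : Pt (e + 2)) : Prop :=
  InPl a ∧ ((∃ j b, a 0 = G.px j b ∧ G.vs j b ≤ a 1 ∧ a 1 < G.hgt (.iB j b) ∧
      c (.iB j b) = true) ∨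
    (∃ q : Col enc, a 0 = G.colx q ∧ 2 ≤ a 1 ∧ a 1 < G.Yt ∧
      ∀ ρ, G.hgt ρ ≤ a 1 → c ρ = q.1.1 ρ))

open Classical in
/-- Own content of cell `a` of a block (side `r`) with label `A` and code string `c`, mode `m`
and free bits `β`. -/
noncomputable def Geo.ownC (r : ℤ) (A : Pt (e + 2)) (c : Row e n → Bool) (m : Bool)
    (β : Pt (e + 2) → Bool) (a : Pt (e + 2)) : Own e n where
  f := fun l => nf (a l) (A l)
  T := G.Ty (r + 1) A
  s := fun j => if a j < a (tv j) then decide (A j = a (tv j) + 1) else decide (A j = a (tv j))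
  g := fun j => decide ((∀ l, l ≠ j → a l = 0) ∧ A j ≤ a j)
  w := fun j => decide (G.WW c j a)
  m := m
  be := β a
  h := decide (G.HH c a)
  v := decide (G.VV c a)

/-- Label of the block before the block with label `A`, in direction `j` (block labels range
in `[0, r + 1)`). -/
def predL (r : ℤ) (A : Pt (e + 2)) (j : Fin (e + 2)) : Pt (e + 2) := fun l =>
  if l = j then (if A j = 0 then r else A j - 1) else A l

open Classical in
/-- In-edge in direction `j` at a cell `a` with `a j = 0`. -/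
noncomputable def Geo.bEdge (r : ℤ) (A : Pt (e + 2)) (c : Row e n → Bool)
    (a : Pt (e + 2)) (j : Fin (e + 2)) : Edge e n where
  f := fun l => if l = j then (if A j = 0 then .pre else if A j = r then .z else .dot)
    else nf (a l) (A l)
  T := G.Ty (r + 1) (predL r A j)
  s := decide (A j = a (tv j) + 1)
  g := decide ((∀ l, l ≠ j → a l = 0) ∧ A j ≠ 0)
  w := decide (G.WI c j a)
  m := false
  h := false
  v := false

open Classical in
/-- State of the cell `a` of a block. -/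
noncomputable def Geo.cellC (r : ℤ) (A : Pt (e + 2)) (c : Row e n → Bool) (m : Bool)
    (β : Pt (e + 2) → Bool) (a : Pt (e + 2)) : St e n where
  typ := G.Ty r a
  inn := fun j => if a j = 0 then G.bEdge r A c a j
    else out j (G.Ty r (a - ev j)).L (G.ownC r A c m β (a - ev j))
  own := G.ownC r A c m β a

/-- State of the cell `a` of a block in mode `P`. -/
noncomputable def Geo.cell (r : ℤ) (A : Pt (e + 2)) (c : Row e n → Bool)
    (a : Pt (e + 2)) : St e n :=
  G.cellC r A c false (fun _ => false) a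

/-- `a` is a position of a block of side `r`. -/
def InB (r : ℤ) (a : Pt (e + 2)) : Prop := ∀ j, 0 ≤ a j ∧ a j < r

/-- Admissible labelled states at a level with blocks of side `r`. -/
def Geo.OkZ (r : ℤ) (s : Pt (e + 2) × St e n) : Prop :=
  InB r s.1 ∧ Rules enc s.2 ∧ s.2.typ = G.Ty r s.1

/-- `Chain r M s t`: the labelled state `t` (level of side `r`) occurs in the `M`-fold
substitution of the labelled state `s` (level of side `r + M`). -/
def Geo.Chain (r : ℤ) : ℕ → Pt (e + 2) × St e n → Pt (e + 2) × St e n → Prop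
  | 0, s, t => t = s
  | (M + 1), s, t => ∃ a, InB (r + M) a ∧
      Geo.Chain r M (a, G.cell (r + M) s.1 (code enc s.2) a) t

/-- The alphabet of level `k`. -/
abbrev Geo.SL (k : ℕ) : Type := (Fin (e + 2) → Fin (G.r0 + k)) × St e n

/-- The label of a state of level `k`. -/
def Geo.lab {k : ℕ} (s : G.SL k) : Pt (e + 2) := fun j => ((s.1 j : ℕ) : ℤ)

/-- The side of the blocks of level `k`, as an integer. -/
def Geo.rr (k : ℕ) : ℤ := ((G.r0 + k : ℕ) : ℤ)

/-- Admissible states of level `k`. -/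
def Geo.OkL (k : ℕ) (s : G.SL k) : Prop := Rules enc s.2 ∧ s.2.typ = G.Ty (G.rr k) (G.lab s)

/-- Compatibility of neighbouring states of level `k`. -/
def Geo.AdjL (k : ℕ) (j : Fin (e + 2)) (s s' : G.SL k) : Prop :=
  (∀ l, G.lab s' l = if l = j then (G.lab s l + 1) % G.rr k else G.lab s l) ∧
    s'.2.inn j = out j s.2.typ.L s.2.own

theorem Geo.r0_pos : 0 < G.r0 := by
  have h1 := G.XZ_r0
  have h2 := G.Yt_XZ
  have h3 := G.Yt_eq
  have h4 := G.hgt_ge .one
  omega

/-- A label of level `k` from an integer point. -/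
def Geo.mkLab (k : ℕ) (i : Pt (e + 2)) : Fin (e + 2) → Fin (G.r0 + k) := fun j =>
  ⟨(i j % G.rr k).toNat, by
    have h0 := G.r0_pos
    have h1 : 0 < G.rr k := by unfold Geo.rr; omega
    have h2 := Int.emod_nonneg (i j) h1.ne'
    have h3 := Int.emod_lt_of_pos (i j) h1
    unfold Geo.rr at *
    omega⟩

/-- The block map (mode `P`). -/
noncomputable def Geo.subL (k : ℕ) (s : G.SL (k + 1)) (i : Pt (e + 2)) : G.SL k :=
  (G.mkLab k i, G.cell (G.rr k) (G.lab s) (code enc s.2) i)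

end Pool.Agent.Lib.P05dae2
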