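import Mathlib
import Pool.Agent.Lib.P05dae2.Geo

/-!
# Basic facts about the picture (MP_05dae2_an)
-/

namespace Pool.Agent.Lib.P05dae2

variable {e n : ℕ} {enc : Kind e n → Fin n → Bool} (G : Geo enc)

theorem ne01 : (0 : Fin (e + 2)) ≠ 1 := by
  intro h
  have := congrArg Fin.val h
  simp at this

theorem ne10 : (1 : Fin (e + 2)) ≠ 0 := fun h => ne01 h.symm

theorem Geo.hgt_eq_iff {ρ ρ' : Row e n} : G.hgt ρ = G.hgt ρ' ↔ ρ = ρ' :=
  ⟨fun h => G.hgt_inj h, fun h => by rw [h]⟩

theorem Geo.hgt_le_one (ρ : Row e n) : G.hgt ρ ≤ G.hgt .one := by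
  by_cases h : ρ = .one
  · rw [h]
  · exact (G.hgt_one ρ h).le

theorem Geo.hgt_lt_Yt (ρ : Row e n) : G.hgt ρ + 2 ≤ G.Yt := by
  have := G.hgt_le_one ρ
  have := G.Yt_eq
  omega

theorem Geo.px_one (b : EB e n) : G.px 1 b = G.xp b := by simp [Geo.px]

theorem Geo.px_ne {j : Fin (e + 2)} (hj : j ≠ 1) (b : EB e n) : G.px j b = 0 := by
  simp [Geo.px, hj]

theorem Geo.px_nonneg (j : Fin (e + 2)) (b : EB e n) : 0 ≤ G.px j b := by
  unfold Geo.px
  split_ifs
  · have := G.xp_pos b; omega
  · exact le_rfl

theorem Geo.px_lt_XR (j : Fin (e + 2)) (b : EB e n) : G.px j b < G.XR := by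
  unfold Geo.px
  have h := G.xp_XR b
  have h' := G.xp_pos b
  split_ifs
  · omega
  · omega

theorem Geo.px_eq_one {j : Fin (e + 2)} {b b' : EB e n} (h : G.px j b = G.xp b') :
    j = 1 ∧ b = b' := by
  by_cases hj : j = 1
  · subst hj
    rw [G.px_one] at h
    exact ⟨rfl, G.xp_inj h⟩
  · rw [G.px_ne hj] at h
    have := G.xp_pos b'
    omega

theorem Geo.xs_le_XR (ρ : Row e n) : G.xs ρ ≤ G.XR := by
  cases ρ <;> simp only [Geo.xs] <;> first | exact le_rfl | exact (G.px_lt_XR _ _).le

theorem Geo.xs_nonneg (ρ : Row e n) : 0 ≤ G.xs ρ := by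
  have : (0 : ℤ) < G.XR := lt_of_le_of_lt (G.px_nonneg 0 .s) (G.px_lt_XR 0 .s)
  cases ρ <;> simp only [Geo.xs] <;> first | exact this.le | exact G.px_nonneg _ _

theorem Geo.XR_pos : 2 ≤ G.XR := by
  have := G.xp_pos .s
  have := G.xp_XR .s
  omega

theorem Geo.io_zero (j : Fin (e + 2)) (b : EB e n) : G.io j b 0 = G.px j b := by
  simp [Geo.io]

theorem Geo.io_one (j : Fin (e + 2)) (b : EB e n) :
    G.io j b 1 = if j = 1 then 0 else G.hgt (.oA j b) := by
  simp [Geo.io]

theorem Geo.io_one_one (b : EB e n) : G.io 1 b 1 = 0 := by simp [Geo.io]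

theorem Geo.io_one_ne {j : Fin (e + 2)} (hj : j ≠ 1) (b : EB e n) :
    G.io j b 1 = G.hgt (.oA j b) := by
  simp [Geo.io, hj]

theorem Geo.io_inPl (j : Fin (e + 2)) (b : EB e n) : InPl (G.io j b) := by
  intro l h0 h1
  simp [Geo.io, h0, h1]

theorem Geo.io_self (j : Fin (e + 2)) (b : EB e n) : G.io j b j = 0 := by
  by_cases h0 : j = 0
  · subst h0
    rw [G.io_zero, G.px_ne ne01]
  · by_cases h1 : j = 1
    · subst h1
      exact G.io_one_one b
    · exact G.io_inPl j b j h0 h1

/-- The gadget relation is functional. -/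
theorem Geo.KAt_unique {a : Pt (e + 2)} {k k' : Kind e n} (h : G.KAt a k)
    (h' : G.KAt a k') : k = k' := by
  have ex : G.XR + 3 ≤ G.XZ := G.XR_XZ
  have hXR := G.XR_pos
  have hge := G.hgt_ge
  -- abscissa and ordinate classes
  cases h with
  | port j b h =>
    cases h' with
    | port j' b' h' =>
      have e0 : G.px j b = G.px j' b' := by
        rw [← G.io_zero, ← G.io_zero, ← h, ← h']
      have e1 : G.io j b 1 = G.io j' b' 1 := by rw [← h, ← h']
      by_cases hj : j = 1
      · by_cases hj' : j' = 1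
        · rw [hj, hj']
        · subst hj
          rw [G.px_one] at e0
          exact absurd (G.px_eq_one e0.symm).1 hj'
      · by_cases hj' : j' = 1
        · subst hj'
          rw [G.px_one] at e0
          exact absurd (G.px_eq_one e0).1 hj
        · rw [G.io_one_ne hj, G.io_one_ne hj'] at e1
          have := G.hgt_inj e1
          simp only [Row.oA.injEq] at this
          rw [this.1]
    | tr j' b' hp h0 h1 =>
      exfalso
      rw [h, G.io_zero] at h0
      rw [h, G.io_one] at h1
      split_ifs at h1 with hj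
      · have := hge (.iB j' b'); omega
      · have := G.hgt_inj h1
        simp at this
    | tap b' hp h0 h1 =>
      exfalso
      rw [h, G.io_zero] at h0
      obtain ⟨rfl, rfl⟩ := G.px_eq_one h0
      rw [h, G.io_one_one] at h1
      have := hge (.oA 1 b); omega
    | rt t hp h0 h1 =>
      exfalso
      rw [h, G.io_zero] at h0
      have := G.px_lt_XR j b; omega
    | fm hp h0 h1 =>
      exfalso
      rw [h, G.io_zero] at h0
      have := G.px_lt_XR j b; omega
    | fb ρ hρ hp h0 h1 =>
      exfalso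
      rw [h, G.io_zero] at h0
      have := G.px_lt_XR j b; omega
    | one hp h0 h1 =>
      exfalso
      rw [h, G.io_zero] at h0
      have := G.px_lt_XR j b; omega
    | v1 q hp h0 h1 =>
      exfalso
      rw [h, G.io_zero] at h0
      have := G.px_lt_XR j b; have := G.colx_XR q; omega
    | pp q ρ hp h0 h1 =>
      exfalso
      rw [h, G.io_zero] at h0
      have := G.px_lt_XR j b; have := G.colx_XR q; omega
    | bad q hp h0 h1 =>
      exfalso
      rw [h, G.io_zero] at h0
      have := G.px_lt_XR j b; have := G.colx_XR q; omega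
    | zz ρ hp h0 h1 =>
      exfalso
      rw [h, G.io_zero] at h0
      have := G.px_lt_XR j b; omega
  | tr j b hp h0 h1 =>
    cases h' with
    | port j' b' h' =>
      exfalso
      rw [h', G.io_zero] at h0
      rw [h', G.io_one] at h1
      split_ifs at h1 with hj
      · have := hge (.iB j b); omega
      · have := G.hgt_inj h1
        simp at this
    | tr j' b' hp' h0' h1' => rfl
    | tap b' hp' h0' h1' =>
      exfalso
      have := G.hgt_inj (h1.symm.trans h1')
      simp at this
    | rt t hp' h0' h1' => exfalso; have := G.px_lt_XR j b; omega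
    | fm hp' h0' h1' => exfalso; have := G.px_lt_XR j b; omega
    | fb ρ hρ hp' h0' h1' => exfalso; have := G.px_lt_XR j b; omega
    | one hp' h0' h1' => exfalso; have := G.px_lt_XR j b; omega
    | v1 q hp' h0' h1' =>
      exfalso; have := G.px_lt_XR j b; have := G.colx_XR q; omega
    | pp q ρ hp' h0' h1' =>
      exfalso; have := G.px_lt_XR j b; have := G.colx_XR q; omega
    | bad q hp' h0' h1' =>
      exfalso; have := G.px_lt_XR j b; have := G.colx_XR q; omega
    | zz ρ hp' h0' h1' => exfalso; have := G.px_lt_XR j b; omega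
  | tap b hp h0 h1 =>
    cases h' with
    | port j' b' h' =>
      exfalso
      rw [h', G.io_zero] at h0
      obtain ⟨rfl, rfl⟩ := G.px_eq_one h0
      rw [h', G.io_one_one] at h1
      have := hge (.oA 1 b'); omega
    | tr j' b' hp' h0' h1' =>
      exfalso
      have := G.hgt_inj (h1.symm.trans h1')
      simp at this
    | tap b' hp' h0' h1' => rfl
    | rt t hp' h0' h1' => exfalso; have := G.xp_XR b; omega
    | fm hp' h0' h1' => exfalso; have := G.xp_XR b; omega
    | fb ρ hρ hp' h0' h1' => exfalso; have := G.xp_XR b; omega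
    | one hp' h0' h1' => exfalso; have := G.xp_XR b; omega
    | v1 q hp' h0' h1' =>
      exfalso; have := G.xp_XR b; have := G.colx_XR q; omega
    | pp q ρ hp' h0' h1' =>
      exfalso; have := G.xp_XR b; have := G.colx_XR q; omega
    | bad q hp' h0' h1' =>
      exfalso; have := G.xp_XR b; have := G.colx_XR q; omega
    | zz ρ hp' h0' h1' => exfalso; have := G.xp_XR b; omega
  | rt t hp h0 h1 =>
    cases h' with
    | port j' b' h' =>
      exfalso
      rw [h', G.io_zero] at h0
      have := G.px_lt_XR j' b'; omega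
    | tr j' b' hp' h0' h1' => exfalso; have := G.px_lt_XR j' b'; omega
    | tap b' hp' h0' h1' => exfalso; have := G.xp_XR b'; omega
    | rt t' hp' h0' h1' =>
      have := G.hgt_inj (h1.symm.trans h1')
      simp only [Row.ty.injEq] at this
      rw [this]
    | fm hp' h0' h1' =>
      exfalso; have := G.hgt_inj (h1.symm.trans h1'); simp at this
    | fb ρ hρ hp' h0' h1' =>
      exfalso
      have := G.hgt_inj (h1.symm.trans h1')
      rcases hρ with h | h | h <;> rw [h] at this <;> simp at this
    | one hp' h0' h1' =>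
      exfalso; have := G.hgt_inj (h1.symm.trans h1'); simp at this
    | v1 q hp' h0' h1' => exfalso; have := G.colx_XR q; omega
    | pp q ρ hp' h0' h1' => exfalso; have := G.colx_XR q; omega
    | bad q hp' h0' h1' => exfalso; have := G.colx_XR q; omega
    | zz ρ hp' h0' h1' => exfalso; omega
  | fm hp h0 h1 =>
    cases h' with
    | port j' b' h' =>
      exfalso
      rw [h', G.io_zero] at h0
      have := G.px_lt_XR j' b'; omega
    | tr j' b' hp' h0' h1' => exfalso; have := G.px_lt_XR j' b'; omega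
    | tap b' hp' h0' h1' => exfalso; have := G.xp_XR b'; omega
    | rt t' hp' h0' h1' =>
      exfalso; have := G.hgt_inj (h1.symm.trans h1'); simp at this
    | fm hp' h0' h1' => rfl
    | fb ρ hρ hp' h0' h1' =>
      exfalso
      have := G.hgt_inj (h1.symm.trans h1')
      rcases hρ with h | h | h <;> rw [h] at this <;> simp at this
    | one hp' h0' h1' =>
      exfalso; have := G.hgt_inj (h1.symm.trans h1'); simp at this
    | v1 q hp' h0' h1' => exfalso; have := G.colx_XR q; omega
    | pp q ρ hp' h0' h1' => exfalso; have := G.colx_XR q; omega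
    | bad q hp' h0' h1' => exfalso; have := G.colx_XR q; omega
    | zz ρ hp' h0' h1' => exfalso; omega
  | fb ρ hρ hp h0 h1 =>
    cases h' with
    | port j' b' h' =>
      exfalso
      rw [h', G.io_zero] at h0
      have := G.px_lt_XR j' b'; omega
    | tr j' b' hp' h0' h1' => exfalso; have := G.px_lt_XR j' b'; omega
    | tap b' hp' h0' h1' => exfalso; have := G.xp_XR b'; omega
    | rt t' hp' h0' h1' =>
      exfalso
      have := G.hgt_inj (h1.symm.trans h1')
      rcases hρ with h | h | h <;> rw [h] at this <;> simp at this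
    | fm hp' h0' h1' =>
      exfalso
      have := G.hgt_inj (h1.symm.trans h1')
      rcases hρ with h | h | h <;> rw [h] at this <;> simp at this
    | fb ρ hρ hp' h0' h1' => rfl
    | one hp' h0' h1' =>
      exfalso
      have := G.hgt_inj (h1.symm.trans h1')
      rcases hρ with h | h | h <;> rw [h] at this <;> simp at this
    | v1 q hp' h0' h1' => exfalso; have := G.colx_XR q; omega
    | pp q ρ hp' h0' h1' => exfalso; have := G.colx_XR q; omega
    | bad q hp' h0' h1' => exfalso; have := G.colx_XR q; omega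
    | zz ρ hp' h0' h1' => exfalso; omega
  | one hp h0 h1 =>
    cases h' with
    | port j' b' h' =>
      exfalso
      rw [h', G.io_zero] at h0
      have := G.px_lt_XR j' b'; omega
    | tr j' b' hp' h0' h1' => exfalso; have := G.px_lt_XR j' b'; omega
    | tap b' hp' h0' h1' => exfalso; have := G.xp_XR b'; omega
    | rt t' hp' h0' h1' =>
      exfalso; have := G.hgt_inj (h1.symm.trans h1'); simp at this
    | fm hp' h0' h1' =>
      exfalso; have := G.hgt_inj (h1.symm.trans h1'); simp at this
    | fb ρ hρ hp' h0' h1' =>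
      exfalso
      have := G.hgt_inj (h1.symm.trans h1')
      rcases hρ with h | h | h <;> rw [h] at this <;> simp at this
    | one hp' h0' h1' => rfl
    | v1 q hp' h0' h1' => exfalso; have := G.colx_XR q; omega
    | pp q ρ hp' h0' h1' => exfalso; have := G.colx_XR q; omega
    | bad q hp' h0' h1' => exfalso; have := G.colx_XR q; omega
    | zz ρ hp' h0' h1' => exfalso; omega
  | v1 q hp h0 h1 =>
    have hq := G.colx_XR q
    have hq' := G.colx_XZ q
    cases h' with
    | port j' b' h' =>
      exfalso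
      rw [h', G.io_zero] at h0
      have := G.px_lt_XR j' b'; omega
    | tr j' b' hp' h0' h1' => exfalso; have := G.px_lt_XR j' b'; omega
    | tap b' hp' h0' h1' => exfalso; have := G.xp_XR b'; omega
    | rt t' hp' h0' h1' => exfalso; omega
    | fm hp' h0' h1' => exfalso; omega
    | fb ρ hρ hp' h0' h1' => exfalso; omega
    | one hp' h0' h1' => exfalso; omega
    | v1 q' hp' h0' h1' => rfl
    | pp q' ρ hp' h0' h1' => exfalso; have := hge ρ; omega
    | bad q' hp' h0' h1' => exfalso; have := G.hgt_lt_Yt .one; have := hge .one; omega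
    | zz ρ hp' h0' h1' => exfalso; omega
  | pp q ρ hp h0 h1 =>
    have hq := G.colx_XR q
    have hq' := G.colx_XZ q
    cases h' with
    | port j' b' h' =>
      exfalso
      rw [h', G.io_zero] at h0
      have := G.px_lt_XR j' b'; omega
    | tr j' b' hp' h0' h1' => exfalso; have := G.px_lt_XR j' b'; omega
    | tap b' hp' h0' h1' => exfalso; have := G.xp_XR b'; omega
    | rt t' hp' h0' h1' => exfalso; omega
    | fm hp' h0' h1' => exfalso; omega
    | fb ρ hρ hp' h0' h1' => exfalso; omega
    | one hp' h0' h1' => exfalso; omega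
    | v1 q' hp' h0' h1' => exfalso; have := hge ρ; omega
    | pp q' ρ' hp' h0' h1' =>
      have e1 : ρ = ρ' := G.hgt_inj (h1.symm.trans h1')
      have e2 : q = q' := by
        by_contra hne
        have := G.colx_sep q q' hne
        rw [← h0, ← h0'] at this
        simp at this
      rw [e1, e2]
    | bad q' hp' h0' h1' => exfalso; have := G.hgt_lt_Yt ρ; omega
    | zz ρ hp' h0' h1' => exfalso; omega
  | bad q hp h0 h1 =>
    have hq := G.colx_XR q
    have hq' := G.colx_XZ q
    cases h' with
    | port j' b' h' =>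
      exfalso
      rw [h', G.io_zero] at h0
      have := G.px_lt_XR j' b'; omega
    | tr j' b' hp' h0' h1' => exfalso; have := G.px_lt_XR j' b'; omega
    | tap b' hp' h0' h1' => exfalso; have := G.xp_XR b'; omega
    | rt t' hp' h0' h1' => exfalso; omega
    | fm hp' h0' h1' => exfalso; omega
    | fb ρ hρ hp' h0' h1' => exfalso; omega
    | one hp' h0' h1' => exfalso; omega
    | v1 q' hp' h0' h1' => exfalso; have := G.hgt_lt_Yt .one; have := hge .one; omega
    | pp q' ρ' hp' h0' h1' => exfalso; have := G.hgt_lt_Yt ρ'; omega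
    | bad q' hp' h0' h1' => rfl
    | zz ρ hp' h0' h1' => exfalso; omega
  | zz ρ hp h0 h1 =>
    cases h' with
    | port j' b' h' =>
      exfalso
      rw [h', G.io_zero] at h0
      have := G.px_lt_XR j' b'; omega
    | tr j' b' hp' h0' h1' => exfalso; have := G.px_lt_XR j' b'; omega
    | tap b' hp' h0' h1' => exfalso; have := G.xp_XR b'; omega
    | rt t' hp' h0' h1' => exfalso; omega
    | fm hp' h0' h1' => exfalso; omega
    | fb ρ hρ hp' h0' h1' => exfalso; omega
    | one hp' h0' h1' => exfalso; omega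
    | v1 q' hp' h0' h1' => exfalso; have := G.colx_XZ q'; omega
    | pp q' ρ' hp' h0' h1' => exfalso; have := G.colx_XZ q'; omega
    | bad q' hp' h0' h1' => exfalso; have := G.colx_XZ q'; omega
    | zz ρ hp' h0' h1' => rfl

theorem Geo.ka0_eq {a : Pt (e + 2)} {k : Kind e n} (h : G.KAt a k) : G.ka0 a = k := by
  have hex : ∃ k, G.KAt a k := ⟨k, h⟩
  unfold Geo.ka0
  rw [dif_pos hex]
  exact G.KAt_unique hex.choose_spec h

theorem Geo.ka0_none {a : Pt (e + 2)} (h : ∀ k, ¬ G.KAt a k) : G.ka0 a = .dd := by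
  unfold Geo.ka0
  rw [dif_neg]
  rintro ⟨k, hk⟩
  exact h k hk

theorem Geo.ka0_cases (a : Pt (e + 2)) :
    G.KAt a (G.ka0 a) ∨ ((∀ k, ¬ G.KAt a k) ∧ G.ka0 a = .dd) := by
  by_cases h : ∃ k, G.KAt a k
  · obtain ⟨k, hk⟩ := h
    left
    rw [G.ka0_eq hk]
    exact hk
  · push Not at h
    exact Or.inr ⟨h, G.ka0_none h⟩

/-- Gadget coordinates are bounded. -/
theorem Geo.KAt_lt {a : Pt (e + 2)} {k : Kind e n} (h : G.KAt a k) (l : Fin (e + 2)) :
    0 ≤ a l ∧ a l ≤ G.XZ := by
  have hXR := G.XR_pos
  have hz := G.XR_XZ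
  have hy := G.Yt_XZ
  have hge := G.hgt_ge
  have hlt := G.hgt_lt_Yt
  have key : ∀ (x y : ℤ), InPl a → a 0 = x → a 1 = y → 0 ≤ x → x ≤ G.XZ → 0 ≤ y → y ≤ G.XZ →
      0 ≤ a l ∧ a l ≤ G.XZ := by
    intro x y hp h0 h1 a1 a2 a3 a4
    by_cases hl0 : l = 0
    · subst hl0; omega
    · by_cases hl1 : l = 1
      · subst hl1; omega
      · rw [hp l hl0 hl1]; omega
  cases h with
  | port j b h =>
    refine key (G.px j b) (G.io j b 1) (h ▸ G.io_inPl j b) (by rw [h, G.io_zero])
      (by rw [h]) (G.px_nonneg j b) ?_ ?_ ?_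
    · have := G.px_lt_XR j b; omega
    · rw [G.io_one]; split_ifs
      · exact le_rfl
      · have := hge (.oA j b); omega
    · rw [G.io_one]; split_ifs
      · omega
      · have := hlt (.oA j b); omega
  | tr j b hp h0 h1 =>
    have := G.px_lt_XR j b; have := G.px_nonneg j b
    have := hge (.iB j b); have := hlt (.iB j b)
    exact key _ _ hp h0 h1 (by omega) (by omega) (by omega) (by omega)
  | tap b hp h0 h1 =>
    have := G.xp_XR b; have := G.xp_pos b
    have := hge (.oA 1 b); have := hlt (.oA 1 b)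
    exact key _ _ hp h0 h1 (by omega) (by omega) (by omega) (by omega)
  | rt t hp h0 h1 =>
    have := hge (.ty t); have := hlt (.ty t)
    exact key _ _ hp h0 h1 (by omega) (by omega) (by omega) (by omega)
  | fm hp h0 h1 =>
    have := hge .om; have := hlt .om
    exact key _ _ hp h0 h1 (by omega) (by omega) (by omega) (by omega)
  | fb ρ hρ hp h0 h1 =>
    have := hge ρ; have := hlt ρ
    exact key _ _ hp h0 h1 (by omega) (by omega) (by omega) (by omega)
  | one hp h0 h1 =>
    have := hge .one; have := hlt .one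
    exact key _ _ hp h0 h1 (by omega) (by omega) (by omega) (by omega)
  | v1 q hp h0 h1 =>
    have := G.colx_XR q; have := G.colx_XZ q
    exact key _ _ hp h0 h1 (by omega) (by omega) (by omega) (by omega)
  | pp q ρ hp h0 h1 =>
    have := G.colx_XR q; have := G.colx_XZ q
    have := hge ρ; have := hlt ρ
    exact key _ _ hp h0 h1 (by omega) (by omega) (by omega) (by omega)
  | bad q hp h0 h1 =>
    have := G.colx_XR q; have := G.colx_XZ q
    have := hge .one; have := hlt .one
    exact key _ _ hp h0 h1 (by omega) (by omega) (by omega) (by omega)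
  | zz ρ hp h0 h1 =>
    have := hge ρ; have := hlt ρ
    exact key _ _ hp h0 h1 (by omega) (by omega) (by omega) (by omega)

/-- Two labels which agree up to coordinates which are at least `r0 - 1`. -/
def Geo.Clamp (A A' : Pt (e + 2)) : Prop :=
  ∀ l, A' l = A l ∨ ((G.r0 : ℤ) - 1 ≤ A l ∧ (G.r0 : ℤ) - 1 ≤ A' l)

theorem Geo.Clamp.symm {A A' : Pt (e + 2)} (h : G.Clamp A A') : G.Clamp A' A := by
  intro l
  rcases h l with h | h
  · exact Or.inl h.symm
  · exact Or.inr ⟨h.2, h.1⟩

theorem Geo.KAt_clamp {A A' : Pt (e + 2)} (h : G.Clamp A A') {k : Kind e n}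
    (hk : G.KAt A k) : G.KAt A' k := by
  have : A' = A := by
    funext l
    rcases h l with h | h
    · exact h
    · have := (G.KAt_lt hk l).2
      have := G.XZ_r0
      omega
  rw [this]; exact hk

theorem Geo.ka0_clamp {A A' : Pt (e + 2)} (h : G.Clamp A A') : G.ka0 A' = G.ka0 A := by
  rcases G.ka0_cases A with h1 | ⟨h1, h2⟩
  · exact G.ka0_eq (G.KAt_clamp h h1)
  · rw [h2]
    refine G.ka0_none (fun k hk => h1 k (G.KAt_clamp (Geo.Clamp.symm G h) hk))

theorem Geo.Near_clamp {A A' : Pt (e + 2)} (h : G.Clamp A A') {q : Col enc}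
    (hq : G.Near A q) : G.Near A' q := by
  obtain ⟨l, hl⟩ := hq
  refine ⟨l, ?_⟩
  rcases h l with h | h
  · rw [h]; exact hl
  · exfalso
    have := G.colx_XZ q
    have := G.XZ_r0
    rw [abs_le] at hl
    omega

theorem Geo.pal_lt (γ : (Pad e → Bool) × (Pad e → Bool)) : G.pal γ < (G.r0 : ℤ) - 2 := by
  have := G.pal_r0 γ; omega

theorem Geo.pal_inj : Function.Injective G.pal := by
  intro γ γ' h
  by_contra hne
  have := G.pal_sep γ γ' hne
  rw [h] at this
  simp at this

/-- The palette label. -/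
def Geo.palL (γ : (Pad e → Bool) × (Pad e → Bool)) : Pt (e + 2) := fun _ => G.pal γ

/-- The label before the palette label, in direction `j`. -/
def Geo.palP (γ : (Pad e → Bool) × (Pad e → Bool)) (j : Fin (e + 2)) : Pt (e + 2) :=
  fun l => G.pal γ - (if l = j then 1 else 0)

theorem Geo.mu0_palL (γ : (Pad e → Bool) × (Pad e → Bool)) : G.mu0 (G.palL γ) = γ.2 := by
  have hex : ∃ γ', ∀ l : Fin (e + 2), G.palL γ l = G.pal γ' := ⟨γ, fun l => rfl⟩
  unfold Geo.mu0
  rw [dif_pos hex]
  have := hex.choose_spec 0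
  rw [← G.pal_inj this]

theorem Geo.palP_ne_palL (γ γ' : (Pad e → Bool) × (Pad e → Bool)) (j : Fin (e + 2)) :
    ¬ ∀ l, G.palP γ j l = G.pal γ' := by
  intro h
  obtain ⟨l, hl⟩ : ∃ l : Fin (e + 2), l ≠ j := by
    by_cases hj : j = 0
    · exact ⟨1, by rw [hj]; exact ne10⟩
    · exact ⟨0, Ne.symm hj⟩
  have h1 := h l
  have h2 := h j
  simp only [Geo.palP, if_neg hl, if_true] at h1 h2
  omega

theorem Geo.mu0_palP (γ : (Pad e → Bool) × (Pad e → Bool)) (j : Fin (e + 2)) :
    G.mu0 (G.palP γ j) = γ.1 := by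
  have hno : ¬ ∃ γ', ∀ l : Fin (e + 2), G.palP γ j l = G.pal γ' := by
    rintro ⟨γ', h⟩
    exact G.palP_ne_palL γ γ' j h
  have hex : ∃ γ', ∃ j' : Fin (e + 2), ∀ l : Fin (e + 2),
      G.palP γ j l = G.pal γ' - (if l = j' then 1 else 0) := ⟨γ, j, fun l => rfl⟩
  unfold Geo.mu0
  rw [dif_neg hno, dif_pos hex]
  obtain ⟨j', h⟩ := hex.choose_spec
  set γ' := hex.choose with hγ'
  have : γ = γ' := by
    by_contra hne
    have hs := G.pal_sep γ γ' hne
    have h0 := h 0
    simp only [Geo.palP] at h0
    rw [le_abs] at hs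
    split_ifs at h0 <;> omega
  rw [← this]

theorem Geo.mu0_clamp {A A' : Pt (e + 2)} (h : G.Clamp A A') : G.mu0 A' = G.mu0 A := by
  have key : ∀ {A A' : Pt (e + 2)}, G.Clamp A A' → ∀ γ : (Pad e → Bool) × (Pad e → Bool),
      ∀ x : Fin (e + 2) → ℤ, (∀ l, x l = 0 ∨ x l = 1) →
      (∀ l, A l = G.pal γ - x l) → ∀ l, A' l = G.pal γ - x l := by
    intro A A' h γ x hx hA l
    rcases h l with h | h
    · rw [h]; exact hA l
    · exfalso
      have := hA l
      have := G.pal_r0 γ
      rcases hx l with h | h <;> omega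
  have hsymm := Geo.Clamp.symm G h
  by_cases h1 : ∃ γ, ∀ l, A l = G.pal γ
  · obtain ⟨γ, hγ⟩ := h1
    have e1 : A = G.palL γ := funext hγ
    have e2 : A' = G.palL γ := by
      funext l
      have := key h γ (fun _ => 0) (fun _ => Or.inl rfl) (by simpa using hγ) l
      simpa [Geo.palL] using this
    rw [e1, e2]
  · by_cases h2 : ∃ γ, ∃ j : Fin (e + 2), ∀ l, A l = G.pal γ - (if l = j then 1 else 0)
    · obtain ⟨γ, j, hγ⟩ := h2
      have e1 : A = G.palP γ j := funext hγ
      have e2 : A' = G.palP γ j := by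
        funext l
        refine key h γ (fun l => if l = j then 1 else 0) (fun l => ?_) hγ l
        by_cases h : l = j <;> simp [h]
      rw [e1, e2]
    · have h1' : ¬ ∃ γ, ∀ l, A' l = G.pal γ := by
        rintro ⟨γ, hγ⟩
        refine h1 ⟨γ, fun l => ?_⟩
        have := key hsymm γ (fun _ => 0) (fun _ => Or.inl rfl) (by simpa using hγ) l
        simpa using this
      have h2' : ¬ ∃ γ, ∃ j : Fin (e + 2), ∀ l, A' l = G.pal γ - (if l = j then 1 else 0) := by
        rintro ⟨γ, j, hγ⟩
        refine h2 ⟨γ, j, fun l => ?_⟩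
        refine key hsymm γ (fun l => if l = j then 1 else 0) (fun l => ?_) hγ l
        by_cases h : l = j <;> simp [h]
      unfold Geo.mu0
      rw [dif_neg h1, dif_neg h2, dif_neg h1', dif_neg h2']
      congr 1
      ext μ
      constructor
      · rintro ⟨q, hq, hμ⟩
        exact ⟨q, G.Near_clamp hsymm hq, hμ⟩
      · rintro ⟨q, hq, hμ⟩
        exact ⟨q, G.Near_clamp h hq, hμ⟩

theorem avoid_spec {s : Set (Pad e → Bool)} (h : ∃ μ, μ ∉ s) : avoid s ∉ s := by
  unfold avoid
  rw [dif_pos h]
  exact h.choose_spec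

/-- The set of pads of the columns near a label is not everything. -/
theorem Geo.near_small (a : Pt (e + 2)) : ∃ μ : Pad e → Bool, μ ∉ {μ | ∃ q, G.Near a q ∧ μ = muOf q} := by
  classical
  by_contra hcon
  push Not at hcon
  -- every vector is `muOf q` with `q` near `a` at some coordinate
  have h1 : ∀ μ : Pad e → Bool, ∃ l : Fin (e + 2), ∃ q : Col enc, |a l - G.colx q| ≤ 1 ∧
      μ = muOf q := by
    intro μ
    obtain ⟨q, ⟨l, hl⟩, hμ⟩ := hcon μ
    exact ⟨l, q, hl, hμ⟩
  choose f g hg hμ using h1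
  have hinj : Function.Injective f := by
    intro μ μ' h
    have a1 := hg μ
    have a2 := hg μ'
    rw [h] at a1
    have : g μ = g μ' := by
      by_contra hne
      have hs := G.colx_sep _ _ hne
      rw [abs_le] at a1 a2
      rw [le_abs] at hs
      omega
    rw [hμ μ, hμ μ', this]
  have hc := Fintype.card_le_of_injective f hinj
  rw [Fintype.card_fin, Fintype.card_fun, Fintype.card_bool] at hc
  have hcard : e + 2 ≤ Fintype.card (Pad e) := by
    have := Fintype.card_le_of_injective (fun j : Fin (e + 2) => (Pad.w j : Pad e))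
      (fun j j' h => by simpa using h)
    rwa [Fintype.card_fin] at this
  have h2 : Fintype.card (Pad e) < 2 ^ Fintype.card (Pad e) := Nat.lt_two_pow_self
  omega

/-- A label near a column has pads different from those of the string of the column. -/
theorem Geo.mu0_ne_of_near {a : Pt (e + 2)} {q : Col enc} (h : G.Near a q) :
    G.mu0 a ≠ muOf q := by
  obtain ⟨l, hl⟩ := h
  have hq := G.colx_XZ q
  rw [abs_le] at hl
  have h1 : ¬ ∃ γ, ∀ l, a l = G.pal γ := by
    rintro ⟨γ, hγ⟩
    have := G.pal_ge γ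
    have := hγ l
    omega
  have h2 : ¬ ∃ γ, ∃ j : Fin (e + 2), ∀ l, a l = G.pal γ - (if l = j then 1 else 0) := by
    rintro ⟨γ, j, hγ⟩
    have := G.pal_ge γ
    have := hγ l
    split_ifs at this <;> omega
  unfold Geo.mu0
  rw [dif_neg h1, dif_neg h2]
  intro heq
  have := avoid_spec (G.near_small a)
  rw [heq] at this
  exact this ⟨q, ⟨l, by rw [abs_le]; exact hl⟩, rfl⟩

/-- The pads of a label which is not of palette type. -/
theorem Geo.mu0_eq_avoid {a : Pt (e + 2)} (l : Fin (e + 2)) (hl : a l < G.XZ + 2) :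
    G.mu0 a = avoid {μ | ∃ q, G.Near a q ∧ μ = muOf q} := by
  have h1 : ¬ ∃ γ, ∀ l, a l = G.pal γ := by
    rintro ⟨γ, hγ⟩
    have := G.pal_ge γ
    have := hγ l
    omega
  have h2 : ¬ ∃ γ, ∃ j : Fin (e + 2), ∀ l, a l = G.pal γ - (if l = j then 1 else 0) := by
    rintro ⟨γ, j, hγ⟩
    have := G.pal_ge γ
    have := hγ l
    split_ifs at this <;> omega
  unfold Geo.mu0
  rw [dif_neg h1, dif_neg h2]

end Pool.Agent.Lib.P05dae2
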