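import Mathlib
import Pool.Agent.Lib.P05dae2.Api

/-!
# More basic facts: dependence of cells on the code string, injectivity of the code
-/

namespace Pool.Agent.Lib.P05dae2

variable {e n : ℕ} {enc : Kind e n → Fin n → Bool} (G : Geo enc)

/-- The position in direction `j` at the end of the block, in front of `a`. -/
def lastP (r : ℤ) (a : Pt (e + 2)) (j : Fin (e + 2)) : Pt (e + 2) :=
  fun l => if l = j then r - 1 else a l

theorem Geo.WW_sub (c : Row e n → Bool) (j : Fin (e + 2)) (a : Pt (e + 2)) :
    G.WW c j (a - ev j) ↔ G.WW c j a := by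
  unfold Geo.WW
  constructor
  · rintro ⟨b, h, hc⟩
    refine ⟨b, fun l hl => ?_, hc⟩
    have := h l hl
    simpa [ev, hl] using this
  · rintro ⟨b, h, hc⟩
    refine ⟨b, fun l hl => ?_, hc⟩
    have := h l hl
    simpa [ev, hl] using this

/-- The in-edge at a cell inside the block. -/
theorem Geo.cellC_inn_in {r : ℤ} {A : Pt (e + 2)} {c : Row e n → Bool} {m : Bool}
    {β : Pt (e + 2) → Bool} {a : Pt (e + 2)} {j : Fin (e + 2)} (h : a j ≠ 0) :
    (G.cellC r A c m β a).inn j =
      out j (G.Ty r (a - ev j)).L (G.ownC r A c m β (a - ev j)) := by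
  simp [Geo.cellC, h]

/-- The in-edge at a cell of the boundary of the block. -/
theorem Geo.cellC_inn_bd {r : ℤ} {A : Pt (e + 2)} {c : Row e n → Bool} {m : Bool}
    {β : Pt (e + 2) → Bool} {a : Pt (e + 2)} {j : Fin (e + 2)} (h : a j = 0) :
    (G.cellC r A c m β a).inn j = G.bEdge r A c a j := by
  simp [Geo.cellC, h]

/-- The cell depends only on the values of the wires at it. -/
theorem Geo.cell_congr {r : ℤ} {A : Pt (e + 2)} {c c' : Row e n → Bool} {a : Pt (e + 2)}
    (h1 : ∀ j, G.WW c j a ↔ G.WW c' j a) (h2 : G.HH c a ↔ G.HH c' a)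
    (h3 : G.VV c a ↔ G.VV c' a)
    (h4 : ∀ j, a j = 0 → (G.WI c j a ↔ G.WI c' j a))
    (h5 : a 0 ≠ 0 → (G.HH c (a - ev 0) ↔ G.HH c' (a - ev 0)))
    (h6 : a 1 ≠ 0 → (G.VV c (a - ev 1) ↔ G.VV c' (a - ev 1))) :
    G.cell r A c a = G.cell r A c' a := by
  classical
  have hown : G.ownC r A c false (fun _ => false) a =
      G.ownC r A c' false (fun _ => false) a := by
    refine Own.ext rfl rfl rfl rfl ?_ rfl rfl ?_ ?_
    · funext j
      exact decide_eq_decide.mpr (h1 j)
    · exact decide_eq_decide.mpr h2
    · exact decide_eq_decide.mpr h3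
  refine St.ext rfl ?_ hown
  funext j
  by_cases hj : a j = 0
  · change (G.cellC r A c false (fun _ => false) a).inn j =
      (G.cellC r A c' false (fun _ => false) a).inn j
    rw [G.cellC_inn_bd hj, G.cellC_inn_bd hj]
    refine Edge.ext rfl rfl rfl rfl ?_ rfl rfl rfl
    exact decide_eq_decide.mpr (h4 j hj)
  · change (G.cellC r A c false (fun _ => false) a).inn j =
      (G.cellC r A c' false (fun _ => false) a).inn j
    rw [G.cellC_inn_in hj, G.cellC_inn_in hj]
    refine Edge.ext rfl rfl rfl rfl ?_ rfl ?_ ?_
    · refine decide_eq_decide.mpr ?_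
      rw [G.WW_sub, G.WW_sub]
      exact h1 j
    · by_cases hj0 : j = 0
      · subst hj0
        have : decide (G.HH c (a - ev 0)) = decide (G.HH c' (a - ev 0)) :=
          decide_eq_decide.mpr (h5 hj)
        simp only [out, Geo.ownC, this]
      · simp [out, hj0]
    · by_cases hj1 : j = 1
      · subst hj1
        have : decide (G.VV c (a - ev 1)) = decide (G.VV c' (a - ev 1)) :=
          decide_eq_decide.mpr (h6 hj)
        simp only [out, Geo.ownC, this]
      · simp [out, hj1]

theorem tbit_inj (henc : Function.Injective enc) {T T' : Typ e n}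
    (h : ∀ t, tbit enc T t = tbit enc T' t) : T = T' := by
  cases T with
  | mk F L Dl ka mu =>
    cases T' with
    | mk F' L' Dl' ka' mu' =>
      have h1 : F = F' := funext fun j => h (.fF j)
      have h2 : L = L' := funext fun j => h (.lL j)
      have h3 : Dl = Dl' := funext fun j => h (.dl j)
      have h4 : ka = ka' := henc (funext fun i => h (.ka i))
      have h5 : mu = mu' := funext fun q => h (.mu q)
      rw [h1, h2, h3, h4, h5]

theorem ebit_inj (henc : Function.Injective enc) {j : Fin (e + 2)} {E E' : Edge e n}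
    (h : ∀ b, ebit enc j E b = ebit enc j E' b) : E = E' := by
  cases E with
  | mk f T s g w m hh v =>
    cases E' with
    | mk f' T' s' g' w' m' hh' v' =>
      have hT : T = T' := tbit_inj henc fun t => h (.tb t)
      subst hT
      have hf : f = f' := by
        funext l
        have h1 := h (.fp l)
        have h2 := h (.fz l)
        simp only [ebit, decide_eq_decide] at h1 h2
        cases hfl : f l <;> cases hfl' : f' l <;> simp_all
      have h1 := h .s
      have h2 := h .g
      have h3 := h .w
      have h4 := h .m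
      have h5 := h .h
      have h6 := h .v
      simp only [ebit, Bool.xor_left_inj] at h1 h2 h3 h4 h5 h6
      rw [hf, h1, h2, h3, h4, h5, h6]

theorem code_inj (henc : Function.Injective enc) {θ θ' : St e n}
    (h : code enc θ = code enc θ') : θ = θ' := by
  have h1 : θ.typ = θ'.typ := tbit_inj henc fun t => congrFun h (.ty t)
  have h2 : θ.inn = θ'.inn := by
    funext j
    exact ebit_inj henc fun b => congrFun h (.iB j b)
  have h3 : ∀ j, out j θ.typ.L θ.own = out j θ'.typ.L θ'.own := fun j =>
    ebit_inj henc fun b => congrFun h (.oA j b)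
  have hT : θ.own.T = θ'.own.T := congrArg Edge.T (h3 0)
  have hf : θ.own.f = θ'.own.f := congrArg Edge.f (h3 0)
  have hs : θ.own.s = θ'.own.s := funext fun j => congrArg Edge.s (h3 j)
  have hg : θ.own.g = θ'.own.g := funext fun j => congrArg Edge.g (h3 j)
  have hw : θ.own.w = θ'.own.w := funext fun j => congrArg Edge.w (h3 j)
  have hm : θ.own.m = θ'.own.m := congrFun h .om
  have hb : θ.own.be = θ'.own.be := congrFun h .be
  have hh := congrFun h .oh
  have hv := congrFun h .ov
  simp only [code, hT, Bool.xor_left_inj] at hh hv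
  cases θ with
  | mk typ inn own =>
    cases θ' with
    | mk typ' inn' own' =>
      simp only at *
      subst h1 h2
      congr 1
      cases own
      cases own'
      simp only at *
      subst hT hf hs hg hw hm hb hh hv
      rfl

end Pool.Agent.Lib.P05dae2
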