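import Pool.Agent.Lib.P05dae2.CellRules

/-!
# Edges at the boundary of blocks, expansions (MP_05dae2_an)
-/

namespace Pool.Agent.Lib.P05dae2

variable {e n : ℕ} {enc : Kind e n → Fin n → Bool} (G : Geo enc)

theorem BEdge.tv_ne (j : Fin (e + 2)) : tv j ≠ j := by
  unfold tv
  split_ifs with h
  · rw [h]; exact ne10
  · exact fun h' => h h'.symm

theorem BEdge.Ty_lastP_L (r : ℤ) (a : Pt (e + 2)) (j : Fin (e + 2)) :
    (G.Ty r (lastP r a j)).L j = true := by
  simp [Geo.Ty, lastP]

theorem Geo.bEdge_eq {r : ℤ} (hr : (G.r0 : ℤ) ≤ r) {A : Pt (e + 2)} (hA : InB (r + 1) A)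
    {c c' : Row e n → Bool} {a : Pt (e + 2)} (ha : InB r a) {j : Fin (e + 2)} (haj : a j = 0)
    (hc : ∀ b, c (.iB j b) = c' (.oA j b)) (m' : Bool) (β' : Pt (e + 2) → Bool) :
    G.bEdge r A c a j =
      out j (G.Ty r (lastP r a j)).L (G.ownC r (predL r A j) c' m' β' (lastP r a j)) := by
  have h0 := G.r0_pos
  have hL := BEdge.Ty_lastP_L G r a j
  have hAj := hA j
  have hlj : lastP r a j j = r - 1 := by simp [lastP]
  have hll : ∀ l, l ≠ j → lastP r a j l = a l := fun l hl => by simp [lastP, hl]
  have hpj : predL r A j j = if A j = 0 then r else A j - 1 := by simp [predL]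
  have hpl : ∀ l, l ≠ j → predL r A j l = A l := fun l hl => by simp [predL, hl]
  refine Edge.ext ?_ ?_ ?_ ?_ ?_ ?_ ?_ ?_
  · funext l
    simp only [Geo.bEdge, out, Geo.ownC]
    by_cases hl : l = j
    · subst hl
      rw [if_pos rfl, hlj, hpj]
      unfold nf
      split_ifs <;> first | rfl | (exfalso; omega)
    · rw [if_neg hl, hll l hl, hpl l hl]
  · rfl
  · simp only [Geo.bEdge, out, Geo.ownC]
    rw [hlj, hll _ (BEdge.tv_ne j), hpj]
    have ht := ha (tv j)
    rw [if_neg (by omega)]
    rw [decide_eq_decide]
    split_ifs <;> omega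
  · simp only [Geo.bEdge, out, Geo.ownC]
    rw [hlj, hpj, decide_eq_decide]
    constructor
    · rintro ⟨h1, h2⟩
      refine ⟨fun l hl => ?_, ?_⟩
      · rw [hll l hl]; exact h1 l hl
      · rw [if_neg h2]; omega
    · rintro ⟨h1, h2⟩
      refine ⟨fun l hl => ?_, ?_⟩
      · rw [← hll l hl]; exact h1 l hl
      · intro h3
        rw [if_pos h3] at h2
        omega
  · simp only [Geo.bEdge, out, Geo.ownC]
    rw [decide_eq_decide]
    unfold Geo.WI Geo.WW
    constructor
    · rintro ⟨b, h1, h2⟩
      exact ⟨b, fun l hl => by rw [hll l hl]; exact h1 l hl, by rw [← hc]; exact h2⟩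
    · rintro ⟨b, h1, h2⟩
      exact ⟨b, fun l hl => by rw [← hll l hl]; exact h1 l hl, by rw [hc]; exact h2⟩
  · simp only [Geo.bEdge, out, hL]
    rfl
  · simp only [Geo.bEdge, out, hL]
    simp
  · simp only [Geo.bEdge, out, hL]
    simp

/-- Local validity on a region. -/
def LocNN {d : ℕ} {S : Type} (Ok : S → Prop) (Adj : Fin d → S → S → Prop) (R : Set (Pt d))
    (x : Cfg d S) : Prop :=
  (∀ p ∈ R, Ok (x p)) ∧ ∀ p ∈ R, ∀ j, p - ev j ∈ R → Adj j (x (p - ev j)) (x p)

/-- Expansion of a level `k + 1` configuration with modes `m` and free bits `β`. -/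
noncomputable def Geo.expC (k : ℕ) (y : Cfg (e + 2) (G.SL (k + 1))) (m : Pt (e + 2) → Bool)
    (β : Pt (e + 2) → Pt (e + 2) → Bool) : Cfg (e + 2) (G.SL k) := fun p =>
  let u : Pt (e + 2) := fun j => p j / G.rr k
  let a : Pt (e + 2) := fun j => p j % G.rr k
  (G.mkLab k p, G.cellC (G.rr k) (G.lab (y u)) (code enc (y u).2) (m u) (β u) a)

theorem BEdge.rr_pos (k : ℕ) : 0 < G.rr k := by
  have h0 := G.r0_pos
  unfold Geo.rr
  omega

theorem BEdge.r0_le (k : ℕ) : (G.r0 : ℤ) ≤ G.rr k := by
  unfold Geo.rr
  omega

theorem BEdge.rr_succ (k : ℕ) : G.rr (k + 1) = G.rr k + 1 := by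
  unfold Geo.rr
  omega

theorem BEdge.lab_mkLab (k : ℕ) (p : Pt (e + 2)) (x : St e n) :
    G.lab (k := k) (G.mkLab k p, x) = fun j => p j % G.rr k := by
  funext j
  simp only [Geo.lab, Geo.mkLab]
  have := Int.emod_nonneg (p j) (BEdge.rr_pos G k).ne'
  omega

theorem BEdge.lab_inB (k : ℕ) (s : G.SL k) : InB (G.rr k) (G.lab s) := by
  intro j
  have := (s.1 j).2
  simp only [Geo.lab, Geo.rr]
  omega

theorem Geo.expC_loc (k : ℕ) (y : Cfg (e + 2) (G.SL (k + 1))) (m : Pt (e + 2) → Bool)
    (β : Pt (e + 2) → Pt (e + 2) → Bool) (R : Set (Pt (e + 2)))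
    (hy : LocNN (G.OkL (k + 1)) (G.AdjL (k + 1)) R y)
    (hm : ∀ u ∈ R, m u = true → (y u).2.own.m = true ∧ ∃ j, G.lab (y u) j ≠ 0)
    (hβ : ∀ u ∈ R, ∀ a, InB (G.rr k) a → β u a = true → m u = true ∧ ∃ j, a j ≠ 0) :
    LocNN (G.OkL k) (G.AdjL k) {p | (fun j => p j / G.rr k) ∈ R} (G.expC k y m β) := by
  have hr := BEdge.rr_pos G k
  have hr0 := BEdge.r0_le G k
  have hmod : ∀ p : Pt (e + 2), InB (G.rr k) (fun j => p j % G.rr k) := fun p j =>
    ⟨Int.emod_nonneg _ hr.ne', Int.emod_lt_of_pos _ hr⟩
  constructor
  · intro p hp
    have hok := hy.1 _ hp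
    have hlab := BEdge.lab_inB G (k + 1) (y fun j => p j / G.rr k)
    rw [BEdge.rr_succ] at hlab
    constructor
    · refine G.rules_cellC hr0 ⟨hlab, hok.1, ?_⟩ (hm _ hp) (hmod p) (hβ _ hp _ (hmod p))
      have := hok.2
      rw [BEdge.rr_succ] at this
      exact this
    · have h1 : G.lab (G.expC k y m β p) = fun j => p j % G.rr k :=
        BEdge.lab_mkLab G k p _
      rw [h1]
      rfl
  · intro p hp j hpj
    have hp' : (fun l => p l / G.rr k) ∈ R := hp
    have hpj' : (fun l => (p - ev j) l / G.rr k) ∈ R := hpj
    have hdiv : ∀ l, l ≠ j → (p - ev j) l = p l := by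
      intro l hl
      simp [ev, hl]
    have hsj : (p - ev j) j = p j - 1 := by simp [ev]
    constructor
    · intro l
      have h1 : G.lab (G.expC k y m β p) = fun j => p j % G.rr k :=
        BEdge.lab_mkLab G k p _
      have h2 : G.lab (G.expC k y m β (p - ev j)) = fun l => (p - ev j) l % G.rr k :=
        BEdge.lab_mkLab G k (p - ev j) _
      rw [h1, h2]
      by_cases hl : l = j
      · subst hl
        simp only [if_true, hsj]
        rw [Int.emod_add_emod, sub_add_cancel]
      · simp only [hl, if_false, hdiv l hl]
    · by_cases hj0 : p j % G.rr k = 0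
      · -- boundary
        have hd : (p j - 1) / G.rr k = p j / G.rr k - 1 := by
          have h1 : p j - 1 = (G.rr k - 1) + G.rr k * (p j / G.rr k - 1) := by
            have := Int.emod_add_mul_ediv (p j) (G.rr k)
            rw [hj0] at this
            rw [mul_sub]
            omega
          rw [h1, Int.add_mul_ediv_left _ _ hr.ne', Int.ediv_eq_zero_of_lt (by omega) (by omega)]
          omega
        have hm' : (p j - 1) % G.rr k = G.rr k - 1 := by
          have h2 := Int.emod_add_mul_ediv (p j - 1) (G.rr k)
          have h3 := Int.emod_add_mul_ediv (p j) (G.rr k)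
          rw [hd, mul_sub] at h2
          rw [hj0] at h3
          omega
        have hu : (fun l => (p - ev j) l / G.rr k) = (fun l => p l / G.rr k) - ev j := by
          funext l
          by_cases hl : l = j
          · subst hl
            rw [hsj, hd]
            simp [ev]
          · rw [hdiv l hl]
            simp [ev, hl]
        have ha : (fun l => (p - ev j) l % G.rr k) = lastP (G.rr k) (fun l => p l % G.rr k) j := by
          funext l
          by_cases hl : l = j
          · subst hl
            rw [hsj, hm']
            simp [lastP]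
          · rw [hdiv l hl]
            simp [lastP, hl]
        set u : Pt (e + 2) := fun l => p l / G.rr k with hudef
        set a : Pt (e + 2) := fun l => p l % G.rr k with hadef
        rw [hu] at hpj'
        have hadj := hy.2 u hp' j hpj'
        have hlab := BEdge.lab_inB G (k + 1) (y u)
        have hlab' := BEdge.lab_inB G (k + 1) (y (u - ev j))
        rw [BEdge.rr_succ] at hlab hlab'
        have hpred : predL (G.rr k) (G.lab (y u)) j = G.lab (y (u - ev j)) := by
          funext l
          have h1 := hadj.1 l
          unfold predL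
          by_cases hl : l = j
          · subst hl
            rw [if_pos rfl] at h1 ⊢
            rw [BEdge.rr_succ] at h1
            have h2 := hlab' l
            have h3 := hlab l
            rcases lt_or_ge (G.lab (y (u - ev l)) l + 1) (G.rr k + 1) with h4 | h4
            · rw [Int.emod_eq_of_lt (by omega) h4] at h1
              rw [if_neg (by omega)]
              omega
            · have h5 : G.lab (y (u - ev l)) l + 1 = G.rr k + 1 := by omega
              rw [h5, Int.emod_self] at h1
              rw [if_pos h1]
              omega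
          · rw [if_neg hl] at h1 ⊢
            exact h1
        have hc : ∀ b, code enc (y u).2 (.iB j b) = code enc (y (u - ev j)).2 (.oA j b) := by
          intro b
          simp only [code]
          rw [hadj.2]
        have hkey := G.bEdge_eq hr0 hlab (c := code enc (y u).2)
          (c' := code enc (y (u - ev j)).2) (hmod p) (j := j) hj0 hc (m (u - ev j))
          (β (u - ev j))
        rw [hpred] at hkey
        have hinn : (G.expC k y m β p).2.inn j =
            G.bEdge (G.rr k) (G.lab (y u)) (code enc (y u).2) a j :=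
          G.cellC_inn_bd hj0
        have hout : (G.expC k y m β (p - ev j)).2 =
            G.cellC (G.rr k) (G.lab (y (u - ev j))) (code enc (y (u - ev j)).2)
              (m (u - ev j)) (β (u - ev j)) (lastP (G.rr k) a j) := by
          simp only [Geo.expC]
          rw [hu, ha]
        rw [hinn, hout, hkey]
        rfl
      · -- inside a block
        have h1 := Int.emod_nonneg (p j) hr.ne'
        have hd : (p j - 1) / G.rr k = p j / G.rr k := by
          have h2 : p j - 1 = (p j % G.rr k - 1) + G.rr k * (p j / G.rr k) := by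
            have := Int.emod_add_mul_ediv (p j) (G.rr k)
            omega
          have h3 := Int.emod_lt_of_pos (p j) hr
          rw [h2, Int.add_mul_ediv_left _ _ hr.ne', Int.ediv_eq_zero_of_lt (by omega) (by omega)]
          omega
        have hm' : (p j - 1) % G.rr k = p j % G.rr k - 1 := by
          have h2 := Int.emod_add_mul_ediv (p j - 1) (G.rr k)
          have h3 := Int.emod_add_mul_ediv (p j) (G.rr k)
          rw [hd] at h2
          omega
        have hu : (fun l => (p - ev j) l / G.rr k) = (fun l => p l / G.rr k) := by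
          funext l
          by_cases hl : l = j
          · subst hl
            rw [hsj, hd]
          · rw [hdiv l hl]
        have ha : (fun l => (p - ev j) l % G.rr k) = (fun l => p l % G.rr k) - ev j := by
          funext l
          by_cases hl : l = j
          · subst hl
            rw [hsj, hm']
            simp [ev]
          · rw [hdiv l hl]
            simp [ev, hl]
        have hinn : (G.expC k y m β p).2.inn j =
            out j (G.Ty (G.rr k) ((fun l => p l % G.rr k) - ev j)).L
              (G.ownC (G.rr k) (G.lab (y fun l => p l / G.rr k))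
                (code enc (y fun l => p l / G.rr k).2) (m fun l => p l / G.rr k)
                (β fun l => p l / G.rr k) ((fun l => p l % G.rr k) - ev j)) :=
          G.cellC_inn_in hj0
        have hout : (G.expC k y m β (p - ev j)).2 =
            G.cellC (G.rr k) (G.lab (y fun l => p l / G.rr k))
              (code enc (y fun l => p l / G.rr k).2) (m fun l => p l / G.rr k)
              (β fun l => p l / G.rr k) ((fun l => p l % G.rr k) - ev j) := by
          simp only [Geo.expC]
          rw [hu, ha]
        rw [hinn, hout]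
        rfl

end Pool.Agent.Lib.P05dae2
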