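import Mathlib
import Pool.Agent.Lib.P05dae2.Api2

/-!
# Module CellRules: the explicit cells satisfy the local rules (MP_05dae2_an)
-/

namespace Pool.Agent.Lib.P05dae2

variable {e n : ℕ} {enc : Kind e n → Fin n → Bool} (G : Geo enc)

namespace CR

theorem sub_ev_self (a : Pt (e + 2)) (j : Fin (e + 2)) : (a - ev j) j = a j - 1 := by
  simp [ev]

theorem sub_ev_ne (a : Pt (e + 2)) {j l : Fin (e + 2)} (h : l ≠ j) : (a - ev j) l = a l := by
  simp [ev, h]

theorem nf_z {a A : ℤ} : nf a A = .z ↔ A = a := by
  unfold nf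
  split_ifs with h1 h2
  · simp [h1]
  · simp [h1]
  · simp [h1]

theorem nf_pre {a A : ℤ} : nf a A = .pre ↔ A = a + 1 := by
  unfold nf
  split_ifs with h1 h2
  · simp [h1]
  · simp [h2]
  · simp [h2]

theorem tv_ne (j : Fin (e + 2)) : tv j ≠ j := by
  unfold tv
  split_ifs with h
  · rw [h]; exact ne10
  · exact Ne.symm h

theorem di_iff (a : Pt (e + 2)) (j : Fin (e + 2)) : a (di j) = a 0 ↔ a j = a (tv j) := by
  unfold di tv
  split_ifs with h
  · rw [h]; exact eq_comm
  · rfl

theorem L_false {r : ℤ} {a : Pt (e + 2)} {j : Fin (e + 2)} (h : a j < r) :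
    (G.Ty r (a - ev j)).L j = false := by
  change decide ((a - ev j) j = r - 1) = false
  rw [decide_eq_false_iff_not, sub_ev_self]
  omega

/-- kinds of the beginnings and ends of rows -/
def IsRow : Kind e n → Prop
  | .port j => j ≠ 1
  | .tap => True
  | .tr => True
  | .rt _ => True
  | .fb => True
  | .fm => True
  | .one => True
  | .zz => True
  | _ => False

/-- kinds of the special points of vertical wires -/
def IsVert : Kind e n → Prop
  | .port _ => True
  | .tr => True
  | .v1 => True
  | .pp _ => True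
  | .bad => True
  | _ => False

theorem io_eq {a : Pt (e + 2)} {j : Fin (e + 2)} {b : EB e n} (hp : InPl a)
    (h0 : a 0 = G.px j b) (h1 : a 1 = G.vs j b) : a = G.io j b := by
  funext l
  by_cases hl0 : l = 0
  · rw [hl0, h0, G.io_zero]
  · by_cases hl1 : l = 1
    · rw [hl1, h1, G.io_one]
      rfl
    · rw [hp l hl0 hl1, G.io_inPl j b l hl0 hl1]

theorem row_start {a : Pt (e + 2)} {ρ : Row e n} (hp : InPl a) (h1 : a 1 = G.hgt ρ)
    (h0 : a 0 = G.xs ρ) : IsRow (G.ka0 a) := by
  cases ρ with
  | ty t => rw [G.ka0_eq (Geo.KAt.rt t hp h0 h1)]; trivial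
  | iB j b => rw [G.ka0_eq (Geo.KAt.tr j b hp h0 h1)]; trivial
  | oA j b =>
    by_cases hj : j = 1
    · subst hj
      simp only [Geo.xs, G.px_one] at h0
      rw [G.ka0_eq (Geo.KAt.tap b hp h0 h1)]; trivial
    · have h2 : a = G.io j b := io_eq G hp h0 (by rw [h1, Geo.vs, if_neg hj])
      rw [G.ka0_eq (Geo.KAt.port j b h2)]
      exact hj
  | om => rw [G.ka0_eq (Geo.KAt.fm hp h0 h1)]; trivial
  | be => rw [G.ka0_eq (Geo.KAt.fb _ (Or.inl rfl) hp h0 h1)]; trivial
  | oh => rw [G.ka0_eq (Geo.KAt.fb _ (Or.inr (Or.inl rfl)) hp h0 h1)]; trivial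
  | ov => rw [G.ka0_eq (Geo.KAt.fb _ (Or.inr (Or.inr rfl)) hp h0 h1)]; trivial
  | one => rw [G.ka0_eq (Geo.KAt.one hp h0 h1)]; trivial

theorem row_end {a : Pt (e + 2)} {ρ : Row e n} (hp : InPl a) (h1 : a 1 = G.hgt ρ)
    (h0 : a 0 = G.XZ) : IsRow (G.ka0 a) := by
  rw [G.ka0_eq (Geo.KAt.zz ρ hp h0 h1)]; trivial

theorem InPl_sub {a : Pt (e + 2)} {j : Fin (e + 2)} (hj : j = 0 ∨ j = 1) :
    InPl (a - ev j) ↔ InPl a := by
  unfold InPl
  refine forall_congr' fun l => ?_
  constructor
  · intro h h0 h1
    have := h h0 h1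
    rwa [sub_ev_ne] at this
    rintro rfl
    rcases hj with hj | hj
    · exact h0 hj
    · exact h1 hj
  · intro h h0 h1
    rw [sub_ev_ne]
    · exact h h0 h1
    · rintro rfl
      rcases hj with hj | hj
      · exact h0 hj
      · exact h1 hj

theorem xs_lt_XZ (ρ : Row e n) : G.xs ρ < G.XZ := by
  have := G.xs_le_XR ρ
  have := G.XR_XZ
  omega

/-- value of `HH` on a row -/
theorem HH_row (c : Row e n → Bool) {a : Pt (e + 2)} {ρ : Row e n} (hp : InPl a)
    (h1 : a 1 = G.hgt ρ) (h0 : G.xs ρ ≤ a 0) (h2 : a 0 < G.XZ) : G.HH c a ↔ c ρ = true := by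
  constructor
  · rintro ⟨-, ρ', e1, -, -, h⟩
    rw [G.hgt_inj (h1.symm.trans e1)]
    exact h
  · intro h
    exact ⟨hp, ρ, h1, h0, h2, h⟩

/-- propagation of `HH` -/
theorem HH_default (c : Row e n → Bool) {a : Pt (e + 2)}
    (h : ¬ IsRow (G.ka0 a)) : G.HH c a ↔ a 0 ≠ 0 ∧ G.HH c (a - ev 0) := by
  constructor
  · rintro ⟨hp, ρ, h1, h2, h3, h4⟩
    have h5 : a 0 ≠ G.xs ρ := fun h5 => h (row_start G hp h1 h5)
    have h6 := G.xs_nonneg ρ
    refine ⟨by omega, (InPl_sub (Or.inl rfl)).2 hp, ρ, ?_, ?_, ?_, h4⟩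
    · rw [sub_ev_ne _ ne10]; exact h1
    · rw [sub_ev_self]; omega
    · rw [sub_ev_self]; omega
  · rintro ⟨h1, hp, ρ, h2, h3, h4, h5⟩
    rw [InPl_sub (Or.inl rfl)] at hp
    rw [sub_ev_ne _ ne10] at h2
    rw [sub_ev_self] at h3 h4
    have h6 : a 0 ≠ G.XZ := fun h6 => h (row_end G hp h2 h6)
    exact ⟨hp, ρ, h2, by omega, by omega, h5⟩

/-- value of the first kind of vertical wires -/
theorem VV_px (c : Row e n → Bool) {a : Pt (e + 2)} {j : Fin (e + 2)} {b : EB e n}
    (hp : InPl a) (h0 : a 0 = G.px j b) (h1 : G.vs j b ≤ a 1) (h2 : a 1 < G.hgt (.iB j b)) :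
    G.VV c a ↔ c (.iB j b) = true := by
  constructor
  · rintro ⟨-, h | ⟨q, h, -⟩⟩
    · obtain ⟨j', b', e0, e1, e2, e3⟩ := h
      by_cases hj : j = 1
      · subst hj
        rw [h0, G.px_one] at e0
        obtain ⟨rfl, rfl⟩ := G.px_eq_one e0.symm
        exact e3
      · by_cases hj' : j' = 1
        · subst hj'
          rw [h0, G.px_one] at e0
          exact absurd (G.px_eq_one e0).1 hj
        · simp only [Geo.vs, if_neg hj, if_neg hj'] at h1 e1
          have f1 := G.hgt_pair j b hj
          have f2 := G.hgt_pair j' b' hj'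
          have f3 := G.hgt_even (.oA j b)
          have f4 := G.hgt_even (.oA j' b')
          have f5 : G.hgt (.oA j b) = G.hgt (.oA j' b') := by omega
          have := G.hgt_inj f5
          simp only [Row.oA.injEq] at this
          rw [this.1, this.2]
          exact e3
    · exfalso
      have := G.px_lt_XR j b
      have := G.colx_XR q
      omega
  · intro h
    exact ⟨hp, Or.inl ⟨j, b, h0, h1, h2, h⟩⟩

theorem colx_inj {q q' : Col enc} (h : G.colx q = G.colx q') : q = q' := by
  by_contra hne
  have := G.colx_sep q q' hne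
  rw [h] at this
  simp at this

/-- value of the vertical wire of a column -/
theorem VV_col (c : Row e n → Bool) {a : Pt (e + 2)} {q : Col enc}
    (hp : InPl a) (h0 : a 0 = G.colx q) (h1 : 2 ≤ a 1) (h2 : a 1 < G.Yt) :
    G.VV c a ↔ ∀ ρ, G.hgt ρ ≤ a 1 → c ρ = q.1.1 ρ := by
  constructor
  · rintro ⟨-, h | ⟨q', e0, -, -, e3⟩⟩
    · exfalso
      obtain ⟨j', b', e0, -⟩ := h
      have := G.px_lt_XR j' b'
      have := G.colx_XR q
      omega
    · have : q = q' := colx_inj G (h0.symm.trans e0)
      rw [this]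
      exact e3
  · intro h
    exact ⟨hp, Or.inr ⟨q, h0, h1, h2, h⟩⟩

/-- propagation of `VV` -/
theorem VV_default (c : Row e n → Bool) {a : Pt (e + 2)}
    (h : ¬ IsVert (G.ka0 a)) : G.VV c a ↔ a 1 ≠ 0 ∧ G.VV c (a - ev 1) := by
  have hk : ∀ k, G.KAt a k → ¬ IsVert k := by
    intro k hk
    rwa [← G.ka0_eq hk]
  constructor
  · rintro ⟨hp, h1 | h1⟩
    · obtain ⟨j, b, e0, e1, e2, e3⟩ := h1
      have f1 : a 1 ≠ G.vs j b := by
        intro f1
        exact hk _ (Geo.KAt.port j b (io_eq G hp e0 f1)) trivial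
      have f2 : 0 ≤ G.vs j b := by
        unfold Geo.vs
        split_ifs
        · exact le_rfl
        · have := G.hgt_ge (.oA j b); omega
      refine ⟨by omega, (InPl_sub (Or.inr rfl)).2 hp, Or.inl ⟨j, b, ?_, ?_, ?_, e3⟩⟩
      · rw [sub_ev_ne _ ne01]; exact e0
      · rw [sub_ev_self]; omega
      · rw [sub_ev_self]; omega
    · obtain ⟨q, e0, e1, e2, e3⟩ := h1
      have f1 : a 1 ≠ 2 := fun f1 => hk _ (Geo.KAt.v1 q hp e0 f1) trivial
      refine ⟨by omega, (InPl_sub (Or.inr rfl)).2 hp, Or.inr ⟨q, ?_, ?_, ?_, ?_⟩⟩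
      · rw [sub_ev_ne _ ne01]; exact e0
      · rw [sub_ev_self]; omega
      · rw [sub_ev_self]; omega
      · intro ρ hρ
        rw [sub_ev_self] at hρ
        exact e3 ρ (by omega)
  · rintro ⟨h0, hp, h1 | h1⟩
    · rw [InPl_sub (Or.inr rfl)] at hp
      obtain ⟨j, b, e0, e1, e2, e3⟩ := h1
      rw [sub_ev_ne _ ne01] at e0
      rw [sub_ev_self] at e1 e2
      have f1 : a 1 ≠ G.hgt (.iB j b) := fun f1 => hk _ (Geo.KAt.tr j b hp e0 f1) trivial
      exact ⟨hp, Or.inl ⟨j, b, e0, by omega, by omega, e3⟩⟩
    · rw [InPl_sub (Or.inr rfl)] at hp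
      obtain ⟨q, e0, e1, e2, e3⟩ := h1
      rw [sub_ev_ne _ ne01] at e0
      rw [sub_ev_self] at e1 e2 e3
      have f1 : a 1 ≠ G.Yt := fun f1 => hk _ (Geo.KAt.bad q hp e0 f1) trivial
      refine ⟨hp, Or.inr ⟨q, e0, by omega, by omega, fun ρ hρ => ?_⟩⟩
      have f2 : a 1 ≠ G.hgt ρ := fun f2 => hk _ (Geo.KAt.pp q ρ hp e0 f2) trivial
      exact e3 ρ (by omega)

theorem io_inj_j {j : Fin (e + 2)} {b b' : EB e n}
    (h : ∀ l, l ≠ j → G.io j b l = G.io j b' l) : b = b' := by
  by_cases hj : j = 1
  · subst hj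
    have := h 0 ne01
    rw [G.io_zero, G.io_zero, G.px_one, G.px_one] at this
    exact G.xp_inj this
  · have := h 1 (Ne.symm hj)
    rw [G.io_one_ne hj, G.io_one_ne hj] at this
    have := G.hgt_inj this
    simp only [Row.oA.injEq, true_and] at this
    exact this

theorem WW_io (c : Row e n → Bool) {a : Pt (e + 2)} {j : Fin (e + 2)} {b : EB e n}
    (h : ∀ l, l ≠ j → a l = G.io j b l) : G.WW c j a ↔ c (.oA j b) = true := by
  constructor
  · rintro ⟨b', h1, h2⟩
    have : b = b' := io_inj_j G fun l hl => by rw [← h l hl, h1 l hl]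
    rw [this]
    exact h2
  · intro h1
    exact ⟨b, h, h1⟩

theorem WI_io (c : Row e n → Bool) {a : Pt (e + 2)} {j : Fin (e + 2)} {b : EB e n}
    (h : ∀ l, l ≠ j → a l = G.io j b l) : G.WI c j a ↔ c (.iB j b) = true := by
  constructor
  · rintro ⟨b', h1, h2⟩
    have : b = b' := io_inj_j G fun l hl => by rw [← h l hl, h1 l hl]
    rw [this]
    exact h2
  · intro h1
    exact ⟨b, h, h1⟩

end CR

open CR in
theorem Geo.rules_cellC {r : ℤ} (hr : (G.r0 : ℤ) ≤ r) {A : Pt (e + 2)} {θ : St e n}
    (hok : G.OkZ (r + 1) (A, θ)) {m : Bool} {β : Pt (e + 2) → Bool}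
    (hm : m = true → θ.own.m = true ∧ ∃ j, A j ≠ 0) {a : Pt (e + 2)} (ha : InB r a)
    (hβ : β a = true → m = true ∧ ∃ j, a j ≠ 0) :
    Rules enc (G.cellC r A (code enc θ) m β a) := by
  classical
  obtain ⟨hA, hθ, hty⟩ := hok
  simp only at hA hθ hty
  set c := code enc θ with hc
  have hr0 := G.r0_pos
  -- the `h` wire entering
  have hinh : (!(G.Ty r a).F 0 && ((G.cellC r A c m β a).inn 0).h) =
      decide (a 0 ≠ 0 ∧ G.HH c (a - ev 0)) := by
    by_cases h0 : a 0 = 0
    · simp [Geo.Ty, h0]
    · rw [G.cellC_inn_in h0]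
      have hF : (G.Ty r a).F 0 = false := decide_eq_false h0
      simp [out, Geo.ownC, h0, L_false G (ha 0).2, hF]
  have hinv : (!(G.Ty r a).F 1 && ((G.cellC r A c m β a).inn 1).v) =
      decide (a 1 ≠ 0 ∧ G.VV c (a - ev 1)) := by
    by_cases h0 : a 1 = 0
    · simp [Geo.Ty, h0]
    · rw [G.cellC_inn_in h0]
      have hF : (G.Ty r a).F 1 = false := decide_eq_false h0
      simp [out, Geo.ownC, h0, L_false G (ha 1).2, hF]
  have hinv' : a 1 ≠ 0 → ((G.cellC r A c m β a).inn 1).v = decide (G.VV c (a - ev 1)) := by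
    intro h0
    rw [G.cellC_inn_in h0]
    simp [out, Geo.ownC, L_false G (ha 1).2]
  have hdh : ¬ IsRow (G.ka0 a) → (G.cellC r A c m β a).own.h =
      (!(G.Ty r a).F 0 && ((G.cellC r A c m β a).inn 0).h) := by
    intro h
    rw [hinh]
    exact decide_eq_decide.2 (HH_default G c h)
  have hdv : ¬ IsVert (G.ka0 a) → (G.cellC r A c m β a).own.v =
      (!(G.Ty r a).F 1 && ((G.cellC r A c m β a).inn 1).v) := by
    intro h
    rw [hinv]
    exact decide_eq_decide.2 (VV_default G c h)
  refine ⟨?_, ?_, ?_, ?_, ?_, ?_, ?_, ?_, ?_, ?_, ?_, ?_, ?_, ?_⟩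
  · -- r1
    intro j l hlj
    by_cases h0 : a j = 0
    · rw [G.cellC_inn_bd h0]
      simp [Geo.bEdge, Geo.cellC, Geo.ownC, hlj]
    · rw [G.cellC_inn_in h0]
      simp only [out, Geo.ownC, Geo.cellC]
      rw [sub_ev_ne _ hlj]
  · -- r2
    intro j
    have e1 : (G.cellC r A c m β a).own.f j = nf (a j) (A j) := rfl
    rw [e1, nf_z]
    by_cases h0 : a j = 0
    · rw [G.cellC_inn_bd h0]
      simp only [Geo.bEdge, if_true]
      rw [h0]
      split_ifs with h1 h2
      · simp [h1]
      · simp [h1]
      · simp [h1]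
    · rw [G.cellC_inn_in h0]
      simp only [out, Geo.ownC]
      rw [nf_pre, sub_ev_self]
      constructor <;> intro h <;> omega
  · -- r3
    intro j hj
    have h0 : a j ≠ 0 := by simpa [Geo.cellC, Geo.Ty] using hj
    rw [G.cellC_inn_in h0]
    refine ⟨rfl, ?_⟩
    simp [out, Geo.ownC, L_false G (ha j).2, Geo.cellC]
  · -- r4
    intro j hj
    have h0 : a j = 0 := by simpa [Geo.cellC, Geo.Ty] using hj
    have e1 : (G.cellC r A c m β a).own.f j = nf (a j) (A j) := rfl
    rw [e1, nf_z, h0]
    simp [Geo.cellC, Geo.ownC, Geo.Ty]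
  · -- r5
    intro j hj
    have h0 : a j = r - 1 := by simpa [Geo.cellC, Geo.Ty] using hj
    have e1 : (G.cellC r A c m β a).own.f j = nf (a j) (A j) := rfl
    rw [e1, nf_pre, h0]
    simp [Geo.cellC, Geo.ownC, Geo.Ty]
  · -- r6
    intro j hj
    have h0 : a j = a 0 := by simpa [Geo.cellC, Geo.Ty] using hj
    have e1 : ∀ j, (G.cellC r A c m β a).own.f j = nf (a j) (A j) := fun _ => rfl
    have e2 : (G.cellC r A c m β a).own.T.Dl j = decide (A j = A 0) := rfl
    rw [e1, e1, e2, h0]
    constructor
    · intro h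
      rw [decide_eq_true_eq] at h
      rw [h]
    · intro h
      rw [decide_eq_false_iff_not] at h
      rintro ⟨h1, h2⟩
      unfold nf at h1 h2
      split_ifs at h1 h2 <;> first | omega | simp at h1 h2
  · -- r7
    intro h
    have hcl : G.Clamp A a := by
      intro l
      rcases h l with h1 | ⟨h1, h2⟩
      · have e1 : (G.cellC r A c m β a).own.f l = nf (a l) (A l) := rfl
        rw [e1, nf_z] at h1
        exact Or.inl h1.symm
      · have e1 : (G.cellC r A c m β a).own.f l = nf (a l) (A l) := rfl
        rw [e1, nf_pre] at h2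
        have h0 : a l = r - 1 := by simpa [Geo.cellC, Geo.Ty] using h1
        right
        omega
    exact ⟨(G.ka0_clamp hcl).symm, (G.mu0_clamp hcl).symm⟩
  · -- r8
    intro j
    have htv := tv_ne j
    have e1 : (G.cellC r A c m β a).own.f j = nf (a j) (A j) := rfl
    have e2 : (G.cellC r A c m β a).typ.Dl (di j) = decide (a (di j) = a 0) := rfl
    have e3 : (G.cellC r A c m β a).own.s j =
      if a j < a (tv j) then decide (A j = a (tv j) + 1) else decide (A j = a (tv j)) := rfl
    have hpos := (ha (tv j)).1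
    have hpos' := (ha j).1
    rw [e1, e2, e3]
    constructor
    · intro h
      rw [decide_eq_false_iff_not, di_iff] at h
      by_cases h0 : a j = 0
      · rw [G.cellC_inn_bd h0]
        simp only [Geo.bEdge]
        rw [if_pos (by omega)]
      · rw [G.cellC_inn_in h0]
        simp only [out, Geo.ownC]
        rw [sub_ev_self, sub_ev_ne _ htv]
        by_cases h1 : a j < a (tv j)
        · rw [if_pos h1, if_pos (by omega)]
        · rw [if_neg h1, if_neg (by omega)]
    · intro h
      rw [decide_eq_true_eq, di_iff] at h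
      constructor
      · rw [nf_pre]
        by_cases h0 : a j = 0
        · rw [G.cellC_inn_bd h0]
          simp only [Geo.bEdge]
          rw [decide_eq_true_eq, h]
        · rw [G.cellC_inn_in h0]
          simp only [out, Geo.ownC]
          rw [sub_ev_self, sub_ev_ne _ htv, if_pos (by omega), decide_eq_true_eq, h]
      · rw [nf_z, if_neg (by omega), decide_eq_true_eq, h]
  · -- r9
    intro j hj
    have e1 : (G.cellC r A c m β a).own.f j = nf (a j) (A j) := rfl
    have e2 : (G.cellC r A c m β a).typ.F j = decide (a j = 0) := rfl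
    have hax : ∀ l, l ≠ j → a l = 0 := by
      intro l hl
      simpa [Geo.cellC, Geo.Ty] using hj l hl
    have e3 : (G.cellC r A c m β a).own.g j = decide (A j ≤ a j) := by
      change decide ((∀ l, l ≠ j → a l = 0) ∧ A j ≤ a j) = _
      rw [decide_eq_decide]
      exact ⟨fun h => h.2, fun h => ⟨hax, h⟩⟩
    have hA0 := (hA j).1
    have e4 : a j = 0 → ((G.cellC r A c m β a).inn j).g = decide (A j ≠ 0) := by
      intro h0
      rw [G.cellC_inn_bd h0]
      change decide ((∀ l, l ≠ j → a l = 0) ∧ A j ≠ 0) = _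
      rw [decide_eq_decide]
      exact ⟨fun h => h.2, fun h => ⟨hax, h⟩⟩
    have e5 : a j ≠ 0 → ((G.cellC r A c m β a).inn j).g = decide (A j ≤ a j - 1) := by
      intro h0
      rw [G.cellC_inn_in h0]
      change decide ((∀ l, l ≠ j → (a - ev j) l = 0) ∧ A j ≤ (a - ev j) j) = _
      rw [decide_eq_decide, sub_ev_self]
      refine ⟨fun h => h.2, fun h => ⟨fun l hl => ?_, h⟩⟩
      rw [sub_ev_ne _ hl]
      exact hax l hl
    rw [e1, e2, e3]
    refine ⟨fun h => ?_, fun h => ?_, fun h => ?_⟩
    · rw [nf_z] at h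
      refine ⟨fun h0 => ?_, ?_⟩
      · rw [decide_eq_false_iff_not] at h0
        rw [e5 h0, decide_eq_false_iff_not]
        omega
      · rw [decide_eq_true_eq]; omega
    · have h' : A j ≠ a j := fun h' => h (nf_z.2 h')
      by_cases h0 : a j = 0
      · rw [e4 h0, decide_eq_true h0]
        simp
        omega
      · rw [e5 h0, decide_eq_false h0]
        simp
        omega
    · rw [decide_eq_true_eq] at h
      rw [e4 h, nf_z, h]
      simp
  · -- r9'
    rintro j ⟨l, hl, h⟩
    have h0 : a l ≠ 0 := by simpa [Geo.cellC, Geo.Ty] using h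
    change decide ((∀ l, l ≠ j → a l = 0) ∧ A j ≤ a j) = false
    rw [decide_eq_false_iff_not]
    rintro ⟨h1, -⟩
    exact h0 (h1 l hl)
  · -- r10
    intro j
    constructor
    · intro h
      have h0 : a j ≠ 0 := by simpa [Geo.cellC, Geo.Ty] using h
      rw [G.cellC_inn_in h0]
      change decide (G.WW c j a) = decide (G.WW c j (a - ev j))
      rw [decide_eq_decide, G.WW_sub]
    · intro h hk
      have h0 : a j = 0 := by simpa [Geo.cellC, Geo.Ty] using h
      change decide (G.WW c j a) = false
      rw [decide_eq_false_iff_not]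
      rintro ⟨b, h1, -⟩
      apply hk
      refine G.ka0_eq (Geo.KAt.port j b ?_)
      funext l
      by_cases hl : l = j
      · rw [hl, h0, G.io_self]
      · exact h1 l hl
  · -- r11
    have eh : (G.cellC r A c m β a).own.h = decide (G.HH c a) := rfl
    have ek : (G.cellC r A c m β a).typ.ka = G.ka0 a := rfl
    have eF : (G.cellC r A c m β a).typ.F = (G.Ty r a).F := rfl
    have ew1 : a 1 ≠ 0 → ((G.cellC r A c m β a).inn 1).w = decide (G.WW c 1 a) := by
      intro h0
      rw [G.cellC_inn_in h0]
      change decide (G.WW c 1 (a - ev 1)) = decide (G.WW c 1 a)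
      rw [decide_eq_decide, G.WW_sub]
    have hge := G.hgt_ge
    rw [ek]
    rcases G.ka0_cases a with hk | ⟨-, hk⟩
    · generalize hk' : G.ka0 a = k at hk
      have hnr : ¬ IsRow k → (G.cellC r A c m β a).own.h =
        (!(G.cellC r A c m β a).typ.F 0 && ((G.cellC r A c m β a).inn 0).h) := by
        intro h
        rw [eF]
        exact hdh (by rw [hk']; exact h)
      cases hk with
      | port j b h =>
        simp only
        split_ifs with hj
        · exact hnr (fun h => h hj)
        · rw [eh]
          change decide (G.HH c a) = decide (G.WW c j a)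
          rw [decide_eq_decide, WW_io G c (fun l _ => by rw [h])]
          refine HH_row G c (h ▸ G.io_inPl j b) (by rw [h, G.io_one_ne hj]) ?_ ?_
          · rw [h, G.io_zero]; exact le_rfl
          · rw [h, G.io_zero]
            have := G.px_lt_XR j b
            have := G.XR_XZ
            omega
      | tr j b hp h0 h1 =>
        simp only
        have h2 := hge (.iB j b)
        rw [eh, hinv' (by omega), decide_eq_decide]
        have h3 := G.px_lt_XR j b
        have h4 := G.XR_XZ
        rw [HH_row G c hp h1 (by rw [h0]; exact le_rfl) (by omega)]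
        rw [VV_px G c ((InPl_sub (Or.inr rfl)).2 hp) (by rw [sub_ev_ne _ ne01]; exact h0)
          (by
            rw [sub_ev_self]
            unfold Geo.vs
            split_ifs with hj
            · omega
            · have := G.hgt_pair j b hj
              omega) (by rw [sub_ev_self]; omega)]
      | tap b hp h0 h1 =>
        simp only
        have h2 := hge (.oA 1 b)
        rw [eh, ew1 (by omega), decide_eq_decide]
        have h3 := G.xp_XR b
        have h4 := G.XR_XZ
        rw [HH_row G c hp h1 (by rw [h0]; simp [Geo.xs, G.px_one]) (by omega)]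
        rw [WW_io G c (b := b)]
        intro l hl
        by_cases hl0 : l = 0
        · rw [hl0, h0, G.io_zero, G.px_one]
        · rw [hp l hl0 hl, G.io_inPl 1 b l hl0 hl]
      | rt t hp h0 h1 =>
        simp only
        have h4 := G.XR_XZ
        have e1 : (G.cellC r A c m β a).own.T = θ.typ := by rw [hty]; rfl
        have e2 : tbit enc θ.typ t = c (.ty t) := rfl
        rw [eh, e1, e2]
        have h3 := HH_row G c hp h1 (by rw [h0]; exact le_rfl) (by omega)
        rw [Bool.eq_iff_iff, decide_eq_true_eq, h3]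
      | fm hp h0 h1 =>
        simp only
        intro hmm
        have h4 := G.XR_XZ
        obtain ⟨h5, j, h6⟩ := hm hmm
        refine ⟨?_, j, ?_⟩
        · rw [eh, decide_eq_true_eq,
            HH_row G c hp h1 (by rw [h0]; exact le_rfl) (by omega)]
          exact h5
        · change decide (A j = 0) = false
          rw [decide_eq_false_iff_not]
          exact h6
      | fb ρ hρ hp h0 h1 => trivial
      | one hp h0 h1 =>
        simp only
        have h4 := G.XR_XZ
        rw [eh, decide_eq_true_eq, HH_row G c hp h1 (by rw [h0]; exact le_rfl) (by omega)]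
        rfl
      | v1 q hp h0 h1 => exact hnr (fun h => h)
      | pp q ρ hp h0 h1 => exact hnr (fun h => h)
      | bad q hp h0 h1 => exact hnr (fun h => h)
      | zz ρ hp h0 h1 =>
        simp only
        rw [eh, decide_eq_false_iff_not]
        rintro ⟨-, ρ', -, -, h5, -⟩
        omega
    · rw [hk]
      simp only
      rw [eF]
      exact hdh (by rw [hk]; exact fun h => h)
  · -- r12
    have eh : (G.cellC r A c m β a).own.h = decide (G.HH c a) := rfl
    have ev' : (G.cellC r A c m β a).own.v = decide (G.VV c a) := rfl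
    have ek : (G.cellC r A c m β a).typ.ka = G.ka0 a := rfl
    have eF : (G.cellC r A c m β a).typ.F = (G.Ty r a).F := rfl
    have hge := G.hgt_ge
    rw [ek]
    rcases G.ka0_cases a with hk | ⟨-, hk⟩
    · generalize hk' : G.ka0 a = k at hk
      have hnr : ¬ IsVert k → (G.cellC r A c m β a).own.v =
        (!(G.cellC r A c m β a).typ.F 1 && ((G.cellC r A c m β a).inn 1).v) := by
        intro h
        rw [eF]
        exact hdv (by rw [hk']; exact h)
      cases hk with
      | port j b h =>
        simp only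
        have h0 : a j = 0 := by rw [h, G.io_self]
        rw [ev', G.cellC_inn_bd h0]
        change decide (G.VV c a) = decide (G.WI c j a)
        rw [decide_eq_decide, WI_io G c (fun l _ => by rw [h])]
        refine VV_px G c (h ▸ G.io_inPl j b) (by rw [h, G.io_zero]) ?_ ?_
        · rw [h, G.io_one]; exact le_rfl
        · rw [h, G.io_one]
          split_ifs with hj
          · have := hge (.iB j b); omega
          · have := G.hgt_pair j b hj; omega
      | tr j b hp h0 h1 =>
        simp only
        rw [ev', decide_eq_false_iff_not]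
        rintro ⟨-, h | ⟨q, h, -⟩⟩
        · obtain ⟨j', b', e0, e1, e2, e3⟩ := h
          by_cases hj : j = 1
          · subst hj
            rw [h0, G.px_one] at e0
            obtain ⟨rfl, rfl⟩ := G.px_eq_one e0.symm
            omega
          · by_cases hj' : j' = 1
            · subst hj'
              rw [h0, G.px_one] at e0
              exact absurd (G.px_eq_one e0).1 hj
            · simp only [Geo.vs, if_neg hj'] at e1
              have f1 := G.hgt_pair j b hj
              have f2 := G.hgt_pair j' b' hj'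
              have f3 := G.hgt_even (.oA j b)
              have f4 := G.hgt_even (.oA j' b')
              have f5 : G.hgt (.iB j b) = G.hgt (.oA j' b') := by omega
              have := G.hgt_inj f5
              simp at this
        · have := G.px_lt_XR j b
          have := G.colx_XR q
          omega
      | v1 q hp h0 h1 =>
        simp only
        have := G.hgt_lt_Yt .one
        have := hge .one
        rw [ev', decide_eq_true_eq, VV_col G c hp h0 (by omega) (by omega)]
        intro ρ hρ
        have := hge ρ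
        omega
      | pp q ρ hp h0 h1 =>
        simp only
        have h2 := G.hgt_lt_Yt ρ
        have h3 := hge ρ
        have h4 := G.colx_XR q
        have h5 := G.colx_XZ q
        have h6 := G.xs_le_XR ρ
        rw [ev', hinv' (by omega), eh]
        have k1 := VV_col G c hp h0 (by omega) (by omega)
        have k2 := VV_col G c (a := a - ev 1) (q := q) ((InPl_sub (Or.inr rfl)).2 hp)
          (by rw [sub_ev_ne _ ne01]; exact h0) (by rw [sub_ev_self]; omega)
          (by rw [sub_ev_self]; omega)
        have k3 := HH_row G c hp h1 (by omega) (by omega)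
        have k4 : (decide (G.HH c a) == q.1.1 ρ) = true ↔ c ρ = q.1.1 ρ := by
          rw [beq_iff_eq]
          have : decide (G.HH c a) = c ρ := by
            rw [Bool.eq_iff_iff, decide_eq_true_eq, k3]
          rw [this]
        rw [eq_comm, Bool.eq_iff_iff, Bool.and_eq_true, k4, decide_eq_true_eq, decide_eq_true_eq,
          k1, k2, sub_ev_self]
        constructor
        · rintro ⟨g1, g2⟩ ρ' hρ'
          by_cases h7 : ρ' = ρ
          · rw [h7]; exact g2
          · refine g1 ρ' ?_
            have : G.hgt ρ' ≠ a 1 := fun h8 => h7 (G.hgt_inj (h8.trans h1))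
            omega
        · intro g
          exact ⟨fun ρ' hρ' => g ρ' (by omega), g ρ (by omega)⟩
      | bad q hp h0 h1 =>
        simp only
        have h2 := G.hgt_lt_Yt .one
        have h3 := hge .one
        rw [ev', hinv' (by omega), decide_eq_false_iff_not, decide_eq_false_iff_not]
        constructor
        · rw [VV_col G c (a := a - ev 1) (q := q) ((InPl_sub (Or.inr rfl)).2 hp)
            (by rw [sub_ev_ne _ ne01]; exact h0) (by rw [sub_ev_self]; omega)
            (by rw [sub_ev_self]; omega)]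
          intro g
          refine q.1.2 θ hθ ?_
          funext ρ
          refine g ρ ?_
          have := G.hgt_lt_Yt ρ
          rw [sub_ev_self]
          omega
        · rintro ⟨-, h | ⟨q', -, -, h, -⟩⟩
          · obtain ⟨j', b', e0, -⟩ := h
            have := G.px_lt_XR j' b'
            have := G.colx_XR q
            omega
          · omega
      | tap b hp h0 h1 => exact hnr (fun h => h)
      | rt t hp h0 h1 => exact hnr (fun h => h)
      | fm hp h0 h1 => exact hnr (fun h => h)
      | fb ρ hρ hp h0 h1 => exact hnr (fun h => h)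
      | one hp h0 h1 => exact hnr (fun h => h)
      | zz ρ hp h0 h1 => exact hnr (fun h => h)
    · rw [hk]
      simp only
      rw [eF]
      exact hdv (by rw [hk]; exact fun h => h)
  · -- r13
    intro h
    obtain ⟨h1, j, h2⟩ := hβ h
    refine ⟨h1, j, ?_⟩
    change decide (a j = 0) = false
    rw [decide_eq_false_iff_not]
    exact h2

end Pool.Agent.Lib.P05dae2
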