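import Pool.Agent.Lib.P05dae2.Basic

/-!
# Compactness of the space of configurations (MP_05dae2_an)
-/

namespace Pool.Agent.Lib.P05dae2

open Filter

theorem compact_ex {d : ℕ} {S : Type} [Finite S] {ι : Type} (Q : ι → Cfg d S → Prop)
    (hloc : ∀ i, ∃ F : Finset (Pt d), ∀ x x' : Cfg d S, (∀ p ∈ F, x p = x' p) → Q i x → Q i x')
    (hfin : ∀ I : Finset ι, ∃ x, ∀ i ∈ I, Q i x) : ∃ x, ∀ i, Q i x := by
  let _ : TopologicalSpace S := ⊥
  have : DiscreteTopology S := ⟨rfl⟩
  have hcl : ∀ i, IsClosed {x : Cfg d S | Q i x} := by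
    intro i
    obtain ⟨F, hF⟩ := hloc i
    let r : Cfg d S → (F → S) := fun x p => x p
    have hr : Continuous r := continuous_pi (fun p => continuous_apply (p : Pt d))
    have h1 : {x : Cfg d S | Q i x} = r ⁻¹' (r '' {x | Q i x}) := by
      ext x
      constructor
      · intro hx
        exact ⟨x, hx, rfl⟩
      · rintro ⟨x', hx', he⟩
        exact hF x' x (fun p hp => congrFun he ⟨p, hp⟩) hx'
    rw [h1]
    exact (isClosed_discrete _).preimage hr
  have h2 := isCompact_univ.inter_iInter_nonempty (X := Cfg d S) (fun i => {x | Q i x}) hcl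
    (by
      intro I
      obtain ⟨x, hx⟩ := hfin I
      refine ⟨x, Set.mem_univ _, ?_⟩
      rw [Set.mem_iInter₂]
      exact hx)
  obtain ⟨x, _, hx⟩ := h2
  exact ⟨x, Set.mem_iInter.1 hx⟩

theorem isSFT_NN {d : ℕ} {S : Type} [Finite S] (Ok : S → Prop) (Adj : Fin d → S → S → Prop) :
    IsSFT (NN Ok Adj) := by
  classical
  let F1 : Set (Pat d S) := (fun s => (⟨{0}, fun _ => s⟩ : Pat d S)) '' {s | ¬ Ok s}
  let F2 : Fin d → Set (Pat d S) := fun j =>
    (fun f => (⟨{-ev j, 0}, f⟩ : Pat d S)) ''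
      {f : (({-ev j, 0} : Finset (Pt d)) → S) |
        ¬ Adj j (f ⟨-ev j, by simp⟩) (f ⟨0, by simp⟩)}
  refine ⟨F1 ∪ ⋃ j, F2 j, ?_, ?_⟩
  · refine Set.Finite.union (Set.Finite.image _ (Set.toFinite _)) (Set.finite_iUnion (fun j => ?_))
    exact Set.Finite.image _ (Set.toFinite _)
  · ext x
    constructor
    · rintro ⟨h1, h2⟩ p hp v hocc
      rcases hp with hp | hp
      · obtain ⟨s, hs, rfl⟩ := hp
        have h3 := hocc ⟨0, by simp⟩
        apply hs
        have h4 : x (v + 0) = s := h3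
        rw [← h4]
        exact h1 _
      · obtain ⟨j, hj⟩ := Set.mem_iUnion.1 hp
        obtain ⟨f, hf, rfl⟩ := hj
        apply hf
        have h3 : x (v + -ev j) = f ⟨-ev j, by simp⟩ := hocc ⟨-ev j, by simp⟩
        have h4 : x (v + 0) = f ⟨0, by simp⟩ := hocc ⟨0, by simp⟩
        rw [← h3, ← h4, add_zero, ← sub_eq_add_neg]
        exact h2 v j
    · intro h
      refine ⟨fun p => ?_, fun p j => ?_⟩
      · by_contra hok
        refine h ⟨{0}, fun _ => x p⟩ (Or.inl ⟨x p, hok, rfl⟩) p ?_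
        rintro ⟨u, hu⟩
        have hu0 : u = 0 := by simpa using hu
        subst hu0
        show x (p + 0) = x p
        rw [add_zero]
      · by_contra had
        refine h ⟨{-ev j, 0}, fun u => x (p + (u : Pt d))⟩
          (Or.inr (Set.mem_iUnion.2 ⟨j, _, ?_, rfl⟩)) p (fun u => rfl)
        show ¬ Adj j (x (p + -ev j)) (x (p + 0))
        rw [add_zero, ← sub_eq_add_neg]
        exact had

end Pool.Agent.Lib.P05dae2
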