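import Mathlib
import Pool.Agent.Lib.P05dae2.Api2

/-!
# Desubstitution of the labels (module Labels of MP_05dae2_an)
-/

namespace Pool.Agent.Lib.P05dae2

variable {e n : ℕ} {enc : Kind e n → Fin n → Bool} (G : Geo enc)

namespace LabelsAux

/-- The marks form one class modulo `r + 1`. -/
theorem seq_marks {r : ℤ} (hr : 2 ≤ r) (F : ℤ → Mark) (g : ℤ → Bool)
    (hs : ∀ N, F N = .z ↔ F (N + (r + 1)) = .z)
    (h1 : ∀ k, k % r ≠ 0 → F k = .z → g (k - 1) = false ∧ g k = true)
    (h2 : ∀ k, k % r ≠ 0 → F k ≠ .z → g k = g (k - 1))
    (h3 : ∀ k, k % r = 0 → F k = .z → g k = true)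
    (h4 : ∀ k, k % r = 0 → F k ≠ .z → g k = false)
    (h5 : ∀ k, k % r = 0 → (g (k - 1) = false ↔ F k = .z)) :
    ∃ z : ℤ, ∀ N, F N = .z ↔ (r + 1) ∣ N - z := by
  have hmod : ∀ K a : ℤ, 0 ≤ a → a < r → (r * K + a) % r = a := by
    intro K a ha ha'
    rw [add_comm, Int.add_mul_emod_self_left, Int.emod_eq_of_lt ha ha']
  have hshift : ∀ (N t : ℤ), F N = .z ↔ F (N + (r + 1) * t) = .z := by
    intro N t
    induction t using Int.induction_on with
    | zero => simp
    | succ t ih =>
      rw [ih, hs]
      have : N + (r + 1) * (t : ℤ) + (r + 1) = N + (r + 1) * ((t : ℤ) + 1) := by ring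
      rw [this]
    | pred t ih =>
      rw [ih, hs (N + (r + 1) * (-(t : ℤ) - 1))]
      have : N + (r + 1) * (-(t : ℤ) - 1) + (r + 1) = N + (r + 1) * (-(t : ℤ)) := by ring
      rw [this]
  -- after a mark at the beginning of a block `g` is true in the whole block
  have hg : ∀ K : ℤ, F (r * K) = .z → ∀ n : ℕ, (n : ℤ) < r → g (r * K + n) = true := by
    intro K hK n
    induction n with
    | zero =>
      intro _
      have := hmod K 0 le_rfl (by omega)
      simp only [add_zero] at this
      simpa using h3 (r * K) this hK
    | succ n ih =>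
      intro hn
      push_cast at hn ⊢
      have ih' := ih (by omega)
      have hne : (r * K + ((n : ℤ) + 1)) % r ≠ 0 := by
        rw [hmod K _ (by omega) hn]; omega
      have hsub : r * K + ((n : ℤ) + 1) - 1 = r * K + n := by ring
      by_cases hz : F (r * K + ((n : ℤ) + 1)) = .z
      · exact (h1 _ hne hz).2
      · rw [h2 _ hne hz, hsub]; exact ih'
  -- no mark in a block without a mark at its beginning
  have hne : ∀ K : ℤ, F (r * K) = .z → ∀ δ : ℤ, 1 ≤ δ → δ ≤ r → F (r * K + δ) ≠ .z := by
    intro K hK δ h1δ hδ hz
    obtain ⟨n, hn⟩ : ∃ n : ℕ, δ = n + 1 := ⟨(δ - 1).toNat, by omega⟩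
    have hgt := hg K hK n (by omega)
    have hsub : r * K + δ - 1 = r * K + n := by rw [hn]; ring
    by_cases hlt : δ < r
    · have hm : (r * K + δ) % r ≠ 0 := by rw [hmod K δ (by omega) hlt]; omega
      have := (h1 _ hm hz).1
      rw [hsub, hgt] at this
      exact absurd this (by simp)
    · have hδr : δ = r := by omega
      have hm : (r * K + δ) % r = 0 := by
        rw [hδr]
        have := hmod (K + 1) 0 le_rfl (by omega)
        rw [← this]; congr 1; ring
      have := (h5 _ hm).2 hz
      rw [hsub, hgt] at this
      exact absurd this (by simp)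
  -- there is a mark
  have hex : ∃ z, F z = .z := by
    by_contra hno
    push Not at hno
    have hgf : ∀ n : ℕ, (n : ℤ) < r → g (r * (-1) + n) = false := by
      intro n
      induction n with
      | zero =>
        intro _
        have := hmod (-1) 0 le_rfl (by omega)
        simp only [add_zero] at this
        simpa using h4 (r * (-1)) this (hno _)
      | succ n ih =>
        intro hn
        push_cast at hn ⊢
        have ih' := ih (by omega)
        have hne : (r * (-1) + ((n : ℤ) + 1)) % r ≠ 0 := by
          rw [hmod (-1) _ (by omega) hn]; omega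
        have hsub : r * (-1) + ((n : ℤ) + 1) - 1 = r * (-1) + n := by ring
        rw [h2 _ hne (hno _), hsub]; exact ih'
    have h0 := hgf (r - 1).toNat (by omega)
    have e0 : r * (-1) + ((r - 1).toNat : ℤ) = 0 - 1 := by
      rw [Int.toNat_of_nonneg (by omega)]; ring
    rw [e0] at h0
    exact hno 0 ((h5 0 (by simp)).1 h0)
  obtain ⟨z, hz⟩ := hex
  refine ⟨z, fun N => ⟨fun hN => ?_, ?_⟩⟩
  · -- `z - z (r+1) = - z r`
    by_contra hndvd
    set δ := (N - z) % (r + 1) with hδ
    have hδ0 : 0 ≤ δ := Int.emod_nonneg _ (by omega)
    have hδ1 : δ < r + 1 := Int.emod_lt_of_pos _ (by omega)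
    have hδne : δ ≠ 0 := fun h => hndvd (Int.dvd_of_emod_eq_zero h)
    have hdm := Int.emod_add_mul_ediv (N - z) (r + 1)
    have hz1 : F (r * (-z)) = .z := by
      have := (hshift z (-z)).1 hz
      have e1 : z + (r + 1) * (-z) = r * (-z) := by ring
      rwa [e1] at this
    have hN1 : F (r * (-z) + δ) = .z := by
      have := (hshift N (-((N - z) / (r + 1)) + (-z))).1 hN
      have e1 : N + (r + 1) * (-((N - z) / (r + 1)) + (-z)) = r * (-z) + δ := by
        rw [hδ]; linear_combination -hdm
      rwa [e1] at this
    exact hne (-z) hz1 δ (by omega) (by omega) hN1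
  · rintro ⟨t, ht⟩
    have := (hshift z t).1 hz
    have e1 : z + (r + 1) * t = N := by linarith
    rwa [e1] at this

theorem tv_ne (j : Fin (e + 2)) : tv j ≠ j := by
  unfold tv
  split_ifs with h
  · rw [h]; exact ne10
  · exact fun h' => h h'.symm

theorem upd_sub (p : Pt (e + 2)) (j : Fin (e + 2)) (k : ℤ) :
    Function.update p j k - ev j = Function.update p j (k - 1) := by
  funext l
  by_cases h : l = j
  · subst h; simp [ev]
  · simp [ev, h]

theorem upd_inv {β : Type} (Φ : Pt (e + 2) → β) (j : Fin (e + 2))
    (h : ∀ p, Φ (p - ev j) = Φ p) (p : Pt (e + 2)) (k : ℤ) :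
    Φ (Function.update p j k) = Φ p := by
  have key : ∀ k : ℤ, Φ (Function.update p j k) = Φ (Function.update p j 0) := by
    intro k
    induction k using Int.induction_on with
    | zero => rfl
    | succ t ih =>
      rw [← ih, ← h (Function.update p j ((t : ℤ) + 1)), upd_sub, add_sub_cancel_right]
    | pred t ih =>
      rw [← ih, ← h (Function.update p j (-(t : ℤ))), upd_sub]
  rw [key, ← key (p j), Function.update_eq_self]

theorem inv_coord {β : Type} (Φ : Pt (e + 2) → β) (l : Fin (e + 2))
    (h : ∀ j, j ≠ l → ∀ p, Φ (p - ev j) = Φ p) (p p' : Pt (e + 2)) (hp : p l = p' l) :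
    Φ p = Φ p' := by
  classical
  have key : ∀ S : Finset (Fin (e + 2)), l ∉ S →
      Φ (fun i => if i ∈ S then p' i else p i) = Φ p := by
    intro S
    induction S using Finset.induction_on with
    | empty => intro _; simp
    | insert j S hj ih =>
      intro hl
      rw [Finset.mem_insert, not_or] at hl
      rw [← ih hl.2, ← upd_inv Φ j (h j (Ne.symm hl.1)) (fun i => if i ∈ S then p' i else p i)
        (p' j)]
      congr 1
      funext i
      by_cases hi : i = j
      · subst hi; simp
      · simp [hi]
  have := key (Finset.univ.erase l) (by simp)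
  rw [← this]
  congr 1
  funext i
  by_cases hi : i = l
  · subst hi; simp [hp]
  · simp [hi]

end LabelsAux

open LabelsAux

theorem Geo.labels {r : ℤ} (hr : (G.r0 : ℤ) ≤ r) (θ : Pt (e + 2) → St e n)
    (hR : ∀ p, Rules enc (θ p)) (hT : ∀ p, (θ p).typ = G.Ty r (fun j => p j % r))
    (hE : ∀ p j, (θ p).inn j = out j (θ (p - ev j)).typ.L (θ (p - ev j)).own) :
    ∃ (A : Pt (e + 2) → Pt (e + 2)) (m : Pt (e + 2) → Bool),
      (∀ u, InB (r + 1) (A u)) ∧ (∀ u j, A (u - ev j) = predL r (A u) j) ∧
      ∀ u a, InB r a →
        (θ (fun l => r * u l + a l)).own.f = (fun l => nf (a l) (A u l)) ∧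
        (θ (fun l => r * u l + a l)).own.T = G.Ty (r + 1) (A u) ∧
        (θ (fun l => r * u l + a l)).own.m = m u ∧
        (∀ j, (θ (fun l => r * u l + a l)).own.s j =
          if a j < a (tv j) then decide (A u j = a (tv j) + 1)
          else decide (A u j = a (tv j))) ∧
        (∀ j, (θ (fun l => r * u l + a l)).own.g j =
          decide ((∀ l, l ≠ j → a l = 0) ∧ A u j ≤ a j)) ∧
        (m u = false → (θ (fun l => r * u l + a l)).own.be = false) := by
  classical
  have hr2 : (2 : ℤ) ≤ r := by
    have := G.XZ_r0; have := G.XR_XZ; have := G.XR_pos; omega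
  have hmod : ∀ K a : ℤ, 0 ≤ a → a < r → (r * K + a) % r = a := by
    intro K a ha ha'
    rw [add_comm, Int.add_mul_emod_self_left, Int.emod_eq_of_lt ha ha']
  -- marks depend on one coordinate only
  have hf1 : ∀ l, ∀ j, j ≠ l → ∀ p, (θ (p - ev j)).own.f l = (θ p).own.f l := by
    intro l j hj p
    have h1 := (hR p).r1 j l (Ne.symm hj)
    rw [hE p j] at h1
    exact h1
  set F : Fin (e + 2) → ℤ → Mark := fun j N => (θ (fun _ => N)).own.f j with hF
  have hfF : ∀ p j, (θ p).own.f j = F j (p j) := fun p j =>
    inv_coord (fun p => (θ p).own.f j) j (hf1 j) p (fun _ => p j) rfl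
  have hpre : ∀ j N, F j N = .z ↔ F j (N - 1) = .pre := by
    intro j N
    have h1 := (hR (fun _ => N)).r2 j
    rw [hE] at h1
    simp only [out] at h1
    rw [hfF, hfF] at h1
    simpa [ev] using h1
  -- flags
  have hFl : ∀ p j, (θ p).typ.F j = decide (p j % r = 0) := fun p j => by rw [hT]; rfl
  have hLl : ∀ p j, (θ p).typ.L j = decide (p j % r = r - 1) := fun p j => by rw [hT]; rfl
  have hDl : ∀ p j, (θ p).typ.Dl (di j) = decide (p j % r = p (tv j) % r) := by
    intro p j
    rw [hT]
    by_cases hj : j = 0
    · subst hj
      simp only [Geo.Ty, di, tv, if_true]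
      exact decide_eq_decide.2 eq_comm
    · simp only [Geo.Ty, di, tv, if_neg hj]
  -- the `s` signal
  have hs1 : ∀ p j, p j % r ≠ p (tv j) % r → (θ p).own.s j = (θ (p - ev j)).own.s j := by
    intro p j h
    have h1 := ((hR p).r8 j).1 (by rw [hDl]; simpa using h)
    rw [h1, hE]
    rfl
  have hs2 : ∀ p j, p j % r = p (tv j) % r →
      ((θ (p - ev j)).own.s j = true ↔ F j (p j) = .pre) ∧
      ((θ p).own.s j = true ↔ F j (p j) = .z) := by
    intro p j h
    have h1 := ((hR p).r8 j).2 (by rw [hDl]; simpa using h)
    rw [hE, hfF] at h1
    exact h1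
  -- the `g` signal
  have hg1 : ∀ p j, (∀ l, l ≠ j → p l % r = 0) → p j % r ≠ 0 → F j (p j) = .z →
      (θ (p - ev j)).own.g j = false ∧ (θ p).own.g j = true := by
    intro p j hp h0 hz
    have h1 := ((hR p).r9 j (fun l hl => by rw [hFl]; simpa using hp l hl)).1
      (by rw [hfF]; exact hz)
    rw [hE, hFl] at h1
    exact ⟨h1.1 (by simpa using h0), h1.2⟩
  have hg2 : ∀ p j, (∀ l, l ≠ j → p l % r = 0) → p j % r ≠ 0 → F j (p j) ≠ .z →
      (θ p).own.g j = (θ (p - ev j)).own.g j := by
    intro p j hp h0 hz
    have h1 := ((hR p).r9 j (fun l hl => by rw [hFl]; simpa using hp l hl)).2.1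
      (by rw [hfF]; exact hz)
    rw [hE, hFl, decide_eq_false h0] at h1
    simpa [out] using h1
  have hg3 : ∀ p j, (∀ l, l ≠ j → p l % r = 0) → p j % r = 0 → F j (p j) = .z →
      (θ p).own.g j = true := by
    intro p j hp h0 hz
    exact (((hR p).r9 j (fun l hl => by rw [hFl]; simpa using hp l hl)).1
      (by rw [hfF]; exact hz)).2
  have hg4 : ∀ p j, (∀ l, l ≠ j → p l % r = 0) → p j % r = 0 → F j (p j) ≠ .z →
      (θ p).own.g j = false := by
    intro p j hp h0 hz
    have h1 := ((hR p).r9 j (fun l hl => by rw [hFl]; simpa using hp l hl)).2.1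
      (by rw [hfF]; exact hz)
    rw [hFl, decide_eq_true h0] at h1
    simpa using h1
  have hg5 : ∀ p j, (∀ l, l ≠ j → p l % r = 0) → p j % r = 0 →
      ((θ (p - ev j)).own.g j = false ↔ F j (p j) = .z) := by
    intro p j hp h0
    have h1 := ((hR p).r9 j (fun l hl => by rw [hFl]; simpa using hp l hl)).2.2
      (by rw [hFl]; simpa using h0)
    rw [hE, hfF] at h1
    exact h1
  -- marks are invariant under the translation by `r + 1`
  have hinv : ∀ j N, F j N = .z ↔ F j (N + (r + 1)) = .z := by
    intro j N
    have hcst : ∀ n : ℕ, (n : ℤ) < r →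
        (θ (Function.update (fun _ => N) j (N + n))).own.s j = (θ (fun _ => N)).own.s j := by
      intro n
      induction n with
      | zero =>
        intro _
        rw [Nat.cast_zero, add_zero, Function.update_eq_self_iff.2 rfl]
      | succ n ih =>
        intro hn
        push_cast at hn ⊢
        have hne : (Function.update (fun _ => N) j (N + ((n : ℤ) + 1)) : Pt (e + 2)) j % r ≠
            (Function.update (fun _ => N) j (N + ((n : ℤ) + 1)) : Pt (e + 2)) (tv j) % r := by
          rw [Function.update_self, Function.update_of_ne (tv_ne j)]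
          intro h
          have h2 : (r : ℤ) ∣ (N + ((n : ℤ) + 1)) - N := Int.ModEq.dvd h.symm
          have h3 := Int.le_of_dvd (by omega) h2
          omega
        rw [hs1 _ _ hne, upd_sub]
        have e1 : N + ((n : ℤ) + 1) - 1 = N + n := by ring
        rw [e1]
        exact ih (by omega)
    have h1 := hcst (r - 1).toNat (by omega)
    have e1 : N + ((r - 1).toNat : ℤ) = (N + r) - 1 := by
      rw [Int.toNat_of_nonneg (by omega)]; ring
    rw [e1, ← upd_sub] at h1
    have hd : (Function.update (fun _ => N) j (N + r) : Pt (e + 2)) j % r =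
        (Function.update (fun _ => N) j (N + r) : Pt (e + 2)) (tv j) % r := by
      rw [Function.update_self, Function.update_of_ne (tv_ne j), Int.add_emod_right]
    have h2 := (hs2 _ _ hd).1
    rw [h1, Function.update_self] at h2
    have h3 := (hs2 (fun _ => N) j rfl).2
    rw [← h3, h2, hpre j (N + (r + 1))]
    have e2 : N + (r + 1) - 1 = N + r := by ring
    rw [e2]
  -- the classes of the marks
  have hclass : ∀ j, ∃ z : ℤ, ∀ N, F j N = .z ↔ (r + 1) ∣ N - z := by
    intro j
    set q : ℤ → Pt (e + 2) := fun k => Function.update (fun _ => 0) j k with hq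
    have hq0 : ∀ k l, l ≠ j → q k l % r = 0 := by
      intro k l hl
      rw [hq]; dsimp only
      rw [Function.update_of_ne hl]; simp
    have hqj : ∀ k, q k j = k := fun k => by rw [hq]; simp
    have hqs : ∀ k, q k - ev j = q (k - 1) := fun k => upd_sub _ _ _
    refine seq_marks hr2 (F j) (fun k => (θ (q k)).own.g j) (hinv j) ?_ ?_ ?_ ?_ ?_
    · intro k hk hz
      have := hg1 (q k) j (hq0 k) (by rw [hqj]; exact hk) (by rw [hqj]; exact hz)
      rwa [hqs] at this
    · intro k hk hz
      have := hg2 (q k) j (hq0 k) (by rw [hqj]; exact hk) (by rw [hqj]; exact hz)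
      rwa [hqs] at this
    · intro k hk hz
      exact hg3 (q k) j (hq0 k) (by rw [hqj]; exact hk) (by rw [hqj]; exact hz)
    · intro k hk hz
      exact hg4 (q k) j (hq0 k) (by rw [hqj]; exact hk) (by rw [hqj]; exact hz)
    · intro k hk
      have := hg5 (q k) j (hq0 k) (by rw [hqj]; exact hk)
      rwa [hqs, hqj] at this
  choose z hz using hclass
  set A : Pt (e + 2) → Pt (e + 2) := fun u j => (z j + u j) % (r + 1) with hAdef
  have hA : ∀ u, InB (r + 1) (A u) := fun u j =>
    ⟨Int.emod_nonneg _ (by omega), Int.emod_lt_of_pos _ (by omega)⟩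
  -- position of the marks in the blocks
  have hpos : ∀ u j (x : ℤ), 0 ≤ x → x ≤ r → (F j (r * u j + x) = .z ↔ A u j = x) := by
    intro u j x h0 h1
    rw [hz]
    have hd := Int.emod_add_mul_ediv (z j + u j) (r + 1)
    have hAj := hA u j
    constructor
    · rintro ⟨t, ht⟩
      have : (r + 1) ∣ A u j - x := by
        refine ⟨-t - (z j + u j) / (r + 1) + u j, ?_⟩
        rw [hAdef]; dsimp only
        linear_combination hd - ht
      by_contra hne
      rcases lt_or_gt_of_ne hne with h | h
      · have := Int.le_of_dvd (by omega) ((dvd_neg.2 this))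
        omega
      · have := Int.le_of_dvd (by omega) this
        omega
    · intro h
      refine ⟨u j - (z j + u j) / (r + 1), ?_⟩
      rw [← h, hAdef]; dsimp only
      linear_combination hd
  have hposp : ∀ u j (x : ℤ), 0 ≤ x → x < r → (F j (r * u j + x) = .pre ↔ A u j = x + 1) := by
    intro u j x h0 h1
    have h2 := hpre j (r * u j + (x + 1))
    have e1 : r * u j + (x + 1) - 1 = r * u j + x := by ring
    rw [e1] at h2
    rw [← h2]
    exact hpos u j (x + 1) (by omega) (by omega)
  have hnf : ∀ u j (x : ℤ), 0 ≤ x → x < r → F j (r * u j + x) = nf x (A u j) := by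
    intro u j x h0 h1
    unfold nf
    have e1 := hpos u j x h0 h1.le
    have e2 := hposp u j x h0 h1
    split_ifs with h3 h4
    · exact e1.2 h3
    · exact e2.2 h4
    · cases h5 : F j (r * u j + x)
      · exact absurd (e2.1 h5) h4
      · exact absurd (e1.1 h5) h3
      · rfl
  -- blocks
  have hbj : ∀ (u a : Pt (e + 2)), InB r a → ∀ l, (fun l => r * u l + a l) l % r = a l :=
    fun u a ha l => hmod (u l) (a l) (ha l).1 (ha l).2
  -- `T` and `m` are constant on blocks
  have hTm : ∀ (u a : Pt (e + 2)) (j : Fin (e + 2)), InB r a → a j ≠ 0 →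
      (θ (fun l => r * u l + (a - ev j) l)).own.T = (θ (fun l => r * u l + a l)).own.T ∧
      (θ (fun l => r * u l + (a - ev j) l)).own.m = (θ (fun l => r * u l + a l)).own.m := by
    intro u a j ha haj
    have hpt : (fun l => r * u l + (a - ev j) l : Pt (e + 2)) =
        (fun l => r * u l + a l) - ev j := by
      funext l; simp only [Pi.sub_apply]; ring
    have h1 := (hR (fun l => r * u l + a l)).r3 j (by
      rw [hFl, hbj u a ha]; simpa using haj)
    rw [hE, ← hpt] at h1
    refine ⟨h1.1, ?_⟩
    have h2 := h1.2
    simp only [out] at h2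
    rw [hLl] at h2
    have h3 : r * u j + (a - ev j) j = r * u j + (a j - 1) := by simp [ev]
    have h4 := ha j
    rw [h3, hmod _ _ (by omega) (by omega), decide_eq_false (by omega)] at h2
    simpa using h2
  have hconst : ∀ (u a : Pt (e + 2)), InB r a →
      (θ (fun l => r * u l + a l)).own.T = (θ (fun l => r * u l)).own.T ∧
      (θ (fun l => r * u l + a l)).own.m = (θ (fun l => r * u l)).own.m := by
    intro u
    have key : ∀ (N : ℕ) (a : Pt (e + 2)), InB r a → (∑ l, a l).toNat = N →
        (θ (fun l => r * u l + a l)).own.T = (θ (fun l => r * u l)).own.T ∧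
        (θ (fun l => r * u l + a l)).own.m = (θ (fun l => r * u l)).own.m := by
      intro N
      induction N with
      | zero =>
        intro a ha hN
        have hs : ∑ l, a l = 0 := by
          have : 0 ≤ ∑ l, a l := Finset.sum_nonneg fun l _ => (ha l).1
          omega
        have ha0 : ∀ l, a l = 0 := fun l =>
          (Finset.sum_eq_zero_iff_of_nonneg fun l _ => (ha l).1).1 hs l (Finset.mem_univ l)
        have : (fun l => r * u l + a l : Pt (e + 2)) = fun l => r * u l := by
          funext l; rw [ha0 l, add_zero]
        rw [this]; exact ⟨rfl, rfl⟩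
      | succ N ih =>
        intro a ha hN
        have hex : ∃ j, a j ≠ 0 := by
          by_contra h
          push Not at h
          have : ∑ l, a l = 0 := Finset.sum_eq_zero fun l _ => h l
          omega
        obtain ⟨j, hj⟩ := hex
        have ha' : InB r (a - ev j) := by
          intro l
          have := ha l
          by_cases hl : l = j
          · subst hl
            simp only [Pi.sub_apply, ev, if_true]
            omega
          · simp only [Pi.sub_apply, ev, if_neg hl]
            omega
        have hsum : ∑ l, (a - ev j) l = ∑ l, a l - 1 := by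
          simp only [Pi.sub_apply, Finset.sum_sub_distrib, ev]
          simp
        have h1 := ih (a - ev j) ha' (by rw [hsum]; omega)
        have h2 := hTm u a j ha hj
        exact ⟨h2.1.symm.trans h1.1, h2.2.symm.trans h1.2⟩
    exact fun a ha => key _ a ha rfl
  have hpt0 : ∀ u : Pt (e + 2), (fun l => r * u l : Pt (e + 2)) =
      fun l => r * u l + (0 : Pt (e + 2)) l := by
    intro u; funext l; simp
  have h0B : InB r (0 : Pt (e + 2)) := fun l => by simp only [Pi.zero_apply]; omega
  -- the type
  have hTy : ∀ u, (θ (fun l => r * u l)).own.T = G.Ty (r + 1) (A u) := by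
    intro u
    refine Typ.ext ?_ ?_ ?_ ?_ ?_
    · funext j
      have h1 := (hR (fun l => r * u l)).r4 j (by
        rw [hFl]; simp)
      rw [hfF] at h1
      have h2 := hpos u j 0 le_rfl (by omega)
      rw [add_zero] at h2
      rw [h2] at h1
      change _ = decide (A u j = 0)
      rw [Bool.eq_iff_iff, h1]; simp
    · funext j
      set a : Pt (e + 2) := fun _ => r - 1 with ha
      have haB : InB r a := fun l => by rw [ha]; dsimp only; omega
      have h1 := (hR (fun l => r * u l + a l)).r5 j (by
        rw [hLl, hbj u a haB]; simp [ha])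
      rw [hfF, (hconst u a haB).1] at h1
      have e0 : a j = r - 1 := rfl
      rw [e0, hposp u j (r - 1) (by omega) (by omega)] at h1
      change _ = decide (A u j = r + 1 - 1)
      rw [Bool.eq_iff_iff, h1]
      simp
    · funext j
      set x : ℤ := min (A u 0) (r - 1) with hx
      set a : Pt (e + 2) := fun _ => x with ha
      have hA0 := hA u 0
      have haB : InB r a := fun l => by rw [ha]; dsimp only; omega
      have h1 := (hR (fun l => r * u l + a l)).r6 j (by
        have h2 : (θ (fun l => r * u l + a l)).typ.Dl j =
            decide ((fun l => r * u l + a l) j % r = (fun l => r * u l + a l) 0 % r) := by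
          rw [hT]; rfl
        rw [h2, hbj u a haB, hbj u a haB]; simp [ha])
      rw [hfF, hfF, (hconst u a haB).1] at h1
      have e0 : ∀ l, a l = x := fun l => rfl
      rw [e0 j, hnf u j x (by omega) (by omega), hnf u 0 x (by omega) (by omega)] at h1
      have hAj := hA u j
      change _ = decide (A u j = A u 0)
      have hnd : nf x (A u 0) ≠ .dot := by
        unfold nf
        by_cases h2 : A u 0 = x
        · rw [if_pos h2]; simp
        · rw [if_neg h2, if_pos (by omega)]; simp
      have heq : nf x (A u j) = nf x (A u 0) ↔ A u j = A u 0 := by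
        constructor
        · intro h
          unfold nf at h
          by_cases h2 : A u 0 = x
          · rw [if_pos h2] at h
            by_cases h3 : A u j = x
            · omega
            · rw [if_neg h3] at h
              split_ifs at h
          · have h4 : A u 0 = x + 1 := by omega
            rw [if_neg h2, if_pos h4] at h
            by_cases h3 : A u j = x
            · rw [if_pos h3] at h; exact absurd h (by simp)
            · rw [if_neg h3] at h
              split_ifs at h with h5
              omega
        · intro h; rw [h]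
      cases hD : (θ (fun l => r * u l)).own.T.Dl j
      · have h2 := h1.2 hD
        rw [heq] at h2
        have : A u j ≠ A u 0 := fun h => h2 ⟨h, hnd⟩
        simp [this]
      · have h2 := heq.1 (h1.1 hD)
        simp [h2]
    · set a : Pt (e + 2) := fun l => min (A u l) (r - 1) with ha
      have haB : InB r a := fun l => by
        have := hA u l
        rw [ha]; dsimp only; omega
      have h1 := (hR (fun l => r * u l + a l)).r7 (fun j => by
        rw [hfF, hLl, hbj u a haB, hnf u j (a j) (haB j).1 (haB j).2]
        have := hA u j
        unfold nf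
        by_cases h2 : A u j = a j
        · left; rw [if_pos h2]
        · right
          have h3 : a j = min (A u j) (r - 1) := rfl
          rw [if_neg h2, if_pos (by omega)]
          simp only [decide_eq_true_eq, and_true]
          omega)
      rw [(hconst u a haB).1, hT] at h1
      have hcl : G.Clamp (A u) a := by
        intro l
        have := hA u l
        have h3 : a l = min (A u l) (r - 1) := rfl
        by_cases h2 : A u l ≤ r - 1
        · left; omega
        · right; omega
      have he : (fun j => (fun l => r * u l + a l) j % r) = a := by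
        funext l; exact hbj u a haB l
      rw [he] at h1
      rw [h1.1]
      exact G.ka0_clamp hcl
    · set a : Pt (e + 2) := fun l => min (A u l) (r - 1) with ha
      have haB : InB r a := fun l => by
        have := hA u l
        rw [ha]; dsimp only; omega
      have h1 := (hR (fun l => r * u l + a l)).r7 (fun j => by
        rw [hfF, hLl, hbj u a haB, hnf u j (a j) (haB j).1 (haB j).2]
        have := hA u j
        unfold nf
        by_cases h2 : A u j = a j
        · left; rw [if_pos h2]
        · right
          have h3 : a j = min (A u j) (r - 1) := rfl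
          rw [if_neg h2, if_pos (by omega)]
          simp only [decide_eq_true_eq, and_true]
          omega)
      rw [(hconst u a haB).1, hT] at h1
      have hcl : G.Clamp (A u) a := by
        intro l
        have := hA u l
        have h3 : a l = min (A u l) (r - 1) := rfl
        by_cases h2 : A u l ≤ r - 1
        · left; omega
        · right; omega
      have he : (fun j => (fun l => r * u l + a l) j % r) = a := by
        funext l; exact hbj u a haB l
      rw [he] at h1
      rw [h1.2]
      exact G.mu0_clamp hcl
  refine ⟨A, fun u => (θ (fun l => r * u l)).own.m, hA, ?_, ?_⟩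
  · intro u j
    funext l
    unfold predL
    by_cases hl : l = j
    · subst hl
      rw [if_pos rfl]
      have hAl := hA u l
      have hAl' := hA (u - ev l) l
      have hd := Int.emod_add_mul_ediv (z l + u l) (r + 1)
      have hd' := Int.emod_add_mul_ediv (z l + (u - ev l) l) (r + 1)
      have he : (u - ev l) l = u l - 1 := by simp [ev]
      have h1 : A u l = (z l + u l) % (r + 1) := rfl
      have h2 : A (u - ev l) l = (z l + (u - ev l) l) % (r + 1) := rfl
      rw [he] at h2 hd'
      rw [← h1] at hd
      rw [← h2] at hd'
      set X := (z l + u l) / (r + 1)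
      set Y := (z l + (u l - 1)) / (r + 1)
      have h3 : A u l - A (u - ev l) l - 1 = (r + 1) * (Y - X) := by linear_combination hd - hd'
      have h4 : Y - X = 0 ∨ Y - X = -1 := by
        have h5 : Y - X < 1 := by
          by_contra h
          push Not at h
          nlinarith
        have h6 : -2 < Y - X := by
          by_contra h
          push Not at h
          nlinarith
        omega
      rcases h4 with h4 | h4
      · rw [h4] at h3
        rw [if_neg (by omega)]
        omega
      · rw [h4] at h3
        have : (r + 1) * (-1) = -(r + 1) := by ring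
        rw [this] at h3
        rw [if_pos (by omega)]
        omega
    · rw [if_neg hl]
      change (z l + (u - ev j) l) % (r + 1) = (z l + u l) % (r + 1)
      simp [ev, hl]
  · intro u a ha
    refine ⟨?_, ?_, (hconst u a ha).2, ?_, ?_, ?_⟩
    · funext l
      rw [hfF]
      exact hnf u l (a l) (ha l).1 (ha l).2
    · rw [(hconst u a ha).1, hTy]
    · intro j
      -- points on the line through `r u + a`
      set c := a (tv j) with hc
      set q : ℤ → Pt (e + 2) := fun x => fun l => r * u l + (Function.update a j x) l with hq
      have hqs : ∀ x, q x - ev j = q (x - 1) := by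
        intro x
        rw [hq]; dsimp only
        rw [← upd_sub]
        funext l; simp only [Pi.sub_apply]; ring
      have hqj : ∀ x, q x j = r * u j + x := fun x => by rw [hq]; simp
      have hqt : ∀ x, q x (tv j) % r = c := fun x => by
        rw [hq]; dsimp only
        rw [Function.update_of_ne (tv_ne j)]
        exact hmod _ _ (ha (tv j)).1 (ha (tv j)).2
      have hqa : q (a j) = fun l => r * u l + a l := by
        rw [hq]; dsimp only
        rw [Function.update_eq_self]
      have hcB := ha (tv j)
      rw [← hc] at hcB
      have hup : ∀ n : ℕ, c + n < r → (θ (q (c + n))).own.s j = decide (A u j = c) := by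
        intro n
        induction n with
        | zero =>
          intro _
          have h1 := (hs2 (q (c + (0 : ℕ))) j (by
            rw [hqj, hqt, hmod _ _ (by simp; omega) (by simp; omega)]; simp)).2
          rw [hqj, hpos u j _ (by simp; omega) (by simp; omega)] at h1
          rw [Bool.eq_iff_iff, h1]; simp
        | succ n ih =>
          intro hn
          push_cast at hn ⊢
          rw [hs1 (q (c + ((n : ℤ) + 1))) j (by
            rw [hqj, hqt, hmod _ _ (by omega) (by omega)]; omega), hqs]
          have e1 : c + ((n : ℤ) + 1) - 1 = c + n := by ring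
          rw [e1]
          exact ih (by omega)
      have hdn : ∀ n : ℕ, 0 ≤ c - 1 - n → (θ (q (c - 1 - n))).own.s j = decide (A u j = c + 1) := by
        intro n
        induction n with
        | zero =>
          intro h0
          have h1 := (hs2 (q c) j (by
            rw [hqj, hqt, hmod _ _ (by omega) (by omega)])).1
          rw [hqs, hqj, hposp u j c (by omega) (by omega)] at h1
          rw [Nat.cast_zero, sub_zero, Bool.eq_iff_iff, h1]; simp
        | succ n ih =>
          intro hn
          push_cast at hn ⊢
          have ih' := ih (by omega)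
          rw [hs1 (q (c - 1 - (n : ℤ))) j (by
            rw [hqj, hqt, hmod _ _ (by omega) (by omega)]; omega), hqs] at ih'
          have e1 : c - 1 - ((n : ℤ) + 1) = c - 1 - (n : ℤ) - 1 := by ring
          rw [e1]
          exact ih'
      have haj := ha j
      split_ifs with hlt
      · have h1 := hdn (c - 1 - a j).toNat (by omega)
        have e1 : c - 1 - ((c - 1 - a j).toNat : ℤ) = a j := by omega
        rw [e1, hqa] at h1
        exact h1
      · have h1 := hup (a j - c).toNat (by omega)
        have e1 : c + ((a j - c).toNat : ℤ) = a j := by omega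
        rw [e1, hqa] at h1
        exact h1
    · intro j
      by_cases hax : ∀ l, l ≠ j → a l = 0
      · set q : ℤ → Pt (e + 2) := fun x => fun l => r * u l + (Function.update a j x) l with hq
        have hqs : ∀ x, q x - ev j = q (x - 1) := by
          intro x
          rw [hq]; dsimp only
          rw [← upd_sub]
          funext l; simp only [Pi.sub_apply]; ring
        have hqj : ∀ x, q x j = r * u j + x := fun x => by rw [hq]; simp
        have hqa : q (a j) = fun l => r * u l + a l := by
          rw [hq]; dsimp only
          rw [Function.update_eq_self]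
        have hq0 : ∀ x l, l ≠ j → q x l % r = 0 := fun x l hl => by
          rw [hq]; dsimp only
          rw [Function.update_of_ne hl, hax l hl]
          exact hmod _ _ le_rfl (by omega)
        have hAj := hA u j
        have hup : ∀ n : ℕ, (n : ℤ) < r → (θ (q n)).own.g j = decide (A u j ≤ n) := by
          intro n
          induction n with
          | zero =>
            intro _
            by_cases h0 : A u j = 0
            · rw [hg3 (q ((0 : ℕ) : ℤ)) j (hq0 _) (by rw [hqj]; simp)
                (by rw [hqj]; exact (hpos u j _ (by simp) (by simp; omega)).2 (by simpa using h0))]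
              simp [h0]
            · rw [hg4 (q ((0 : ℕ) : ℤ)) j (hq0 _) (by rw [hqj]; simp)
                (by rw [hqj]; exact fun h => h0 (by
                      simpa using (hpos u j _ (by simp) (by simp; omega)).1 h))]
              symm
              rw [decide_eq_false_iff_not]
              simp only [Nat.cast_zero]
              omega
          | succ n ih =>
            intro hn
            have ih' := ih (by push_cast at hn; omega)
            have hm : q ((n + 1 : ℕ) : ℤ) j % r ≠ 0 := by
              rw [hqj, hmod _ _ (by omega) hn]; push_cast; omega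
            have e1 : ((n + 1 : ℕ) : ℤ) - 1 = n := by push_cast; ring
            by_cases h0 : A u j = ((n + 1 : ℕ) : ℤ)
            · rw [(hg1 (q ((n + 1 : ℕ) : ℤ)) j (hq0 _) hm
                (by rw [hqj]; exact (hpos u j _ (by omega) (by omega)).2 h0)).2]
              simp [h0]
            · rw [hg2 (q ((n + 1 : ℕ) : ℤ)) j (hq0 _) hm
                (by rw [hqj]; exact fun h => h0 ((hpos u j _ (by omega) (by omega)).1 h)), hqs,
                e1, ih']
              refine decide_eq_decide.2 ?_
              push_cast at h0 ⊢
              omega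
        have haj := ha j
        have h1 := hup (a j).toNat (by omega)
        have e1 : ((a j).toNat : ℤ) = a j := by omega
        rw [e1, hqa] at h1
        rw [h1]
        refine decide_eq_decide.2 ?_
        exact ⟨fun h => ⟨hax, h⟩, fun h => h.2⟩
      · push Not at hax
        obtain ⟨l, hl, hal⟩ := hax
        have h1 := (hR (fun l => r * u l + a l)).r9' j ⟨l, hl, by
          rw [hFl, hbj u a ha]; simpa using hal⟩
        rw [h1]
        symm
        rw [decide_eq_false_iff_not]
        rintro ⟨h2, -⟩
        exact hal (h2 l hl)
    · intro hm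
      by_contra hbe
      have h1 := (hR (fun l => r * u l + a l)).r13 (by simpa using hbe)
      have hm' : (θ (fun l => r * u l)).own.m = false := hm
      rw [(hconst u a ha).2, hm'] at h1
      exact absurd h1.1 (by simp)

end Pool.Agent.Lib.P05dae2
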