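import Mathlib
import Pool.Agent.Lib.P05dae2.Api2

/-!
# Soundness of the wires in one block (MP_05dae2_an)
-/

namespace Pool.Agent.Lib.P05dae2

variable {e n : ℕ} {enc : Kind e n → Fin n → Bool} (G : Geo enc)

namespace WiresAux

/-- The point `(x, y, 0, …, 0)`. -/
def ptW (x y : ℤ) : Pt (e + 2) := fun l => if l = 0 then x else if l = 1 then y else 0

theorem ptW_zero (x y : ℤ) : (ptW x y : Pt (e + 2)) 0 = x := by simp [ptW]

theorem ptW_one (x y : ℤ) : (ptW x y : Pt (e + 2)) 1 = y := by simp [ptW]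

theorem ptW_inPl (x y : ℤ) : InPl (ptW x y : Pt (e + 2)) := by
  intro l h0 h1; simp [ptW, h0, h1]

theorem eq_ptW {a : Pt (e + 2)} (h : InPl a) : a = ptW (a 0) (a 1) := by
  funext l
  unfold ptW
  split_ifs with h0 h1
  · rw [h0]
  · rw [h1]
  · exact h l h0 h1

theorem inPl_sub0 {a : Pt (e + 2)} : InPl (a - ev 0) ↔ InPl a := by
  constructor
  · intro h l h0 h1
    have := h l h0 h1
    simpa [ev, h0] using this
  · intro h l h0 h1
    have := h l h0 h1
    simpa [ev, h0] using this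

theorem inPl_sub1 {a : Pt (e + 2)} : InPl (a - ev 1) ↔ InPl a := by
  constructor
  · intro h l h0 h1
    have := h l h0 h1
    simpa [ev, h1] using this
  · intro h l h0 h1
    have := h l h0 h1
    simpa [ev, h1] using this

theorem sub0_0 (a : Pt (e + 2)) : (a - ev 0 : Pt (e + 2)) 0 = a 0 - 1 := by simp [ev]
theorem sub0_1 (a : Pt (e + 2)) : (a - ev 0 : Pt (e + 2)) 1 = a 1 := by simp [ev]
theorem sub1_0 (a : Pt (e + 2)) : (a - ev 1 : Pt (e + 2)) 0 = a 0 := by simp [ev]
theorem sub1_1 (a : Pt (e + 2)) : (a - ev 1 : Pt (e + 2)) 1 = a 1 - 1 := by simp [ev]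

theorem inB_of_KAt {r : ℤ} (hr : (G.r0 : ℤ) ≤ r) {a : Pt (e + 2)} {k : Kind e n}
    (h : G.KAt a k) : InB r a := fun l => by
  have := G.KAt_lt h l
  have := G.XZ_r0
  omega

theorem io_inj (j : Fin (e + 2)) : Function.Injective (G.io j) := by
  intro b b' h
  by_cases hj : j = 1
  · subst hj
    have := congrFun h 0
    rw [G.io_zero, G.io_zero, G.px_one, G.px_one] at this
    exact G.xp_inj this
  · have := congrFun h 1
    rw [G.io_one_ne hj, G.io_one_ne hj] at this
    have := G.hgt_inj this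
    simpa using this

theorem eq_io {j : Fin (e + 2)} {b : EB e n} {a : Pt (e + 2)} (h : a j = 0)
    (h' : ∀ l, l ≠ j → a l = G.io j b l) : a = G.io j b := by
  funext l
  by_cases hl : l = j
  · rw [hl, h, G.io_self]
  · exact h' l hl

theorem eq_io' {j : Fin (e + 2)} {b : EB e n} {a : Pt (e + 2)} (hp : InPl a)
    (h0 : a 0 = G.px j b) (h1 : a 1 = G.vs j b) : a = G.io j b := by
  funext l
  unfold Geo.io
  unfold Geo.vs at h1
  split_ifs with hl0 hl1 hj
  · rw [hl0, h0]
  · rw [hl1, h1, if_pos hj]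
  · rw [hl1, h1, if_neg hj]
  · exact hp l hl0 hl1

theorem vs_nonneg (j : Fin (e + 2)) (b : EB e n) : 0 ≤ G.vs j b := by
  unfold Geo.vs
  split_ifs
  · exact le_rfl
  · have := G.hgt_ge (.oA j b); omega

theorem WW_bd {c : Row e n → Bool} {j : Fin (e + 2)} {a : Pt (e + 2)} (h : a j = 0) :
    G.WW c j a ↔ ∃ b, a = G.io j b ∧ c (.oA j b) = true := by
  unfold Geo.WW
  constructor
  · rintro ⟨b, h1, h2⟩
    exact ⟨b, eq_io G h h1, h2⟩
  · rintro ⟨b, h1, h2⟩
    exact ⟨b, fun l _ => by rw [h1], h2⟩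

theorem WW_io {c : Row e n → Bool} {j : Fin (e + 2)} {b : EB e n} :
    G.WW c j (G.io j b) ↔ c (.oA j b) = true := by
  rw [WW_bd G (G.io_self j b)]
  constructor
  · rintro ⟨b', h1, h2⟩
    rw [io_inj G j h1]; exact h2
  · intro h; exact ⟨b, rfl, h⟩

theorem HH_row {c : Row e n → Bool} {ρ : Row e n} {a : Pt (e + 2)} (hp : InPl a)
    (h1 : a 1 = G.hgt ρ) : G.HH c a ↔ (G.xs ρ ≤ a 0 ∧ a 0 < G.XZ ∧ c ρ = true) := by
  unfold Geo.HH
  constructor
  · rintro ⟨_, ρ', h2, h3, h4, h5⟩
    have : ρ' = ρ := G.hgt_inj (h2.symm.trans h1)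
    subst this
    exact ⟨h3, h4, h5⟩
  · rintro ⟨h3, h4, h5⟩
    exact ⟨hp, ρ, h1, h3, h4, h5⟩

theorem VV_xp {c : Row e n → Bool} {b : EB e n} {a : Pt (e + 2)} (hp : InPl a)
    (h0 : a 0 = G.xp b) :
    G.VV c a ↔ (0 ≤ a 1 ∧ a 1 < G.hgt (.iB 1 b) ∧ c (.iB 1 b) = true) := by
  unfold Geo.VV
  constructor
  · rintro ⟨_, ⟨j, b', h1, h2, h3, h4⟩ | ⟨q, h1, _⟩⟩
    · obtain ⟨rfl, rfl⟩ := G.px_eq_one (h1.symm.trans h0)
      have := vs_nonneg G 1 b'
      exact ⟨by omega, h3, h4⟩
    · exfalso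
      have := G.xp_XR b; have := G.colx_XR q; omega
  · rintro ⟨h1, h2, h3⟩
    exact ⟨hp, Or.inl ⟨1, b, by rw [G.px_one]; exact h0, by simpa [Geo.vs] using h1, h2, h3⟩⟩

theorem VV_zero {c : Row e n → Bool} {a : Pt (e + 2)} (hp : InPl a)
    (h0 : a 0 = 0) :
    G.VV c a ↔ ∃ j b, j ≠ 1 ∧ G.hgt (.oA j b) ≤ a 1 ∧ a 1 < G.hgt (.oA j b) + 2 ∧
      c (.iB j b) = true := by
  unfold Geo.VV
  constructor
  · rintro ⟨_, ⟨j, b', h1, h2, h3, h4⟩ | ⟨q, h1, _⟩⟩
    · have hj : j ≠ 1 := by
        rintro rfl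
        rw [G.px_one] at h1
        have := G.xp_pos b'; omega
      refine ⟨j, b', hj, ?_, ?_, h4⟩
      · simpa [Geo.vs, hj] using h2
      · rw [← G.hgt_pair j b' hj]; exact h3
    · exfalso
      have := G.XR_pos; have := G.colx_XR q; omega
  · rintro ⟨j, b, hj, h1, h2, h3⟩
    refine ⟨hp, Or.inl ⟨j, b, by rw [G.px_ne hj]; exact h0, by simpa [Geo.vs, hj] using h1, ?_, h3⟩⟩
    rw [G.hgt_pair j b hj]; exact h2

theorem colx_inj {q q' : Col enc} (h : G.colx q = G.colx q') : q = q' := by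
  by_contra hne
  have := G.colx_sep q q' hne
  rw [h] at this
  simp at this

theorem VV_colx {c : Row e n → Bool} {q : Col enc} {a : Pt (e + 2)} (hp : InPl a)
    (h0 : a 0 = G.colx q) :
    G.VV c a ↔ (2 ≤ a 1 ∧ a 1 < G.Yt ∧ ∀ ρ, G.hgt ρ ≤ a 1 → c ρ = q.1.1 ρ) := by
  unfold Geo.VV
  constructor
  · rintro ⟨_, ⟨j, b', h1, h2, h3, h4⟩ | ⟨q', h1, h2, h3, h4⟩⟩
    · exfalso
      have := G.px_lt_XR j b'; have := G.colx_XR q; omega
    · have : q' = q := colx_inj G (h1.symm.trans h0)
      subst this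
      exact ⟨h2, h3, h4⟩
  · rintro ⟨h2, h3, h4⟩
    exact ⟨hp, Or.inr ⟨q, h0, h2, h3, h4⟩⟩

/-- where a row starts there is a gadget -/
theorem KAt_start {a : Pt (e + 2)} (hp : InPl a) {ρ : Row e n} (h1 : a 1 = G.hgt ρ)
    (h0 : a 0 = G.xs ρ) :
    G.ka0 a = .tap ∨ G.ka0 a = .tr ∨ (∃ t, G.ka0 a = .rt t) ∨ G.ka0 a = .fb ∨ G.ka0 a = .fm ∨
      G.ka0 a = .one ∨ ∃ j, j ≠ 1 ∧ G.ka0 a = .port j := by
  cases ρ with
  | ty t => exact Or.inr (Or.inr (Or.inl ⟨t, G.ka0_eq (.rt t hp h0 h1)⟩))
  | iB j b => exact Or.inr (Or.inl (G.ka0_eq (.tr j b hp h0 h1)))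
  | oA j b =>
    by_cases hj : j = 1
    · subst hj
      refine Or.inl (G.ka0_eq (.tap b hp ?_ h1))
      rw [h0]; exact G.px_one b
    · refine Or.inr (Or.inr (Or.inr (Or.inr (Or.inr (Or.inr ⟨j, hj, ?_⟩)))))
      refine G.ka0_eq (.port j b (eq_io' G hp h0 ?_))
      rw [h1]; simp [Geo.vs, hj]
  | om => exact Or.inr (Or.inr (Or.inr (Or.inr (Or.inl (G.ka0_eq (.fm hp h0 h1))))))
  | be => exact Or.inr (Or.inr (Or.inr (Or.inl (G.ka0_eq (.fb _ (Or.inl rfl) hp h0 h1)))))
  | oh =>
    exact Or.inr (Or.inr (Or.inr (Or.inl (G.ka0_eq (.fb _ (Or.inr (Or.inl rfl)) hp h0 h1)))))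
  | ov =>
    exact Or.inr (Or.inr (Or.inr (Or.inl (G.ka0_eq (.fb _ (Or.inr (Or.inr rfl)) hp h0 h1)))))
  | one =>
    exact Or.inr (Or.inr (Or.inr (Or.inr (Or.inr (Or.inl (G.ka0_eq (.one hp h0 h1)))))))

/-- propagation of the `h` wire away from the gadgets -/
theorem HH_step {c : Row e n → Bool} {a : Pt (e + 2)}
    (hns : ∀ ρ, InPl a → a 1 = G.hgt ρ → a 0 ≠ G.xs ρ ∧ a 0 ≠ G.XZ) :
    G.HH c a ↔ (a 0 ≠ 0 ∧ G.HH c (a - ev 0)) := by
  unfold Geo.HH
  rw [inPl_sub0, sub0_0, sub0_1]
  constructor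
  · rintro ⟨hp, ρ, h1, h2, h3, h4⟩
    obtain ⟨h5, h6⟩ := hns ρ hp h1
    have := G.xs_nonneg ρ
    exact ⟨by omega, hp, ρ, h1, by omega, by omega, h4⟩
  · rintro ⟨h0, hp, ρ, h1, h2, h3, h4⟩
    obtain ⟨h5, h6⟩ := hns ρ hp h1
    exact ⟨hp, ρ, h1, by omega, by omega, h4⟩

/-- propagation of the `v` wire away from the gadgets -/
theorem VV_step {c : Row e n → Bool} {a : Pt (e + 2)}
    (h1 : ∀ j b, InPl a → a 0 = G.px j b → a 1 ≠ G.vs j b ∧ a 1 ≠ G.hgt (.iB j b))
    (h2 : ∀ q, InPl a → a 0 = G.colx q → a 1 ≠ 2 ∧ a 1 ≠ G.Yt ∧ ∀ ρ, a 1 ≠ G.hgt ρ) :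
    G.VV c a ↔ (a 1 ≠ 0 ∧ G.VV c (a - ev 1)) := by
  unfold Geo.VV
  rw [inPl_sub1, sub1_0, sub1_1]
  constructor
  · rintro ⟨hp, ⟨j, b, h3, h4, h5, h6⟩ | ⟨q, h3, h4, h5, h6⟩⟩
    · obtain ⟨h7, h8⟩ := h1 j b hp h3
      have := vs_nonneg G j b
      exact ⟨by omega, hp, Or.inl ⟨j, b, h3, by omega, by omega, h6⟩⟩
    · obtain ⟨h7, h8, h9⟩ := h2 q hp h3
      exact ⟨by omega, hp, Or.inr ⟨q, h3, by omega, by omega, fun ρ h => h6 ρ (by omega)⟩⟩
  · rintro ⟨h0, hp, ⟨j, b, h3, h4, h5, h6⟩ | ⟨q, h3, h4, h5, h6⟩⟩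
    · obtain ⟨h7, h8⟩ := h1 j b hp h3
      exact ⟨hp, Or.inl ⟨j, b, h3, by omega, by omega, h6⟩⟩
    · obtain ⟨h7, h8, h9⟩ := h2 q hp h3
      refine ⟨hp, Or.inr ⟨q, h3, by omega, by omega, fun ρ h => h6 ρ ?_⟩⟩
      have := h9 ρ
      omega

/-- the gadgets used in `VV_step` -/
theorem VV_step' {c : Row e n → Bool} {a : Pt (e + 2)} 
    (hk1 : ∀ j, G.ka0 a ≠ .port j) (hk2 : G.ka0 a ≠ .tr) (hk3 : G.ka0 a ≠ .v1)
    (hk4 : ∀ b, G.ka0 a ≠ .pp b) (hk5 : G.ka0 a ≠ .bad) :
    G.VV c a ↔ (a 1 ≠ 0 ∧ G.VV c (a - ev 1)) := by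
  refine VV_step G (fun j b hp h0 => ⟨fun h1 => ?_, fun h1 => ?_⟩)
    (fun q hp h0 => ⟨fun h1 => ?_, fun h1 => ?_, fun ρ h1 => ?_⟩)
  · exact hk1 j (G.ka0_eq (.port j b (eq_io' G hp h0 h1)))
  · exact hk2 (G.ka0_eq (.tr j b hp h0 h1))
  · exact hk3 (G.ka0_eq (.v1 q hp h0 h1))
  · exact hk5 (G.ka0_eq (.bad q hp h0 h1))
  · exact hk4 _ (G.ka0_eq (.pp q ρ hp h0 h1))

/-- the gadgets used in `HH_step` -/
theorem HH_step' {c : Row e n → Bool} {a : Pt (e + 2)}
    (hk1 : ∀ j, j ≠ 1 → G.ka0 a ≠ .port j) (hk2 : G.ka0 a ≠ .tr) (hk3 : G.ka0 a ≠ .tap)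
    (hk4 : ∀ t, G.ka0 a ≠ .rt t) (hk5 : G.ka0 a ≠ .fb) (hk6 : G.ka0 a ≠ .fm)
    (hk7 : G.ka0 a ≠ .one) (hk8 : G.ka0 a ≠ .zz) :
    G.HH c a ↔ (a 0 ≠ 0 ∧ G.HH c (a - ev 0)) := by
  refine HH_step G (fun ρ hp h1 => ⟨fun h0 => ?_, fun h0 => ?_⟩)
  · rcases KAt_start G hp h1 h0 with h | h | ⟨t, h⟩ | h | h | h | ⟨j, hj, h⟩
    · exact hk3 h
    · exact hk2 h
    · exact hk4 t h
    · exact hk5 h
    · exact hk6 h
    · exact hk7 h
    · exact hk1 j hj h
  · exact hk8 (G.ka0_eq (.zz ρ hp h0 h1))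

end WiresAux

open WiresAux

/-- the wires are given by the formulas -/
theorem Geo.wires_aux {r : ℤ} (T : Typ e n)
    (o : Pt (e + 2) → Own e n) (inn : Pt (e + 2) → Fin (e + 2) → Edge e n)
    (hR : ∀ a, InB r a → Rules enc ⟨G.Ty r a, inn a, o a⟩)
    (hT : ∀ a, InB r a → (o a).T = T)
    (hin : ∀ a, InB r a → ∀ j, a j ≠ 0 →
      inn a j = out j (G.Ty r (a - ev j)).L (o (a - ev j)))
    (c : Row e n → Bool)
    (hc_ty : ∀ t, c (.ty t) = tbit enc T t)
    (hc_o : ∀ j b, c (.oA j b) = (o (G.io j b)).w j)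
    (hc_i : ∀ j b, c (.iB j b) = (inn (G.io j b) j).w)
    (hc_m : c .om = (o (ptW G.XR (G.hgt .om))).h)
    (hc_f : ∀ ρ, ρ = .be ∨ ρ = .oh ∨ ρ = .ov → c ρ = (o (ptW G.XR (G.hgt ρ))).h)
    (hc_1 : c .one = true) :
    ∀ a, InB r a → (∀ j, (o a).w j = true ↔ G.WW c j a) ∧
      ((o a).h = true ↔ G.HH c a) ∧ ((o a).v = true ↔ G.VV c a) := by
  -- moving back inside the block
  have hback : ∀ a : Pt (e + 2), InB r a → ∀ j : Fin (e + 2), a j ≠ 0 → InB r (a - ev j) := by
    intro a ha j hj l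
    have := ha l
    have := ha j
    by_cases hl : l = j
    · subst hl
      have : (a - ev l : Pt (e + 2)) l = a l - 1 := by simp [ev]
      rw [this]; omega
    · have : (a - ev j : Pt (e + 2)) l = a l := by simp [ev, hl]
      rw [this]; omega
  have hL : ∀ a : Pt (e + 2), InB r a → ∀ j, (G.Ty r (a - ev j)).L j = false := by
    intro a ha j
    have := ha j
    have h2 : (a - ev j : Pt (e + 2)) j = a j - 1 := by simp [ev]
    simp only [Geo.Ty, h2, decide_eq_false_iff_not]
    omega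
  -- the `w` wires
  have hw : ∀ j, ∀ k : ℕ, ∀ a, InB r a → a j = k → ((o a).w j = true ↔ G.WW c j a) := by
    intro j k
    induction k with
    | zero =>
      intro a ha h0
      have h0 : a j = 0 := by simpa using h0
      rw [WW_bd G h0]
      by_cases hk : G.ka0 a = .port j
      · rcases G.ka0_cases a with h | ⟨_, h⟩
        · rw [hk] at h
          cases h with
          | port _ b h =>
            constructor
            · intro hw
              exact ⟨b, h, by rw [hc_o, ← h]; exact hw⟩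
            · rintro ⟨b', h', hc⟩
              rw [hc_o, ← h'] at hc
              exact hc
        · rw [hk] at h; cases h
      · have h10 := ((hR a ha).r10 j).2 (by simp [Geo.Ty, h0]) hk
        constructor
        · intro h; rw [h10] at h; cases h
        · rintro ⟨b, h, _⟩
          exact absurd (G.ka0_eq (.port j b h)) hk
    | succ k ih =>
      intro a ha h0
      have hne : a j ≠ 0 := by rw [h0]; push_cast; omega
      have h10 := ((hR a ha).r10 j).1 (by simp [Geo.Ty, hne])
      have h11 : (inn a j).w = (o (a - ev j)).w j := by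
        rw [hin a ha j hne]; rfl
      have h12 : (o a).w j = (o (a - ev j)).w j := h10.trans h11
      rw [h12, ih (a - ev j) (hback a ha j hne) (by simp [ev, h0]), G.WW_sub]
  have hw' : ∀ a, InB r a → ∀ j, ((o a).w j = true ↔ G.WW c j a) := by
    intro a ha j
    exact hw j (a j).toNat a ha (by rw [Int.toNat_of_nonneg (ha j).1])
  have hge := G.hgt_ge
  have hltY := G.hgt_lt_Yt
  have hYZ := G.Yt_XZ
  have hXZ := G.XR_XZ
  have hXR := G.XR_pos
  have hXr := G.XZ_r0
  -- the wires `h` and `v`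
  have main : ∀ k : ℕ, ∀ a, InB r a → a 0 + a 1 = k →
      (((o a).h = true ↔ G.HH c a) ∧ ((o a).v = true ↔ G.VV c a)) := by
    intro k
    induction k using Nat.strong_induction_on with
    | _ k ih =>
    intro a ha hak
    have ha0 := ha 0
    have ha1 := ha 1
    -- the previous values
    have hH : (!(G.Ty r a).F 0 && (inn a 0).h) = true ↔ (a 0 ≠ 0 ∧ G.HH c (a - ev 0)) := by
      by_cases h0 : a 0 = 0
      · simp [Geo.Ty, h0]
      · have h1 : (inn a 0).h = (o (a - ev 0)).h := by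
          rw [hin a ha 0 h0]
          simp [out, hL a ha 0]
        have h2 := (ih (k - 1) (by omega) (a - ev 0) (hback a ha 0 h0)
          (by rw [sub0_0, sub0_1]; omega)).1
        simp only [Geo.Ty, h0, decide_false, Bool.not_false, Bool.true_and, h1]
        rw [h2]
        exact ⟨fun h => ⟨h0, h⟩, fun h => h.2⟩
    have hVp : a 1 ≠ 0 → ((inn a 1).v = true ↔ G.VV c (a - ev 1)) := by
      intro h0
      have h1 : (inn a 1).v = (o (a - ev 1)).v := by
        rw [hin a ha 1 h0]
        simp [out, hL a ha 1]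
      have h2 := (ih (k - 1) (by omega) (a - ev 1) (hback a ha 1 h0)
          (by rw [sub1_0, sub1_1]; omega)).2
      rw [h1, h2]
    have hV : (!(G.Ty r a).F 1 && (inn a 1).v) = true ↔ (a 1 ≠ 0 ∧ G.VV c (a - ev 1)) := by
      by_cases h0 : a 1 = 0
      · simp [Geo.Ty, h0]
      · simp only [Geo.Ty, h0, decide_false, Bool.not_false, Bool.true_and]
        rw [hVp h0]
        exact ⟨fun h => ⟨h0, h⟩, fun h => h.2⟩
    have hW1 : a 1 ≠ 0 → ((inn a 1).w = true ↔ G.WW c 1 a) := by
      intro h0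
      have h1 : (inn a 1).w = (o (a - ev 1)).w 1 := by
        rw [hin a ha 1 h0]; rfl
      rw [h1, hw' _ (hback a ha 1 h0) 1, G.WW_sub]
    have R := hR a ha
    have r11 := R.r11
    have r12 := R.r12
    rcases G.ka0_cases a with hK | ⟨hno, hK⟩
    · -- a gadget
      generalize hk : G.ka0 a = kd at hK
      have hkk : (G.Ty r a).ka = kd := hk
      simp only [hkk] at r11 r12
      cases hK with
      | port j b h =>
        have h0 : a 0 = G.px j b := by rw [h, G.io_zero]
        have hp : InPl a := h ▸ G.io_inPl j b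
        simp only at r11 r12
        have hcw : (inn a j).w = c (.iB j b) := by rw [hc_i, h]
        have hco : (o a).w j = c (.oA j b) := by rw [hc_o, h]
        by_cases hj : j = 1
        · subst hj
          have h1 : a 1 = 0 := by rw [h, G.io_one_one]
          rw [if_pos rfl] at r11
          refine ⟨?_, ?_⟩
          · rw [r11, hH]
            refine (HH_step G (fun ρ _ h2 => ?_)).symm
            have := hge ρ; omega
          · rw [r12, hcw, VV_xp G hp (by rw [h0, G.px_one]), h1]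
            have := hge (.iB 1 b)
            constructor
            · intro h; exact ⟨le_rfl, by omega, h⟩
            · exact fun h => h.2.2
        · have h1 : a 1 = G.hgt (.oA j b) := by rw [h, G.io_one_ne hj]
          rw [G.px_ne hj] at h0
          rw [if_neg hj] at r11
          refine ⟨?_, ?_⟩
          · rw [r11, hco, HH_row G hp h1]
            constructor
            · intro h2
              refine ⟨?_, by omega, h2⟩
              simp [Geo.xs, G.px_ne hj, h0]
            · exact fun h => h.2.2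
          · rw [r12, hcw, VV_zero G hp h0, h1]
            constructor
            · intro h2
              exact ⟨j, b, hj, le_rfl, by omega, h2⟩
            · rintro ⟨j', b', hj', h2, h3, h4⟩
              have e1 := G.hgt_even (.oA j b)
              have e2 := G.hgt_even (.oA j' b')
              have : G.hgt (.oA j' b') = G.hgt (.oA j b) := by omega
              have := G.hgt_inj this
              simp only [Row.oA.injEq] at this
              rw [← this.1, ← this.2]; exact h4
      | tr j b hp h0 h1 =>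
        simp only at r11 r12
        have hgb := hge (.iB j b)
        have hn1 : a 1 ≠ 0 := by omega
        have hp' : InPl (a - ev 1) := inPl_sub1.2 hp
        have hltX := G.px_lt_XR j b
        refine ⟨?_, ?_⟩
        · rw [r11, hVp hn1, HH_row G hp h1]
          have hR : (G.xs (.iB j b) ≤ a 0 ∧ a 0 < G.XZ ∧ c (.iB j b) = true) ↔
              c (.iB j b) = true := by
            refine ⟨fun h => h.2.2, fun h => ⟨?_, by omega, h⟩⟩
            simp [Geo.xs, h0]
          rw [hR]
          by_cases hj : j = 1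
          · subst hj
            rw [VV_xp G hp' (by rw [sub1_0, h0, G.px_one]), sub1_1]
            constructor
            · exact fun h => h.2.2
            · intro h; exact ⟨by omega, by omega, h⟩
          · rw [G.px_ne hj] at h0
            rw [VV_zero G hp' (by rw [sub1_0, h0]), sub1_1, h1]
            have hpair := G.hgt_pair j b hj
            constructor
            · rintro ⟨j', b', hj', h2, h3, h4⟩
              have e1 := G.hgt_even (.oA j b)
              have e2 := G.hgt_even (.oA j' b')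
              have : G.hgt (.oA j' b') = G.hgt (.oA j b) := by omega
              have := G.hgt_inj this
              simp only [Row.oA.injEq] at this
              rw [← this.1, ← this.2]; exact h4
            · intro h2
              exact ⟨j, b, hj, by omega, by omega, h2⟩
        · rw [r12]
          constructor
          · intro h; cases h
          · intro h
            exfalso
            by_cases hj : j = 1
            · subst hj
              rw [VV_xp G hp (by rw [h0, G.px_one])] at h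
              omega
            · rw [G.px_ne hj] at h0
              rw [VV_zero G hp h0] at h
              obtain ⟨j', b', hj', h2, h3, h4⟩ := h
              have e1 := G.hgt_even (.iB j b)
              have e2 := G.hgt_even (.oA j' b')
              have : G.hgt (.oA j' b') = G.hgt (.iB j b) := by omega
              have := G.hgt_inj this
              simp at this
      | tap b hp h0 h1 =>
        simp only at r11 r12
        have hgb := hge (.oA 1 b)
        have hn1 : a 1 ≠ 0 := by omega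
        have hltX := G.xp_XR b
        refine ⟨?_, ?_⟩
        · rw [r11, hW1 hn1, HH_row G hp h1]
          have hR : (G.xs (.oA 1 b) ≤ a 0 ∧ a 0 < G.XZ ∧ c (.oA 1 b) = true) ↔
              c (.oA 1 b) = true := by
            refine ⟨fun h => h.2.2, fun h => ⟨?_, by omega, h⟩⟩
            simp [Geo.xs, h0, G.px_one]
          rw [hR]
          unfold Geo.WW
          constructor
          · rintro ⟨b', h2, h3⟩
            have := h2 0 ne01
            rw [h0, G.io_zero, G.px_one] at this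
            rw [G.xp_inj this]; exact h3
          · intro h2
            refine ⟨b, fun l hl => ?_, h2⟩
            by_cases hl0 : l = 0
            · rw [hl0, h0, G.io_zero, G.px_one]
            · rw [hp l hl0 hl, G.io_inPl 1 b l hl0 hl]
        · rw [r12, hV]
          refine (VV_step' G ?_ ?_ ?_ ?_ ?_).symm <;> simp [hk]
      | rt t hp h0 h1 =>
        simp only at r11 r12
        refine ⟨?_, ?_⟩
        · rw [r11, hT a ha, ← hc_ty, HH_row G hp h1]
          refine ⟨fun h => ⟨?_, by omega, h⟩, fun h => h.2.2⟩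
          rw [h0]; exact G.xs_le_XR _
        · rw [r12, hV]
          refine (VV_step' G ?_ ?_ ?_ ?_ ?_).symm <;> simp [hk]
      | fm hp h0 h1 =>
        simp only at r12
        refine ⟨?_, ?_⟩
        · rw [HH_row G hp h1]
          have : a = ptW G.XR (G.hgt .om) := by rw [eq_ptW hp, h0, h1]
          rw [← this] at hc_m
          rw [← hc_m]
          refine ⟨fun h => ⟨?_, by omega, h⟩, fun h => h.2.2⟩
          rw [h0]; exact G.xs_le_XR _
        · rw [r12, hV]
          refine (VV_step' G ?_ ?_ ?_ ?_ ?_).symm <;> simp [hk]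
      | fb ρ hρ hp h0 h1 =>
        simp only at r12
        refine ⟨?_, ?_⟩
        · rw [HH_row G hp h1]
          have : a = ptW G.XR (G.hgt ρ) := by rw [eq_ptW hp, h0, h1]
          have hcf := hc_f ρ hρ
          rw [← this] at hcf
          rw [← hcf]
          refine ⟨fun h => ⟨?_, by omega, h⟩, fun h => h.2.2⟩
          rw [h0]; exact G.xs_le_XR _
        · rw [r12, hV]
          refine (VV_step' G ?_ ?_ ?_ ?_ ?_).symm <;> simp [hk]
      | one hp h0 h1 =>
        simp only at r11 r12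
        refine ⟨?_, ?_⟩
        · rw [r11, HH_row G hp h1]
          refine ⟨fun h => ⟨?_, by omega, hc_1⟩, fun _ => rfl⟩
          rw [h0]; exact G.xs_le_XR _
        · rw [r12, hV]
          refine (VV_step' G ?_ ?_ ?_ ?_ ?_).symm <;> simp [hk]
      | v1 q hp h0 h1 =>
        simp only at r11 r12
        have hc1 := G.colx_XR q
        have hc2 := G.colx_XZ q
        refine ⟨?_, ?_⟩
        · rw [r11, hH]
          refine (HH_step' G ?_ ?_ ?_ ?_ ?_ ?_ ?_ ?_).symm <;> simp [hk]
        · rw [r12, VV_colx G hp h0]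
          have := hge .one
          have := hltY .one
          refine ⟨fun _ => ⟨by omega, by omega, fun ρ hρ => ?_⟩, fun _ => rfl⟩
          have := hge ρ; omega
      | pp q ρ hp h0 h1 =>
        simp only at r11 r12
        have hc1 := G.colx_XR q
        have hc2 := G.colx_XZ q
        have hg1 := hge ρ
        have hn1 : a 1 ≠ 0 := by omega
        have hp' : InPl (a - ev 1) := inPl_sub1.2 hp
        have hh : (o a).h = true ↔ G.HH c a := by
          rw [r11, hH]
          refine (HH_step' G ?_ ?_ ?_ ?_ ?_ ?_ ?_ ?_).symm <;> simp [hk]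
        refine ⟨hh, ?_⟩
        have hh2 : (o a).h = true ↔ c ρ = true := by
          rw [hh, HH_row G hp h1]
          refine ⟨fun h => h.2.2, fun h => ⟨?_, by omega, h⟩⟩
          have := G.xs_le_XR ρ; omega
        have hh3 : (o a).h = c ρ := by
          rw [Bool.eq_iff_iff]; exact hh2
        rw [r12, Bool.and_eq_true, hVp hn1, beq_iff_eq, hh3, VV_colx G hp h0,
          VV_colx G hp' (by rw [sub1_0, h0]), sub1_1, h1]
        have := hltY ρ
        constructor
        · rintro ⟨⟨h2, h3, h4⟩, h5⟩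
          refine ⟨by omega, by omega, fun ρ' hρ' => ?_⟩
          by_cases he : ρ' = ρ
          · rw [he]; exact h5
          · have : G.hgt ρ' ≠ G.hgt ρ := fun h => he (G.hgt_inj h)
            exact h4 ρ' (by omega)
        · rintro ⟨h2, h3, h4⟩
          exact ⟨⟨by omega, by omega, fun ρ' hρ' => h4 ρ' (by omega)⟩, h4 ρ le_rfl⟩
      | bad q hp h0 h1 =>
        simp only at r11 r12
        refine ⟨?_, ?_⟩
        · rw [r11, hH]
          refine (HH_step' G ?_ ?_ ?_ ?_ ?_ ?_ ?_ ?_).symm <;> simp [hk]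
        · rw [r12.2, VV_colx G hp h0, h1]
          constructor
          · intro h; cases h
          · intro h; omega
      | zz ρ hp h0 h1 =>
        simp only at r11 r12
        refine ⟨?_, ?_⟩
        · rw [r11, HH_row G hp h1]
          constructor
          · intro h; cases h
          · intro h; omega
        · rw [r12, hV]
          refine (VV_step' G ?_ ?_ ?_ ?_ ?_).symm <;> simp [hk]
    · -- no gadget
      have hkk : (G.Ty r a).ka = .dd := hK
      simp only [hkk] at r11 r12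
      refine ⟨?_, ?_⟩
      · rw [r11, hH]
        refine (HH_step' G ?_ ?_ ?_ ?_ ?_ ?_ ?_ ?_).symm <;> simp [hK]
      · rw [r12, hV]
        refine (VV_step' G ?_ ?_ ?_ ?_ ?_).symm <;> simp [hK]
  intro a ha
  have h1 := main (a 0 + a 1).toNat a ha (by
    have := ha 0; have := ha 1
    rw [Int.toNat_of_nonneg (by omega)])
  exact ⟨hw' a ha, h1.1, h1.2⟩

open Classical in
theorem Geo.wires {r : ℤ} (hr : (G.r0 : ℤ) ≤ r) (T : Typ e n) (mm : Bool)
    (o : Pt (e + 2) → Own e n) (inn : Pt (e + 2) → Fin (e + 2) → Edge e n)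
    (hR : ∀ a, InB r a → Rules enc ⟨G.Ty r a, inn a, o a⟩)
    (hT : ∀ a, InB r a → (o a).T = T) (hm : ∀ a, InB r a → (o a).m = mm)
    (hin : ∀ a, InB r a → ∀ j, a j ≠ 0 →
      inn a j = out j (G.Ty r (a - ev j)).L (o (a - ev j)))
    (hbd : ∀ a, InB r a → ∀ j, a j = 0 → (inn a j).h = false ∧ (inn a j).v = false) :
    ∃ c : Row e n → Bool, (∃ θ : St e n, Rules enc θ ∧ code enc θ = c) ∧
      (∀ t, c (.ty t) = tbit enc T t) ∧
      (∀ j b, c (.oA j b) = (o (G.io j b)).w j) ∧
      (∀ j b, c (.iB j b) = (inn (G.io j b) j).w) ∧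
      (mm = true → c .om = true ∧ ∃ j, T.F j = false) ∧
      ∀ a, InB r a → (∀ j, (o a).w j = decide (G.WW c j a)) ∧
        (o a).h = decide (G.HH c a) ∧ (o a).v = decide (G.VV c a) := by
  set c : Row e n → Bool := fun ρ =>
    match ρ with
    | .ty t => tbit enc T t
    | .iB j b => (inn (G.io j b) j).w
    | .oA j b => (o (G.io j b)).w j
    | .om => (o (ptW G.XR (G.hgt .om))).h
    | .be => (o (ptW G.XR (G.hgt .be))).h
    | .oh => (o (ptW G.XR (G.hgt .oh))).h
    | .ov => (o (ptW G.XR (G.hgt .ov))).h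
    | .one => true with hc
  have hA := G.wires_aux T o inn hR hT hin c (fun _ => rfl) (fun _ _ => rfl) (fun _ _ => rfl)
    rfl (by rintro ρ (rfl | rfl | rfl) <;> rfl) rfl
  refine ⟨c, ?_, fun _ => rfl, fun _ _ => rfl, fun _ _ => rfl, ?_, ?_⟩
  · -- `c` is a code
    by_contra hcon
    push Not at hcon
    set q : Col enc := (⟨c, hcon⟩, 0) with hq
    set a : Pt (e + 2) := ptW (G.colx q) G.Yt with ha
    have hk : G.KAt a .bad := .bad q (ptW_inPl _ _) (ptW_zero _ _) (ptW_one _ _)
    have haB := inB_of_KAt G hr hk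
    have r12 := (hR a haB).r12
    have hkk : (G.Ty r a).ka = .bad := G.ka0_eq hk
    simp only [hkk] at r12
    have h1 : a 1 = G.Yt := ptW_one _ _
    have h0 : a 0 = G.colx q := ptW_zero _ _
    have hY := G.hgt_lt_Yt .one
    have hg := G.hgt_ge .one
    have hn1 : a 1 ≠ 0 := by rw [h1]; omega
    have hb : InB r (a - ev 1) := by
      intro l
      have := haB l
      by_cases hl : l = 1
      · subst hl
        rw [sub1_1]; omega
      · have : (a - ev 1 : Pt (e + 2)) l = a l := by simp [ev, hl]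
        rw [this]; omega
    have h2 := (hA (a - ev 1) hb).2.2
    have h3 : (inn a 1).v = (o (a - ev 1)).v := by
      rw [hin a haB 1 hn1]
      have hh := haB 1
      have : (G.Ty r (a - ev 1)).L 1 = false := by
        simp only [Geo.Ty, sub1_1, decide_eq_false_iff_not]
        omega
      simp [out, this]
    rw [← h3, r12.1] at h2
    have h4 : G.VV c (a - ev 1) := by
      have hp : InPl (a - ev 1) := inPl_sub1.2 (ptW_inPl _ _)
      rw [VV_colx G (q := q) hp (by rw [sub1_0, h0]), sub1_1, h1]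
      exact ⟨by omega, by omega, fun ρ _ => rfl⟩
    have := h2.2 h4
    cases this
  · intro hmm
    have hk : G.KAt (ptW G.XR (G.hgt .om)) .fm :=
      .fm (ptW_inPl _ _) (ptW_zero _ _) (ptW_one _ _)
    have haB := inB_of_KAt G hr hk
    have r11 := (hR _ haB).r11
    have hkk : (G.Ty r (ptW G.XR (G.hgt .om))).ka = .fm := G.ka0_eq hk
    simp only [hkk] at r11
    have := r11 (by rw [hm _ haB, hmm])
    rw [hT _ haB] at this
    exact this
  · intro a ha
    obtain ⟨h1, h2, h3⟩ := hA a ha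
    refine ⟨fun j => ?_, ?_, ?_⟩
    · rw [Bool.eq_iff_iff, h1 j]; simp
    · rw [Bool.eq_iff_iff, h2]; simp
    · rw [Bool.eq_iff_iff, h3]; simp

end Pool.Agent.Lib.P05dae2
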