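import Mathlib
import Pool.Agent.Lib.P05dae2.Labels
import Pool.Agent.Lib.P05dae2.Wires
import Pool.Agent.Lib.P05dae2.BEdge

/-!
# Desubstitution (module Desub of MP_05dae2_an)
-/

namespace Pool.Agent.Lib.P05dae2

variable {e n : ℕ} {enc : Kind e n → Fin n → Bool} (G : Geo enc)

namespace DesubAux

/-- A quantity which does not change along the unit vectors is constant. -/
theorem const_of_inv {β : Type} (Φ : Pt (e + 2) → β)
    (h : ∀ j p, Φ (p - ev j) = Φ p) (p p' : Pt (e + 2)) : Φ p = Φ p' := by
  rw [← LabelsAux.upd_inv Φ 0 (h 0) p' (p 0)]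
  exact LabelsAux.inv_coord Φ 0 (fun j _ => h j) _ _ (by simp)

theorem io_inB {r : ℤ} (hr : (G.r0 : ℤ) ≤ r) (j : Fin (e + 2)) (b : EB e n) :
    InB r (G.io j b) := fun l => by
  have := G.KAt_lt (Geo.KAt.port (G := G) j b rfl) l
  have := G.XZ_r0
  omega

theorem WW_congr {c : Row e n → Bool} {j : Fin (e + 2)} {a a' : Pt (e + 2)}
    (h : ∀ l, l ≠ j → a l = a' l) : G.WW c j a ↔ G.WW c j a' := by
  unfold Geo.WW
  constructor
  · rintro ⟨b, h1, h2⟩
    exact ⟨b, fun l hl => by rw [← h l hl]; exact h1 l hl, h2⟩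
  · rintro ⟨b, h1, h2⟩
    exact ⟨b, fun l hl => by rw [h l hl]; exact h1 l hl, h2⟩

end DesubAux

open DesubAux

theorem Geo.desubC (k : ℕ) (x : Cfg (e + 2) (G.SL k)) (hx : x ∈ NN (G.OkL k) (G.AdjL k)) :
    ∃ t : Pt (e + 2), ∃ y ∈ NN (G.OkL (k + 1)) (G.AdjL (k + 1)), ∃ m : Pt (e + 2) → Bool,
      ∃ β : Pt (e + 2) → Pt (e + 2) → Bool,
      (∀ u, m u = true → (y u).2.own.m = true ∧ ∃ j, G.lab (y u) j ≠ 0) ∧
      (∀ u a, β u a = true → m u = true) ∧
      ∀ p, x (p + t) = G.expC k y m β p := by
  classical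
  have hrpos := BEdge.rr_pos G k
  have hr0 := BEdge.r0_le G k
  have hrs := BEdge.rr_succ G k
  set r := G.rr k with hrdef
  obtain ⟨hOk, hAdj⟩ := hx
  have hmod : ∀ K a : ℤ, 0 ≤ a → a < r → (r * K + a) % r = a := by
    intro K a ha ha'
    rw [add_comm, Int.add_mul_emod_self_left, Int.emod_eq_of_lt ha ha']
  -- the labels
  have hlabB : ∀ p, InB r (G.lab (x p)) := fun p => BEdge.lab_inB G k (x p)
  have hlab0 : ∀ p l, G.lab (x p) l = (G.lab (x 0) l + p l) % r := by
    intro p l
    have hc := const_of_inv (fun p => (G.lab (x p) l - p l) % r) (fun j p => by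
      rw [(hAdj p j).1 l]
      by_cases hl : l = j
      · subst hl
        rw [if_pos rfl, ← hrdef, Int.emod_sub_emod]
        congr 1
        simp only [Pi.sub_apply, ev, if_true]
        ring
      · rw [if_neg hl]
        simp only [Pi.sub_apply, ev, if_neg hl, sub_zero]) p 0
    simp only [Pi.zero_apply, sub_zero] at hc
    have h1 := hlabB p l
    have h2 : G.lab (x p) l = G.lab (x p) l % r := (Int.emod_eq_of_lt h1.1 h1.2).symm
    rw [h2]
    have h3 : G.lab (x p) l = (G.lab (x p) l - p l) + p l := by ring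
    rw [h3, Int.add_emod, hc, ← Int.add_emod]
  set t : Pt (e + 2) := fun l => - G.lab (x 0) l with ht
  have hlab : ∀ p l, G.lab (x (p + t)) l = p l % r := by
    intro p l
    rw [hlab0]
    congr 1
    simp only [Pi.add_apply, ht]
    ring
  set θ : Pt (e + 2) → St e n := fun p => (x (p + t)).2 with hθ
  have hR : ∀ p, Rules enc (θ p) := fun p => (hOk (p + t)).1
  have hT : ∀ p, (θ p).typ = G.Ty r (fun j => p j % r) := by
    intro p
    have h1 := (hOk (p + t)).2
    rw [← hrdef] at h1
    have h2 : G.lab (x (p + t)) = fun j => p j % r := funext fun l => hlab p l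
    rw [h2] at h1
    exact h1
  have hE : ∀ p j, (θ p).inn j = out j (θ (p - ev j)).typ.L (θ (p - ev j)).own := by
    intro p j
    have h1 := (hAdj (p + t) j).2
    have h2 : p + t - ev j = p - ev j + t := by abel
    rw [h2] at h1
    exact h1
  obtain ⟨A, m, hA, hpred, hblk⟩ := G.labels hr0 θ hR hT hE
  -- points of blocks
  have hTy : ∀ u a : Pt (e + 2), InB r a → (θ (fun l => r * u l + a l)).typ = G.Ty r a := by
    intro u a ha
    rw [hT]
    congr 1
    funext l
    exact hmod (u l) (a l) (ha l).1 (ha l).2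
  have hsub : ∀ (u a : Pt (e + 2)) (j : Fin (e + 2)),
      (fun l => r * u l + a l : Pt (e + 2)) - ev j = fun l => r * u l + (a - ev j) l := by
    intro u a j
    funext l
    simp only [Pi.sub_apply]
    ring
  have hsub0 : ∀ (u a : Pt (e + 2)) (j : Fin (e + 2)), a j = 0 →
      (fun l => r * u l + a l : Pt (e + 2)) - ev j =
        fun l => r * (u - ev j) l + lastP r a j l := by
    intro u a j haj
    funext l
    by_cases hl : l = j
    · subst hl
      simp only [Pi.sub_apply, ev, if_true, lastP, haj]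
      ring
    · simp only [Pi.sub_apply, ev, if_neg hl, lastP]
      ring
  have hlastB : ∀ (a : Pt (e + 2)) (j : Fin (e + 2)), InB r a → InB r (lastP r a j) := by
    intro a j ha l
    unfold lastP
    have := ha l
    split_ifs <;> omega
  have hsubB : ∀ (a : Pt (e + 2)) (j : Fin (e + 2)), InB r a → a j ≠ 0 → InB r (a - ev j) := by
    intro a j ha haj l
    have := ha l
    by_cases hl : l = j
    · subst hl
      simp only [Pi.sub_apply, ev, if_true]
      omega
    · simp only [Pi.sub_apply, ev, if_neg hl]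
      omega
  -- the wires of every block
  have hw : ∀ u, ∃ c : Row e n → Bool, (∃ θ' : St e n, Rules enc θ' ∧ code enc θ' = c) ∧
      (∀ t, c (.ty t) = tbit enc (G.Ty (r + 1) (A u)) t) ∧
      (∀ j b, c (.oA j b) = (θ (fun l => r * u l + G.io j b l)).own.w j) ∧
      (∀ j b, c (.iB j b) = ((θ (fun l => r * u l + G.io j b l)).inn j).w) ∧
      (m u = true → c .om = true ∧ ∃ j, (G.Ty (r + 1) (A u)).F j = false) ∧
      ∀ a, InB r a → (∀ j, (θ (fun l => r * u l + a l)).own.w j = decide (G.WW c j a)) ∧
        (θ (fun l => r * u l + a l)).own.h = decide (G.HH c a) ∧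
        (θ (fun l => r * u l + a l)).own.v = decide (G.VV c a) := by
    intro u
    refine G.wires hr0 (G.Ty (r + 1) (A u)) (m u) (fun a => (θ (fun l => r * u l + a l)).own)
      (fun a => (θ (fun l => r * u l + a l)).inn) ?_ ?_ ?_ ?_ ?_
    · intro a ha
      rw [← hTy u a ha]
      exact hR _
    · intro a ha
      exact (hblk u a ha).2.1
    · intro a ha
      exact (hblk u a ha).2.2.1
    · intro a ha j haj
      rw [hE, hsub, hTy u _ (hsubB a j ha haj)]
    · intro a ha j haj
      rw [hE, hsub0 u a j haj, hTy _ _ (hlastB a j ha)]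
      have hL := BEdge.Ty_lastP_L G r a j
      simp [out, hL]
  choose c hcex hcty hcoA hciB hcm hcw using hw
  choose θ' hθ'R hθ'c using hcex
  -- the upper configuration
  set y : Cfg (e + 2) (G.SL (k + 1)) := fun u => (G.mkLab (k + 1) (A u), θ' u) with hy
  have hyl : ∀ u, G.lab (y u) = A u := by
    intro u
    rw [hy]; dsimp only
    rw [BEdge.lab_mkLab]
    funext l
    have := hA u l
    rw [hrs]
    exact Int.emod_eq_of_lt this.1 this.2
  have hθ'ty : ∀ u, (θ' u).typ = G.Ty (r + 1) (A u) := by
    intro u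
    refine tbit_inj G.enc_inj fun t => ?_
    rw [← hcty u t, ← hθ'c u]
    rfl
  -- matching of the code bits
  have hmatch : ∀ u j b, c u (.iB j b) = c (u - ev j) (.oA j b) := by
    intro u j b
    have hio := io_inB G hr0 j b
    have hio0 := G.io_self j b
    rw [hciB, hE, hsub0 u _ j hio0]
    change (θ (fun l => r * (u - ev j) l + lastP r (G.io j b) j l)).own.w j = _
    rw [(hcw (u - ev j) _ (hlastB _ j hio)).1 j, hcoA, (hcw (u - ev j) _ hio).1 j]
    refine decide_eq_decide.2 (WW_congr G fun l hl => ?_)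
    simp [lastP, hl]
  have hyNN : y ∈ NN (G.OkL (k + 1)) (G.AdjL (k + 1)) := by
    refine ⟨fun u => ⟨hθ'R u, ?_⟩, fun u j => ⟨fun l => ?_, ?_⟩⟩
    · rw [hyl, hrs]
      exact hθ'ty u
    · rw [hyl, hyl, hrs, hpred]
      unfold predL
      have := hA u l
      by_cases hl : l = j
      · subst hl
        rw [if_pos rfl, if_pos rfl]
        split_ifs with h0
        · rw [h0, Int.emod_self]
        · rw [sub_add_cancel, Int.emod_eq_of_lt this.1 this.2]
      · rw [if_neg hl, if_neg hl]
    · refine ebit_inj G.enc_inj (j := j) fun b => ?_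
      have h1 : ebit enc j ((y u).2.inn j) b = c u (.iB j b) := by
        rw [← hθ'c u]; rfl
      have h2 : ebit enc j (out j (y (u - ev j)).2.typ.L (y (u - ev j)).2.own) b =
          c (u - ev j) (.oA j b) := by
        rw [← hθ'c (u - ev j)]; rfl
      rw [h1, h2]
      exact hmatch u j b
  set β : Pt (e + 2) → Pt (e + 2) → Bool := fun u a =>
    if InB r a then (θ (fun l => r * u l + a l)).own.be else false with hβ
  -- own content
  have hown : ∀ u a, InB r a → (θ (fun l => r * u l + a l)).own =
      G.ownC r (A u) (c u) (m u) (β u) a := by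
    intro u a ha
    obtain ⟨h1, h2, h3, h4, h5, h6⟩ := hblk u a ha
    obtain ⟨h7, h8, h9⟩ := hcw u a ha
    refine Own.ext h1 h2 (funext h4) (funext h5) (funext fun j => ?_) h3 ?_ ?_ ?_
    · rw [h7 j]; rfl
    · change _ = β u a
      rw [hβ]; dsimp only
      rw [if_pos ha]
    · rw [h8]; rfl
    · rw [h9]; rfl
  refine ⟨t, y, hyNN, m, β, fun u hm => ?_, fun u a hb => ?_, fun p => ?_⟩
  · obtain ⟨h1, j, h2⟩ := hcm u hm
    refine ⟨?_, j, ?_⟩
    · rw [← hθ'c u] at h1
      exact h1
    · rw [hyl]
      have h3 : (G.Ty (r + 1) (A u)).F j = decide (A u j = 0) := rfl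
      rw [h3] at h2
      simpa using h2
  · rw [hβ] at hb
    dsimp only at hb
    split_ifs at hb with ha
    by_contra hm
    have hm' : m u = false := by simpa using hm
    rw [(hblk u a ha).2.2.2.2.2 hm'] at hb
    exact absurd hb (by simp)
  · -- comparison of the cells
    have hlp : G.lab (x (p + t)) = fun l => p l % r := funext fun l => hlab p l
    set u : Pt (e + 2) := fun j => p j / r with hu
    set a : Pt (e + 2) := fun j => p j % r with ha
    have haB : InB r a := fun j => ⟨Int.emod_nonneg _ hrpos.ne', Int.emod_lt_of_pos _ hrpos⟩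
    have hp : p = fun l => r * u l + a l := by
      funext l
      have := Int.emod_add_mul_ediv (p l) r
      simp only [hu, ha]
      linarith
    refine Prod.ext ?_ ?_
    · change (x (p + t)).1 = G.mkLab k p
      funext j
      apply Fin.ext
      have h3 : (((x (p + t)).1 j : ℕ) : ℤ) = p j % r := congrFun hlp j
      simp only [Geo.mkLab, ← hrdef]
      rw [← h3, Int.toNat_natCast]
    · change θ p = G.cellC (G.rr k) (G.lab (y u)) (code enc (y u).2) (m u) (β u) a
      rw [hyl, ← hrdef]
      have hcode : code enc (y u).2 = c u := hθ'c u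
      rw [hcode]
      have hpt : θ p = θ (fun l => r * u l + a l) := by rw [← hp]
      rw [hpt]
      refine St.ext (hTy u a haB) (funext fun j => ?_) (hown u a haB)
      by_cases haj : a j = 0
      · rw [G.cellC_inn_bd haj, hE, hsub0 u a j haj, hTy _ _ (hlastB a j haB),
          hown _ _ (hlastB a j haB), hpred u j]
        exact (G.bEdge_eq hr0 (hA u) haB haj (hmatch u j) _ _).symm
      · rw [G.cellC_inn_in haj, hE, hsub, hTy u _ (hsubB a j haB haj),
          hown u _ (hsubB a j haB haj)]

end Pool.Agent.Lib.P05dae2
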