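import Pool.Agent.Lib.P05dae2.Basic

/-!
# Existence of the entropy (MP_05dae2_an)
-/

namespace Pool.Agent.Lib.P05dae2

open Filter

theorem numPat_pos' {d : ℕ} {S : Type} [Finite S] {X : Set (Cfg d S)} (hne : X.Nonempty)
    (n : ℕ) : 1 ≤ numPat X n := by
  obtain ⟨x, hx⟩ := hne
  rw [numPat, Nat.one_le_iff_ne_zero]
  intro h0
  rw [Set.ncard_eq_zero (Set.toFinite _)] at h0
  have h1 : (fun i : Fin d → Fin n => x (fun j => ((i j : ℕ) : ℤ))) ∈ patSet X n :=
    ⟨x, hx, fun _ => rfl⟩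
  rw [h0] at h1
  exact h1

/-- Covering the cube of side `n` by `k ^ d` cubes of side `m`. -/
theorem numPat_le_pow {d : ℕ} {S : Type} [Finite S] {X : Set (Cfg d S)}
    (hsh : ∀ x ∈ X, ∀ v : Pt d, (fun p => x (p + v)) ∈ X) (m n k : ℕ) (hm : 0 < m)
    (hk : n ≤ m * k) : numPat X n ≤ numPat X m ^ (k ^ d) := by
  classical
  have hwit : ∀ q : patSet X n, ∃ x ∈ X, ∀ i : Fin d → Fin n,
      (q : (Fin d → Fin n) → S) i = x (fun j => ((i j : ℕ) : ℤ)) := fun q => q.2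
  choose w hwX hw using hwit
  let Φ : patSet X n → ((Fin d → Fin k) → patSet X m) := fun q b =>
    ⟨fun i => w q (fun j => ((i j : ℕ) : ℤ) + (m : ℤ) * ((b j : ℕ) : ℤ)),
      fun p => w q (p + fun j => (m : ℤ) * ((b j : ℕ) : ℤ)),
      hsh _ (hwX q) _, fun i => rfl⟩
  have hΦ : Function.Injective Φ := by
    intro q q' h
    apply Subtype.ext
    funext i
    rw [hw q i, hw q' i]
    have hb : ∀ j, (i j : ℕ) / m < k := fun j =>
      Nat.div_lt_of_lt_mul (lt_of_lt_of_le (i j).2 hk)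
    have h1 := congrFun h (fun j => ⟨(i j : ℕ) / m, hb j⟩)
    have h2 := congrArg (fun z : patSet X m => (z : (Fin d → Fin m) → S)
      (fun j => ⟨(i j : ℕ) % m, Nat.mod_lt _ hm⟩)) h1
    have h3 : (fun j => (((i j : ℕ) % m : ℕ) : ℤ) + (m : ℤ) * (((i j : ℕ) / m : ℕ) : ℤ)) =
        fun j => ((i j : ℕ) : ℤ) := by
      funext j
      rw [← Nat.cast_mul, ← Nat.cast_add, Nat.mod_add_div]
    have h4 : w q (fun j => (((i j : ℕ) % m : ℕ) : ℤ) + (m : ℤ) * (((i j : ℕ) / m : ℕ) : ℤ)) =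
        w q' (fun j => (((i j : ℕ) % m : ℕ) : ℤ) + (m : ℤ) * (((i j : ℕ) / m : ℕ) : ℤ)) := h2
    rw [h3] at h4
    exact h4
  have hcard := Nat.card_le_card_of_injective Φ hΦ
  have e1 : Nat.card (patSet X n) = numPat X n := Nat.card_coe_set_eq _
  have e2 : Nat.card ((Fin d → Fin k) → patSet X m) = numPat X m ^ (k ^ d) := by
    rw [Nat.card_fun, Nat.card_fun]
    simp only [Nat.card_eq_fintype_card, Fintype.card_fin]
    rw [numPat, Nat.card_coe_set_eq]
  rw [e1, e2] at hcard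
  exact hcard

theorem exists_hasEnt {d : ℕ} (hd : 0 < d) {S : Type} [Finite S] {X : Set (Cfg d S)}
    (hne : X.Nonempty) (hsh : ∀ x ∈ X, ∀ v : Pt d, (fun p => x (p + v)) ∈ X) :
    ∃ h, HasEnt X h := by
  set a : ℕ → ℝ := fun n => Real.log (numPat X n) with ha
  have ha0 : ∀ n, 0 ≤ a n := fun n => Real.log_nonneg (by exact_mod_cast numPat_pos' hne n)
  have hle : ∀ m n : ℕ, 0 < m → a n ≤ ((n : ℝ) / m + 1) ^ d * a m := by
    intro m n hm
    have h1 := numPat_le_pow hsh m n (n / m + 1) hm (by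
      have := Nat.div_add_mod n m
      have h2 := Nat.mod_lt n hm
      rw [Nat.mul_add, mul_one]
      omega)
    have h2 : a n ≤ (((n / m + 1 : ℕ) ^ d : ℕ) : ℝ) * a m := by
      rw [ha]
      beta_reduce
      rw [← Real.log_pow]
      apply Real.log_le_log (by exact_mod_cast numPat_pos' hne n)
      exact_mod_cast h1
    refine h2.trans (mul_le_mul_of_nonneg_right ?_ (ha0 m))
    rw [Nat.cast_pow]
    apply pow_le_pow_left₀ (Nat.cast_nonneg _)
    push_cast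
    have h3 : ((n / m : ℕ) : ℝ) ≤ (n : ℝ) / m := Nat.cast_div_le
    linarith
  set T : Set ℝ := {y | ∃ m : ℕ, 0 < m ∧ y = a m / (m : ℝ) ^ d} with hT
  have hTne : T.Nonempty := ⟨a 1 / ((1 : ℕ) : ℝ) ^ d, 1, one_pos, rfl⟩
  have hTb : BddBelow T := ⟨0, by
    rintro _ ⟨m, hm, rfl⟩
    exact div_nonneg (ha0 m) (by positivity)⟩
  refine ⟨sInf T, ?_⟩
  rw [HasEnt, tendsto_order]
  constructor
  · intro b hb
    filter_upwards [eventually_gt_atTop 0] with n hn
    exact lt_of_lt_of_le hb (csInf_le hTb ⟨n, hn, rfl⟩)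
  · intro b hb
    obtain ⟨_, ⟨m, hm, rfl⟩, hmb⟩ := exists_lt_of_csInf_lt hTne hb
    have hm0 : (0 : ℝ) < m := by exact_mod_cast hm
    -- the comparison sequence
    have h1 : Tendsto (fun n : ℕ => (1 / (m : ℝ) + 1 / (n : ℝ)) ^ d * a m) atTop
        (nhds ((1 / (m : ℝ) + 0) ^ d * a m)) := by
      refine Tendsto.mul_const _ (Tendsto.pow ?_ d)
      exact Tendsto.const_add _ tendsto_one_div_atTop_nhds_zero_nat
    have h2 : (1 / (m : ℝ) + 0) ^ d * a m = a m / (m : ℝ) ^ d := by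
      rw [add_zero, one_div, inv_pow]
      field_simp
    rw [h2] at h1
    have h3 := (tendsto_order.1 h1).2 b hmb
    filter_upwards [h3, eventually_gt_atTop 0] with n hn hn0
    refine lt_of_le_of_lt ?_ hn
    have hn0' : (0 : ℝ) < n := by exact_mod_cast hn0
    have h4 := hle m n hm
    have h5 : ((n : ℝ) / m + 1) ^ d * a m = (n : ℝ) ^ d * ((1 / (m : ℝ) + 1 / (n : ℝ)) ^ d * a m) := by
      rw [← mul_assoc, ← mul_pow]
      congr 2
      field_simp
    rw [h5] at h4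
    rw [div_le_iff₀ (by positivity)]
    linarith

theorem HasEnt.pos_of_frequently {d : ℕ} {S : Type} [Finite S] {X : Set (Cfg d S)} {h c : ℝ}
    (hd : 0 < d) (hX : HasEnt X h) (hc : 0 < c)
    (hf : ∃ᶠ n : ℕ in atTop, Real.exp (c * (n : ℝ) ^ d) ≤ (numPat X n : ℝ)) : 0 < h := by
  refine lt_of_lt_of_le hc ?_
  refine ge_of_tendsto_of_frequently hX ?_
  refine (hf.and_eventually (eventually_gt_atTop 0)).mono ?_
  rintro n ⟨hn, hn0⟩
  have hn0' : (0 : ℝ) < n := by exact_mod_cast hn0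
  rw [le_div_iff₀ (by positivity)]
  rw [← Real.log_exp (c * (n : ℝ) ^ d)]
  exact Real.log_le_log (Real.exp_pos _) hn

end Pool.Agent.Lib.P05dae2
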