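import Pool.Agent.Lib.P05dae2.BEdge
import Pool.Agent.Lib.P05dae2.Compact

/-!
# Every level has positive entropy (MP_05dae2_an)
-/

namespace Pool.Agent.Lib.P05dae2

open Filter

variable {e n : ℕ} {enc : Kind e n → Fin n → Bool} (G : Geo enc)

/-- A `G`-state: mode bit set and nonzero label. -/
def Geo.IsG {k : ℕ} (s : G.SL k) : Prop := s.2.own.m = true ∧ ∃ j, G.lab s j ≠ 0

theorem Geo.rr_pos (k : ℕ) : 0 < G.rr k := by
  have := G.r0_pos
  unfold Geo.rr
  omega

theorem Geo.r0_ge : 7 ≤ G.r0 := by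
  have h1 := G.XZ_r0
  have h2 := G.Yt_XZ
  have h3 := G.Yt_eq
  have h4 := G.hgt_ge .one
  omega

theorem Geo.lab_mk (k : ℕ) (p : Pt (e + 2)) (θ : St e n) :
    G.lab ((G.mkLab k p, θ) : G.SL k) = fun j => p j % G.rr k := by
  funext j
  show (((p j % G.rr k).toNat : ℕ) : ℤ) = p j % G.rr k
  exact Int.toNat_of_nonneg (Int.emod_nonneg _ (G.rr_pos k).ne')

theorem Geo.exists_G (k : ℕ) : ∃ s : G.SL k, G.OkL k s ∧ G.IsG s := by
  classical
  set γ : (Pad e → Bool) × (Pad e → Bool) := (fun _ => false, fun _ => false)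
  have hγ1 := G.pal_ge γ
  have hγ2 := G.pal_r0 γ
  have hXZ : 0 < G.XZ := by
    have h2 := G.Yt_XZ
    have h3 := G.Yt_eq
    have h4 := G.hgt_ge .one
    omega
  have hrr : (G.r0 : ℤ) ≤ G.rr k := by
    unfold Geo.rr
    push_cast
    omega
  have hka : G.ka0 (G.palL γ) = .dd := by
    apply G.ka0_none
    intro κ hκ
    have := (G.KAt_lt hκ 0).2
    have h2 : G.palL γ 0 = G.pal γ := rfl
    omega
  set T0 : Typ e n := G.Ty (G.rr k) (G.palL γ) with hT0
  have hF : ∀ j, T0.F j = false := by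
    intro j
    have : G.palL γ j ≠ 0 := by
      show G.pal γ ≠ 0
      omega
    simp [hT0, Geo.Ty, this]
  have hL : ∀ j, T0.L j = false := by
    intro j
    have : G.palL γ j ≠ G.rr k - 1 := by
      show G.pal γ ≠ G.rr k - 1
      omega
    simp [hT0, Geo.Ty, this]
  have hDl : ∀ j, T0.Dl j = true := by
    intro j
    have : G.palL γ j = G.palL γ 0 := rfl
    simp [hT0, Geo.Ty, this]
  have hkaT : T0.ka = .dd := hka
  set θ : St e n :=
    { typ := T0
      inn := fun _ => ⟨fun _ => .dot, T0, false, false, false, true, false, false⟩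
      own := ⟨fun _ => .dot, T0, fun _ => false, fun _ => false, fun _ => false, true, false,
        false, false⟩ } with hθ
  have hlab : G.lab ((G.mkLab k (G.palL γ), θ) : G.SL k) = G.palL γ := by
    rw [G.lab_mk]
    funext j
    show G.pal γ % G.rr k = G.pal γ
    exact Int.emod_eq_of_lt (by omega) (by omega)
  have hne : ∀ j : Fin (e + 2), ∃ l, l ≠ j := by
    intro j
    by_cases hj : j = 0
    · exact ⟨1, by rw [hj]; exact ne10⟩
    · exact ⟨0, Ne.symm hj⟩
  refine ⟨(G.mkLab k (G.palL γ), θ), ⟨?_, ?_⟩, ?_, ?_⟩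
  · refine ⟨?_, ?_, ?_, ?_, ?_, ?_, ?_, ?_, ?_, ?_, ?_, ?_, ?_, ?_⟩
    · intro j l _
      rfl
    · intro j
      simp [hθ]
    · intro j _
      exact ⟨rfl, rfl⟩
    · intro j h
      exact absurd h (by rw [show θ.typ.F j = false from hF j]; simp)
    · intro j h
      exact absurd h (by rw [show θ.typ.L j = false from hL j]; simp)
    · intro j _
      refine ⟨fun _ => rfl, fun _ h => h.2 rfl⟩
    · intro h
      exfalso
      rcases h 0 with h | h
      · simp [hθ] at h
      · simp [hθ] at h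
    · intro j
      refine ⟨fun _ => rfl, fun _ => ?_⟩
      simp [hθ]
    · intro j h
      exfalso
      obtain ⟨l, hl⟩ := hne j
      have h1 := h l hl
      rw [show θ.typ.F l = false from hF l] at h1
      simp at h1
    · intro j _
      rfl
    · intro j
      refine ⟨fun _ => rfl, fun h => ?_⟩
      rw [show θ.typ.F j = false from hF j] at h
      simp at h
    · rw [show θ.typ.ka = .dd from hkaT]
      simp [hθ]
    · rw [show θ.typ.ka = .dd from hkaT]
      simp [hθ]
    · intro h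
      simp [hθ] at h
  · rw [hlab]
  · rfl
  · refine ⟨0, ?_⟩
    rw [hlab]
    show G.pal γ ≠ 0
    omega

open Classical in
/-- All `G`-cells are expanded in mode `G`. -/
noncomputable def Geo.gm {k : ℕ} (y : Cfg (e + 2) (G.SL (k + 1))) (u : Pt (e + 2)) : Bool :=
  decide (G.IsG (y u))

theorem Geo.isG_expC (k : ℕ) (y : Cfg (e + 2) (G.SL (k + 1))) (m : Pt (e + 2) → Bool)
    (β : Pt (e + 2) → Pt (e + 2) → Bool) (p : Pt (e + 2)) :
    G.IsG (G.expC k y m β p) ↔ m (fun j => p j / G.rr k) = true ∧ ∃ j, p j % G.rr k ≠ 0 := by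
  have h1 : G.lab (G.expC k y m β p) = fun j => p j % G.rr k := G.lab_mk k p _
  unfold Geo.IsG
  rw [h1]
  rfl

theorem Geo.be_expC (k : ℕ) (y : Cfg (e + 2) (G.SL (k + 1))) (m : Pt (e + 2) → Bool)
    (β : Pt (e + 2) → Pt (e + 2) → Bool) (p : Pt (e + 2)) :
    (G.expC k y m β p).2.own.be = β (fun j => p j / G.rr k) (fun j => p j % G.rr k) := rfl

/-- The box of radius `N` around `0`. -/
def Bx (d : ℕ) (N : ℤ) : Set (Pt d) := {p | ∀ j, |p j| ≤ N}

theorem Geo.loc_good (N : ℕ) : ∀ k, ∃ x : Cfg (e + 2) (G.SL k),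
    LocNN (G.OkL k) (G.AdjL k) (Bx (e + 2) N) x ∧ G.IsG (x 0) := by
  classical
  induction N with
  | zero =>
    intro k
    obtain ⟨s, hs, hG⟩ := G.exists_G k
    refine ⟨fun _ => s, ⟨fun _ _ => hs, ?_⟩, hG⟩
    intro p hp j hpj
    exfalso
    have h1 : |p j| ≤ 0 := by simpa using hp j
    have h2 : |(p - ev j) j| ≤ 0 := by simpa using hpj j
    rw [abs_le] at h1 h2
    simp [ev] at h2
    omega
  | succ N ih =>
    intro k
    obtain ⟨y, hy, hG⟩ := ih (k + 1)
    have hr := G.rr_pos k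
    have hr7 : 7 ≤ G.rr k := by
      have := G.r0_ge
      unfold Geo.rr
      omega
    have h1 := G.expC_loc k y (G.gm y) (fun _ _ => false) (Bx (e + 2) N) hy
      (by
        intro u _ hu
        have : G.IsG (y u) := by simpa [Geo.gm] using hu
        exact this)
      (by
        intro u _ a _ h
        simp at h)
    refine ⟨fun p => G.expC k y (G.gm y) (fun _ _ => false) (p + fun _ => 1), ⟨?_, ?_⟩, ?_⟩
    · intro p hp
      apply h1.1
      intro j
      have h2 := hp j
      rw [abs_le] at h2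
      show |(p j + 1) / G.rr k| ≤ (N : ℤ)
      push_cast at h2
      rw [abs_le]
      constructor
      · apply Int.le_ediv_of_mul_le hr
        nlinarith
      · apply Int.lt_add_one_iff.1
        apply Int.ediv_lt_of_lt_mul hr
        nlinarith
    · intro p hp j hpj
      have h3 : (p - ev j) + (fun _ => (1 : ℤ)) = (p + fun _ => 1) - ev j := by
        funext l
        simp only [Pi.add_apply, Pi.sub_apply]
        ring
      beta_reduce
      rw [h3]
      have key : ∀ q : Pt (e + 2), q ∈ Bx (e + 2) ((N + 1 : ℕ) : ℤ) →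
          (q + fun _ => (1 : ℤ)) ∈ {p | (fun j => p j / G.rr k) ∈ Bx (e + 2) (N : ℤ)} := by
        intro q hq j
        have h2 := hq j
        rw [abs_le] at h2
        show |(q j + 1) / G.rr k| ≤ (N : ℤ)
        push_cast at h2
        rw [abs_le]
        constructor
        · apply Int.le_ediv_of_mul_le hr
          nlinarith
        · apply Int.lt_add_one_iff.1
          apply Int.ediv_lt_of_lt_mul hr
          nlinarith
      apply h1.2 _ (key p hp) j
      rw [← h3]
      exact key _ hpj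
    · rw [G.isG_expC]
      have h4 : (fun j : Fin (e + 2) => ((0 + fun _ => 1 : Pt (e + 2)) j) / G.rr k) = 0 := by
        funext j
        show (0 + 1) / G.rr k = 0
        rw [zero_add]
        exact Int.ediv_eq_zero_of_lt (by omega) (by omega)
      rw [h4]
      refine ⟨by simpa [Geo.gm] using hG, 0, ?_⟩
      show (0 + 1) % G.rr k ≠ 0
      rw [zero_add, Int.emod_eq_of_lt (by omega) (by omega)]
      norm_num

/-- A configuration of every level with a `G`-state at the origin. -/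
theorem Geo.glob_good (k : ℕ) : ∃ x ∈ NN (G.OkL k) (G.AdjL k), G.IsG (x 0) := by
  classical
  let Q : Option (Pt (e + 2)) → Cfg (e + 2) (G.SL k) → Prop := fun i x =>
    match i with
    | none => G.IsG (x 0)
    | some p => G.OkL k (x p) ∧ ∀ j, G.AdjL k j (x (p - ev j)) (x p)
  obtain ⟨x, hx⟩ := compact_ex Q
    (by
      rintro (_ | p)
      · refine ⟨{0}, fun x x' h hQ => ?_⟩
        show G.IsG (x' 0)
        rw [← h 0 (by simp)]
        exact hQ
      · refine ⟨insert p (Finset.univ.image (fun j => p - ev j)), fun x x' h hQ => ?_⟩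
        have h1 : x p = x' p := h p (Finset.mem_insert_self _ _)
        have h2 : ∀ j, x (p - ev j) = x' (p - ev j) := fun j =>
          h _ (Finset.mem_insert_of_mem (Finset.mem_image_of_mem _ (Finset.mem_univ j)))
        refine ⟨?_, fun j => ?_⟩
        · rw [← h1]
          exact hQ.1
        · rw [← h1, ← h2]
          exact hQ.2 j)
    (by
      intro I
      -- a bound for all coordinates
      obtain ⟨N, hN⟩ : ∃ N : ℕ, ∀ p, some p ∈ I → ∀ j, |p j| + 1 ≤ (N : ℤ) := by
        refine ⟨∑ i ∈ I, (match i with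
          | none => 0
          | some p => ∑ j, ((p j).natAbs + 1)), ?_⟩
        intro p hp j
        have h1 : (p j).natAbs + 1 ≤ ∑ j, ((p j).natAbs + 1) :=
          Finset.single_le_sum (f := fun j => (p j).natAbs + 1) (fun _ _ => Nat.zero_le _)
            (Finset.mem_univ j)
        have h2 : ∑ j, ((p j).natAbs + 1) ≤ ∑ i ∈ I, (match i with
          | none => 0
          | some p => ∑ j, ((p j).natAbs + 1)) :=
          Finset.single_le_sum (f := fun i : Option (Pt (e + 2)) => (match i with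
            | none => 0
            | some p => ∑ j, ((p j).natAbs + 1) : ℕ)) (fun _ _ => Nat.zero_le _) hp
        have h3 : |p j| + 1 = (((p j).natAbs + 1 : ℕ) : ℤ) := by
          push_cast
          rfl
        rw [h3]
        exact_mod_cast h1.trans h2
      obtain ⟨x, hx, hG⟩ := G.loc_good N k
      refine ⟨x, ?_⟩
      rintro (_ | p) hi
      · exact hG
      · have hp : p ∈ Bx (e + 2) (N : ℤ) := fun j => by
          have := hN p hi j
          omega
        refine ⟨hx.1 p hp, fun j => hx.2 p hp j ?_⟩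
        intro l
        have h1 := hN p hi l
        have h2 : |(p - ev j) l| ≤ |p l| + 1 := by
          have h3 : (p - ev j) l = p l - ev j l := rfl
          have h4 : |ev j l| ≤ (1 : ℤ) := by
            unfold ev
            split_ifs <;> simp
          rw [h3]
          exact (abs_sub _ _).trans (by omega)
        omega)
  exact ⟨x, ⟨fun p => (hx (some p)).1, fun p j => (hx (some p)).2 j⟩, hx none⟩

/-- A configuration of level `k` with at least `c` cells in the cube `[0, L)^d` which are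
`G`-states. -/
def Geo.Many (k L c : ℕ) : Prop :=
  ∃ x ∈ NN (G.OkL k) (G.AdjL k), ∃ S : Finset (Pt (e + 2)),
    (∀ p ∈ S, (∀ j, 0 ≤ p j ∧ p j < (L : ℤ)) ∧ G.IsG (x p)) ∧ c ≤ S.card

theorem Geo.many_one (k : ℕ) : G.Many k 1 1 := by
  obtain ⟨x, hx, hG⟩ := G.glob_good k
  refine ⟨x, hx, {0}, ?_, by simp⟩
  intro p hp
  rw [Finset.mem_singleton] at hp
  subst hp
  exact ⟨fun j => by simp, hG⟩

/-- The cells with nonzero label of the blocks of the cells of `S`. -/
noncomputable def cells {d : ℕ} (r : ℕ) (S : Finset (Pt d)) : Finset (Pt d) := by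
  classical
  exact (S ×ˢ ((Fintype.piFinset fun _ : Fin d => Finset.Ico (0 : ℤ) r).erase 0)).image
    (fun p j => (r : ℤ) * p.1 j + p.2 j)

theorem divmod {r : ℤ} {u a : ℤ} (h0 : 0 ≤ a) (h1 : a < r) :
    (r * u + a) / r = u ∧ (r * u + a) % r = a := by
  have hr : 0 < r := lt_of_le_of_lt h0 h1
  constructor
  · rw [Int.mul_add_ediv_left _ _ hr.ne', Int.ediv_eq_zero_of_lt h0 h1, add_zero]
  · rw [Int.mul_add_emod_self_left, Int.emod_eq_of_lt h0 h1]

theorem mem_cells {d : ℕ} {r : ℕ} (hr : 0 < r) {S : Finset (Pt d)} {p : Pt d} :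
    p ∈ cells r S ↔ (fun j => p j / (r : ℤ)) ∈ S ∧ ∃ j, p j % (r : ℤ) ≠ 0 := by
  classical
  have hr' : (0 : ℤ) < r := by exact_mod_cast hr
  unfold cells
  rw [Finset.mem_image]
  constructor
  · rintro ⟨⟨u, a⟩, h, rfl⟩
    rw [Finset.mem_product, Finset.mem_erase, Fintype.mem_piFinset] at h
    obtain ⟨hu, ha0, ha⟩ := h
    have h1 : ∀ j, 0 ≤ a j ∧ a j < (r : ℤ) := fun j => Finset.mem_Ico.1 (ha j)
    have h2 : (fun j => ((r : ℤ) * u j + a j) / (r : ℤ)) = u :=
      funext fun j => (divmod (h1 j).1 (h1 j).2).1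
    have h3 : ∀ j, ((r : ℤ) * u j + a j) % (r : ℤ) = a j := fun j =>
      (divmod (h1 j).1 (h1 j).2).2
    refine ⟨?_, ?_⟩
    · show (fun j => ((r : ℤ) * u j + a j) / (r : ℤ)) ∈ S
      rw [h2]
      exact hu
    · obtain ⟨j, hj⟩ := Function.ne_iff.1 ha0
      refine ⟨j, ?_⟩
      show ((r : ℤ) * u j + a j) % (r : ℤ) ≠ 0
      rw [h3]
      exact hj
  · rintro ⟨hu, j, hj⟩
    refine ⟨(fun j => p j / (r : ℤ), fun j => p j % (r : ℤ)), ?_, ?_⟩
    · rw [Finset.mem_product, Finset.mem_erase, Fintype.mem_piFinset]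
      refine ⟨hu, ?_, fun l => Finset.mem_Ico.2 ⟨Int.emod_nonneg _ hr'.ne',
        Int.emod_lt_of_pos _ hr'⟩⟩
      intro h0
      exact hj (congrFun h0 j)
    · funext l
      exact Int.mul_ediv_add_emod (p l) r

theorem card_cells {d : ℕ} {r : ℕ} (hr : 0 < r) (S : Finset (Pt d)) :
    (cells r S).card = S.card * (r ^ d - 1) := by
  classical
  have hr' : (0 : ℤ) < r := by exact_mod_cast hr
  unfold cells
  rw [Finset.card_image_of_injOn, Finset.card_product, Finset.card_erase_of_mem]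
  · rw [Fintype.card_piFinset]
    simp
  · rw [Fintype.mem_piFinset]
    intro j
    exact Finset.mem_Ico.2 ⟨le_rfl, hr'⟩
  · rintro ⟨u, a⟩ h ⟨u', a'⟩ h' heq
    rw [Finset.mem_coe, Finset.mem_product, Finset.mem_erase, Fintype.mem_piFinset] at h h'
    have h1 : ∀ j, 0 ≤ a j ∧ a j < (r : ℤ) := fun j => Finset.mem_Ico.1 (h.2.2 j)
    have h1' : ∀ j, 0 ≤ a' j ∧ a' j < (r : ℤ) := fun j => Finset.mem_Ico.1 (h'.2.2 j)
    have h2 : ∀ j, (r : ℤ) * u j + a j = (r : ℤ) * u' j + a' j := fun j => congrFun heq j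
    have e1 : u = u' := funext fun j => by
      rw [← (divmod (u := u j) (h1 j).1 (h1 j).2).1, h2 j, (divmod (h1' j).1 (h1' j).2).1]
    have e2 : a = a' := funext fun j => by
      rw [← (divmod (u := u j) (h1 j).1 (h1 j).2).2, h2 j, (divmod (h1' j).1 (h1' j).2).2]
    rw [e1, e2]

/-- Expansion with free bits on a set of `G`-cells. -/
theorem Geo.expand_mem (k : ℕ) (x : Cfg (e + 2) (G.SL (k + 1)))
    (hx : x ∈ NN (G.OkL (k + 1)) (G.AdjL (k + 1))) (β : Pt (e + 2) → Pt (e + 2) → Bool)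
    (hβ : ∀ u a, InB (G.rr k) a → β u a = true → G.IsG (x u) ∧ ∃ j, a j ≠ 0) :
    G.expC k x (G.gm x) β ∈ NN (G.OkL k) (G.AdjL k) := by
  have h1 := G.expC_loc k x (G.gm x) β Set.univ ⟨fun p _ => hx.1 p, fun p _ j _ => hx.2 p j⟩
    (by
      intro u _ hu
      have : G.IsG (x u) := by simpa [Geo.gm] using hu
      exact this)
    (by
      intro u _ a ha h
      refine ⟨?_, (hβ u a ha h).2⟩
      have := (hβ u a ha h).1
      simpa [Geo.gm] using this)
  exact ⟨fun p => h1.1 p (Set.mem_univ _), fun p j => h1.2 p (Set.mem_univ _) j (Set.mem_univ _)⟩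

theorem Geo.many_step {k L c : ℕ} (h : G.Many (k + 1) L c) :
    G.Many k ((G.r0 + k) * L) (c * ((G.r0 + k) ^ (e + 2) - 1)) := by
  obtain ⟨x, hx, S, hS, hc⟩ := h
  have hr : 0 < G.r0 + k := by
    have := G.r0_pos
    omega
  have hr' : (0 : ℤ) < ((G.r0 + k : ℕ) : ℤ) := by exact_mod_cast hr
  refine ⟨G.expC k x (G.gm x) (fun _ _ => false), G.expand_mem k x hx _ (by
    intro u a _ h
    simp at h), cells (G.r0 + k) S, ?_, ?_⟩
  · intro p hp
    rw [mem_cells hr] at hp
    obtain ⟨h1, h2⟩ := hp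
    have h3 := hS _ h1
    refine ⟨fun j => ?_, ?_⟩
    · have h4 := h3.1 j
      have h5 := Int.mul_ediv_add_emod (p j) ((G.r0 + k : ℕ) : ℤ)
      have h6 := Int.emod_nonneg (p j) hr'.ne'
      have h7 := Int.emod_lt_of_pos (p j) hr'
      constructor
      · have : 0 ≤ ((G.r0 + k : ℕ) : ℤ) * (p j / ((G.r0 + k : ℕ) : ℤ)) :=
          mul_nonneg hr'.le h4.1
        omega
      · have h8 : ((G.r0 + k : ℕ) : ℤ) * (p j / ((G.r0 + k : ℕ) : ℤ) + 1) ≤
            ((G.r0 + k : ℕ) : ℤ) * L := mul_le_mul_of_nonneg_left (by omega) hr'.le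
        rw [mul_add, mul_one] at h8
        push_cast at *
        omega
    · rw [G.isG_expC]
      refine ⟨?_, h2⟩
      have h9 : G.IsG (x fun j => p j / G.rr k) := h3.2
      simpa [Geo.gm] using h9
  · rw [card_cells hr]
    exact Nat.mul_le_mul_right _ hc

theorem Geo.pow_le_numPat {k L c : ℕ} (h : G.Many (k + 1) L c) :
    2 ^ (c * ((G.r0 + k) ^ (e + 2) - 1)) ≤
      numPat (NN (G.OkL k) (G.AdjL k)) ((G.r0 + k) * L) := by
  classical
  obtain ⟨x, hx, S, hS, hc⟩ := h
  have hr : 0 < G.r0 + k := by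
    have := G.r0_pos
    omega
  have hr' : (0 : ℤ) < ((G.r0 + k : ℕ) : ℤ) := by exact_mod_cast hr
  set C : Finset (Pt (e + 2)) := cells (G.r0 + k) S with hC
  -- the configuration for a subset of the free cells
  let β : Finset (Pt (e + 2)) → Pt (e + 2) → Pt (e + 2) → Bool := fun T u a =>
    decide ((fun j => G.rr k * u j + a j) ∈ T ∧ (fun j => G.rr k * u j + a j) ∈ C)
  let X : Finset (Pt (e + 2)) → Cfg (e + 2) (G.SL k) := fun T => G.expC k x (G.gm x) (β T)
  have hX : ∀ T, X T ∈ NN (G.OkL k) (G.AdjL k) := by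
    intro T
    apply G.expand_mem k x hx
    intro u a ha h
    have h1 : (fun j => G.rr k * u j + a j) ∈ C := (by simpa [β] using h : _ ∧ _).2
    rw [hC, mem_cells hr] at h1
    have h2 : (fun j => (G.rr k * u j + a j) / ((G.r0 + k : ℕ) : ℤ)) = u :=
      funext fun j => (divmod (ha j).1 (ha j).2).1
    have h3 : ∀ j, (G.rr k * u j + a j) % ((G.r0 + k : ℕ) : ℤ) = a j := fun j =>
      (divmod (ha j).1 (ha j).2).2
    rw [h2] at h1
    refine ⟨(hS u h1.1).2, ?_⟩
    obtain ⟨j, hj⟩ := h1.2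
    exact ⟨j, by rwa [h3] at hj⟩
  have hbe : ∀ T, ∀ p ∈ C, ((X T p).2.own.be = true ↔ p ∈ T) := by
    intro T p hp
    have h1 : (X T p).2.own.be = β T (fun j => p j / G.rr k) (fun j => p j % G.rr k) := rfl
    have h2 : (fun j => G.rr k * (p j / G.rr k) + p j % G.rr k) = p :=
      funext fun j => Int.mul_ediv_add_emod (p j) _
    rw [h1]
    show decide (((fun j => G.rr k * (p j / G.rr k) + p j % G.rr k) ∈ T) ∧
      ((fun j => G.rr k * (p j / G.rr k) + p j % G.rr k) ∈ C)) = true ↔ _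
    rw [h2]
    simp [hp]
  -- coordinates of the free cells
  have hco : ∀ p ∈ C, ∀ j, 0 ≤ p j ∧ p j < (((G.r0 + k) * L : ℕ) : ℤ) := by
    intro p hp j
    rw [hC, mem_cells hr] at hp
    have h4 := (hS _ hp.1).1 j
    have h5 := Int.mul_ediv_add_emod (p j) ((G.r0 + k : ℕ) : ℤ)
    have h6 := Int.emod_nonneg (p j) hr'.ne'
    have h7 := Int.emod_lt_of_pos (p j) hr'
    constructor
    · have : 0 ≤ ((G.r0 + k : ℕ) : ℤ) * (p j / ((G.r0 + k : ℕ) : ℤ)) :=
        mul_nonneg hr'.le h4.1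
      omega
    · have h8 : ((G.r0 + k : ℕ) : ℤ) * (p j / ((G.r0 + k : ℕ) : ℤ) + 1) ≤
          ((G.r0 + k : ℕ) : ℤ) * L := mul_le_mul_of_nonneg_left (by omega) hr'.le
      rw [mul_add, mul_one] at h8
      push_cast at *
      omega
  let q : Finset (Pt (e + 2)) → ((Fin (e + 2) → Fin ((G.r0 + k) * L)) → G.SL k) := fun T i =>
    X T (fun j => ((i j : ℕ) : ℤ))
  have hq : Set.InjOn q (C.powerset : Set (Finset (Pt (e + 2)))) := by
    intro T hT T' hT' h
    rw [Finset.mem_coe, Finset.mem_powerset] at hT hT'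
    have key : ∀ p ∈ C, (p ∈ T ↔ p ∈ T') := by
      intro p hp
      have h1 := hco p hp
      have h2 := congrFun h (fun j => ⟨(p j).toNat, by
        have := h1 j
        omega⟩)
      have h3 : (fun j => (((⟨(p j).toNat, by
        have := h1 j
        omega⟩ : Fin ((G.r0 + k) * L)) : ℕ) : ℤ)) = p := by
        funext j
        exact Int.toNat_of_nonneg (h1 j).1
      have h4 : X T p = X T' p := by
        have h5 : X T (fun j => (((⟨(p j).toNat, by
          have := h1 j
          omega⟩ : Fin ((G.r0 + k) * L)) : ℕ) : ℤ)) = X T' (fun j => (((⟨(p j).toNat, by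
          have := h1 j
          omega⟩ : Fin ((G.r0 + k) * L)) : ℕ) : ℤ)) := h2
        rwa [h3] at h5
      rw [← hbe T p hp, ← hbe T' p hp, h4]
    ext p
    constructor
    · intro hp
      exact (key p (hT hp)).1 hp
    · intro hp
      exact (key p (hT' hp)).2 hp
  have h1 : (q '' (C.powerset : Set (Finset (Pt (e + 2))))).ncard = 2 ^ C.card := by
    rw [hq.ncard_image, Set.ncard_coe_finset, Finset.card_powerset]
  have h2 : q '' (C.powerset : Set (Finset (Pt (e + 2)))) ⊆
      patSet (NN (G.OkL k) (G.AdjL k)) ((G.r0 + k) * L) := by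
    rintro _ ⟨T, _, rfl⟩
    exact ⟨X T, hX T, fun _ => rfl⟩
  have h3 := Set.ncard_le_ncard h2 (Set.toFinite _)
  rw [h1] at h3
  refine le_trans (Nat.pow_le_pow_right (by norm_num) ?_) h3
  rw [hC, card_cells hr]
  exact Nat.mul_le_mul_right _ hc

theorem Geo.many_prod (K : ℕ) : ∀ k, G.Many k (∏ i ∈ Finset.range K, (G.r0 + (k + i)))
    (∏ i ∈ Finset.range K, ((G.r0 + (k + i)) ^ (e + 2) - 1)) := by
  induction K with
  | zero =>
    intro k
    simpa using G.many_one k
  | succ K ih =>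
    intro k
    have h := G.many_step (ih (k + 1))
    rw [Finset.prod_range_succ', Finset.prod_range_succ']
    have e1 : ∀ i, G.r0 + (k + (i + 1)) = G.r0 + (k + 1 + i) := fun i => by omega
    simp only [e1, add_zero]
    rw [mul_comm (∏ i ∈ Finset.range K, (G.r0 + (k + 1 + i)))]
    exact h

theorem prod_bound (d R : ℕ) (hR : 2 ≤ R) (K : ℕ) :
    ((∏ i ∈ Finset.range K, (R + i) : ℕ) : ℝ) ^ (d + 2) *
      (((R - 1 : ℝ) / R) * ((R + K : ℝ) / (R + K - 1))) ≤
      ((∏ i ∈ Finset.range K, ((R + i) ^ (d + 2) - 1) : ℕ) : ℝ) := by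
  have hR0 : (2 : ℝ) ≤ R := by exact_mod_cast hR
  induction K with
  | zero =>
    simp only [Finset.range_zero, Finset.prod_empty, Nat.cast_one, one_pow, one_mul,
      Nat.cast_zero, add_zero]
    have h1 : (R : ℝ) - 1 ≠ 0 := by linarith
    have h2 : (R : ℝ) ≠ 0 := by linarith
    apply le_of_eq
    field_simp
  | succ K ih =>
    rw [Finset.prod_range_succ, Finset.prod_range_succ]
    have hK0 : (0 : ℝ) ≤ K := Nat.cast_nonneg K
    set x : ℝ := (R + K : ℝ) with hx
    have hx2 : 2 ≤ x := by linarith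
    have hcast : (((R + K) ^ (d + 2) - 1 : ℕ) : ℝ) = x ^ (d + 2) - 1 := by
      rw [Nat.cast_sub (Nat.one_le_pow _ _ (by omega))]
      push_cast
      rfl
    rw [Nat.cast_mul, Nat.cast_mul, hcast]
    set P : ℝ := ((∏ i ∈ Finset.range K, (R + i) : ℕ) : ℝ) with hP
    set C : ℝ := ((∏ i ∈ Finset.range K, ((R + i) ^ (d + 2) - 1) : ℕ) : ℝ) with hC
    have hP0 : 0 ≤ P := Nat.cast_nonneg _
    have hC0 : 0 ≤ C := Nat.cast_nonneg _
    have h1 : x ^ d * ((x - 1) * (x + 1)) ≤ x ^ (d + 2) - 1 := by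
      have h2 : 1 ≤ x ^ d := one_le_pow₀ (by linarith)
      have h3 : x ^ (d + 2) = x ^ d * x ^ 2 := pow_add _ _ _
      rw [h3]
      nlinarith
    have h4 : ((R + K : ℕ) : ℝ) = x := by push_cast; rfl
    rw [h4]
    have h5 : ((K + 1 : ℕ) : ℝ) = K + 1 := by push_cast; rfl
    have h6 : (R : ℝ) + ((K + 1 : ℕ) : ℝ) = x + 1 := by rw [h5, hx]; ring
    rw [h6]
    have h7 : (P * x) ^ (d + 2) * ((R - 1 : ℝ) / R * ((x + 1) / (x + 1 - 1))) =
        (P ^ (d + 2) * ((R - 1 : ℝ) / R * (x / (x - 1)))) * (x ^ d * ((x - 1) * (x + 1))) := by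
      have hx0 : x ≠ 0 := by linarith
      have hx1 : x - 1 ≠ 0 := by linarith
      have hRn : (R : ℝ) ≠ 0 := by linarith
      have h71 : x + 1 - 1 = x := by ring
      rw [mul_pow, pow_add x d 2, h71]
      field_simp
    rw [h7]
    have h8 : 0 ≤ x ^ d * ((x - 1) * (x + 1)) := by
      have : 0 ≤ x - 1 := by linarith
      positivity
    exact mul_le_mul ih h1 h8 hC0

theorem Geo.entLB (k : ℕ) : ∃ c : ℝ, 0 < c ∧ ∃ᶠ N : ℕ in atTop,
    Real.exp (c * (N : ℝ) ^ (e + 2)) ≤ (numPat (NN (G.OkL k) (G.AdjL k)) N : ℝ) := by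
  have hlog : 0 < Real.log 2 := Real.log_pos (by norm_num)
  refine ⟨Real.log 2 / 2, by positivity, ?_⟩
  rw [frequently_atTop]
  intro K
  have h7 := G.r0_ge
  have hpow : ∀ K : ℕ, 2 ^ K ≤ ∏ i ∈ Finset.range K, (G.r0 + k + i) := by
    intro K
    induction K with
    | zero => simp
    | succ K ih =>
      rw [Finset.prod_range_succ, pow_succ]
      exact Nat.mul_le_mul ih (by omega)
  refine ⟨∏ i ∈ Finset.range (K + 1), (G.r0 + k + i), ?_, ?_⟩
  · exact (Nat.lt_two_pow_self).le.trans (le_trans (Nat.pow_le_pow_right (by norm_num)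
      (Nat.le_succ K)) (hpow (K + 1)))
  · have h1 := G.pow_le_numPat (G.many_prod K (k + 1))
    have e1 : (G.r0 + k) * ∏ i ∈ Finset.range K, (G.r0 + (k + 1 + i)) =
        ∏ i ∈ Finset.range (K + 1), (G.r0 + k + i) := by
      rw [Finset.prod_range_succ', mul_comm, add_zero]
      congr 1
      exact Finset.prod_congr rfl (fun i _ => by omega)
    have e2 : (∏ i ∈ Finset.range K, ((G.r0 + (k + 1 + i)) ^ (e + 2) - 1)) *
        ((G.r0 + k) ^ (e + 2) - 1) =
        ∏ i ∈ Finset.range (K + 1), ((G.r0 + k + i) ^ (e + 2) - 1) := by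
      rw [Finset.prod_range_succ', add_zero]
      congr 1
      exact Finset.prod_congr rfl (fun i _ => by
        rw [show G.r0 + (k + 1 + i) = G.r0 + k + (i + 1) by omega])
    rw [e1, e2] at h1
    have h2 := prod_bound e (G.r0 + k) (by omega) (K + 1)
    set N : ℕ := ∏ i ∈ Finset.range (K + 1), (G.r0 + k + i) with hN
    set C : ℕ := ∏ i ∈ Finset.range (K + 1), ((G.r0 + k + i) ^ (e + 2) - 1) with hC
    -- the constant is at least one half
    set R : ℝ := ((G.r0 + k : ℕ) : ℝ) with hR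
    have hR2 : (2 : ℝ) ≤ R := by
      rw [hR]
      exact_mod_cast (by omega : 2 ≤ G.r0 + k)
    have hK0 : (0 : ℝ) ≤ ((K + 1 : ℕ) : ℝ) := Nat.cast_nonneg _
    have h3 : (1 / 2 : ℝ) ≤ (R - 1) / R * ((R + ((K + 1 : ℕ) : ℝ)) / (R + ((K + 1 : ℕ) : ℝ) - 1)) := by
      have h4 : (1 / 2 : ℝ) ≤ (R - 1) / R := by
        rw [div_le_div_iff₀ (by norm_num) (by linarith)]
        linarith
      have h5 : (1 : ℝ) ≤ (R + ((K + 1 : ℕ) : ℝ)) / (R + ((K + 1 : ℕ) : ℝ) - 1) := by
        rw [one_le_div (by linarith)]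
        linarith
      calc (1 / 2 : ℝ) = 1 / 2 * 1 := by ring
        _ ≤ _ := mul_le_mul h4 h5 (by norm_num) (by linarith)
    have h6 : (N : ℝ) ^ (e + 2) * (1 / 2) ≤ (C : ℝ) :=
      (mul_le_mul_of_nonneg_left h3 (by positivity)).trans h2
    have h8 : Real.log 2 / 2 * (N : ℝ) ^ (e + 2) ≤ Real.log 2 * C := by
      have := mul_le_mul_of_nonneg_left h6 hlog.le
      linarith
    refine (Real.exp_le_exp.2 h8).trans ?_
    have h9 : Real.exp (Real.log 2 * (C : ℝ)) = ((2 ^ C : ℕ) : ℝ) := by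
      rw [mul_comm, Real.exp_nat_mul, Real.exp_log (by norm_num)]
      push_cast
      rfl
    rw [h9]
    exact_mod_cast h1

end Pool.Agent.Lib.P05dae2
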