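import Mathlib
import Pool.Agent.Lib.P05dae2.Api2

/-!
# Existence of the picture (MP_05dae2_an)
-/

namespace Pool.Agent.Lib.P05dae2

/-- Numbering of the pads. -/
def padN {e : ℕ} : Pad e → ℕ
  | .w j => j.val
  | .h => e + 2
  | .v => e + 3

theorem padN_lt {e : ℕ} (q : Pad e) : padN q < e + 4 := by
  cases q with
  | w j => have := j.isLt; simp only [padN]; omega
  | h => simp only [padN]; omega
  | v => simp only [padN]; omega

theorem padN_inj {e : ℕ} : Function.Injective (padN (e := e)) := by
  intro q q' h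
  cases q with
  | w j =>
    have := j.isLt
    cases q' with
    | w j' => simp only [padN] at h; rw [Fin.ext h]
    | h => simp only [padN] at h; omega
    | v => simp only [padN] at h; omega
  | h =>
    cases q' with
    | w j' => have := j'.isLt; simp only [padN] at h; omega
    | h => rfl
    | v => simp only [padN] at h; omega
  | v =>
    cases q' with
    | w j' => have := j'.isLt; simp only [padN] at h; omega
    | h => simp only [padN] at h; omega
    | v => rfl

/-- Numbering of the bits of a type. -/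
def tyN {e n : ℕ} : TyBit e n → ℕ
  | .mu q => padN q
  | .fF j => e + 4 + j.val
  | .lL j => 2 * e + 6 + j.val
  | .dl j => 3 * e + 8 + j.val
  | .ka i => 4 * e + 10 + i.val

theorem tyN_lt {e n : ℕ} (t : TyBit e n) : tyN t < 4 * e + 10 + n := by
  cases t with
  | mu q => have := padN_lt q; simp only [tyN]; omega
  | fF j => have := j.isLt; simp only [tyN]; omega
  | lL j => have := j.isLt; simp only [tyN]; omega
  | dl j => have := j.isLt; simp only [tyN]; omega
  | ka j => have := j.isLt; simp only [tyN]; omega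

theorem tyN_inj {e n : ℕ} : Function.Injective (tyN (e := e) (n := n)) := by
  intro t t' h
  cases t with
  | mu q =>
    have := padN_lt q
    cases t' with
    | mu q' => simp only [tyN] at h; rw [padN_inj h]
    | fF j' => have := j'.isLt; simp only [tyN] at h; omega
    | lL j' => have := j'.isLt; simp only [tyN] at h; omega
    | dl j' => have := j'.isLt; simp only [tyN] at h; omega
    | ka j' => have := j'.isLt; simp only [tyN] at h; omega
  | fF j =>
    have := j.isLt
    cases t' with
    | mu q' => have := padN_lt q'; simp only [tyN] at h; omega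
    | fF j' => simp only [tyN] at h; rw [Fin.ext (show j.val = j'.val by omega)]
    | lL j' => have := j'.isLt; simp only [tyN] at h; omega
    | dl j' => have := j'.isLt; simp only [tyN] at h; omega
    | ka j' => have := j'.isLt; simp only [tyN] at h; omega
  | lL j =>
    have := j.isLt
    cases t' with
    | mu q' => have := padN_lt q'; simp only [tyN] at h; omega
    | fF j' => have := j'.isLt; simp only [tyN] at h; omega
    | lL j' => simp only [tyN] at h; rw [Fin.ext (show j.val = j'.val by omega)]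
    | dl j' => have := j'.isLt; simp only [tyN] at h; omega
    | ka j' => have := j'.isLt; simp only [tyN] at h; omega
  | dl j =>
    have := j.isLt
    cases t' with
    | mu q' => have := padN_lt q'; simp only [tyN] at h; omega
    | fF j' => have := j'.isLt; simp only [tyN] at h; omega
    | lL j' => have := j'.isLt; simp only [tyN] at h; omega
    | dl j' => simp only [tyN] at h; rw [Fin.ext (show j.val = j'.val by omega)]
    | ka j' => have := j'.isLt; simp only [tyN] at h; omega
  | ka j =>
    have := j.isLt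
    cases t' with
    | mu q' => have := padN_lt q'; simp only [tyN] at h; omega
    | fF j' => have := j'.isLt; simp only [tyN] at h; omega
    | lL j' => have := j'.isLt; simp only [tyN] at h; omega
    | dl j' => have := j'.isLt; simp only [tyN] at h; omega
    | ka j' => simp only [tyN] at h; rw [Fin.ext (show j.val = j'.val by omega)]

/-- Numbering of the bits of an edge. -/
def ebN {e n : ℕ} : EB e n → ℕ
  | .fp l => l.val
  | .fz l => e + 2 + l.val
  | .s => 2 * e + 4
  | .g => 2 * e + 5
  | .w => 2 * e + 6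
  | .m => 2 * e + 7
  | .h => 2 * e + 8
  | .v => 2 * e + 9
  | .tb t => 2 * e + 10 + tyN t

theorem ebN_lt {e n : ℕ} (b : EB e n) : ebN b < 6 * e + 20 + n := by
  cases b with
  | fp l => have := l.isLt; simp only [ebN]; omega
  | fz l => have := l.isLt; simp only [ebN]; omega
  | tb t => have := tyN_lt t; simp only [ebN]; omega
  | _ => simp only [ebN]; omega

theorem ebN_inj {e n : ℕ} : Function.Injective (ebN (e := e) (n := n)) := by
  intro b b' h
  cases b with
  | fp l =>
    have := l.isLt
    cases b' with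
    | fp l' => simp only [ebN] at h; rw [Fin.ext h]
    | fz l' => have := l'.isLt; simp only [ebN] at h; omega
    | tb t' => simp only [ebN] at h; omega
    | _ => simp only [ebN] at h; omega
  | fz l =>
    have := l.isLt
    cases b' with
    | fp l' => have := l'.isLt; simp only [ebN] at h; omega
    | fz l' => simp only [ebN] at h; rw [Fin.ext (show l.val = l'.val by omega)]
    | tb t' => simp only [ebN] at h; omega
    | _ => simp only [ebN] at h; omega
  | tb t =>
    cases b' with
    | fp l' => have := l'.isLt; simp only [ebN] at h; omega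
    | fz l' => have := l'.isLt; simp only [ebN] at h; omega
    | tb t' => simp only [ebN] at h; rw [tyN_inj (show tyN t = tyN t' by omega)]
    | _ => simp only [ebN] at h; omega
  | _ =>
    cases b' with
    | fp l' => have := l'.isLt; simp only [ebN] at h; omega
    | fz l' => have := l'.isLt; simp only [ebN] at h; omega
    | tb t' => simp only [ebN] at h; omega
    | _ => first | rfl | (simp only [ebN] at h; omega)

/-- Numbering of the kinds. -/
def kindN {e n : ℕ} : Kind e n → ℕ
  | .dd => 0
  | .port j => 1 + j.val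
  | .tap => e + 3
  | .tr => e + 4
  | .fb => e + 5
  | .fm => e + 6
  | .one => e + 7
  | .v1 => e + 8
  | .pp b => e + 9 + b.toNat
  | .bad => e + 11
  | .zz => e + 12
  | .rt t => e + 13 + tyN t

theorem kindN_lt {e n : ℕ} (k : Kind e n) : kindN k < 5 * e + 23 + n := by
  cases k with
  | port j => have := j.isLt; simp only [kindN]; omega
  | rt t => have := tyN_lt t; simp only [kindN]; omega
  | pp b => have := Bool.toNat_le b; simp only [kindN]; omega
  | _ => simp only [kindN]; omega

theorem kindN_inj {e n : ℕ} : Function.Injective (kindN (e := e) (n := n)) := by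
  intro k k' h
  cases k with
  | port j =>
    have := j.isLt
    cases k' with
    | port j' => simp only [kindN] at h; rw [Fin.ext (show j.val = j'.val by omega)]
    | rt t' => simp only [kindN] at h; omega
    | pp b' => simp only [kindN] at h; omega
    | _ => simp only [kindN] at h; omega
  | rt t =>
    cases k' with
    | port j' => have := j'.isLt; simp only [kindN] at h; omega
    | rt t' => simp only [kindN] at h; rw [tyN_inj (show tyN t = tyN t' by omega)]
    | pp b' => have := Bool.toNat_le b'; simp only [kindN] at h; omega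
    | _ => simp only [kindN] at h; omega
  | pp b =>
    have := Bool.toNat_le b
    cases k' with
    | port j' => have := j'.isLt; simp only [kindN] at h; omega
    | rt t' => simp only [kindN] at h; omega
    | pp b' =>
      simp only [kindN] at h
      have h' : b.toNat = b'.toNat := by omega
      have h'' : b = b' := by revert h'; cases b <;> cases b' <;> simp
      rw [h'']
    | _ => simp only [kindN] at h; omega
  | _ =>
    cases k' with
    | port j' => have := j'.isLt; simp only [kindN] at h; omega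
    | rt t' => simp only [kindN] at h; omega
    | pp b' => have := Bool.toNat_le b'; simp only [kindN] at h; omega
    | _ => first | rfl | (simp only [kindN] at h; omega)

/-- Number of (numbers used for) bits of an edge. -/
def cE (e n : ℕ) : ℕ := 6 * e + 20 + n

/-- Numbering of pairs. -/
def jbN {e n : ℕ} (j : Fin (e + 2)) (b : EB e n) : ℕ := j.val * cE e n + ebN b

theorem jbN_lt {e n : ℕ} (j : Fin (e + 2)) (b : EB e n) : jbN j b < (e + 2) * cE e n := by
  have h1 : ebN b < cE e n := ebN_lt b
  have h2 : (j.val + 1) * cE e n ≤ (e + 2) * cE e n := Nat.mul_le_mul_right _ j.isLt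
  unfold jbN
  have h3 : (j.val + 1) * cE e n = j.val * cE e n + cE e n := by ring
  omega

theorem jbN_inj {e n : ℕ} {j j' : Fin (e + 2)} {b b' : EB e n} (h : jbN j b = jbN j' b') :
    j = j' ∧ b = b' := by
  have h1 : ebN b < cE e n := ebN_lt b
  have h2 : ebN b' < cE e n := ebN_lt b'
  unfold jbN at h
  have h3 : j.val = j'.val := by
    have e1 : (j.val * cE e n + ebN b) / cE e n = j.val := by
      rw [mul_comm, Nat.mul_add_div (by omega), Nat.div_eq_of_lt h1, add_zero]
    have e2 : (j'.val * cE e n + ebN b') / cE e n = j'.val := by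
      rw [mul_comm, Nat.mul_add_div (by omega), Nat.div_eq_of_lt h2, add_zero]
    rw [← e1, ← e2, h]
  rw [h3] at h
  exact ⟨Fin.ext h3, ebN_inj (by omega)⟩

/-- Numbering of the rows. -/
def rkN {e n : ℕ} : Row e n → ℕ
  | .ty t => tyN t
  | .iB j b => if j = 1 then (4 * e + 10 + n) + ebN b
      else (4 * e + 10 + n) + 2 * cE e n + 2 * jbN j b + 1
  | .oA j b => if j = 1 then (4 * e + 10 + n) + cE e n + ebN b
      else (4 * e + 10 + n) + 2 * cE e n + 2 * jbN j b
  | .om => (4 * e + 10 + n) + 2 * cE e n + 2 * ((e + 2) * cE e n)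
  | .be => (4 * e + 10 + n) + 2 * cE e n + 2 * ((e + 2) * cE e n) + 1
  | .oh => (4 * e + 10 + n) + 2 * cE e n + 2 * ((e + 2) * cE e n) + 2
  | .ov => (4 * e + 10 + n) + 2 * cE e n + 2 * ((e + 2) * cE e n) + 3
  | .one => (4 * e + 10 + n) + 2 * cE e n + 2 * ((e + 2) * cE e n) + 4

theorem rkN_iB1 {e n : ℕ} (b : EB e n) : rkN (.iB 1 b) = (4 * e + 10 + n) + ebN b := by
  simp [rkN]

theorem rkN_oA1 {e n : ℕ} (b : EB e n) :
    rkN (.oA 1 b) = (4 * e + 10 + n) + cE e n + ebN b := by
  simp [rkN]

theorem rkN_iB {e n : ℕ} {j : Fin (e + 2)} (hj : j ≠ 1) (b : EB e n) :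
    rkN (.iB j b) = (4 * e + 10 + n) + 2 * cE e n + 2 * jbN j b + 1 := by
  simp [rkN, hj]

theorem rkN_oA {e n : ℕ} {j : Fin (e + 2)} (hj : j ≠ 1) (b : EB e n) :
    rkN (.oA j b) = (4 * e + 10 + n) + 2 * cE e n + 2 * jbN j b := by
  simp [rkN, hj]

theorem rkN_inj {e n : ℕ} : Function.Injective (rkN (e := e) (n := n)) := by
  intro ρ ρ' h
  have hty : ∀ t : TyBit e n, rkN (.ty t) < 4 * e + 10 + n := fun t => tyN_lt t
  have hb : ∀ b : EB e n, ebN b < cE e n := fun b => ebN_lt b
  have hiB : ∀ (j : Fin (e + 2)) (b : EB e n),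
      (j = 1 ∧ rkN (.iB j b) = (4 * e + 10 + n) + ebN b) ∨
      (j ≠ 1 ∧ rkN (.iB j b) = (4 * e + 10 + n) + 2 * cE e n + 2 * jbN j b + 1) := by
    intro j b
    by_cases hj : j = 1
    · left; subst hj; exact ⟨rfl, rkN_iB1 b⟩
    · right; exact ⟨hj, rkN_iB hj b⟩
  have hoA : ∀ (j : Fin (e + 2)) (b : EB e n),
      (j = 1 ∧ rkN (.oA j b) = (4 * e + 10 + n) + cE e n + ebN b) ∨
      (j ≠ 1 ∧ rkN (.oA j b) = (4 * e + 10 + n) + 2 * cE e n + 2 * jbN j b) := by
    intro j b
    by_cases hj : j = 1
    · left; subst hj; exact ⟨rfl, rkN_oA1 b⟩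
    · right; exact ⟨hj, rkN_oA hj b⟩
  have hom : rkN (.om : Row e n) = (4 * e + 10 + n) + 2 * cE e n + 2 * ((e + 2) * cE e n) := rfl
  have hbe : rkN (.be : Row e n) = (4 * e + 10 + n) + 2 * cE e n + 2 * ((e + 2) * cE e n) + 1 :=
    rfl
  have hoh : rkN (.oh : Row e n) = (4 * e + 10 + n) + 2 * cE e n + 2 * ((e + 2) * cE e n) + 2 :=
    rfl
  have hov : rkN (.ov : Row e n) = (4 * e + 10 + n) + 2 * cE e n + 2 * ((e + 2) * cE e n) + 3 :=
    rfl
  have hone : rkN (.one : Row e n) = (4 * e + 10 + n) + 2 * cE e n + 2 * ((e + 2) * cE e n) + 4 :=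
    rfl
  cases ρ with
  | ty t =>
    have h1 := hty t
    cases ρ' with
    | ty t' => rw [tyN_inj (show tyN t = tyN t' from h)]
    | iB j' b' => rcases hiB j' b' with ⟨h2, h3⟩ | ⟨h2, h3⟩ <;> omega
    | oA j' b' => rcases hoA j' b' with ⟨h2, h3⟩ | ⟨h2, h3⟩ <;> omega
    | _ => omega
  | iB j b =>
    have h1 := hb b
    have h1' := jbN_lt j b
    cases ρ' with
    | ty t' => have h4 := hty t'; rcases hiB j b with ⟨h2, h3⟩ | ⟨h2, h3⟩ <;> omega
    | iB j' b' =>
      have h4 := hb b'
      have h4' := jbN_lt j' b'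
      rcases hiB j b with ⟨h2, h3⟩ | ⟨h2, h3⟩ <;> rcases hiB j' b' with ⟨h5, h6⟩ | ⟨h5, h6⟩
      · rw [h2, h5, ebN_inj (show ebN b = ebN b' by omega)]
      · omega
      · omega
      · obtain ⟨e1, e2⟩ := jbN_inj (show jbN j b = jbN j' b' by omega)
        rw [e1, e2]
    | oA j' b' =>
      have h4 := hb b'
      have h4' := jbN_lt j' b'
      rcases hiB j b with ⟨h2, h3⟩ | ⟨h2, h3⟩ <;>
        rcases hoA j' b' with ⟨h5, h6⟩ | ⟨h5, h6⟩ <;> omega
    | _ => rcases hiB j b with ⟨h2, h3⟩ | ⟨h2, h3⟩ <;> omega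
  | oA j b =>
    have h1 := hb b
    have h1' := jbN_lt j b
    cases ρ' with
    | ty t' => have h4 := hty t'; rcases hoA j b with ⟨h2, h3⟩ | ⟨h2, h3⟩ <;> omega
    | oA j' b' =>
      have h4 := hb b'
      have h4' := jbN_lt j' b'
      rcases hoA j b with ⟨h2, h3⟩ | ⟨h2, h3⟩ <;> rcases hoA j' b' with ⟨h5, h6⟩ | ⟨h5, h6⟩
      · rw [h2, h5, ebN_inj (show ebN b = ebN b' by omega)]
      · omega
      · omega
      · obtain ⟨e1, e2⟩ := jbN_inj (show jbN j b = jbN j' b' by omega)
        rw [e1, e2]
    | iB j' b' =>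
      have h4 := hb b'
      have h4' := jbN_lt j' b'
      rcases hoA j b with ⟨h2, h3⟩ | ⟨h2, h3⟩ <;>
        rcases hiB j' b' with ⟨h5, h6⟩ | ⟨h5, h6⟩ <;> omega
    | _ => rcases hoA j b with ⟨h2, h3⟩ | ⟨h2, h3⟩ <;> omega
  | _ =>
    cases ρ' with
    | ty t' => have h4 := hty t'; omega
    | iB j' b' =>
      have h4 := hb b'
      have h4' := jbN_lt j' b'
      rcases hiB j' b' with ⟨h5, h6⟩ | ⟨h5, h6⟩ <;> omega
    | oA j' b' =>
      have h4 := hb b'
      have h4' := jbN_lt j' b'
      rcases hoA j' b' with ⟨h5, h6⟩ | ⟨h5, h6⟩ <;> omega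
    | _ => first | rfl | omega

/-- The encoding of kinds. -/
def encN {e n : ℕ} (k : Kind e n) (i : Fin n) : Bool := (kindN k).testBit i.val

theorem encN_inj {e n : ℕ} (hn : 5 * e + 23 + n ≤ 2 ^ n) :
    Function.Injective (encN (e := e) (n := n)) := by
  intro k k' h
  apply kindN_inj
  apply Nat.eq_of_testBit_eq
  intro i
  by_cases hi : i < n
  · exact congrFun h ⟨i, hi⟩
  · have h1 : kindN k < 2 ^ i :=
      lt_of_lt_of_le (kindN_lt k) (hn.trans (Nat.pow_le_pow_right (by norm_num) (by omega)))
    have h2 : kindN k' < 2 ^ i :=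
      lt_of_lt_of_le (kindN_lt k') (hn.trans (Nat.pow_le_pow_right (by norm_num) (by omega)))
    rw [Nat.testBit_lt_two_pow h1, Nat.testBit_lt_two_pow h2]

theorem exists_geo (e : ℕ) : ∃ n : ℕ, ∃ enc : Kind e n → Fin n → Bool, Nonempty (Geo enc) := by
  set n := 5 * e + 23 with hn
  have hpow : 5 * e + 23 + n ≤ 2 ^ n := by
    have h1 : ∀ m : ℕ, 2 ≤ m → 2 * m ≤ 2 ^ m := by
      intro m hm
      induction m, hm using Nat.le_induction with
      | base => norm_num
      | succ m hm ih => rw [pow_succ]; omega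
    have := h1 n (by omega)
    omega
  refine ⟨n, encN, ?_⟩
  -- numberings of the columns and of the palette
  obtain ⟨nC, ⟨idC⟩⟩ := Finite.exists_equiv_fin (Col (encN (e := e) (n := n)))
  obtain ⟨nP, ⟨idP⟩⟩ := Finite.exists_equiv_fin ((Pad e → Bool) × (Pad e → Bool))
  let XR : ℤ := (cE e n : ℤ) + 1
  let Yt : ℤ := 2 * (rkN (.one : Row e n) : ℤ) + 4 + 2
  let MX : ℤ := max XR Yt
  let XZ : ℤ := MX + 3 + 3 * (nC : ℤ) + 3
  have hMX1 : XR ≤ MX := le_max_left _ _
  have hMX2 : Yt ≤ MX := le_max_right _ _
  have hXR0 : 0 ≤ XR := by simp only [XR]; omega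
  have hb : ∀ b : EB e n, ebN b < cE e n := fun b => ebN_lt b
  refine ⟨{
    hgt := fun ρ => 2 * (rkN ρ : ℤ) + 4
    Yt := Yt
    xp := fun b => (cE e n : ℤ) - (ebN b : ℤ)
    XR := XR
    colx := fun q => MX + 3 + 3 * ((idC q).val : ℤ)
    XZ := XZ
    pal := fun γ => XZ + 3 + 3 * ((idP γ).val : ℤ)
    r0 := (XZ + 3 + 3 * (nP : ℤ) + 3).toNat
    enc_inj := encN_inj hpow
    hgt_inj := ?_
    hgt_even := ?_
    hgt_first := ?_
    hgt_ge := ?_
    hgt_ty := ?_
    hgt_pair := ?_
    hgt_one := ?_
    Yt_eq := ?_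
    xp_pos := ?_
    xp_inj := ?_
    xp_XR := ?_
    xp_iB := ?_
    iB1_lt_oA1 := ?_
    iB1_lt_oA := ?_
    colx_XR := ?_
    colx_Yt := ?_
    colx_sep := ?_
    colx_XZ := ?_
    XR_XZ := ?_
    Yt_XZ := ?_
    pal_ge := ?_
    pal_sep := ?_
    pal_r0 := ?_
    XZ_r0 := ?_ }⟩
  · intro ρ ρ' h
    apply rkN_inj
    have h' : 2 * (rkN ρ : ℤ) + 4 = 2 * (rkN ρ' : ℤ) + 4 := h
    omega
  · intro ρ; omega
  · simp [rkN, tyN, padN]
  · intro ρ; omega
  · intro t ρ hρ
    have h1 : rkN (.ty t : Row e n) < 4 * e + 10 + n := tyN_lt t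
    have h2 : 4 * e + 10 + n ≤ rkN ρ := by
      cases ρ with
      | ty t' => exact absurd rfl (hρ t')
      | iB j b =>
        by_cases hj : j = 1
        · subst hj; rw [rkN_iB1]; omega
        · rw [rkN_iB hj]; omega
      | oA j b =>
        by_cases hj : j = 1
        · subst hj; rw [rkN_oA1]; omega
        · rw [rkN_oA hj]; omega
      | _ => simp only [rkN]; omega
    omega
  · intro j b hj
    rw [rkN_iB hj, rkN_oA hj]
    push_cast
    ring
  · intro ρ hρ
    have h1 : rkN (.one : Row e n) =
        (4 * e + 10 + n) + 2 * cE e n + 2 * ((e + 2) * cE e n) + 4 := rfl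
    have h2 : rkN ρ < rkN (.one : Row e n) := by
      rw [h1]
      cases ρ with
      | ty t' => have := tyN_lt t'; simp only [rkN]; omega
      | iB j b =>
        have h3 := hb b
        have h4 := jbN_lt j b
        by_cases hj : j = 1
        · subst hj; rw [rkN_iB1]; omega
        · rw [rkN_iB hj]; omega
      | oA j b =>
        have h3 := hb b
        have h4 := jbN_lt j b
        by_cases hj : j = 1
        · subst hj; rw [rkN_oA1]; omega
        · rw [rkN_oA hj]; omega
      | one => exact absurd rfl hρ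
      | _ => simp only [rkN]; omega
    omega
  · rfl
  · intro b
    have := hb b
    omega
  · intro b b' h
    apply ebN_inj
    have h' : (cE e n : ℤ) - (ebN b : ℤ) = (cE e n : ℤ) - (ebN b' : ℤ) := h
    omega
  · intro b
    simp only [XR]
    omega
  · intro b b' h
    rw [rkN_iB1, rkN_iB1]
    push_cast
    omega
  · intro b b'
    have := hb b
    rw [rkN_iB1, rkN_oA1]
    push_cast
    omega
  · intro b j b' hj
    have := hb b
    rw [rkN_iB1, rkN_oA hj]
    push_cast
    omega
  · intro q; omega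
  · intro q; omega
  · intro q q' hq
    have h1 : (idC q).val ≠ (idC q').val := fun h => hq (idC.injective (Fin.ext h))
    rw [le_abs]
    omega
  · intro q
    have := (idC q).isLt
    simp only [XZ]
    omega
  · simp only [XZ]; omega
  · simp only [XZ]; omega
  · intro γ; omega
  · intro γ γ' hγ
    have h1 : (idP γ).val ≠ (idP γ').val := fun h => hγ (idP.injective (Fin.ext h))
    rw [le_abs]
    omega
  · intro γ
    have := (idP γ).isLt
    have h0 : 0 ≤ XZ + 3 + 3 * (nP : ℤ) + 3 := by simp only [XZ]; omega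
    rw [Int.toNat_of_nonneg h0]
    omega
  · have h0 : 0 ≤ XZ + 3 + 3 * (nP : ℤ) + 3 := by simp only [XZ]; omega
    rw [Int.toNat_of_nonneg h0]
    omega

end Pool.Agent.Lib.P05dae2
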