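import Mathlib
import Pool.Agent.Lib.P05dae2.CellRules

/-!
# Attainability (MP_05dae2_an)
-/

namespace Pool.Agent.Lib.P05dae2

variable {e n : ℕ} {enc : Kind e n → Fin n → Bool} (G : Geo enc)

/-- The child at position `a` of the labelled state `s` (blocks of side `R`). -/
noncomputable def Geo.ch (R : ℤ) (s : Pt (e + 2) × St e n) (a : Pt (e + 2)) :
    Pt (e + 2) × St e n := (a, G.cell R s.1 (code enc s.2) a)

theorem Geo.cell_typ (R : ℤ) (A : Pt (e + 2)) (c : Row e n → Bool) (a : Pt (e + 2)) :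
    (G.cell R A c a).typ = G.Ty R a := rfl

theorem Geo.okZ_ch {R : ℤ} (hR : (G.r0 : ℤ) ≤ R) {s : Pt (e + 2) × St e n}
    (hs : G.OkZ (R + 1) s) {a : Pt (e + 2)} (ha : InB R a) : G.OkZ R (G.ch R s a) := by
  refine ⟨ha, ?_, rfl⟩
  exact G.rules_cellC hR (A := s.1) (θ := s.2) hs (by simp) ha (by simp)

/-- `P` is attained below every admissible state of some higher level. -/
def Geo.Attain (R : ℤ) (P : Pt (e + 2) × St e n → Prop) : Prop :=
  ∃ M : ℕ, ∀ s', G.OkZ (R + M) s' → ∃ t, G.Chain R M s' t ∧ G.OkZ R t ∧ P t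

variable {G}

theorem Geo.Attain.mono {R : ℤ} {P Q : Pt (e + 2) × St e n → Prop} (h : G.Attain R P)
    (hPQ : ∀ t, G.OkZ R t → P t → Q t) : G.Attain R Q := by
  obtain ⟨M, hM⟩ := h
  refine ⟨M, fun s' hs' => ?_⟩
  obtain ⟨t, h1, h2, h3⟩ := hM s' hs'
  exact ⟨t, h1, h2, hPQ t h2 h3⟩

theorem Geo.attain_true (R : ℤ) : G.Attain R (fun _ => True) := by
  refine ⟨0, fun s' hs' => ⟨s', rfl, ?_, trivial⟩⟩
  simpa using hs'

/-- Extension of a chain at the bottom. -/
theorem Geo.chain_bot {R : ℤ} : ∀ (M : ℕ) (s' s : Pt (e + 2) × St e n),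
    G.Chain (R + 1) M s' s → ∀ a, InB R a → G.Chain R (M + 1) s' (G.ch R s a) := by
  intro M
  induction M with
  | zero =>
    intro s' s h a ha
    have h' : s = s' := h
    subst h'
    refine ⟨a, by simpa using ha, ?_⟩
    simp only [Geo.Chain, Geo.ch, Nat.cast_zero, add_zero]
  | succ M ih =>
    intro s' s h a ha
    obtain ⟨b, hb, h⟩ := h
    have e1 : R + 1 + (M : ℤ) = R + ((M + 1 : ℕ) : ℤ) := by push_cast; ring
    rw [e1] at hb h
    exact ⟨b, hb, ih _ _ h a ha⟩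

/-- Decomposition of a chain at the bottom. -/
theorem Geo.chain_bot_inv {R : ℤ} : ∀ (M : ℕ) (s' t : Pt (e + 2) × St e n),
    G.Chain R (M + 1) s' t → ∃ s a, G.Chain (R + 1) M s' s ∧ InB R a ∧ t = G.ch R s a := by
  intro M
  induction M with
  | zero =>
    intro s' t h
    obtain ⟨a, ha, h⟩ := h
    refine ⟨s', a, rfl, by simpa using ha, ?_⟩
    have h' : t = _ := h
    rw [h']
    simp [Geo.ch]
  | succ M ih =>
    intro s' t h
    obtain ⟨b, hb, h⟩ := h
    obtain ⟨s, a, h1, h2, h3⟩ := ih _ _ h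
    have e1 : R + 1 + (M : ℤ) = R + ((M + 1 : ℕ) : ℤ) := by push_cast; ring
    refine ⟨s, a, ⟨b, ?_, ?_⟩, h2, h3⟩
    · rw [e1]; exact hb
    · rw [e1]; exact h1

theorem Geo.Attain.step {R : ℤ} (hR : (G.r0 : ℤ) ≤ R) {P Q : Pt (e + 2) × St e n → Prop}
    (h : G.Attain (R + 1) P)
    (hPQ : ∀ s, G.OkZ (R + 1) s → P s → ∃ a, InB R a ∧ Q (G.ch R s a)) : G.Attain R Q := by
  obtain ⟨M, hM⟩ := h
  refine ⟨M + 1, fun s' hs' => ?_⟩
  have e1 : R + ((M + 1 : ℕ) : ℤ) = R + 1 + (M : ℤ) := by push_cast; ring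
  rw [e1] at hs'
  obtain ⟨s, h1, h2, h3⟩ := hM s' hs'
  obtain ⟨a, ha, hQ⟩ := hPQ s h2 h3
  exact ⟨G.ch R s a, Geo.chain_bot M s' s h1 a ha, G.okZ_ch hR h2 ha, hQ⟩

theorem Geo.attain_label {R : ℤ} (hR : (G.r0 : ℤ) ≤ R) {A : Pt (e + 2)} (hA : InB R A) :
    G.Attain R (fun t => t.1 = A) :=
  (Geo.attain_true (R + 1)).step hR (fun _ _ _ => ⟨A, hA, rfl⟩)

variable (G)

/-- States which are `k`-fold descendants of admissible states. -/
def Geo.Om : ℕ → ℤ → Pt (e + 2) × St e n → Prop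
  | 0, R, s => G.OkZ R s
  | (k + 1), R, s => ∃ s' a, Geo.Om k (R + 1) s' ∧ InB R a ∧ s = G.ch R s' a

theorem Geo.Om.ok : ∀ {k : ℕ} {R : ℤ} {s : Pt (e + 2) × St e n}, (G.r0 : ℤ) ≤ R →
    G.Om k R s → G.OkZ R s := by
  intro k
  induction k with
  | zero => intro R s _ h; exact h
  | succ k ih =>
    rintro R s hR ⟨s', a, h, ha, rfl⟩
    exact G.okZ_ch hR (ih (by omega) h) ha

theorem Geo.Om.pred : ∀ {k : ℕ} {R : ℤ} {s : Pt (e + 2) × St e n}, (G.r0 : ℤ) ≤ R →
    G.Om (k + 1) R s → G.Om k R s := by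
  intro k
  induction k with
  | zero =>
    intro R s hR h
    exact Geo.Om.ok G hR h
  | succ k ih =>
    rintro R s hR ⟨s', a, h, ha, rfl⟩
    exact ⟨s', a, ih (by omega) h, ha, rfl⟩

theorem Geo.om_of_chain {R : ℤ} (hR : (G.r0 : ℤ) ≤ R) : ∀ (M : ℕ)
    (s' t : Pt (e + 2) × St e n), G.OkZ (R + M) s' → G.Chain R M s' t → G.Om M R t := by
  intro M
  induction M generalizing R with
  | zero =>
    intro s' t hs' h
    have h' : t = s' := h
    subst h'
    simpa [Geo.Om] using hs'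
  | succ M ih =>
    intro s' t hs' h
    obtain ⟨s, a, h1, h2, h3⟩ := Geo.chain_bot_inv M s' t h
    refine ⟨s, a, ih (by omega) s' s ?_ h1, h2, h3⟩
    have e1 : R + 1 + (M : ℤ) = R + ((M + 1 : ℕ) : ℤ) := by push_cast; ring
    rw [e1]; exact hs'

/-! ### The palette states -/

/-- The trivial edge. -/
noncomputable def Geo.E0 (R : ℤ) : Edge e n where
  f := fun _ => .dot
  T := G.Ty (R + 1) (fun _ => 0)
  s := false
  g := false
  w := false
  m := false
  h := false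
  v := false

/-- The trivial own content. -/
noncomputable def Geo.O0 (R : ℤ) : Own e n where
  f := fun _ => .dot
  T := G.Ty (R + 1) (fun _ => 0)
  s := fun _ => false
  g := fun _ => false
  w := fun _ => false
  m := false
  be := false
  h := false
  v := false

/-- The state of the palette label in a block with label `0`. -/
noncomputable def Geo.thP (R : ℤ) (γ : (Pad e → Bool) × (Pad e → Bool)) : St e n where
  typ := G.Ty R (G.palL γ)
  inn := fun _ => G.E0 R
  own := G.O0 R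

theorem Geo.pal_big (γ : (Pad e → Bool) × (Pad e → Bool)) : G.XZ + 3 ≤ G.pal γ ∧
    G.pal γ + 3 ≤ (G.r0 : ℤ) := ⟨G.pal_ge γ, G.pal_r0 γ⟩

/-- Positions with two large coordinates. -/
theorem Geo.io_lt (j : Fin (e + 2)) (b : EB e n) (l : Fin (e + 2)) :
    G.io j b l < G.XZ := by
  have h1 := G.Yt_XZ
  have h2 := G.hgt_lt_Yt (.oA j b)
  have h3 := G.px_lt_XR j b
  have h4 := G.XR_XZ
  have h5 := G.XR_pos
  unfold Geo.io
  split_ifs <;> omega

theorem Geo.not_WW_big {c : Row e n → Bool} {j : Fin (e + 2)} {a : Pt (e + 2)}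
    {l : Fin (e + 2)} (hl : l ≠ j) (h : G.XZ ≤ a l) : ¬ G.WW c j a := by
  rintro ⟨b, hb, _⟩
  have := hb l hl
  have := G.io_lt j b l
  omega

theorem Geo.not_WI_big {c : Row e n → Bool} {j : Fin (e + 2)} {a : Pt (e + 2)}
    {l : Fin (e + 2)} (hl : l ≠ j) (h : G.XZ ≤ a l) : ¬ G.WI c j a := by
  rintro ⟨b, hb, _⟩
  have := hb l hl
  have := G.io_lt j b l
  omega

theorem Geo.not_HH_big {c : Row e n → Bool} {a : Pt (e + 2)}
    {l : Fin (e + 2)} (h : G.XZ ≤ a l) : ¬ G.HH c a := by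
  rintro ⟨hp, ρ, h1, h2, h3, _⟩
  have := G.hgt_lt_Yt ρ
  have := G.Yt_XZ
  have := G.XR_XZ
  have := G.XR_pos
  by_cases h0 : l = 0
  · subst h0; omega
  · by_cases h1' : l = 1
    · subst h1'; omega
    · have := hp l h0 h1'
      omega

theorem Geo.not_VV_big {c : Row e n → Bool} {a : Pt (e + 2)}
    {l : Fin (e + 2)} (h : G.XZ ≤ a l) : ¬ G.VV c a := by
  rintro ⟨hp, hv⟩
  have := G.Yt_XZ
  have := G.XR_XZ
  have := G.XR_pos
  have key : a 0 < G.XZ ∧ a 1 < G.XZ := by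
    rcases hv with ⟨j, b, h0, h1, h2, _⟩ | ⟨q, h0, h1, h2, _⟩
    · have := G.px_lt_XR j b
      have := G.hgt_lt_Yt (.iB j b)
      omega
    · have := G.colx_XZ q
      omega
  by_cases h0 : l = 0
  · subst h0; omega
  · by_cases h1' : l = 1
    · subst h1'; omega
    · have := hp l h0 h1'
      omega

theorem exists_ne' (j : Fin (e + 2)) : ∃ l : Fin (e + 2), l ≠ j := by
  by_cases hj : j = 0
  · exact ⟨1, by rw [hj]; exact ne10⟩
  · exact ⟨0, Ne.symm hj⟩

/-- The palette label in a block with label `0`. -/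
theorem Geo.cell_pal (R : ℤ) (hR : (G.r0 : ℤ) ≤ R) (c : Row e n → Bool)
    (γ : (Pad e → Bool) × (Pad e → Bool)) :
    G.cell R (fun _ => 0) c (G.palL γ) = G.thP R γ := by
  classical
  have hb := G.pal_big γ
  have h1 := G.XR_XZ
  have h2 := G.XR_pos
  have hp : ∀ l, G.palL γ l = G.pal γ := fun l => rfl
  have hcoord : ∀ j l : Fin (e + 2), G.pal γ - 1 ≤ (G.palL γ - ev j) l ∧
      (G.palL γ - ev j) l ≤ G.pal γ := by
    intro j l
    simp only [Pi.sub_apply, ev, hp]
    split_ifs <;> omega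
  have hown : ∀ a : Pt (e + 2), (∀ l, G.XZ ≤ a l) →
      G.ownC R (fun _ => 0) c false (fun _ => false) a = G.O0 R := by
    intro a ha
    have ha' : ∀ l, 5 ≤ a l := fun l => by have := ha l; omega
    refine Own.ext ?_ rfl ?_ ?_ ?_ rfl rfl ?_ ?_
    · funext l
      have := ha' l
      simp only [Geo.ownC, Geo.O0, nf]
      rw [if_neg (by omega), if_neg (by omega)]
    · funext j
      have := ha' (tv j)
      simp only [Geo.ownC, Geo.O0]
      split_ifs
      · exact decide_eq_false (by omega)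
      · exact decide_eq_false (by omega)
    · funext j
      simp only [Geo.ownC, Geo.O0]
      refine decide_eq_false ?_
      rintro ⟨h, _⟩
      obtain ⟨l, hl⟩ := exists_ne' j
      have := h l hl
      have := ha' l
      omega
    · funext j
      obtain ⟨l, hl⟩ := exists_ne' j
      simp only [Geo.ownC, Geo.O0]
      exact decide_eq_false (G.not_WW_big hl (ha l))
    · simp only [Geo.ownC, Geo.O0]
      exact decide_eq_false (G.not_HH_big (ha 0))
    · simp only [Geo.ownC, Geo.O0]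
      exact decide_eq_false (G.not_VV_big (ha 0))
  refine St.ext rfl ?_ ?_
  · funext j
    have hj : G.palL γ j ≠ 0 := by rw [hp]; omega
    change (G.cellC R (fun _ => 0) c false (fun _ => false) (G.palL γ)).inn j = G.E0 R
    rw [G.cellC_inn_in hj, hown _ (fun l => by have := hcoord j l; omega)]
    simp [out, Geo.O0, Geo.E0]
  · exact hown _ (fun l => by rw [hp]; omega)

theorem Geo.inB_palL {R : ℤ} (hR : (G.r0 : ℤ) ≤ R) (γ : (Pad e → Bool) × (Pad e → Bool)) :
    InB R (G.palL γ) := by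
  intro j
  have hb := G.pal_big γ
  have h1 := G.XR_XZ
  have h2 := G.XR_pos
  change 0 ≤ G.pal γ ∧ G.pal γ < R
  omega

theorem Geo.attain_pal {R : ℤ} (hR : (G.r0 : ℤ) ≤ R) (γ : (Pad e → Bool) × (Pad e → Bool)) :
    G.Attain R (fun t => t = (G.palL γ, G.thP R γ)) := by
  have h0 : InB (R + 1) (fun _ : Fin (e + 2) => (0 : ℤ)) := by
    intro j
    have := G.r0_pos
    constructor
    · exact le_rfl
    · show (0 : ℤ) < R + 1
      omega
  refine (Geo.attain_label (G := G) (R := R + 1) (by omega) h0).step hR ?_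
  intro s hs hs1
  refine ⟨G.palL γ, G.inB_palL hR γ, ?_⟩
  simp only [Geo.ch]
  rw [hs1, G.cell_pal R hR]

end Pool.Agent.Lib.P05dae2
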