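import Mathlib
import Pool.Agent.Lib.P05dae2.Good1

/-!
# Values of the rows of a cell, single rows (MP_05dae2_an)
-/

namespace Pool.Agent.Lib.P05dae2

variable {e n : ℕ} {enc : Kind e n → Fin n → Bool} (G : Geo enc)

/-- The wire read by a row at a position. -/
def Geo.rX (R : ℤ) (a : Pt (e + 2)) : Row e n → (Row e n → Bool) → Prop
  | .oA j .w, c => G.WW c j a
  | .oA j .h, c => j = 0 ∧ a 0 ≠ R - 1 ∧ G.HH c a
  | .oA j .v, c => j = 1 ∧ a 1 ≠ R - 1 ∧ G.VV c a
  | .iB j .w, c => (a j = 0 ∧ G.WI c j a) ∨ (a j ≠ 0 ∧ G.WW c j a)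
  | .iB j .h, c => j = 0 ∧ a 0 ≠ 0 ∧ G.HH c (a - ev 0)
  | .iB j .v, c => j = 1 ∧ a 1 ≠ 0 ∧ G.VV c (a - ev 1)
  | .oh, c => G.HH c a
  | .ov, c => G.VV c a
  | _, _ => False

/-- The pad of a row. -/
def rP : Row e n → Option (Pad e)
  | .oA j .w => some (.w j)
  | .oA _ .h => some .h
  | .oA _ .v => some .v
  | .iB j .w => some (.w j)
  | .iB _ .h => some .h
  | .iB _ .v => some .v
  | .oh => some .h
  | .ov => some .v
  | _ => none

/-- Whether the pad of a row is that of the preceding block. -/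
def rQ (a : Pt (e + 2)) : Row e n → Option (Fin (e + 2))
  | .iB j _ => if a j = 0 then some j else none
  | _ => none

/-- The source label. -/
def srcL (R : ℤ) (B : Pt (e + 2)) : Option (Fin (e + 2)) → Pt (e + 2)
  | none => B
  | some j => predL R B j

open Classical in
theorem Geo.row_val {R : ℤ} {B : Pt (e + 2)} {c : Row e n → Bool} {a : Pt (e + 2)}
    (ha : InB R a) {ρ : Row e n} {q : Pad e} (hq : rP ρ = some q) :
    code enc (G.cell R B c a) ρ =
      xor (decide (G.rX R a ρ c)) (G.mu0 (srcL R B (rQ a ρ)) q) := by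
  have hL : ∀ j : Fin (e + 2), a j ≠ 0 → (G.Ty (enc := enc) R (a - ev j)).L j = false := by
    intro j hj
    have := ha j
    simp only [Geo.Ty, Pi.sub_apply, ev, if_true]
    exact decide_eq_false (by omega)
  have hin : ∀ j : Fin (e + 2), (G.cell R B c a).inn j =
      if a j = 0 then G.bEdge R B c a j
      else out j (G.Ty R (a - ev j)).L (G.ownC R B c false (fun _ => false) (a - ev j)) :=
    fun j => rfl
  have hown : (G.cell R B c a).own = G.ownC R B c false (fun _ => false) a := rfl
  have htyp : (G.cell R B c a).typ = G.Ty R a := rfl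
  cases ρ with
  | ty t => simp [rP] at hq
  | om => simp [rP] at hq
  | be => simp [rP] at hq
  | one => simp [rP] at hq
  | oh =>
    simp only [rP, Option.some.injEq] at hq
    subst hq
    simp only [code, hown, Geo.ownC, Geo.rX, rQ, srcL, Geo.Ty]
    rw [Bool.xor_left_inj]
    exact decide_eq_decide.mpr Iff.rfl
  | ov =>
    simp only [rP, Option.some.injEq] at hq
    subst hq
    simp only [code, hown, Geo.ownC, Geo.rX, rQ, srcL, Geo.Ty]
    rw [Bool.xor_left_inj]
    exact decide_eq_decide.mpr Iff.rfl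
  | oA j b =>
    cases b with
    | w =>
      simp only [rP, Option.some.injEq] at hq
      subst hq
      simp only [code, hown, htyp, ebit, out, Geo.ownC, Geo.rX, rQ, srcL, Geo.Ty]
      rw [Bool.xor_left_inj]
      exact decide_eq_decide.mpr Iff.rfl
    | h =>
      simp only [rP, Option.some.injEq] at hq
      subst hq
      simp only [code, hown, htyp, ebit, out, Geo.ownC, Geo.rX, rQ, srcL, Geo.Ty]
      congr 1
      by_cases hj : j = 0
      · subst hj
        by_cases h1 : a 0 = R - 1 <;> by_cases h2 : G.HH c a <;> simp [h1, h2]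
      · simp [hj]
    | v =>
      simp only [rP, Option.some.injEq] at hq
      subst hq
      simp only [code, hown, htyp, ebit, out, Geo.ownC, Geo.rX, rQ, srcL, Geo.Ty]
      congr 1
      by_cases hj : j = 1
      · subst hj
        by_cases h1 : a 1 = R - 1 <;> by_cases h2 : G.VV c a <;> simp [h1, h2]
      · simp [hj]
    | fp l => simp [rP] at hq
    | fz l => simp [rP] at hq
    | tb t => simp [rP] at hq
    | s => simp [rP] at hq
    | g => simp [rP] at hq
    | m => simp [rP] at hq
  | iB j b =>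
    cases b with
    | w =>
      simp only [rP, Option.some.injEq] at hq
      subst hq
      by_cases hj : a j = 0
      · simp only [code, hin, if_pos hj, ebit, Geo.bEdge, Geo.rX, rQ, srcL, Geo.Ty]
        simp [hj]
      · simp only [code, hin, if_neg hj, ebit, out, Geo.ownC, Geo.rX, rQ, srcL, Geo.Ty, G.WW_sub]
        simp [hj]
    | h =>
      simp only [rP, Option.some.injEq] at hq
      subst hq
      by_cases hj : a j = 0
      · simp only [code, hin, if_pos hj, ebit, Geo.bEdge, Geo.rX, rQ, srcL, Geo.Ty]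
        rw [Bool.xor_left_inj]
        symm
        rw [decide_eq_false_iff_not]
        rintro ⟨rfl, h1, _⟩
        exact h1 hj
      · have := hL j hj
        simp only [code, hin, if_neg hj, ebit, out, this]
        simp only [Geo.ownC, Geo.rX, rQ, srcL, Geo.Ty, if_neg hj]
        congr 1
        by_cases hj0 : j = 0
        · subst hj0
          by_cases h2 : G.HH c (a - ev 0) <;> simp [hj, h2]
        · simp [hj0]
    | v =>
      simp only [rP, Option.some.injEq] at hq
      subst hq
      by_cases hj : a j = 0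
      · simp only [code, hin, if_pos hj, ebit, Geo.bEdge, Geo.rX, rQ, srcL, Geo.Ty]
        rw [Bool.xor_left_inj]
        symm
        rw [decide_eq_false_iff_not]
        rintro ⟨rfl, h1, _⟩
        exact h1 hj
      · have := hL j hj
        simp only [code, hin, if_neg hj, ebit, out, this]
        simp only [Geo.ownC, Geo.rX, rQ, srcL, Geo.Ty, if_neg hj]
        congr 1
        by_cases hj0 : j = 1
        · subst hj0
          by_cases h2 : G.VV c (a - ev 1) <;> simp [hj, h2]
        · simp [hj0]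
    | fp l => simp [rP] at hq
    | fz l => simp [rP] at hq
    | tb t => simp [rP] at hq
    | s => simp [rP] at hq
    | g => simp [rP] at hq
    | m => simp [rP] at hq

theorem Geo.row_val_none {R : ℤ} {B : Pt (e + 2)} {c c' : Row e n → Bool} {a : Pt (e + 2)}
    {ρ : Row e n} (hq : rP ρ = none) :
    code enc (G.cell R B c a) ρ = code enc (G.cell R B c' a) ρ := by
  have hin : ∀ (c : Row e n → Bool) (j : Fin (e + 2)), (G.cell R B c a).inn j =
      if a j = 0 then G.bEdge R B c a j
      else out j (G.Ty R (a - ev j)).L (G.ownC R B c false (fun _ => false) (a - ev j)) :=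
    fun c j => rfl
  have hown : ∀ c : Row e n → Bool, (G.cell R B c a).own =
      G.ownC R B c false (fun _ => false) a := fun c => rfl
  have htyp : ∀ c : Row e n → Bool, (G.cell R B c a).typ = G.Ty R a := fun c => rfl
  cases ρ with
  | ty t => simp only [code, htyp]
  | om => simp only [code, hown, Geo.ownC]
  | be => simp only [code, hown, Geo.ownC]
  | one => rfl
  | oh => simp [rP] at hq
  | ov => simp [rP] at hq
  | oA j b =>
    cases b with
    | w => simp [rP] at hq
    | h => simp [rP] at hq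
    | v => simp [rP] at hq
    | fp l => simp only [code, hown, htyp, ebit, out, Geo.ownC]
    | fz l => simp only [code, hown, htyp, ebit, out, Geo.ownC]
    | tb t => simp only [code, hown, htyp, ebit, out, Geo.ownC]
    | s => simp only [code, hown, htyp, ebit, out, Geo.ownC]
    | g => simp only [code, hown, htyp, ebit, out, Geo.ownC]
    | m => simp only [code, hown, htyp, ebit, out, Geo.ownC]
  | iB j b =>
    by_cases hj : a j = 0
    · cases b with
      | w => simp [rP] at hq
      | h => simp [rP] at hq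
      | v => simp [rP] at hq
      | fp l => simp only [code, hin, if_pos hj, ebit, Geo.bEdge]
      | fz l => simp only [code, hin, if_pos hj, ebit, Geo.bEdge]
      | tb t => simp only [code, hin, if_pos hj, ebit, Geo.bEdge]
      | s => simp only [code, hin, if_pos hj, ebit, Geo.bEdge]
      | g => simp only [code, hin, if_pos hj, ebit, Geo.bEdge]
      | m => simp only [code, hin, if_pos hj, ebit, Geo.bEdge]
    · cases b with
      | w => simp [rP] at hq
      | h => simp [rP] at hq
      | v => simp [rP] at hq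
      | fp l => simp only [code, hin, if_neg hj, ebit, out, Geo.ownC]
      | fz l => simp only [code, hin, if_neg hj, ebit, out, Geo.ownC]
      | tb t => simp only [code, hin, if_neg hj, ebit, out, Geo.ownC]
      | s => simp only [code, hin, if_neg hj, ebit, out, Geo.ownC]
      | g => simp only [code, hin, if_neg hj, ebit, out, Geo.ownC]
      | m => simp only [code, hin, if_neg hj, ebit, out, Geo.ownC]

/-! ### Dependence of the wires on the rows -/

/-- `X` is the value of the row `o` (or constantly false). -/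
def DepOn (X : (Row e n → Bool) → Prop) (o : Option (Row e n)) : Prop :=
  ∀ c, X c ↔ ∃ ρ, o = some ρ ∧ c ρ = true

theorem DepOn.unique {X : (Row e n → Bool) → Prop} {o o' : Option (Row e n)}
    (h : DepOn X o) (h' : DepOn X o') : o = o' := by
  cases o with
  | none =>
    cases o' with
    | none => rfl
    | some ρ' =>
      have h1 := (h' (fun _ => true)).mpr ⟨ρ', rfl, rfl⟩
      obtain ⟨ρ, hρ, _⟩ := (h _).mp h1
      simp at hρ
  | some ρ =>
    have h1 := (h (fun ρ' => decide (ρ' = ρ))).mpr ⟨ρ, rfl, by simp⟩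
    obtain ⟨ρ', hρ', h2⟩ := (h' _).mp h1
    rw [hρ']
    simp only [decide_eq_true_eq] at h2
    rw [h2]

theorem depOn_of_unique {X : (Row e n → Bool) → Prop} {S : Row e n → Prop}
    (hX : ∀ c, X c ↔ ∃ ρ, S ρ ∧ c ρ = true) (hS : ∀ ρ ρ', S ρ → S ρ' → ρ = ρ') :
    ∃ o, DepOn X o ∧ ∀ ρ, o = some ρ → S ρ := by
  by_cases h : ∃ ρ, S ρ
  · obtain ⟨ρ, hρ⟩ := h
    refine ⟨some ρ, fun c => ?_, fun ρ' h' => ?_⟩
    · rw [hX]
      constructor
      · rintro ⟨ρ', h1, h2⟩
        exact ⟨ρ', by rw [hS ρ' ρ h1 hρ], h2⟩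
      · rintro ⟨ρ', h1, h2⟩
        simp only [Option.some.injEq] at h1
        subst h1
        exact ⟨ρ, hρ, h2⟩
    · simp only [Option.some.injEq] at h'
      subst h'; exact hρ
  · push Not at h
    refine ⟨none, fun c => ?_, fun ρ' h' => by simp at h'⟩
    rw [hX]
    constructor
    · rintro ⟨ρ', h1, _⟩
      exact absurd h1 (h ρ')
    · rintro ⟨ρ', h1, _⟩
      simp at h1

/-- Two lines in the same direction through the same point are the same. -/
theorem Geo.io_unique {j : Fin (e + 2)} {b b' : EB e n} {a : Pt (e + 2)}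
    (h : ∀ l, l ≠ j → a l = G.io j b l) (h' : ∀ l, l ≠ j → a l = G.io j b' l) : b = b' := by
  by_cases hj : j = 1
  · subst hj
    have h0 := h 0 ne01
    have h0' := h' 0 ne01
    rw [G.io_zero, G.px_one] at h0 h0'
    exact G.xp_inj (h0.symm.trans h0')
  · have h0 := h 1 (Ne.symm hj)
    have h0' := h' 1 (Ne.symm hj)
    rw [G.io_one_ne hj] at h0 h0'
    have := G.hgt_inj (h0.symm.trans h0')
    simpa using this

theorem Geo.dep_WW (j : Fin (e + 2)) (a : Pt (e + 2)) :
    ∃ o, DepOn (fun c => G.WW c j a) o ∧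
      ∀ ρ, o = some ρ → ∃ b, ρ = .oA j b ∧ ∀ l, l ≠ j → a l = G.io j b l := by
  refine depOn_of_unique (S := fun ρ => ∃ b, ρ = .oA j b ∧ ∀ l, l ≠ j → a l = G.io j b l)
    (fun c => ?_) ?_
  · constructor
    · rintro ⟨b, h1, h2⟩
      exact ⟨_, ⟨b, rfl, h1⟩, h2⟩
    · rintro ⟨_, ⟨b, rfl, h1⟩, h2⟩
      exact ⟨b, h1, h2⟩
  · rintro _ _ ⟨b, rfl, h⟩ ⟨b', rfl, h'⟩
    rw [G.io_unique h h']

theorem Geo.dep_WI (j : Fin (e + 2)) (a : Pt (e + 2)) :
    ∃ o, DepOn (fun c => G.WI c j a) o ∧
      ∀ ρ, o = some ρ → ∃ b, ρ = .iB j b ∧ ∀ l, l ≠ j → a l = G.io j b l := by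
  refine depOn_of_unique (S := fun ρ => ∃ b, ρ = .iB j b ∧ ∀ l, l ≠ j → a l = G.io j b l)
    (fun c => ?_) ?_
  · constructor
    · rintro ⟨b, h1, h2⟩
      exact ⟨_, ⟨b, rfl, h1⟩, h2⟩
    · rintro ⟨_, ⟨b, rfl, h1⟩, h2⟩
      exact ⟨b, h1, h2⟩
  · rintro _ _ ⟨b, rfl, h⟩ ⟨b', rfl, h'⟩
    rw [G.io_unique h h']

theorem Geo.dep_HH (a : Pt (e + 2)) :
    ∃ o, DepOn (fun c => G.HH c a) o ∧
      ∀ ρ, o = some ρ → InPl a ∧ a 1 = G.hgt ρ ∧ G.xs ρ ≤ a 0 ∧ a 0 < G.XZ := by
  refine depOn_of_unique
    (S := fun ρ => InPl a ∧ a 1 = G.hgt ρ ∧ G.xs ρ ≤ a 0 ∧ a 0 < G.XZ) (fun c => ?_) ?_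
  · constructor
    · rintro ⟨hp, ρ, h1, h2, h3, h4⟩
      exact ⟨ρ, ⟨hp, h1, h2, h3⟩, h4⟩
    · rintro ⟨ρ, ⟨hp, h1, h2, h3⟩, h4⟩
      exact ⟨hp, ρ, h1, h2, h3, h4⟩
  · rintro ρ ρ' ⟨_, h, _⟩ ⟨_, h', _⟩
    exact G.hgt_inj (h.symm.trans h')

/-- `a` is a position of a column where the prefix signal may be visible. -/
def Geo.InCol (a : Pt (e + 2)) : Prop := InPl a ∧ ∃ q : Col enc, a 0 = G.colx q ∧ 2 ≤ a 1 ∧
  a 1 < G.Yt

theorem Geo.dep_VV {a : Pt (e + 2)} (hc : ¬ G.InCol a) :
    ∃ o, DepOn (fun c => G.VV c a) o ∧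
      ∀ ρ, o = some ρ → InPl a ∧ ∃ j b, ρ = .iB j b ∧ a 0 = G.px j b ∧ G.vs j b ≤ a 1 ∧
        a 1 < G.hgt (.iB j b) := by
  refine depOn_of_unique
    (S := fun ρ => InPl a ∧ ∃ j b, ρ = .iB j b ∧ a 0 = G.px j b ∧ G.vs j b ≤ a 1 ∧
        a 1 < G.hgt (.iB j b)) (fun c => ?_) ?_
  · constructor
    · rintro ⟨hp, h⟩
      rcases h with ⟨j, b, h0, h1, h2, h3⟩ | ⟨q, h0, h1, h2, h3⟩
      · exact ⟨_, ⟨hp, j, b, rfl, h0, h1, h2⟩, h3⟩
      · exact absurd ⟨hp, q, h0, h1, h2⟩ hc
    · rintro ⟨ρ, ⟨hp, j, b, rfl, h0, h1, h2⟩, h3⟩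
      exact ⟨hp, Or.inl ⟨j, b, h0, h1, h2, h3⟩⟩
  · rintro _ _ ⟨_, j, b, rfl, h0, h1, h2⟩ ⟨_, j', b', rfl, h0', h1', h2'⟩
    by_cases hj : j = 1
    · subst hj
      rw [G.px_one] at h0
      obtain ⟨rfl, rfl⟩ := G.px_eq_one (h0'.symm.trans h0)
      rfl
    · by_cases hj' : j' = 1
      · subst hj'
        rw [G.px_one] at h0'
        exact absurd (G.px_eq_one (h0.symm.trans h0')).1 hj
      · simp only [Geo.vs, if_neg hj] at h1
        simp only [Geo.vs, if_neg hj'] at h1'
        rw [G.hgt_pair j b hj] at h2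
        rw [G.hgt_pair j' b' hj'] at h2'
        have e1 := G.hgt_even (.oA j b)
        have e2 := G.hgt_even (.oA j' b')
        have : G.hgt (.oA j b) = G.hgt (.oA j' b') := by omega
        have := G.hgt_inj this
        simp only [Row.oA.injEq] at this
        rw [this.1, this.2]

/-- The value of the palette state at a row which is not a type row. -/
theorem Geo.thP_code {R : ℤ} (γ γ' : (Pad e → Bool) × (Pad e → Bool)) {ρ : Row e n}
    (hρ : ∀ t, ρ ≠ .ty t) : code enc (G.thP R γ) ρ = code enc (G.thP R γ') ρ := by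
  cases ρ with
  | ty t => exact absurd rfl (hρ t)
  | om => rfl
  | be => rfl
  | one => rfl
  | oh => rfl
  | ov => rfl
  | iB j b => rfl
  | oA j b =>
    cases b <;> simp [code, ebit, out, Geo.thP, Geo.O0]

theorem Geo.thP_ty {R : ℤ} (γ : (Pad e → Bool) × (Pad e → Bool)) (q : Pad e) :
    code enc (G.thP R γ) (.ty (.mu q)) = γ.2 q := by
  simp [code, tbit, Geo.thP, Geo.Ty, G.mu0_palL]

/-- Dichotomy for the readings: the reading depends only on the type, or it is constant on the
palette states (with a prescribed first pad, if the pad of the row is another one). -/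
theorem Geo.rX_dich (R : ℤ) (a : Pt (e + 2)) {ρ : Row e n} {q : Pad e}
    (hq : rP ρ = some q) :
    (∀ θ1 θ2 : St e n, θ1.typ = θ2.typ →
      (G.rX R a ρ (code enc θ1) ↔ G.rX R a ρ (code enc θ2))) ∨
    (∃ x0 z0 : Bool, ∀ γ : (Pad e → Bool) × (Pad e → Bool), (q ≠ .w 0 → γ.2 (.w 0) = z0) →
      (G.rX R a ρ (code enc (G.thP (R + 1) γ)) ↔ x0 = true)) := by
  -- generic: readings depending on a single row
  have gen : ∀ X : (Row e n → Bool) → Prop, (∃ o, DepOn X o) →
      (∀ θ1 θ2 : St e n, θ1.typ = θ2.typ → (X (code enc θ1) ↔ X (code enc θ2))) ∨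
      (∃ x0 z0 : Bool, ∀ γ : (Pad e → Bool) × (Pad e → Bool), (q ≠ .w 0 → γ.2 (.w 0) = z0) →
        (X (code enc (G.thP (R + 1) γ)) ↔ x0 = true)) := by
    rintro X ⟨o, ho⟩
    cases o with
    | none =>
      left
      intro θ1 θ2 _
      rw [ho, ho]
      simp
    | some ρ' =>
      by_cases hty : ∃ t, ρ' = .ty t
      · obtain ⟨t, rfl⟩ := hty
        left
        intro θ1 θ2 h
        rw [ho, ho]
        have : code enc θ1 (.ty t) = code enc θ2 (.ty t) := by simp only [code, h]
        constructor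
        · rintro ⟨ρ, h1, h2⟩
          simp only [Option.some.injEq] at h1
          subst h1
          exact ⟨_, rfl, this ▸ h2⟩
        · rintro ⟨ρ, h1, h2⟩
          simp only [Option.some.injEq] at h1
          subst h1
          exact ⟨_, rfl, this ▸ h2⟩
      · right
        push Not at hty
        refine ⟨code enc (G.thP (R + 1) (fun _ => false, fun _ => false)) ρ', false,
          fun γ _ => ?_⟩
        rw [ho]
        rw [G.thP_code (fun _ => false, fun _ => false) γ hty]
        constructor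
        · rintro ⟨ρ, h1, h2⟩
          simp only [Option.some.injEq] at h1
          subst h1
          exact h2
        · intro h
          exact ⟨_, rfl, h⟩
  have hfalse : ∃ o, DepOn (fun _ : Row e n → Bool => False) o := ⟨none, fun c => by simp⟩
  -- the prefix signal
  have vgen : ∀ a' : Pt (e + 2), q ≠ .w 0 →
      (∀ θ1 θ2 : St e n, θ1.typ = θ2.typ → (G.VV (code enc θ1) a' ↔ G.VV (code enc θ2) a')) ∨
      (∃ x0 z0 : Bool, ∀ γ : (Pad e → Bool) × (Pad e → Bool), (q ≠ .w 0 → γ.2 (.w 0) = z0) →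
        (G.VV (code enc (G.thP (R + 1) γ)) a' ↔ x0 = true)) := by
    intro a' hqw
    by_cases hc : G.InCol a'
    · obtain ⟨hp, q', h0, h1, h2⟩ := hc
      have hiff : ∀ c : Row e n → Bool,
          G.VV c a' ↔ ∀ ρ, G.hgt ρ ≤ a' 1 → c ρ = q'.1.1 ρ := by
        intro c
        constructor
        · rintro ⟨_, h⟩
          rcases h with ⟨j, b, g0, _⟩ | ⟨q'', g0, g1, g2, g3⟩
          · exfalso
            have := G.px_lt_XR j b
            have := G.colx_XR q'
            omega
          · have : q'' = q' := by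
              by_contra hne
              have := G.colx_sep _ _ hne
              rw [← g0, ← h0] at this
              simp at this
            rw [← this]; exact g3
        · intro h
          exact ⟨hp, Or.inr ⟨q', h0, h1, h2, h⟩⟩
      right
      by_cases h4 : a' 1 < 4
      · refine ⟨true, false, fun γ _ => ?_⟩
        rw [hiff]
        simp only [iff_true]
        intro ρ hρ
        have := G.hgt_ge ρ
        omega
      · refine ⟨false, !(q'.1.1 (.ty (.mu (.w 0)))), fun γ hγ => ?_⟩
        rw [hiff]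
        simp only [Bool.false_eq_true, iff_false]
        intro h
        have h5 := h (.ty (.mu (.w 0))) (by rw [G.hgt_first]; omega)
        rw [G.thP_ty, hγ hqw] at h5
        simp at h5
    · obtain ⟨o, ho, _⟩ := G.dep_VV hc
      exact gen _ ⟨o, ho⟩
  cases ρ with
  | ty t => simp [rP] at hq
  | om => simp [rP] at hq
  | be => simp [rP] at hq
  | one => simp [rP] at hq
  | oh =>
    obtain ⟨o, ho, _⟩ := G.dep_HH a
    exact gen _ ⟨o, ho⟩
  | ov =>
    simp only [rP, Option.some.injEq] at hq
    exact vgen a (by rw [← hq]; simp)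
  | oA j b =>
    cases b with
    | w =>
      obtain ⟨o, ho, _⟩ := G.dep_WW j a
      exact gen _ ⟨o, ho⟩
    | h =>
      by_cases hj : j = 0 ∧ a 0 ≠ R - 1
      · obtain ⟨o, ho, _⟩ := G.dep_HH a
        refine gen _ ⟨o, fun c => ?_⟩
        rw [← ho c]
        simp [Geo.rX, hj]
      · refine gen _ ⟨none, fun c => ?_⟩
        simp only [Geo.rX]
        constructor
        · rintro ⟨h1, h2, _⟩; exact absurd ⟨h1, h2⟩ hj
        · rintro ⟨ρ, h, _⟩; simp at h
    | v =>
      simp only [rP, Option.some.injEq] at hq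
      by_cases hj : j = 1 ∧ a 1 ≠ R - 1
      · have hX : ∀ c, G.rX R a (.oA j .v) c ↔ G.VV c a := by
          intro c; simp [Geo.rX, hj]
        simp only [hX]
        exact vgen a (by rw [← hq]; simp)
      · refine gen _ ⟨none, fun c => ?_⟩
        simp only [Geo.rX]
        constructor
        · rintro ⟨h1, h2, _⟩; exact absurd ⟨h1, h2⟩ hj
        · rintro ⟨ρ, h, _⟩; simp at h
    | fp l => simp [rP] at hq
    | fz l => simp [rP] at hq
    | tb t => simp [rP] at hq
    | s => simp [rP] at hq
    | g => simp [rP] at hq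
    | m => simp [rP] at hq
  | iB j b =>
    cases b with
    | w =>
      by_cases hj : a j = 0
      · obtain ⟨o, ho, _⟩ := G.dep_WI j a
        refine gen _ ⟨o, fun c => ?_⟩
        rw [← ho c]
        simp [Geo.rX, hj]
      · obtain ⟨o, ho, _⟩ := G.dep_WW j a
        refine gen _ ⟨o, fun c => ?_⟩
        rw [← ho c]
        simp [Geo.rX, hj]
    | h =>
      by_cases hj : j = 0 ∧ a 0 ≠ 0
      · obtain ⟨o, ho, _⟩ := G.dep_HH (a - ev 0)
        refine gen _ ⟨o, fun c => ?_⟩
        rw [← ho c]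
        simp [Geo.rX, hj]
      · refine gen _ ⟨none, fun c => ?_⟩
        simp only [Geo.rX]
        constructor
        · rintro ⟨h1, h2, _⟩; exact absurd ⟨h1, h2⟩ hj
        · rintro ⟨ρ, h, _⟩; simp at h
    | v =>
      simp only [rP, Option.some.injEq] at hq
      by_cases hj : j = 1 ∧ a 1 ≠ 0
      · have hX : ∀ c, G.rX R a (.iB j .v) c ↔ G.VV c (a - ev 1) := by
          intro c; simp [Geo.rX, hj]
        simp only [hX]
        exact vgen (a - ev 1) (by rw [← hq]; simp)
      · refine gen _ ⟨none, fun c => ?_⟩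
        simp only [Geo.rX]
        constructor
        · rintro ⟨h1, h2, _⟩; exact absurd ⟨h1, h2⟩ hj
        · rintro ⟨ρ, h, _⟩; simp at h
    | fp l => simp [rP] at hq
    | fz l => simp [rP] at hq
    | tb t => simp [rP] at hq
    | s => simp [rP] at hq
    | g => simp [rP] at hq
    | m => simp [rP] at hq

theorem Geo.predL_palL {R : ℤ} (γ : (Pad e → Bool) × (Pad e → Bool)) (j : Fin (e + 2)) :
    predL R (G.palL γ) j = G.palP γ j := by
  have hb := G.pal_big γ
  have h1 := G.XR_XZ
  have h2 := G.XR_pos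
  funext l
  have hp : ∀ l, G.palL γ l = G.pal γ := fun l => rfl
  simp only [predL, Geo.palP, hp]
  by_cases hl : l = j
  · simp only [if_pos hl]
    rw [if_neg (by omega)]
  · simp only [if_neg hl]
    omega

theorem Geo.mu0_src_pal {R : ℤ} (γ : (Pad e → Bool) × (Pad e → Bool))
    (o : Option (Fin (e + 2))) :
    G.mu0 (srcL R (G.palL γ) o) = if o.isSome then γ.1 else γ.2 := by
  cases o with
  | none => simp [srcL, G.mu0_palL]
  | some j => simp [srcL, G.predL_palL, G.mu0_palP]

/-- Keeping the parent label: values which depend only on the label of the parent. -/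
theorem Geo.attain_keep {R : ℤ} (hR : (G.r0 : ℤ) ≤ R) {B a : Pt (e + 2)} (hB : InB (R + 1) B)
    (ha : InB R a) {P : Pt (e + 2) × St e n → Prop}
    (h : ∀ θ : St e n, Rules enc θ → θ.typ = G.Ty (R + 1) B →
      P (a, G.cell R B (code enc θ) a)) : G.Attain R P := by
  refine (Geo.attain_label (G := G) (R := R + 1) (by omega) hB).step hR ?_
  intro s hs hs1
  refine ⟨a, ha, ?_⟩
  have := h s.2 hs.2.1 (by rw [hs.2.2, hs1])
  simpa only [Geo.ch, hs1] using this

/-- Using a palette parent. -/
theorem Geo.attain_of_pal {R : ℤ} (hR : (G.r0 : ℤ) ≤ R) {a : Pt (e + 2)}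
    (ha : InB R a) {P : Pt (e + 2) × St e n → Prop} (γ : (Pad e → Bool) × (Pad e → Bool))
    (h : P (a, G.cell R (G.palL γ) (code enc (G.thP (R + 1) γ)) a)) : G.Attain R P := by
  refine (G.attain_pal (R := R + 1) (by omega) γ).step hR ?_
  rintro s hs rfl
  exact ⟨a, ha, h⟩

/-- Single rows are attained below every state, with the same label. -/
theorem Geo.row1 {R : ℤ} (hR : (G.r0 : ℤ) ≤ R) {s : Pt (e + 2) × St e n}
    (hs : G.Om 1 R s) (ρ : Row e n) :
    G.Attain R (fun t => t.1 = s.1 ∧ code enc t.2 ρ = code enc s.2 ρ) := by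
  classical
  obtain ⟨s', a, hs', ha, rfl⟩ := hs
  have hs'' : G.OkZ (R + 1) s' := hs'
  cases hq : rP ρ with
  | none =>
    refine G.attain_keep hR hs''.1 ha (fun θ _ _ => ⟨rfl, ?_⟩)
    exact G.row_val_none hq
  | some q =>
    rcases G.rX_dich R a hq with h | ⟨x0, z0, h⟩
    · refine G.attain_keep hR hs''.1 ha (fun θ _ hθ => ⟨rfl, ?_⟩)
      simp only [Geo.ch]
      rw [G.row_val ha hq, G.row_val ha hq]
      congr 1
      exact decide_eq_decide.mpr (h _ _ (by rw [hθ, hs''.2.2]))
    · set p0 := code enc (G.ch R s' a).2 ρ with hp0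
      let γ : (Pad e → Bool) × (Pad e → Bool) :=
        (fun _ => xor x0 p0, fun q' => if q' = q then xor x0 p0 else z0)
      refine G.attain_of_pal hR ha γ ⟨rfl, ?_⟩
      simp only
      rw [G.row_val ha hq, G.mu0_src_pal]
      have hx : decide (G.rX R a ρ (code enc (G.thP (R + 1) γ))) = x0 := by
        have := h γ (fun hne => by simp [γ, Ne.symm hne])
        cases x0
        · exact decide_eq_false (by rw [this]; simp)
        · exact decide_eq_true (by rw [this])
      rw [hx]
      have hγ : (if (rQ a ρ).isSome then γ.1 else γ.2) q = xor x0 p0 := by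
        split_ifs
        · rfl
        · simp [γ]
      rw [hγ]
      cases x0 <;> cases p0 <;> rfl

end Pool.Agent.Lib.P05dae2
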