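import Mathlib
import Pool.Agent.Lib.P05dae2.Good2

/-!
# Columns (MP_05dae2_an)
-/

namespace Pool.Agent.Lib.P05dae2

variable {e n : ℕ} {enc : Kind e n → Fin n → Bool} (G : Geo enc)

/-- `a` is a position of the column `q`. -/
def Geo.IsCol (a : Pt (e + 2)) (q : Col enc) : Prop :=
  InPl a ∧ a 0 = G.colx q ∧ 2 ≤ a 1 ∧ a 1 ≤ G.Yt

/-- Two similar column positions. -/
def Geo.Sim (a a' : Pt (e + 2)) (q q' : Col enc) : Prop :=
  G.IsCol a q ∧ G.IsCol a' q' ∧ a 1 = a' 1 ∧ muOf q = muOf q' ∧
    ∀ ρ, (a 1 = G.hgt ρ ∨ a 1 = G.hgt ρ + 1) → q.1.1 ρ = q'.1.1 ρ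

theorem Geo.Sim.symm {a a' : Pt (e + 2)} {q q' : Col enc} (h : G.Sim a a' q q') :
    G.Sim a' a q' q :=
  ⟨h.2.1, h.1, h.2.2.1.symm, h.2.2.2.1.symm, fun ρ hρ => (h.2.2.2.2 ρ (by rwa [h.2.2.1])).symm⟩

theorem Geo.colx_inj {q q' : Col enc} (h : |G.colx q - G.colx q'| < 3) : q = q' := by
  by_contra hne
  have := G.colx_sep q q' hne
  omega

theorem Geo.KAt_col {a a' : Pt (e + 2)} {q q' : Col enc} (h0 : a 0 = G.colx q)
    (hp' : InPl a') (h0' : a' 0 = G.colx q') (h1 : a 1 = a' 1)
    (hq : ∀ ρ, a 1 = G.hgt ρ → q.1.1 ρ = q'.1.1 ρ) {k : Kind e n} (hk : G.KAt a k) :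
    G.KAt a' k := by
  have hXR := G.colx_XR q
  have hXZ := G.colx_XZ q
  cases hk with
  | port j b h =>
    exfalso
    have := G.px_lt_XR j b
    rw [h, G.io_zero] at h0
    omega
  | tr j b hp g0 g1 => exfalso; have := G.px_lt_XR j b; omega
  | tap b hp g0 g1 => exfalso; have := G.xp_XR b; omega
  | rt t hp g0 g1 => exfalso; omega
  | fm hp g0 g1 => exfalso; omega
  | fb ρ hρ hp g0 g1 => exfalso; omega
  | one hp g0 g1 => exfalso; omega
  | v1 q'' hp g0 g1 => exact .v1 q' hp' h0' (by omega)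
  | pp q'' ρ hp g0 g1 =>
    have e1 : q = q'' := G.colx_inj (by rw [← h0, ← g0]; simp)
    subst e1
    have e2 := hq ρ g1
    rw [e2]
    exact .pp q' ρ hp' h0' (by omega)
  | bad q'' hp g0 g1 => exact .bad q' hp' h0' (by omega)
  | zz ρ hp g0 g1 => exfalso; omega

theorem Geo.ka0_congr {a a' : Pt (e + 2)} (h : ∀ k, G.KAt a k → G.KAt a' k)
    (h' : ∀ k, G.KAt a' k → G.KAt a k) : G.ka0 a = G.ka0 a' := by
  rcases G.ka0_cases a with h1 | ⟨h1, h2⟩
  · exact (G.ka0_eq (h _ h1)).symm
  · rw [h2, G.ka0_none (fun k hk => h1 k (h' k hk))]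

theorem Geo.ka0_col {a a' : Pt (e + 2)} {q q' : Col enc} (hp : InPl a) (h0 : a 0 = G.colx q)
    (hp' : InPl a') (h0' : a' 0 = G.colx q') (h1 : a 1 = a' 1)
    (hq : ∀ ρ, a 1 = G.hgt ρ → q.1.1 ρ = q'.1.1 ρ) : G.ka0 a = G.ka0 a' :=
  G.ka0_congr (fun _ hk => G.KAt_col h0 hp' h0' h1 hq hk)
    (fun _ hk => G.KAt_col h0' hp h0 h1.symm
      (fun ρ hρ => (hq ρ (by rw [h1]; exact hρ)).symm) hk)

/-- The pads of a label near exactly one column. -/
theorem Geo.mu0_near_single {a : Pt (e + 2)} {q : Col enc} (hl : ∃ l, |a l - G.colx q| ≤ 1)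
    (h : ∀ l, |a l - G.colx q| ≤ 1 ∨ ∀ q', 1 < |a l - G.colx q'|) :
    G.mu0 a = avoid {μ | μ = muOf q} := by
  obtain ⟨l0, hl0⟩ := hl
  have hXZ := G.colx_XZ q
  rw [G.mu0_eq_avoid l0 (by rw [abs_le] at hl0; omega)]
  congr 1
  ext μ
  constructor
  · rintro ⟨q', ⟨l, hl⟩, hμ⟩
    rcases h l with h1 | h1
    · have : q = q' := by
        refine G.colx_inj ?_
        rw [abs_le] at hl h1
        rw [abs_lt]
        omega
      subst this
      exact hμ
    · have := h1 q'
      omega
  · intro hμ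
    exact ⟨q, ⟨l0, hl0⟩, hμ⟩

theorem Geo.far_low {x : ℤ} (hx : x ≤ G.Yt) (q : Col enc) : 1 < |x - G.colx q| := by
  have := G.colx_Yt q
  rw [lt_abs]
  omega

theorem Geo.Yt_pos : 6 ≤ G.Yt := by
  have := G.Yt_eq
  have := G.hgt_ge .one
  omega

/-- The type of similar column labels. -/
theorem Geo.ty_sim {R : ℤ} (hR : (G.r0 : ℤ) ≤ R) {a a' : Pt (e + 2)} {q q' : Col enc}
    (h : G.Sim a a' q q') : G.Ty R a = G.Ty R a' := by
  obtain ⟨⟨hp, h0, h1, h2⟩, ⟨hp', h0', h1', h2'⟩, hy, hmu, hrow⟩ := h
  have c1 := G.colx_XR q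
  have c2 := G.colx_XR q'
  have c3 := G.XR_pos
  have c4 := G.colx_XZ q
  have c5 := G.colx_XZ q'
  have c6 := G.XZ_r0
  have c7 := G.colx_Yt q
  have c8 := G.colx_Yt q'
  have c9 := G.Yt_pos
  have hco : ∀ l, l ≠ 0 → a l = a' l ∧ a l ≤ G.Yt := by
    intro l hl
    by_cases hl1 : l = 1
    · subst hl1; exact ⟨hy, h2⟩
    · rw [hp l hl hl1, hp' l hl hl1]; exact ⟨rfl, by omega⟩
  refine Typ.ext ?_ ?_ ?_ ?_ ?_
  · funext j
    by_cases hj : j = 0
    · subst hj
      simp only [Geo.Ty]
      rw [decide_eq_false (by omega), decide_eq_false (by omega)]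
    · simp only [Geo.Ty, (hco j hj).1]
  · funext j
    by_cases hj : j = 0
    · subst hj
      simp only [Geo.Ty]
      rw [decide_eq_false (by omega), decide_eq_false (by omega)]
    · simp only [Geo.Ty, (hco j hj).1]
  · funext j
    by_cases hj : j = 0
    · subst hj
      simp [Geo.Ty]
    · have := hco j hj
      simp only [Geo.Ty]
      rw [decide_eq_false (by omega), decide_eq_false (by omega)]
  · exact G.ka0_col hp h0 hp' h0' hy (fun ρ hρ => hrow ρ (Or.inl hρ))
  · have key : ∀ (a : Pt (e + 2)) (q : Col enc), InPl a → a 0 = G.colx q → a 1 ≤ G.Yt →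
        G.mu0 a = avoid {μ | μ = muOf q} := by
      intro a q hp h0 h2
      refine G.mu0_near_single ⟨0, by rw [h0]; simp⟩ (fun l => ?_)
      by_cases hl : l = 0
      · left; rw [hl, h0]; simp
      · right
        intro q'
        refine G.far_low ?_ q'
        by_cases hl1 : l = 1
        · subst hl1; exact h2
        · rw [hp l hl hl1]; omega
    change G.mu0 a = G.mu0 a'
    rw [key a q hp h0 h2, key a' q' hp' h0' h2', hmu]

/-- The type of the labels preceding similar column labels. -/
theorem Geo.ty_pred_sim {R : ℤ} (hR : (G.r0 : ℤ) ≤ R) {a a' : Pt (e + 2)} {q q' : Col enc}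
    (h : G.Sim a a' q q') (j : Fin (e + 2)) :
    G.Ty (R + 1) (predL R a j) = G.Ty (R + 1) (predL R a' j) := by
  obtain ⟨⟨hp, h0, h1, h2⟩, ⟨hp', h0', h1', h2'⟩, hy, hmu, hrow⟩ := h
  have c1 := G.colx_XR q
  have c2 := G.colx_XR q'
  have c3 := G.XR_pos
  have c4 := G.colx_XZ q
  have c5 := G.colx_XZ q'
  have c6 := G.XZ_r0
  have c7 := G.colx_Yt q
  have c8 := G.colx_Yt q'
  have c9 := G.Yt_pos
  have hco : ∀ l, l ≠ 0 → a l = a' l ∧ a l ≤ G.Yt := by
    intro l hl
    by_cases hl1 : l = 1
    · subst hl1; exact ⟨hy, h2⟩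
    · rw [hp l hl hl1, hp' l hl hl1]; exact ⟨rfl, by omega⟩
  -- coordinates of the preceding labels
  have hpr : ∀ l, l ≠ 0 → predL R a j l = predL R a' j l ∧
      (predL R a j l ≤ G.Yt ∨ predL R a j l = R) := by
    intro l hl
    have := hco l hl
    simp only [predL]
    by_cases hlj : l = j
    · subst hlj
      simp only [if_true, this.1]
      refine ⟨trivial, ?_⟩
      split_ifs
      · right; rfl
      · left; omega
    · simp only [if_neg hlj, this.1]
      exact ⟨trivial, Or.inl (by omega)⟩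
  have hpr0 : ∀ (a : Pt (e + 2)) (q : Col enc), a 0 = G.colx q → 3 ≤ G.colx q →
      predL R a j 0 = if j = 0 then G.colx q - 1 else G.colx q := by
    intro a q h0 hq
    simp only [predL]
    by_cases hj : j = 0
    · subst hj
      rw [if_pos rfl, if_neg (by omega), if_pos rfl]
      omega
    · rw [if_neg (Ne.symm hj), if_neg hj, h0]
  have x0 := hpr0 a q h0 (by omega)
  have x0' := hpr0 a' q' h0' (by omega)
  have x1 : G.colx q - 1 ≤ predL R a j 0 ∧ predL R a j 0 ≤ G.colx q := by
    rw [x0]; split_ifs <;> omega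
  have x1' : G.colx q' - 1 ≤ predL R a' j 0 ∧ predL R a' j 0 ≤ G.colx q' := by
    rw [x0']; split_ifs <;> omega
  refine Typ.ext ?_ ?_ ?_ ?_ ?_
  · funext l
    by_cases hl : l = 0
    · subst hl
      simp only [Geo.Ty]
      rw [decide_eq_false (by omega), decide_eq_false (by omega)]
    · simp only [Geo.Ty, (hpr l hl).1]
  · funext l
    by_cases hl : l = 0
    · subst hl
      simp only [Geo.Ty]
      rw [decide_eq_false (by omega), decide_eq_false (by omega)]
    · simp only [Geo.Ty, (hpr l hl).1]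
  · funext l
    by_cases hl : l = 0
    · subst hl
      simp [Geo.Ty]
    · have := hpr l hl
      simp only [Geo.Ty]
      rw [decide_eq_false (by omega), decide_eq_false (by omega)]
  · change G.ka0 _ = G.ka0 _
    by_cases hj0 : j = 0
    · -- no gadget just before a column
      have key : ∀ (a : Pt (e + 2)) (q : Col enc), predL R a j 0 = G.colx q - 1 →
          ∀ k, ¬ G.KAt (predL R a j) k := by
        intro a q hx k hk
        have c1 := G.colx_XR q
        have c4 := G.colx_XZ q
        cases hk with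
        | port j' b h =>
          have := G.px_lt_XR j' b
          rw [h, G.io_zero] at hx
          omega
        | tr j' b hp g0 g1 => have := G.px_lt_XR j' b; omega
        | tap b hp g0 g1 => have := G.xp_XR b; omega
        | rt t hp g0 g1 => omega
        | fm hp g0 g1 => omega
        | fb ρ hρ hp g0 g1 => omega
        | one hp g0 g1 => omega
        | v1 q'' hp g0 g1 =>
          have : q = q'' := G.colx_inj (by rw [abs_lt]; omega)
          subst this; omega
        | pp q'' ρ hp g0 g1 =>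
          have : q = q'' := G.colx_inj (by rw [abs_lt]; omega)
          subst this; omega
        | bad q'' hp g0 g1 =>
          have : q = q'' := G.colx_inj (by rw [abs_lt]; omega)
          subst this; omega
        | zz ρ hp g0 g1 => omega
      rw [if_pos hj0] at x0 x0'
      rw [G.ka0_none (key a q x0), G.ka0_none (key a' q' x0')]
    · rw [if_neg hj0] at x0 x0'
      by_cases hj1 : j = 1
      · subst hj1
        have y1 : ∀ a : Pt (e + 2), 2 ≤ a 1 → predL R a 1 1 = a 1 - 1 := by
          intro a ha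
          simp only [predL, if_true]
          rw [if_neg (by omega)]
        have hpl : ∀ a : Pt (e + 2), InPl a → InPl (predL R a 1) := by
          intro a hp l hl0 hl1
          simp only [predL, if_neg hl1]
          exact hp l hl0 hl1
        refine G.ka0_col (hpl a hp) x0 (hpl a' hp') x0' (by rw [y1 a h1, y1 a' h1', hy]) ?_
        intro ρ hρ
        rw [y1 a h1] at hρ
        exact hrow ρ (Or.inr (by omega))
      · -- outside of the plane
        have key : ∀ a : Pt (e + 2), InPl a → ∀ k, ¬ G.KAt (predL R a j) k := by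
          intro a hp k hk
          have hx : predL R a j j = R := by
            simp only [predL, if_true]
            rw [if_pos (hp j hj0 hj1)]
          have := (G.KAt_lt hk j).2
          omega
        rw [G.ka0_none (key a hp), G.ka0_none (key a' hp')]
  · have key : ∀ (a : Pt (e + 2)) (q : Col enc),
        (G.colx q - 1 ≤ predL R a j 0 ∧ predL R a j 0 ≤ G.colx q) →
        (∀ l, l ≠ 0 → predL R a j l ≤ G.Yt ∨ predL R a j l = R) →
        G.mu0 (predL R a j) = avoid {μ | μ = muOf q} := by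
      intro a q hx0 hx
      have hq : |predL R a j 0 - G.colx q| ≤ 1 := by rw [abs_le]; omega
      refine G.mu0_near_single ⟨0, hq⟩ (fun l => ?_)
      by_cases hl : l = 0
      · left; rw [hl]; exact hq
      · right
        intro q'
        rcases hx l hl with h | h
        · exact G.far_low h q'
        · rw [h, lt_abs]
          have := G.colx_XZ q'
          omega
    change G.mu0 _ = G.mu0 _
    rw [key a q x1 (fun l hl => (hpr l hl).2),
      key a' q' x1' (fun l hl => by rw [← (hpr l hl).1]; exact (hpr l hl).2), hmu]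

/-- Transfer of the block label between similar column labels. -/
theorem Geo.cell_transfer {R : ℤ} (hR : (G.r0 : ℤ) ≤ R) {A A' : Pt (e + 2)} {q q' : Col enc}
    (h : G.Sim A A' q q') {c : Row e n → Bool} {a : Pt (e + 2)} (_ha : InB R a)
    (hn : ∀ l, 1 < |a l - G.colx q|) (hn' : ∀ l, 1 < |a l - G.colx q'|)
    (hg : (∃ l, l ≠ 0 ∧ a l ≠ 0) ∨ (a 0 < G.colx q ∧ a 0 < G.colx q')) :
    G.cell R A c a = G.cell R A' c a := by
  classical
  have hT := G.ty_sim (R := R + 1) (by omega) h
  have hTp := G.ty_pred_sim hR h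
  obtain ⟨⟨hp, h0, h1, h2⟩, ⟨hp', h0', h1', h2'⟩, hy, hmu, hrow⟩ := h
  have c1 := G.colx_XR q
  have c2 := G.colx_XR q'
  have c3 := G.XR_pos
  have c4 := G.colx_XZ q
  have c5 := G.colx_XZ q'
  have c6 := G.XZ_r0
  have hco : ∀ l, l ≠ 0 → A l = A' l := by
    intro l hl
    by_cases hl1 : l = 1
    · subst hl1; exact hy
    · rw [hp l hl hl1, hp' l hl hl1]
  have hn0 := hn 0
  have hn0' := hn' 0
  have hn1 := hn 1
  have hn1' := hn' 1
  rw [lt_abs] at hn0 hn0' hn1 hn1'
  have hdot : ∀ x : ℤ, (x = a 0 ∨ x = a 0 - 1) → nf x (A 0) = nf x (A' 0) := by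
    intro x hx
    simp only [nf]
    rw [if_neg (by omega), if_neg (by omega), if_neg (by omega), if_neg (by omega)]
  -- own content
  have hown : G.ownC R A c false (fun _ => false) a =
      G.ownC R A' c false (fun _ => false) a := by
    refine Own.ext ?_ hT ?_ ?_ rfl rfl rfl rfl rfl
    · funext l
      by_cases hl : l = 0
      · subst hl; exact hdot _ (Or.inl rfl)
      · simp only [Geo.ownC, hco l hl]
    · funext j
      by_cases hj : j = 0
      · subst hj
        have e1 : tv (0 : Fin (e + 2)) = 1 := by simp [tv]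
        simp only [Geo.ownC, e1]
        rw [decide_eq_false (by omega : ¬ A 0 = a 1 + 1),
          decide_eq_false (by omega : ¬ A 0 = a 1),
          decide_eq_false (by omega : ¬ A' 0 = a 1 + 1),
          decide_eq_false (by omega : ¬ A' 0 = a 1)]
      · simp only [Geo.ownC, hco j hj]
    · funext j
      by_cases hj : j = 0
      · subst hj
        simp only [Geo.ownC]
        refine decide_eq_decide.mpr ?_
        rcases hg with ⟨l, hl, hal⟩ | hg
        · constructor
          · rintro ⟨g1, _⟩; exact absurd (g1 l hl) hal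
          · rintro ⟨g1, _⟩; exact absurd (g1 l hl) hal
        · constructor
          · rintro ⟨_, g1⟩; omega
          · rintro ⟨_, g1⟩; omega
      · simp only [Geo.ownC, hco j hj]
  refine St.ext rfl ?_ hown
  funext j
  by_cases haj : a j = 0
  · change (G.cellC R A c false (fun _ => false) a).inn j =
      (G.cellC R A' c false (fun _ => false) a).inn j
    rw [G.cellC_inn_bd haj, G.cellC_inn_bd haj]
    refine Edge.ext ?_ (hTp j) ?_ ?_ rfl rfl rfl rfl
    · funext l
      simp only [Geo.bEdge]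
      by_cases hlj : l = j
      · rw [if_pos hlj, if_pos hlj]
        by_cases hj : j = 0
        · subst hj
          rw [if_neg (by omega), if_neg (by omega), if_neg (by omega), if_neg (by omega)]
        · rw [hco j hj]
      · rw [if_neg hlj, if_neg hlj]
        by_cases hl : l = 0
        · subst hl; exact hdot _ (Or.inl rfl)
        · rw [hco l hl]
    · simp only [Geo.bEdge]
      by_cases hj : j = 0
      · subst hj
        have e1 : tv (0 : Fin (e + 2)) = 1 := by simp [tv]
        rw [e1]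
        rw [decide_eq_false (by omega : ¬ A 0 = a 1 + 1),
          decide_eq_false (by omega : ¬ A' 0 = a 1 + 1)]
      · rw [hco j hj]
    · simp only [Geo.bEdge]
      by_cases hj : j = 0
      · subst hj
        refine decide_eq_decide.mpr ?_
        constructor
        · rintro ⟨g1, _⟩; exact ⟨g1, by omega⟩
        · rintro ⟨g1, _⟩; exact ⟨g1, by omega⟩
      · rw [hco j hj]
  · change (G.cellC R A c false (fun _ => false) a).inn j =
      (G.cellC R A' c false (fun _ => false) a).inn j
    rw [G.cellC_inn_in haj, G.cellC_inn_in haj]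
    have hsub : ∀ l, (a - ev j) l = if l = j then a l - 1 else a l := by
      intro l
      simp only [Pi.sub_apply, ev]
      split_ifs <;> omega
    refine Edge.ext ?_ hT ?_ ?_ rfl rfl rfl rfl
    · funext l
      by_cases hl : l = 0
      · subst hl
        refine hdot _ ?_
        rw [hsub]
        split_ifs
        · right; rfl
        · left; rfl
      · simp only [out, Geo.ownC, hco l hl]
    · simp only [out, Geo.ownC]
      by_cases hj : j = 0
      · subst hj
        have e1 : tv (0 : Fin (e + 2)) = 1 := by simp [tv]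
        have e2 : (a - ev (0 : Fin (e + 2))) 1 = a 1 := by rw [hsub, if_neg ne10]
        rw [e1, e2]
        rw [decide_eq_false (by omega : ¬ A 0 = a 1 + 1),
          decide_eq_false (by omega : ¬ A 0 = a 1),
          decide_eq_false (by omega : ¬ A' 0 = a 1 + 1),
          decide_eq_false (by omega : ¬ A' 0 = a 1)]
      · rw [hco j hj]
    · simp only [out, Geo.ownC]
      by_cases hj : j = 0
      · subst hj
        have e2 : (a - ev (0 : Fin (e + 2))) 0 = a 0 - 1 := by rw [hsub, if_pos rfl]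
        refine decide_eq_decide.mpr ?_
        rw [e2]
        rcases hg with ⟨l, hl, hal⟩ | hg
        · have e3 : (a - ev (0 : Fin (e + 2))) l = a l := by rw [hsub, if_neg hl]
          constructor
          · rintro ⟨g1, _⟩; exact absurd (e3 ▸ g1 l hl) hal
          · rintro ⟨g1, _⟩; exact absurd (e3 ▸ g1 l hl) hal
        · constructor
          · rintro ⟨_, g1⟩; omega
          · rintro ⟨_, g1⟩; omega
      · rw [hco j hj]

/-! ### The wires at a column position -/

theorem Geo.col_WW {a a' : Pt (e + 2)} {q : Col enc} {c c' : Row e n → Bool}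
    (h0 : a 0 = G.colx q) (hp' : InPl a')
    (h1 : a 1 = a' 1) (hc : ∀ ρ, a 1 = G.hgt ρ → c ρ = c' ρ) (j : Fin (e + 2))
    (h : G.WW c j a) : G.WW c' j a' := by
  obtain ⟨b, hb, hcb⟩ := h
  by_cases hj : j = 0
  · subst hj
    have g1 := hb 1 ne10
    rw [G.io_one_ne ne01] at g1
    refine ⟨b, fun l hl => ?_, by rw [← hc _ g1]; exact hcb⟩
    by_cases hl1 : l = 1
    · subst hl1
      rw [← h1, g1, G.io_one_ne ne01]
    · rw [hp' l hl hl1, G.io_inPl 0 b l hl hl1]
  · exfalso
    have g0 := hb 0 (Ne.symm hj)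
    rw [G.io_zero] at g0
    have := G.px_lt_XR j b
    have := G.colx_XR q
    omega

theorem Geo.col_HH {a a' : Pt (e + 2)} {q' : Col enc} {c c' : Row e n → Bool}
    (hp' : InPl a') (h0' : G.colx q' - 1 ≤ a' 0 ∧ a' 0 ≤ G.colx q')
    (h1 : a 1 = a' 1) (hc : ∀ ρ, a 1 = G.hgt ρ → c ρ = c' ρ)
    (h : G.HH c a) : G.HH c' a' := by
  obtain ⟨hp, ρ, g1, g2, g3, g4⟩ := h
  have := G.xs_le_XR ρ
  have := G.colx_XR q'
  have := G.colx_XZ q'
  exact ⟨hp', ρ, by rw [← h1, g1], by omega, by omega, by rw [← hc ρ g1]; exact g4⟩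

theorem Geo.col_not_WI {a : Pt (e + 2)} {q : Col enc} {c : Row e n → Bool}
    (h : G.IsCol a q) {j : Fin (e + 2)} (hj : a j = 0) : ¬ G.WI c j a := by
  rintro ⟨b, hb, _⟩
  obtain ⟨hp, h0, h1, h2⟩ := h
  have := G.colx_XR q
  have := G.XR_pos
  have hj0 : j ≠ 0 := by rintro rfl; omega
  have g0 := hb 0 (Ne.symm hj0)
  rw [G.io_zero] at g0
  have := G.px_lt_XR j b
  omega

theorem Geo.col_VV {a : Pt (e + 2)} {q : Col enc} {c : Row e n → Bool}
    (hp : InPl a) (h0 : a 0 = G.colx q) :
    G.VV c a ↔ (2 ≤ a 1 ∧ a 1 < G.Yt ∧ ∀ ρ, G.hgt ρ ≤ a 1 → c ρ = q.1.1 ρ) := by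
  constructor
  · rintro ⟨_, h⟩
    rcases h with ⟨j, b, g0, _⟩ | ⟨q'', g0, g1, g2, g3⟩
    · exfalso
      have := G.px_lt_XR j b
      have := G.colx_XR q
      omega
    · have : q = q'' := G.colx_inj (by rw [← h0, ← g0]; simp)
      subst this
      exact ⟨g1, g2, g3⟩
  · rintro ⟨g1, g2, g3⟩
    exact ⟨hp, Or.inr ⟨q, h0, g1, g2, g3⟩⟩

theorem InPl.sub0 {a : Pt (e + 2)} (hp : InPl a) : InPl (a - ev 0) := by
  intro l h0 h1
  simp only [Pi.sub_apply, ev, if_neg h0]
  rw [hp l h0 h1]; rfl

theorem InPl.sub1 {a : Pt (e + 2)} (hp : InPl a) : InPl (a - ev 1) := by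
  intro l h0 h1
  simp only [Pi.sub_apply, ev, if_neg h1]
  rw [hp l h0 h1]; rfl

theorem sub_ev_self (a : Pt (e + 2)) (j : Fin (e + 2)) : (a - ev j) j = a j - 1 := by
  simp [ev]

theorem sub_ev_ne (a : Pt (e + 2)) {j l : Fin (e + 2)} (h : l ≠ j) : (a - ev j) l = a l := by
  simp [ev, h]

/-- Cells at the same column position with codes agreeing at the row of the position. -/
theorem Geo.cell_col_congr {R : ℤ} {B : Pt (e + 2)} {a : Pt (e + 2)} {q : Col enc}
    (h : G.IsCol a q) {c c' : Row e n → Bool} (hc : ∀ ρ, a 1 = G.hgt ρ → c ρ = c' ρ)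
    (hV : G.VV c a ↔ G.VV c' a) (hV' : G.VV c (a - ev 1) ↔ G.VV c' (a - ev 1)) :
    G.cell R B c a = G.cell R B c' a := by
  have h' := h
  obtain ⟨hp, h0, h1, h2⟩ := h
  have hc' : ∀ ρ, a 1 = G.hgt ρ → c' ρ = c ρ := fun ρ hρ => (hc ρ hρ).symm
  refine G.cell_congr (fun j => ⟨?_, ?_⟩) ⟨?_, ?_⟩ hV (fun j hj => ⟨?_, ?_⟩)
    (fun _ => ⟨?_, ?_⟩) (fun _ => hV')
  · exact G.col_WW h0 hp rfl hc j
  · exact G.col_WW h0 hp rfl hc' j
  · exact G.col_HH (q' := q) hp (by omega) rfl hc
  · exact G.col_HH (q' := q) hp (by omega) rfl hc'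
  · intro hw; exact absurd hw (G.col_not_WI h' hj)
  · intro hw; exact absurd hw (G.col_not_WI h' hj)
  · refine G.col_HH (q' := q) hp.sub0 ?_ rfl ?_
    · rw [sub_ev_self]; omega
    · intro ρ hρ; rw [sub_ev_ne a ne10] at hρ; exact hc ρ hρ
  · refine G.col_HH (q' := q) hp.sub0 ?_ rfl ?_
    · rw [sub_ev_self]; omega
    · intro ρ hρ; rw [sub_ev_ne a ne10] at hρ; exact hc' ρ hρ

/-- Cells at similar column positions. -/
theorem Geo.cell_col_sim {R : ℤ} (hR : (G.r0 : ℤ) ≤ R) {B : Pt (e + 2)} {a a' : Pt (e + 2)}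
    {q q' : Col enc} (h : G.Sim a a' q q') (hB : ¬ G.Near B q) (hB' : ¬ G.Near B q')
    {c c' : Row e n → Bool} (hc : ∀ ρ, a 1 = G.hgt ρ → c ρ = c' ρ)
    (hV : G.VV c a ↔ G.VV c' a') (hV' : G.VV c (a - ev 1) ↔ G.VV c' (a' - ev 1)) :
    G.cell R B c a = G.cell R B c' a' := by
  classical
  have hT := G.ty_sim hR h
  have hcol := h.1
  have hcol' := h.2.1
  obtain ⟨⟨hp, h0, h1, h2⟩, ⟨hp', h0', h1', h2'⟩, hy, hmu, hrow⟩ := h
  have c1 := G.colx_XR q
  have c2 := G.colx_XR q'
  have c3 := G.XR_pos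
  have c4 := G.colx_XZ q
  have c5 := G.colx_XZ q'
  have c6 := G.XZ_r0
  have c7 := G.colx_Yt q
  have c8 := G.colx_Yt q'
  have hc' : ∀ ρ, a' 1 = G.hgt ρ → c' ρ = c ρ := fun ρ hρ => (hc ρ (by rw [hy]; exact hρ)).symm
  have hco : ∀ l, l ≠ 0 → a l = a' l := by
    intro l hl
    by_cases hl1 : l = 1
    · subst hl1; exact hy
    · rw [hp l hl hl1, hp' l hl hl1]
  have hBn : ∀ l, 1 < |B l - G.colx q| := by
    intro l
    by_contra hcon
    exact hB ⟨l, by omega⟩
  have hBn' : ∀ l, 1 < |B l - G.colx q'| := by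
    intro l
    by_contra hcon
    exact hB' ⟨l, by omega⟩
  have hB0 := hBn 0
  have hB0' := hBn' 0
  rw [lt_abs] at hB0 hB0'
  have hdot : ∀ x x' : ℤ, (x = a 0 ∨ x = a 0 - 1) → (x' = a' 0 ∨ x' = a' 0 - 1) →
      nf x (B 0) = nf x' (B 0) := by
    intro x x' hx hx'
    simp only [nf]
    rw [if_neg (by omega), if_neg (by omega), if_neg (by omega), if_neg (by omega)]
  have hWW : ∀ j, G.WW c j a ↔ G.WW c' j a' := fun j =>
    ⟨G.col_WW h0 hp' hy hc j, G.col_WW h0' hp hy.symm hc' j⟩
  have hHH : G.HH c a ↔ G.HH c' a' :=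
    ⟨G.col_HH (q' := q') hp' (by omega) hy hc, G.col_HH (q' := q) hp (by omega) hy.symm hc'⟩
  have hHH' : G.HH c (a - ev 0) ↔ G.HH c' (a' - ev 0) := by
    constructor
    · refine G.col_HH (q' := q') hp'.sub0 ?_ ?_ ?_
      · rw [sub_ev_self]; omega
      · rw [sub_ev_ne a ne10, sub_ev_ne a' ne10]; exact hy
      · intro ρ hρ; rw [sub_ev_ne a ne10] at hρ; exact hc ρ hρ
    · refine G.col_HH (q' := q) hp.sub0 ?_ ?_ ?_
      · rw [sub_ev_self]; omega
      · rw [sub_ev_ne a ne10, sub_ev_ne a' ne10]; exact hy.symm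
      · intro ρ hρ; rw [sub_ev_ne a' ne10] at hρ; exact hc' ρ hρ
  have e1 : tv (0 : Fin (e + 2)) = 1 := by simp [tv]
  have e2 : ∀ j : Fin (e + 2), j ≠ 0 → tv j = 0 := fun j hj => by simp [tv, hj]
  have hown : G.ownC R B c false (fun _ => false) a =
      G.ownC R B c' false (fun _ => false) a' := by
    refine Own.ext ?_ rfl ?_ ?_ ?_ rfl rfl ?_ ?_
    · funext l
      by_cases hl : l = 0
      · subst hl; exact hdot _ _ (Or.inl rfl) (Or.inl rfl)
      · simp only [Geo.ownC, hco l hl]
    · funext j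
      simp only [Geo.ownC]
      by_cases hj : j = 0
      · subst hj
        rw [e1, if_neg (by omega), if_neg (by omega), hy]
      · have hBj := hBn j
        have hBj' := hBn' j
        rw [lt_abs] at hBj hBj'
        have := hco j hj
        have : a j ≤ G.Yt := by
          by_cases hj1 : j = 1
          · subst hj1; exact h2
          · rw [hp j hj hj1]; have := G.Yt_pos; omega
        rw [e2 j hj, if_pos (by omega), if_pos (by omega), decide_eq_false (by omega),
          decide_eq_false (by omega)]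
    · funext j
      simp only [Geo.ownC]
      rw [decide_eq_false, decide_eq_false]
      · rintro ⟨g, _⟩
        by_cases hj : j = 0
        · subst hj; have := g 1 ne10; omega
        · have := g 0 (Ne.symm hj); omega
      · rintro ⟨g, _⟩
        by_cases hj : j = 0
        · subst hj; have := g 1 ne10; omega
        · have := g 0 (Ne.symm hj); omega
    · funext j
      exact decide_eq_decide.mpr (hWW j)
    · exact decide_eq_decide.mpr hHH
    · exact decide_eq_decide.mpr hV
  refine St.ext hT ?_ hown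
  funext j
  change (G.cellC R B c false (fun _ => false) a).inn j =
      (G.cellC R B c' false (fun _ => false) a').inn j
  by_cases hj0 : j = 0
  · subst hj0
    rw [G.cellC_inn_in (by omega), G.cellC_inn_in (by omega)]
    have s1 := sub_ev_self a 0
    have s1' := sub_ev_self a' 0
    have s2 := sub_ev_ne a (ne10 (e := e))
    have s2' := sub_ev_ne a' (ne10 (e := e))
    refine Edge.ext ?_ rfl ?_ ?_ ?_ ?_ ?_ ?_
    · funext l
      simp only [out, Geo.ownC]
      by_cases hl : l = 0
      · subst hl; exact hdot _ _ (Or.inr s1) (Or.inr s1')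
      · rw [sub_ev_ne a hl, sub_ev_ne a' hl, hco l hl]
    · simp only [out, Geo.ownC]
      rw [e1, if_neg (by omega), if_neg (by omega), s2, s2', hy]
    · simp only [out, Geo.ownC]
      rw [decide_eq_false, decide_eq_false]
      · rintro ⟨g, _⟩
        have := g 1 ne10; omega
      · rintro ⟨g, _⟩
        have := g 1 ne10; omega
    · simp only [out, Geo.ownC]
      refine decide_eq_decide.mpr ?_
      rw [G.WW_sub, G.WW_sub]; exact hWW 0
    · simp only [out, Geo.ownC, Bool.and_false]
    · simp only [out, Geo.ownC, Geo.Ty]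
      have n1 : ¬ (a - ev (0 : Fin (e + 2))) 0 = R - 1 := by omega
      have n2 : ¬ (a' - ev (0 : Fin (e + 2))) 0 = R - 1 := by omega
      rw [decide_eq_false n1, decide_eq_false n2, decide_eq_decide.mpr hHH']
    · simp only [out, decide_eq_false (ne01 (e := e)), Bool.false_and]
  · by_cases hj1 : j = 1
    · subst hj1
      rw [G.cellC_inn_in (by omega), G.cellC_inn_in (by omega)]
      have s1 := sub_ev_self a 1
      have s1' := sub_ev_self a' 1
      have s2 := sub_ev_ne a (ne01 (e := e))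
      have s2' := sub_ev_ne a' (ne01 (e := e))
      refine Edge.ext ?_ rfl ?_ ?_ ?_ ?_ ?_ ?_
      · funext l
        simp only [out, Geo.ownC]
        by_cases hl : l = 0
        · subst hl; exact hdot _ _ (Or.inl s2) (Or.inl s2')
        · by_cases hl1 : l = 1
          · subst hl1; rw [s1, s1', hy]
          · rw [sub_ev_ne a hl1, sub_ev_ne a' hl1, hco l hl]
      · simp only [out, Geo.ownC]
        have hB1 := hBn 1
        have hB1' := hBn' 1
        rw [lt_abs] at hB1 hB1'
        rw [e2 1 ne10, if_pos (by omega), if_pos (by omega), decide_eq_false (by omega),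
          decide_eq_false (by omega)]
      · simp only [out, Geo.ownC]
        rw [decide_eq_false, decide_eq_false]
        · rintro ⟨g, _⟩
          have := g 0 ne01; omega
        · rintro ⟨g, _⟩
          have := g 0 ne01; omega
      · simp only [out, Geo.ownC]
        refine decide_eq_decide.mpr ?_
        rw [G.WW_sub, G.WW_sub]; exact hWW 1
      · simp only [out, Geo.ownC, Bool.and_false]
      · simp only [out, decide_eq_false (ne10 (e := e)), Bool.false_and]
      · simp only [out, Geo.ownC, Geo.Ty]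
        have hY := G.Yt_XZ
        have n1 : ¬ (a - ev (1 : Fin (e + 2))) 1 = R - 1 := by omega
        have n2 : ¬ (a' - ev (1 : Fin (e + 2))) 1 = R - 1 := by omega
        rw [decide_eq_false n1, decide_eq_false n2, decide_eq_decide.mpr hV']
    · have haj : a j = 0 := hp j hj0 hj1
      have haj' : a' j = 0 := hp' j hj0 hj1
      rw [G.cellC_inn_bd haj, G.cellC_inn_bd haj']
      have hBj := hBn j
      have hBj' := hBn' j
      rw [lt_abs] at hBj hBj'
      refine Edge.ext ?_ rfl ?_ ?_ ?_ rfl rfl rfl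
      · funext l
        simp only [Geo.bEdge]
        by_cases hlj : l = j
        · rw [if_pos hlj, if_pos hlj]
        · rw [if_neg hlj, if_neg hlj]
          by_cases hl : l = 0
          · subst hl; exact hdot _ _ (Or.inl rfl) (Or.inl rfl)
          · rw [hco l hl]
      · simp only [Geo.bEdge]
        rw [e2 j hj0, decide_eq_false (by omega), decide_eq_false (by omega)]
      · simp only [Geo.bEdge]
        rw [decide_eq_false, decide_eq_false]
        · rintro ⟨g, _⟩
          have := g 0 (Ne.symm hj0); omega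
        · rintro ⟨g, _⟩
          have := g 0 (Ne.symm hj0); omega
      · simp only [Geo.bEdge]
        rw [decide_eq_false (G.col_not_WI hcol haj), decide_eq_false (G.col_not_WI hcol' haj')]

end Pool.Agent.Lib.P05dae2
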