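import Mathlib
import Pool.Agent.Lib.P05dae2.Good3

/-!
# Transfer of column states (MP_05dae2_an)
-/

namespace Pool.Agent.Lib.P05dae2

variable {e n : ℕ} {enc : Kind e n → Fin n → Bool} (G : Geo enc)

/-- Every bad string has a column far from given coordinates. -/
theorem Geo.exists_copy (b : Bad enc) (x y : Pt (e + 2)) : ∃ δ : Fin (2 * e + 5),
    ∀ l, 1 < |x l - G.colx (b, δ)| ∧ 1 < |y l - G.colx (b, δ)| := by
  classical
  by_contra hcon
  push Not at hcon
  have h1 : ∀ δ : Fin (2 * e + 5), ∃ p : Fin (e + 2) ⊕ Fin (e + 2),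
      |Sum.elim x y p - G.colx (b, δ)| ≤ 1 := by
    intro δ
    obtain ⟨l, hl⟩ := hcon δ
    by_cases hx : 1 < |x l - G.colx (b, δ)|
    · exact ⟨Sum.inr l, hl hx⟩
    · exact ⟨Sum.inl l, by simpa using hx⟩
  choose f hf using h1
  have hcard : Fintype.card (Fin (e + 2) ⊕ Fin (e + 2)) < Fintype.card (Fin (2 * e + 5)) := by
    simp only [Fintype.card_sum, Fintype.card_fin]
    omega
  obtain ⟨δ, δ', hne, heq⟩ := Fintype.exists_ne_map_eq_of_card_lt f hcard
  have g1 := hf δ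
  have g2 := hf δ'
  rw [heq] at g1
  have hs := G.colx_sep (b, δ) (b, δ') (by
    intro h
    exact hne (Prod.mk.inj h).2)
  rw [abs_le] at g1 g2
  rw [le_abs] at hs
  omega

theorem Geo.near_row_unique {y : ℤ} {ρ ρ' : Row e n} (h : y = G.hgt ρ ∨ y = G.hgt ρ + 1)
    (h' : y = G.hgt ρ' ∨ y = G.hgt ρ' + 1) : ρ = ρ' := by
  have e1 := G.hgt_even ρ
  have e2 := G.hgt_even ρ'
  exact G.hgt_inj (by omega)

theorem Geo.tl_aux {R : ℤ} (hR : (G.r0 : ℤ) ≤ R) {B a : Pt (e + 2)} (ha : InB R a)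
    {q : Col enc} (hq : G.IsCol a q) (x : Pt (e + 2)) (hB : ¬ G.Near B q)
    {c c' : Row e n → Bool} (hc : ∀ ρ, a 1 = G.hgt ρ → c ρ = c' ρ) (str : Row e n → Bool)
    (p1 : str .one = false) (p2 : ∀ p, str (.ty (.mu p)) = q.1.1 (.ty (.mu p)))
    (p3 : ∀ ρ, (a 1 = G.hgt ρ ∨ a 1 = G.hgt ρ + 1) → str ρ = q.1.1 ρ)
    (p4 : (∀ ρ, G.hgt ρ ≤ a 1 - 1 → c' ρ = str ρ) ↔
      (∀ ρ, G.hgt ρ ≤ a 1 - 1 → c ρ = q.1.1 ρ)) :
    ∃ a', InB R a' ∧ G.cell R B c' a' = G.cell R B c a ∧
      ∃ q', G.Sim a a' q q' ∧ ∀ l, 1 < |x l - G.colx q'| := by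
  have hbad : ∀ θ : St e n, Rules enc θ → code enc θ ≠ str := by
    intro θ _ h
    have : code enc θ .one = str .one := by rw [h]
    rw [p1] at this
    simp [code] at this
  obtain ⟨δ, hδ⟩ := G.exists_copy ⟨str, hbad⟩ x B
  set q' : Col enc := (⟨str, hbad⟩, δ) with hq'
  have hq's : q'.1.1 = str := rfl
  obtain ⟨hp, h0, h1, h2⟩ := hq
  have c1 := G.colx_XR q'
  have c2 := G.XR_pos
  have c3 := G.colx_XZ q'
  have c4 := G.XZ_r0
  set a' : Pt (e + 2) := fun l => if l = 0 then G.colx q' else a l with ha'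
  have ha'0 : a' 0 = G.colx q' := by simp [ha']
  have ha'1 : a' 1 = a 1 := by simp [ha']
  have hp' : InPl a' := by
    intro l hl0 hl1
    simp only [ha', if_neg hl0]
    exact hp l hl0 hl1
  have hInB : InB R a' := by
    intro j
    by_cases hj : j = 0
    · subst hj; rw [ha'0]; omega
    · have := ha j
      simp only [ha', if_neg hj]
      exact this
  have hsim : G.Sim a a' q q' := by
    refine ⟨⟨hp, h0, h1, h2⟩, ⟨hp', ha'0, by rw [ha'1]; exact h1, by rw [ha'1]; exact h2⟩,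
      ha'1.symm, ?_, ?_⟩
    · funext p
      simp only [muOf, hq's]
      exact (p2 p).symm
    · intro ρ hρ
      rw [hq's]
      exact (p3 ρ hρ).symm
  have hB' : ¬ G.Near B q' := by
    rintro ⟨l, hl⟩
    have := (hδ l).2
    omega
  refine ⟨a', hInB, ?_, q', hsim, fun l => (hδ l).1⟩
  symm
  refine G.cell_col_sim hR hsim hB hB' hc ?_ ?_
  · rw [G.col_VV hp h0, G.col_VV hp' ha'0, ha'1, hq's]
    constructor
    · rintro ⟨g1, g2, g3⟩
      refine ⟨g1, g2, fun ρ hρ => ?_⟩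
      by_cases hρ' : G.hgt ρ ≤ a 1 - 1
      · exact p4.mpr (fun ρ' h' => g3 ρ' (by omega)) ρ hρ'
      · have heq : a 1 = G.hgt ρ := by omega
        rw [← hc ρ heq, p3 ρ (Or.inl heq)]
        exact g3 ρ hρ
    · rintro ⟨g1, g2, g3⟩
      refine ⟨g1, g2, fun ρ hρ => ?_⟩
      by_cases hρ' : G.hgt ρ ≤ a 1 - 1
      · exact p4.mp (fun ρ' h' => g3 ρ' (by omega)) ρ hρ'
      · have heq : a 1 = G.hgt ρ := by omega
        rw [hc ρ heq, ← p3 ρ (Or.inl heq)]
        exact g3 ρ hρ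
  · have s1 := sub_ev_self a 1
    have s1' := sub_ev_self a' 1
    have s2 := sub_ev_ne a (ne01 (e := e))
    have s2' := sub_ev_ne a' (ne01 (e := e))
    rw [G.col_VV hp.sub1 (s2.trans h0), G.col_VV hp'.sub1 (s2'.trans ha'0), s1, s1', ha'1, hq's]
    rw [p4]

/-- Transfer of column states: a state with a column label is attained below every state, up to
moving the label to another column. -/
theorem Geo.tl {R : ℤ} (hR : (G.r0 : ℤ) ≤ R) {s : Pt (e + 2) × St e n} (hs : G.Om 2 R s)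
    {q : Col enc} (hq : G.IsCol s.1 q) (x : Pt (e + 2)) :
    G.Attain R (fun t => t.2 = s.2 ∧
      (t.1 = s.1 ∨ ∃ q', G.Sim s.1 t.1 q q' ∧ ∀ l, 1 < |x l - G.colx q'|)) := by
  classical
  obtain ⟨s', a, hs', ha, rfl⟩ := hs
  have hok : G.OkZ (R + 1) s' := Geo.Om.ok G (by omega) hs'
  change G.IsCol a q at hq
  obtain ⟨ρ0, hρ0⟩ : ∃ ρ0 : Row e n, ∀ ρ, (a 1 = G.hgt ρ ∨ a 1 = G.hgt ρ + 1) → ρ = ρ0 := by
    by_cases hN : ∃ ρ, a 1 = G.hgt ρ ∨ a 1 = G.hgt ρ + 1
    · obtain ⟨ρ1, h1⟩ := hN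
      exact ⟨ρ1, fun ρ hρ => G.near_row_unique hρ h1⟩
    · push Not at hN
      exact ⟨.one, fun ρ hρ => by rcases hρ with h | h; exacts [absurd h (hN ρ).1, absurd h (hN ρ).2]⟩
  refine (G.row1 (R := R + 1) (by omega) hs' ρ0).step hR ?_
  rintro t ht ⟨ht1, ht2⟩
  set c := code enc s'.2 with hcdef
  set c' := code enc t.2 with hcdef'
  have hc : ∀ ρ, (a 1 = G.hgt ρ ∨ a 1 = G.hgt ρ + 1) → c ρ = c' ρ := by
    intro ρ hρ
    rw [hρ0 ρ hρ]; exact ht2.symm
  have hone : c .one = true := rfl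
  have hone' : c' .one = true := rfl
  have hty : ∀ t', c (.ty t') = c' (.ty t') := by
    intro t'
    simp only [hcdef, hcdef', code]
    rw [hok.2.2, ht.2.2, ht1]
  obtain ⟨hp, h0, h1, h2⟩ := id hq
  by_cases hP : (∀ ρ, G.hgt ρ ≤ a 1 - 1 → c ρ = q.1.1 ρ) ↔
      (∀ ρ, G.hgt ρ ≤ a 1 - 1 → c' ρ = q.1.1 ρ)
  · refine ⟨a, ha, ?_, Or.inl rfl⟩
    change G.cell R t.1 c' a = G.cell R s'.1 c a
    rw [ht1]
    symm
    refine G.cell_col_congr hq (fun ρ hρ => hc ρ (Or.inl hρ)) ?_ ?_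
    · rw [G.col_VV hp h0, G.col_VV hp h0]
      constructor
      · rintro ⟨g1, g2, g3⟩
        refine ⟨g1, g2, fun ρ hρ => ?_⟩
        by_cases hρ' : G.hgt ρ ≤ a 1 - 1
        · exact hP.mp (fun ρ' h' => g3 ρ' (by omega)) ρ hρ'
        · have heq : a 1 = G.hgt ρ := by omega
          rw [← hc ρ (Or.inl heq)]
          exact g3 ρ hρ
      · rintro ⟨g1, g2, g3⟩
        refine ⟨g1, g2, fun ρ hρ => ?_⟩
        by_cases hρ' : G.hgt ρ ≤ a 1 - 1
        · exact hP.mpr (fun ρ' h' => g3 ρ' (by omega)) ρ hρ'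
        · have heq : a 1 = G.hgt ρ := by omega
          rw [hc ρ (Or.inl heq)]
          exact g3 ρ hρ
    · have s1 := sub_ev_self a 1
      have s2 := sub_ev_ne a (ne01 (e := e))
      rw [G.col_VV hp.sub1 (s2.trans h0), G.col_VV hp.sub1 (s2.trans h0), s1]
      rw [hP]
  · -- facts common to both cases
    have full : ∀ c0 : Row e n → Bool, (∀ ρ, G.hgt ρ ≤ a 1 - 1 → c0 ρ = q.1.1 ρ) →
        (∃ θ : St e n, Rules enc θ ∧ code enc θ = c0) → G.hgt .one ≤ a 1 - 1 → False := by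
      rintro c0 hm ⟨θ, hθ, hcode⟩ hle
      refine q.1.2 θ hθ ?_
      rw [hcode]
      funext ρ
      exact hm ρ (by have := G.hgt_le_one ρ; omega)
    have fullone : ∀ c0 : Row e n → Bool, (∀ ρ, G.hgt ρ ≤ a 1 - 1 → c0 ρ = q.1.1 ρ) →
        (∃ θ : St e n, Rules enc θ ∧ code enc θ = c0) →
        (a 1 = G.hgt .one ∨ a 1 = G.hgt .one + 1) → q.1.1 .one = false := by
      intro c0 hm hex hnear
      rcases hnear with hnear | hnear
      · by_contra hqone
        obtain ⟨θ, hθ, hcode⟩ := hex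
        refine q.1.2 θ hθ ?_
        rw [hcode]
        funext ρ
        by_cases hρ : ρ = .one
        · subst hρ
          have : c0 .one = true := by rw [← hcode]; rfl
          rw [this]
          simpa using hqone
        · exact hm ρ (by have := G.hgt_one ρ hρ; omega)
      · exact absurd (full c0 hm hex (by omega)) (fun h => h)
    have hexc : ∃ θ : St e n, Rules enc θ ∧ code enc θ = c := ⟨s'.2, hok.2.1, rfl⟩
    have hexc' : ∃ θ : St e n, Rules enc θ ∧ code enc θ = c' := ⟨t.2, ht.2.1, rfl⟩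
    -- a match of `c0` and a mismatch of `c1` imply that the type rows of `q` are those of `c`
    have typs : ∀ c0 c1 : Row e n → Bool, (∀ t', c0 (.ty t') = c1 (.ty t')) →
        (∀ ρ, G.hgt ρ ≤ a 1 - 1 → c0 ρ = q.1.1 ρ) →
        ∀ ρm, G.hgt ρm ≤ a 1 - 1 → c1 ρm ≠ q.1.1 ρm →
        (∀ t', ρm ≠ .ty t') ∧ ∀ t', c0 (.ty t') = q.1.1 (.ty t') := by
      intro c0 c1 hcc hm ρm hle hne
      have h3 : ∀ t', ρm ≠ .ty t' := by
        rintro t' rfl
        exact hne (by rw [← hcc, hm _ hle])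
      refine ⟨h3, fun t' => ?_⟩
      exact hm _ (by have := G.hgt_ty t' ρm h3; omega)
    have nearB : (∀ t', c (.ty t') = q.1.1 (.ty t')) → ¬ G.Near s'.1 q := by
      intro hall hnear
      refine G.mu0_ne_of_near hnear ?_
      funext p
      have := hall (.mu p)
      simp only [muOf]
      rw [← this]
      simp only [hcdef, code, hok.2.2, tbit, Geo.Ty]
    suffices hsuff : ∃ a', InB R a' ∧ G.cell R s'.1 c' a' = G.cell R s'.1 c a ∧
        ∃ q', G.Sim a a' q q' ∧ ∀ l, 1 < |x l - G.colx q'| by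
      obtain ⟨a', g1, g2, g3⟩ := hsuff
      refine ⟨a', g1, ?_, Or.inr g3⟩
      change G.cell R t.1 c' a' = G.cell R s'.1 c a
      rw [ht1]; exact g2
    by_cases hPc : ∀ ρ, G.hgt ρ ≤ a 1 - 1 → c ρ = q.1.1 ρ
    · -- `c` matches, `c'` does not
      have hPc' : ¬ ∀ ρ, G.hgt ρ ≤ a 1 - 1 → c' ρ = q.1.1 ρ := fun h => hP ⟨fun _ => h, fun _ => hPc⟩
      push Not at hPc'
      obtain ⟨ρm, hm1, hm2⟩ := hPc'
      obtain ⟨hm3, hall⟩ := typs c c' hty hPc ρm hm1 hm2
      have hle : a 1 - 1 < G.hgt .one := by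
        by_contra hcon
        exact full c hPc hexc (by omega)
      refine G.tl_aux hR ha hq x (nearB hall) (fun ρ hρ => hc ρ (Or.inl hρ))
        (fun ρ => if a 1 = G.hgt ρ ∨ a 1 = G.hgt ρ + 1 then q.1.1 ρ else
          if ρ = .one then false else c' ρ) ?_ ?_ ?_ ?_
      · by_cases hN : a 1 = G.hgt (.one : Row e n) ∨ a 1 = G.hgt (.one : Row e n) + 1
        · simp only [if_pos hN]
          exact fullone c hPc hexc hN
        · simp only [if_neg hN, if_true]
      · intro p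
        by_cases hN : a 1 = G.hgt (.ty (.mu p)) ∨ a 1 = G.hgt (.ty (.mu p)) + 1
        · simp only [if_pos hN]
        · simp only [if_neg hN]
          rw [if_neg (by simp), ← hty, hall]
      · intro ρ hρ
        simp only [if_pos hρ]
      · refine iff_of_true (fun ρ hρ => ?_) hPc
        by_cases hN : a 1 = G.hgt ρ ∨ a 1 = G.hgt ρ + 1
        · simp only [if_pos hN]
          rw [← hc ρ hN, hPc ρ hρ]
        · simp only [if_neg hN]
          rw [if_neg]
          rintro rfl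
          omega
    · -- `c'` matches, `c` does not
      have hPc' : ∀ ρ, G.hgt ρ ≤ a 1 - 1 → c' ρ = q.1.1 ρ := by
        by_contra hcon
        exact hP ⟨fun h => absurd h hPc, fun h => absurd h hcon⟩
      have hPc0 := hPc
      push Not at hPc
      obtain ⟨ρm, hm1, hm2⟩ := hPc
      obtain ⟨hm3, hall'⟩ := typs c' c (fun t' => (hty t').symm) hPc' ρm hm1 hm2
      have hall : ∀ t', c (.ty t') = q.1.1 (.ty t') := fun t' => by rw [hty, hall']
      have hle : a 1 - 1 < G.hgt .one := by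
        by_contra hcon
        exact full c' hPc' hexc' (by omega)
      have hmN : ¬ (a 1 = G.hgt ρm ∨ a 1 = G.hgt ρm + 1) := by
        intro hN
        exact hm2 (by rw [hc ρm hN, hPc' ρm hm1])
      have hm1' : ρm ≠ .one := by
        rintro rfl
        omega
      refine G.tl_aux hR ha hq x (nearB hall) (fun ρ hρ => hc ρ (Or.inl hρ))
        (fun ρ => if ρ = ρm then !(c' ρm) else
          if a 1 = G.hgt ρ ∨ a 1 = G.hgt ρ + 1 then q.1.1 ρ else
          if ρ = .one then false else c' ρ) ?_ ?_ ?_ ?_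
      · simp only [if_neg (Ne.symm hm1')]
        by_cases hN : a 1 = G.hgt (.one : Row e n) ∨ a 1 = G.hgt (.one : Row e n) + 1
        · simp only [if_pos hN]
          exact fullone c' hPc' hexc' hN
        · simp only [if_neg hN, if_true]
      · intro p
        simp only [if_neg (Ne.symm (hm3 (.mu p)))]
        by_cases hN : a 1 = G.hgt (.ty (.mu p)) ∨ a 1 = G.hgt (.ty (.mu p)) + 1
        · simp only [if_pos hN]
        · simp only [if_neg hN]
          rw [if_neg (by simp), ← hty, hall]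
      · intro ρ hρ
        have : ρ ≠ ρm := by rintro rfl; exact hmN hρ
        simp only [if_neg this, if_pos hρ]
      · refine iff_of_false (fun h => ?_) hPc0
        have := h ρm hm1
        simp at this

end Pool.Agent.Lib.P05dae2
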