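import Mathlib
import Pool.Agent.Lib.P05dae2.Good4

/-!
# Pairs of rows, visible rows, and the goodness theorem (MP_05dae2_an)
-/

namespace Pool.Agent.Lib.P05dae2

variable {e n : ℕ} {enc : Kind e n → Fin n → Bool} (G : Geo enc)

/-- Information on the row read by a wire row at a position outside of the columns. -/
def Geo.Info (a : Pt (e + 2)) (Q : Bool) (ρ' : Row e n) : Pad e → Prop
  | .w j => ∃ b, (∀ l, l ≠ j → a l = G.io j b l) ∧ ρ' = if Q then .iB j b else .oA j b
  | .h => InPl a ∧ a 1 = G.hgt ρ' ∧ G.xs ρ' ≤ a 0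
  | .v => InPl a ∧ ∃ j b, ρ' = .iB j b ∧ a 0 = G.px j b ∧ G.vs j b ≤ a 1 ∧
      a 1 ≤ G.hgt (.iB j b)

theorem InPl.of_sub0 {a : Pt (e + 2)} (hp : InPl (a - ev 0)) : InPl a := by
  intro l h0 h1
  have := hp l h0 h1
  rwa [sub_ev_ne a h0] at this

theorem InPl.of_sub1 {a : Pt (e + 2)} (hp : InPl (a - ev 1)) : InPl a := by
  intro l h0 h1
  have := hp l h0 h1
  rwa [sub_ev_ne a h1] at this

theorem Geo.not_inCol {a : Pt (e + 2)} (hnc : ∀ q, ¬ G.IsCol a q) : ¬ G.InCol a := by
  rintro ⟨hp, q, h0, h1, h2⟩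
  exact hnc q ⟨hp, h0, h1, by omega⟩

theorem Geo.not_inCol_sub {a : Pt (e + 2)} (hnc : ∀ q, ¬ G.IsCol a q) :
    ¬ G.InCol (a - ev 1) := by
  rintro ⟨hp, q, h0, h1, h2⟩
  rw [sub_ev_self] at h1 h2
  rw [sub_ev_ne a ne01] at h0
  exact hnc q ⟨hp.of_sub1, h0, by omega, by omega⟩

theorem Geo.rX_dep (R : ℤ) {a : Pt (e + 2)} (hnc : ∀ q, ¬ G.IsCol a q) {ρ : Row e n}
    {q : Pad e} (hq : rP ρ = some q) :
    ∃ o, DepOn (G.rX R a ρ) o ∧ ∀ ρ', o = some ρ' → G.Info a (rQ a ρ).isSome ρ' q := by
  have hnone : ∀ X : (Row e n → Bool) → Prop, (∀ c, ¬ X c) →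
      ∃ o, DepOn X o ∧ ∀ ρ', o = some ρ' → G.Info a (rQ a ρ).isSome ρ' q := by
    intro X hX
    refine ⟨none, fun c => ?_, fun ρ' h => by simp at h⟩
    constructor
    · intro h; exact absurd h (hX c)
    · rintro ⟨_, h, _⟩; simp at h
  cases ρ with
  | ty t => simp [rP] at hq
  | om => simp [rP] at hq
  | be => simp [rP] at hq
  | one => simp [rP] at hq
  | oh =>
    simp only [rP, Option.some.injEq] at hq
    subst hq
    obtain ⟨o, ho, hi⟩ := G.dep_HH a
    refine ⟨o, ho, fun ρ' h => ?_⟩
    obtain ⟨g1, g2, g3, _⟩ := hi ρ' h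
    exact ⟨g1, g2, g3⟩
  | ov =>
    simp only [rP, Option.some.injEq] at hq
    subst hq
    obtain ⟨o, ho, hi⟩ := G.dep_VV (G.not_inCol hnc)
    refine ⟨o, ho, fun ρ' h => ?_⟩
    obtain ⟨g1, j, b, g2, g3, g4, g5⟩ := hi ρ' h
    exact ⟨g1, j, b, g2, g3, g4, g5.le⟩
  | oA j b =>
    cases b with
    | w =>
      simp only [rP, Option.some.injEq] at hq
      subst hq
      obtain ⟨o, ho, hi⟩ := G.dep_WW j a
      refine ⟨o, ho, fun ρ' h => ?_⟩
      obtain ⟨b, g1, g2⟩ := hi ρ' h
      exact ⟨b, g2, by simpa [rQ] using g1⟩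
    | h =>
      simp only [rP, Option.some.injEq] at hq
      subst hq
      by_cases hj : j = 0 ∧ a 0 ≠ R - 1
      · obtain ⟨o, ho, hi⟩ := G.dep_HH a
        refine ⟨o, fun c => ?_, fun ρ' h => ?_⟩
        · rw [← ho c]; simp [Geo.rX, hj]
        · obtain ⟨g1, g2, g3, _⟩ := hi ρ' h
          exact ⟨g1, g2, g3⟩
      · exact hnone _ (fun c ⟨g1, g2, _⟩ => hj ⟨g1, g2⟩)
    | v =>
      simp only [rP, Option.some.injEq] at hq
      subst hq
      by_cases hj : j = 1 ∧ a 1 ≠ R - 1
      · obtain ⟨o, ho, hi⟩ := G.dep_VV (G.not_inCol hnc)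
        refine ⟨o, fun c => ?_, fun ρ' h => ?_⟩
        · rw [← ho c]; simp [Geo.rX, hj]
        · obtain ⟨g1, j, b, g2, g3, g4, g5⟩ := hi ρ' h
          exact ⟨g1, j, b, g2, g3, g4, g5.le⟩
      · exact hnone _ (fun c ⟨g1, g2, _⟩ => hj ⟨g1, g2⟩)
    | fp l => simp [rP] at hq
    | fz l => simp [rP] at hq
    | tb t => simp [rP] at hq
    | s => simp [rP] at hq
    | g => simp [rP] at hq
    | m => simp [rP] at hq
  | iB j b =>
    cases b with
    | w =>
      simp only [rP, Option.some.injEq] at hq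
      subst hq
      by_cases hj : a j = 0
      · obtain ⟨o, ho, hi⟩ := G.dep_WI j a
        refine ⟨o, fun c => ?_, fun ρ' h => ?_⟩
        · rw [← ho c]; simp [Geo.rX, hj]
        · obtain ⟨b, g1, g2⟩ := hi ρ' h
          exact ⟨b, g2, by simpa [rQ, hj] using g1⟩
      · obtain ⟨o, ho, hi⟩ := G.dep_WW j a
        refine ⟨o, fun c => ?_, fun ρ' h => ?_⟩
        · rw [← ho c]; simp [Geo.rX, hj]
        · obtain ⟨b, g1, g2⟩ := hi ρ' h
          exact ⟨b, g2, by simpa [rQ, hj] using g1⟩
    | h =>
      simp only [rP, Option.some.injEq] at hq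
      subst hq
      by_cases hj : j = 0 ∧ a 0 ≠ 0
      · obtain ⟨o, ho, hi⟩ := G.dep_HH (a - ev 0)
        refine ⟨o, fun c => ?_, fun ρ' h => ?_⟩
        · rw [← ho c]; simp [Geo.rX, hj]
        · obtain ⟨g1, g2, g3, _⟩ := hi ρ' h
          rw [sub_ev_ne a ne10] at g2
          rw [sub_ev_self] at g3
          exact ⟨g1.of_sub0, g2, by omega⟩
      · exact hnone _ (fun c ⟨g1, g2, _⟩ => hj ⟨g1, g2⟩)
    | v =>
      simp only [rP, Option.some.injEq] at hq
      subst hq
      by_cases hj : j = 1 ∧ a 1 ≠ 0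
      · obtain ⟨o, ho, hi⟩ := G.dep_VV (G.not_inCol_sub hnc)
        refine ⟨o, fun c => ?_, fun ρ' h => ?_⟩
        · rw [← ho c]; simp [Geo.rX, hj]
        · obtain ⟨g1, j, b, g2, g3, g4, g5⟩ := hi ρ' h
          rw [sub_ev_ne a ne01] at g3
          rw [sub_ev_self] at g4 g5
          exact ⟨g1.of_sub1, j, b, g2, g3, by omega, by omega⟩
      · exact hnone _ (fun c ⟨g1, g2, _⟩ => hj ⟨g1, g2⟩)
    | fp l => simp [rP] at hq
    | fz l => simp [rP] at hq
    | tb t => simp [rP] at hq
    | s => simp [rP] at hq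
    | g => simp [rP] at hq
    | m => simp [rP] at hq

/-- Two `v`-wires visible at the same position are the same. -/
theorem Geo.vwire_unique {a : Pt (e + 2)} {j j' : Fin (e + 2)} {b b' : EB e n}
    (h0 : a 0 = G.px j b) (h1 : G.vs j b ≤ a 1) (h2 : a 1 ≤ G.hgt (.iB j b))
    (h0' : a 0 = G.px j' b') (h1' : G.vs j' b' ≤ a 1) (h2' : a 1 ≤ G.hgt (.iB j' b')) :
    j = j' ∧ b = b' := by
  by_cases hj : j = 1
  · subst hj
    rw [G.px_one] at h0
    obtain ⟨rfl, rfl⟩ := G.px_eq_one (h0'.symm.trans h0)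
    exact ⟨rfl, rfl⟩
  · by_cases hj' : j' = 1
    · subst hj'
      rw [G.px_one] at h0'
      exact absurd (G.px_eq_one (h0.symm.trans h0')).1 hj
    · simp only [Geo.vs, if_neg hj] at h1
      simp only [Geo.vs, if_neg hj'] at h1'
      have p1 := G.hgt_pair j b hj
      have p2 := G.hgt_pair j' b' hj'
      have e1 := G.hgt_even (.oA j b)
      have e2 := G.hgt_even (.oA j' b')
      have n1 : G.hgt (.iB j b) ≠ G.hgt (.oA j' b') := fun h => by
        have := G.hgt_inj h; simp at this
      have n2 : G.hgt (.iB j' b') ≠ G.hgt (.oA j b) := fun h => by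
        have := G.hgt_inj h; simp at this
      have : G.hgt (.oA j b) = G.hgt (.oA j' b') := by omega
      have := G.hgt_inj this
      simp only [Row.oA.injEq] at this
      exact this

theorem Geo.info_unique {a : Pt (e + 2)} {Q : Bool} {ρ1 ρ2 : Row e n} {q : Pad e}
    (h1 : G.Info a Q ρ1 q) (h2 : G.Info a Q ρ2 q) : ρ1 = ρ2 := by
  cases q with
  | w j =>
    obtain ⟨b, g1, g2⟩ := h1
    obtain ⟨b', g1', g2'⟩ := h2
    rw [g2, g2', G.io_unique g1 g1']
  | h => exact G.hgt_inj (h1.2.1.symm.trans h2.2.1)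
  | v =>
    obtain ⟨_, j, b, g2, g3, g4, g5⟩ := h1
    obtain ⟨_, j', b', g2', g3', g4', g5'⟩ := h2
    obtain ⟨rfl, rfl⟩ := G.vwire_unique g3 g4 g5 g3' g4' g5'
    rw [g2, g2']

theorem Geo.info_ty {a : Pt (e + 2)} {Q Q' : Bool} {ρ2 : Row e n} {q q' : Pad e}
    {t : TyBit e n} (h1 : G.Info a Q (.ty t) q) (h2 : G.Info a Q' ρ2 q') : .ty t = ρ2 := by
  cases q with
  | w j =>
    obtain ⟨b, g1, g2⟩ := h1
    split_ifs at g2
  | v =>
    obtain ⟨_, j, b, g2, _⟩ := h1
    simp at g2
  | h =>
    obtain ⟨g1, g2, g3⟩ := h1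
    simp only [Geo.xs] at g3
    cases q' with
    | h => exact G.hgt_inj (g2.symm.trans h2.2.1)
    | w j =>
      obtain ⟨b, k1, k2⟩ := h2
      exfalso
      by_cases hj : j = 0
      · subst hj
        have := k1 1 ne10
        rw [G.io_one_ne ne01] at this
        have := G.hgt_inj (g2.symm.trans this)
        simp at this
      · have := k1 0 (Ne.symm hj)
        rw [G.io_zero] at this
        have := G.px_lt_XR j b
        omega
    | v =>
      obtain ⟨_, j, b, _, k3, _⟩ := h2
      exfalso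
      have := G.px_lt_XR j b
      omega

theorem pad_sel (Q1 Q2 : Bool) {q1 q2 : Pad e} (u v : Bool) (h : q1 ≠ q2 ∨ Q1 ≠ Q2) :
    (if Q2 = true then (fun q' => if Q1 = true ∧ q' = q1 then u else v)
      else (fun q' => if Q1 = false ∧ q' = q1 then u else v)) q2 = v := by
  rcases h with h | h
  · cases Q2 <;> simp [Ne.symm h]
  · cases Q1 <;> cases Q2 <;> simp at h ⊢

open Classical in
/-- Dichotomy for pairs of rows at a position outside of the columns. -/
theorem Geo.pair_dich (R : ℤ) {a : Pt (e + 2)} (ha : InB R a) (hnc : ∀ q, ¬ G.IsCol a q)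
    (ρ1 ρ2 : Row e n) :
    (∃ ρ', ∀ (B : Pt (e + 2)) (c c' : Row e n → Bool), c ρ' = c' ρ' →
      code enc (G.cell R B c a) ρ1 = code enc (G.cell R B c' a) ρ1 ∧
      code enc (G.cell R B c a) ρ2 = code enc (G.cell R B c' a) ρ2) ∨
    (∀ p1 p2 : Bool, ∃ γ : (Pad e → Bool) × (Pad e → Bool),
      code enc (G.cell R (G.palL γ) (code enc (G.thP (R + 1) γ)) a) ρ1 = p1 ∧
      code enc (G.cell R (G.palL γ) (code enc (G.thP (R + 1) γ)) a) ρ2 = p2) := by
  -- values of a wire row
  have hval : ∀ {ρ : Row e n} {q : Pad e} {o : Option (Row e n)}, rP ρ = some q →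
      DepOn (G.rX R a ρ) o → ∀ (B : Pt (e + 2)) (c c' : Row e n → Bool),
      (∀ ρ', o = some ρ' → c ρ' = c' ρ') →
      code enc (G.cell R B c a) ρ = code enc (G.cell R B c' a) ρ := by
    intro ρ q o hq ho B c c' hcc
    rw [G.row_val ha hq, G.row_val ha hq]
    congr 1
    refine decide_eq_decide.mpr ?_
    rw [ho, ho]
    constructor
    · rintro ⟨ρ', h1, h2⟩; exact ⟨ρ', h1, by rw [← hcc ρ' h1]; exact h2⟩
    · rintro ⟨ρ', h1, h2⟩; exact ⟨ρ', h1, by rw [hcc ρ' h1]; exact h2⟩
  cases hq1 : rP ρ1 with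
  | none =>
    left
    cases hq2 : rP ρ2 with
    | none =>
      exact ⟨.one, fun B c c' _ => ⟨G.row_val_none hq1, G.row_val_none hq2⟩⟩
    | some q2 =>
      obtain ⟨o2, ho2, _⟩ := G.rX_dep R hnc hq2
      cases o2 with
      | none =>
        exact ⟨.one, fun B c c' _ => ⟨G.row_val_none hq1, hval hq2 ho2 B c c' (by simp)⟩⟩
      | some ρ' =>
        refine ⟨ρ', fun B c c' h => ⟨G.row_val_none hq1, hval hq2 ho2 B c c' ?_⟩⟩
        intro ρ'' h''
        simp only [Option.some.injEq] at h''
        rw [← h'']; exact h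
  | some q1 =>
    obtain ⟨o1, ho1, hi1⟩ := G.rX_dep R hnc hq1
    cases hq2 : rP ρ2 with
    | none =>
      left
      cases o1 with
      | none =>
        exact ⟨.one, fun B c c' _ => ⟨hval hq1 ho1 B c c' (by simp), G.row_val_none hq2⟩⟩
      | some ρ' =>
        refine ⟨ρ', fun B c c' h => ⟨hval hq1 ho1 B c c' ?_, G.row_val_none hq2⟩⟩
        intro ρ'' h''
        simp only [Option.some.injEq] at h''
        rw [← h'']; exact h
    | some q2 =>
      obtain ⟨o2, ho2, hi2⟩ := G.rX_dep R hnc hq2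
      cases o1 with
      | none =>
        left
        cases o2 with
        | none =>
          exact ⟨.one, fun B c c' _ => ⟨hval hq1 ho1 B c c' (by simp),
            hval hq2 ho2 B c c' (by simp)⟩⟩
        | some ρ' =>
          refine ⟨ρ', fun B c c' h => ⟨hval hq1 ho1 B c c' (by simp), hval hq2 ho2 B c c' ?_⟩⟩
          intro ρ'' h''
          simp only [Option.some.injEq] at h''
          rw [← h'']; exact h
      | some ρ'1 =>
        cases o2 with
        | none =>
          left
          refine ⟨ρ'1, fun B c c' h => ⟨hval hq1 ho1 B c c' ?_, hval hq2 ho2 B c c' (by simp)⟩⟩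
          intro ρ'' h''
          simp only [Option.some.injEq] at h''
          rw [← h'']; exact h
        | some ρ'2 =>
          by_cases heq : ρ'1 = ρ'2
          · left
            subst heq
            refine ⟨ρ'1, fun B c c' h => ⟨hval hq1 ho1 B c c' ?_, hval hq2 ho2 B c c' ?_⟩⟩
            · intro ρ'' h''
              simp only [Option.some.injEq] at h''
              rw [← h'']; exact h
            · intro ρ'' h''
              simp only [Option.some.injEq] at h''
              rw [← h'']; exact h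
          · right
            have i1 := hi1 _ rfl
            have i2 := hi2 _ rfl
            have hind : q1 ≠ q2 ∨ (rQ a ρ1).isSome ≠ (rQ a ρ2).isSome := by
              by_contra hcon
              push Not at hcon
              obtain ⟨rfl, h2⟩ := hcon
              rw [← h2] at i2
              exact heq (G.info_unique i1 i2)
            have hn1 : ∀ t, ρ'1 ≠ .ty t := by
              rintro t rfl
              exact heq (G.info_ty i1 i2)
            have hn2 : ∀ t, ρ'2 ≠ .ty t := by
              rintro t rfl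
              exact heq (G.info_ty i2 i1).symm
            intro p1 p2
            set γ0 : (Pad e → Bool) × (Pad e → Bool) := (fun _ => false, fun _ => false)
            set x1 := code enc (G.thP (R + 1) γ0) ρ'1 with hx1
            set x2 := code enc (G.thP (R + 1) γ0) ρ'2 with hx2
            set Q1 := (rQ a ρ1).isSome with hQ1
            set Q2 := (rQ a ρ2).isSome with hQ2
            have hcomp : ∀ (γ : (Pad e → Bool) × (Pad e → Bool)) {ρ ρ' : Row e n} {q : Pad e},
                rP ρ = some q → DepOn (G.rX R a ρ) (some ρ') → (∀ t, ρ' ≠ .ty t) →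
                code enc (G.cell R (G.palL γ) (code enc (G.thP (R + 1) γ)) a) ρ =
                  xor (code enc (G.thP (R + 1) γ0) ρ')
                    ((if (rQ a ρ).isSome then γ.1 else γ.2) q) := by
              intro γ ρ ρ' q hq ho hn
              rw [G.row_val ha hq, G.mu0_src_pal]
              congr 1
              rw [← G.thP_code γ γ0 hn]
              have := ho (code enc (G.thP (R + 1) γ))
              cases hb : code enc (G.thP (R + 1) γ) ρ' with
              | false =>
                refine decide_eq_false ?_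
                rw [this]
                rintro ⟨ρ'', h1, h2⟩
                simp only [Option.some.injEq] at h1
                rw [← h1, hb] at h2
                simp at h2
              | true =>
                refine decide_eq_true ?_
                rw [this]
                exact ⟨ρ', rfl, hb⟩
            refine ⟨(fun q' => if Q1 = true ∧ q' = q1 then xor x1 p1 else xor x2 p2,
              fun q' => if Q1 = false ∧ q' = q1 then xor x1 p1 else xor x2 p2), ?_, ?_⟩
            · rw [hcomp _ hq1 ho1 hn1, ← hx1, ← hQ1]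
              have : (if Q1 = true then
                  (fun q' => if Q1 = true ∧ q' = q1 then xor x1 p1 else xor x2 p2)
                  else (fun q' => if Q1 = false ∧ q' = q1 then xor x1 p1 else xor x2 p2)) q1 =
                  xor x1 p1 := by
                cases Q1 <;> simp
              simp only at this ⊢
              rw [this]
              cases x1 <;> cases p1 <;> rfl
            · rw [hcomp _ hq2 ho2 hn2, ← hx2, ← hQ2]
              have : (if Q2 = true then
                  (fun q' => if Q1 = true ∧ q' = q1 then xor x1 p1 else xor x2 p2)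
                  else (fun q' => if Q1 = false ∧ q' = q1 then xor x1 p1 else xor x2 p2)) q2 =
                  xor x2 p2 := pad_sel Q1 Q2 _ _ hind
              simp only at this ⊢
              rw [this]
              cases x2 <;> cases p2 <;> rfl

/-- Pairs of rows are attained, outside of the columns. -/
theorem Geo.pair {R : ℤ} (hR : (G.r0 : ℤ) ≤ R) {s : Pt (e + 2) × St e n} (hs : G.Om 2 R s)
    (hnc : ∀ q, ¬ G.IsCol s.1 q) (ρ1 ρ2 : Row e n) :
    G.Attain R (fun t => t.1 = s.1 ∧ code enc t.2 ρ1 = code enc s.2 ρ1 ∧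
      code enc t.2 ρ2 = code enc s.2 ρ2) := by
  obtain ⟨s', a, hs', ha, rfl⟩ := hs
  rcases G.pair_dich R ha hnc ρ1 ρ2 with ⟨ρ', h⟩ | h
  · refine (G.row1 (R := R + 1) (by omega) hs' ρ').step hR ?_
    rintro t ht ⟨ht1, ht2⟩
    refine ⟨a, ha, rfl, ?_⟩
    simp only [Geo.ch]
    rw [ht1]
    exact h s'.1 _ _ ht2
  · obtain ⟨γ, h1, h2⟩ := h (code enc (G.ch R s' a).2 ρ1) (code enc (G.ch R s' a).2 ρ2)
    exact G.attain_of_pal hR ha γ ⟨rfl, h1, h2⟩

/-! ### Visible rows -/

/-- The row `ρ` is visible at `a` (outside of the columns). -/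
def Geo.Vis (a : Pt (e + 2)) (ρ : Row e n) : Prop :=
  (∃ j b, ρ = .oA j b ∧ ∀ l, l ≠ j → a l = G.io j b l) ∨
  (∃ j b, a j = 0 ∧ ρ = .iB j b ∧ ∀ l, l ≠ j → a l = G.io j b l) ∨
  (InPl a ∧ a 1 = G.hgt ρ ∧ G.xs ρ ≤ a 0) ∨
  (InPl a ∧ ∃ j b, ρ = .iB j b ∧ a 0 = G.px j b ∧ G.vs j b ≤ a 1 ∧ a 1 ≤ G.hgt (.iB j b))

theorem Geo.vis_congr {R : ℤ} {B a : Pt (e + 2)} (hnc : ∀ q, ¬ G.IsCol a q)
    {c c' : Row e n → Bool} (h : ∀ ρ, G.Vis a ρ → c ρ = c' ρ) :
    G.cell R B c a = G.cell R B c' a := by
  have key : ∀ {c c' : Row e n → Bool}, (∀ ρ, G.Vis a ρ → c ρ = c' ρ) →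
      (∀ j, G.WW c j a → G.WW c' j a) ∧ (G.HH c a → G.HH c' a) ∧ (G.VV c a → G.VV c' a) ∧
      (∀ j, a j = 0 → (G.WI c j a → G.WI c' j a)) ∧
      (G.HH c (a - ev 0) → G.HH c' (a - ev 0)) ∧ (G.VV c (a - ev 1) → G.VV c' (a - ev 1)) := by
    intro c c' h
    refine ⟨?_, ?_, ?_, ?_, ?_, ?_⟩
    · rintro j ⟨b, h1, h2⟩
      exact ⟨b, h1, by rw [← h _ (Or.inl ⟨j, b, rfl, h1⟩)]; exact h2⟩
    · rintro ⟨hp, ρ, h1, h2, h3, h4⟩
      exact ⟨hp, ρ, h1, h2, h3, by
        rw [← h _ (Or.inr (Or.inr (Or.inl ⟨hp, h1, h2⟩)))]; exact h4⟩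
    · rintro ⟨hp, hv⟩
      rcases hv with ⟨j, b, h0, h1, h2, h3⟩ | ⟨q, h0, h1, h2, _⟩
      · exact ⟨hp, Or.inl ⟨j, b, h0, h1, h2, by
          rw [← h _ (Or.inr (Or.inr (Or.inr ⟨hp, j, b, rfl, h0, h1, h2.le⟩)))]; exact h3⟩⟩
      · exact absurd ⟨hp, h0, h1, by omega⟩ (hnc q)
    · rintro j hj ⟨b, h1, h2⟩
      exact ⟨b, h1, by rw [← h _ (Or.inr (Or.inl ⟨j, b, hj, rfl, h1⟩))]; exact h2⟩
    · rintro ⟨hp, ρ, h1, h2, h3, h4⟩
      refine ⟨hp, ρ, h1, h2, h3, ?_⟩
      rw [sub_ev_ne a ne10] at h1
      rw [sub_ev_self] at h2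
      rw [← h _ (Or.inr (Or.inr (Or.inl ⟨hp.of_sub0, h1, by omega⟩)))]; exact h4
    · rintro ⟨hp, hv⟩
      rcases hv with ⟨j, b, h0, h1, h2, h3⟩ | ⟨q, h0, h1, h2, _⟩
      · refine ⟨hp, Or.inl ⟨j, b, h0, h1, h2, ?_⟩⟩
        rw [sub_ev_ne a ne01] at h0
        rw [sub_ev_self] at h1 h2
        rw [← h _ (Or.inr (Or.inr (Or.inr ⟨hp.of_sub1, j, b, rfl, h0, by omega, by omega⟩)))]
        exact h3
      · rw [sub_ev_ne a ne01] at h0
        rw [sub_ev_self] at h1 h2
        exact absurd ⟨hp.of_sub1, h0, by omega, by omega⟩ (hnc q)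
  obtain ⟨k1, k2, k3, k4, k5, k6⟩ := key h
  obtain ⟨m1, m2, m3, m4, m5, m6⟩ := key (fun ρ hρ => (h ρ hρ).symm)
  exact G.cell_congr (fun j => ⟨k1 j, m1 j⟩) ⟨k2, m2⟩ ⟨k3, m3⟩ (fun j hj => ⟨k4 j hj, m4 j hj⟩)
    (fun _ => ⟨k5, m5⟩) (fun _ => ⟨k6, m6⟩)

/-- At most two rows are visible; if there are two, the position is small. -/
theorem Geo.vis_two {a : Pt (e + 2)} (ha0 : 0 ≤ a 0) :
    (∃ ρ1, ∀ ρ, G.Vis a ρ → ρ = ρ1) ∨
    ((∃ ρ1 ρ2, ∀ ρ, G.Vis a ρ → ρ = ρ1 ∨ ρ = ρ2) ∧ InPl a ∧ a 0 < G.XR ∧ a 1 ≤ G.Yt) := by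
  classical
  have uniq : (∀ ρ ρ', G.Vis a ρ → G.Vis a ρ' → ρ = ρ') → ∃ ρ1, ∀ ρ, G.Vis a ρ → ρ = ρ1 := by
    intro h
    by_cases hex : ∃ ρ, G.Vis a ρ
    · obtain ⟨ρ1, h1⟩ := hex
      exact ⟨ρ1, fun ρ hρ => h ρ ρ1 hρ h1⟩
    · push Not at hex
      exact ⟨.one, fun ρ hρ => absurd hρ (hex ρ)⟩
  by_cases hp : InPl a
  · by_cases hx : ∃ b, a 0 = G.xp b
    · obtain ⟨b0, hb0⟩ := hx
      have hpos := G.xp_pos b0
      have hXR := G.xp_XR b0
      -- all visible rows
      have hall : ∀ ρ, G.Vis a ρ → ρ = .oA 1 b0 ∨ (ρ = .iB 1 b0 ∧ a 1 ≤ G.hgt (.iB 1 b0)) ∨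
          (a 1 = G.hgt ρ ∧ G.hgt (.iB 1 b0) < a 1) := by
        -- rows crossing the line
        have hrow : ∀ ρ, a 1 = G.hgt ρ → G.xs ρ ≤ a 0 →
            (ρ = .iB 1 b0 ∧ a 1 ≤ G.hgt (.iB 1 b0)) ∨
            (a 1 = G.hgt ρ ∧ G.hgt (.iB 1 b0) < a 1) := by
          intro ρ h1 h2
          by_cases hlt : G.hgt (.iB 1 b0) < a 1
          · exact Or.inr ⟨h1, hlt⟩
          · left
            push Not at hlt
            refine ⟨?_, hlt⟩
            cases ρ with
            | ty t => simp only [Geo.xs] at h2; omega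
            | om => simp only [Geo.xs] at h2; omega
            | be => simp only [Geo.xs] at h2; omega
            | oh => simp only [Geo.xs] at h2; omega
            | ov => simp only [Geo.xs] at h2; omega
            | one => simp only [Geo.xs] at h2; omega
            | iB j b =>
              by_cases hj : j = 1
              · subst hj
                simp only [Geo.xs, G.px_one] at h2
                have := G.xp_iB b0 b (by omega)
                exact G.hgt_inj (by omega)
              · have := G.hgt_pair j b hj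
                have := G.iB1_lt_oA b0 j b hj
                omega
            | oA j b =>
              by_cases hj : j = 1
              · subst hj
                have := G.iB1_lt_oA1 b0 b
                omega
              · have := G.iB1_lt_oA b0 j b hj
                omega
        rintro ρ (⟨j, b, rfl, h1⟩ | ⟨j, b, hj, rfl, h1⟩ | ⟨_, h1, h2⟩ | ⟨_, j, b, rfl, h0, h1, h2⟩)
        · by_cases hj1 : j = 1
          · subst hj1
            have := h1 0 ne01
            rw [G.io_zero, G.px_one] at this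
            left
            rw [G.xp_inj (this.symm.trans hb0)]
          · by_cases hj0 : j = 0
            · subst hj0
              have := h1 1 ne10
              rw [G.io_one_ne ne01] at this
              right
              exact hrow _ this (by simp only [Geo.xs, G.px_ne ne01]; omega)
            · exfalso
              have := h1 0 (Ne.symm hj0)
              rw [G.io_zero, G.px_ne hj1] at this
              omega
        · by_cases hj1 : j = 1
          · subst hj1
            have := h1 0 ne01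
            rw [G.io_zero, G.px_one] at this
            right; left
            rw [G.xp_inj (this.symm.trans hb0)]
            have := G.hgt_ge (.iB 1 b0)
            exact ⟨rfl, by omega⟩
          · by_cases hj0 : j = 0
            · subst hj0
              exfalso; omega
            · exfalso
              have := h1 0 (Ne.symm hj0)
              rw [G.io_zero, G.px_ne hj1] at this
              omega
        · exact Or.inr (hrow ρ h1 h2)
        · rw [hb0] at h0
          obtain ⟨rfl, rfl⟩ := G.px_eq_one h0.symm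
          exact Or.inr (Or.inl ⟨rfl, h2⟩)
      by_cases hY : a 1 ≤ G.Yt
      · right
        refine ⟨?_, hp, by omega, hY⟩
        by_cases hlt : G.hgt (.iB 1 b0) < a 1
        · by_cases hρ : ∃ ρ, a 1 = G.hgt ρ
          · obtain ⟨ρs, hs⟩ := hρ
            refine ⟨.oA 1 b0, ρs, fun ρ h => ?_⟩
            rcases hall ρ h with h | ⟨_, h⟩ | ⟨h, _⟩
            · exact Or.inl h
            · omega
            · exact Or.inr (G.hgt_inj (h.symm.trans hs))
          · push Not at hρ
            refine ⟨.oA 1 b0, .oA 1 b0, fun ρ h => ?_⟩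
            rcases hall ρ h with h | ⟨_, h⟩ | ⟨h, _⟩
            · exact Or.inl h
            · omega
            · exact absurd h (hρ ρ)
        · refine ⟨.oA 1 b0, .iB 1 b0, fun ρ h => ?_⟩
          rcases hall ρ h with h | ⟨h, _⟩ | ⟨_, h⟩
          · exact Or.inl h
          · exact Or.inr h
          · exact absurd h hlt
      · left
        refine ⟨.oA 1 b0, fun ρ h => ?_⟩
        rcases hall ρ h with h | ⟨_, h⟩ | ⟨h, _⟩
        · exact h
        · have := G.hgt_lt_Yt (.iB 1 b0); omega
        · have := G.hgt_lt_Yt ρ; omega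
    · push Not at hx
      by_cases h00 : a 0 = 0
      · -- the left boundary
        have hall : ∀ ρ, G.Vis a ρ → (∃ j b, j ≠ 1 ∧ a 1 = G.hgt (.oA j b) ∧
              (ρ = .oA j b ∨ ρ = .iB j b)) ∨ a 1 = G.hgt ρ ∨
            (∃ j b, j ≠ 1 ∧ ρ = .iB j b ∧ G.hgt (.oA j b) ≤ a 1 ∧ a 1 ≤ G.hgt (.oA j b) + 2) := by
          rintro ρ (⟨j, b, rfl, h1⟩ | ⟨j, b, hj, rfl, h1⟩ | ⟨_, h1, h2⟩ |
            ⟨_, j, b, rfl, h0, h1, h2⟩)
          · by_cases hj1 : j = 1
            · subst hj1
              have := h1 0 ne01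
              rw [G.io_zero, G.px_one] at this
              exact absurd this (hx b)
            · left
              have := h1 1 (Ne.symm hj1)
              rw [G.io_one_ne hj1] at this
              exact ⟨j, b, hj1, this, Or.inl rfl⟩
          · by_cases hj1 : j = 1
            · subst hj1
              have := h1 0 ne01
              rw [G.io_zero, G.px_one] at this
              exact absurd this (hx b)
            · left
              have := h1 1 (Ne.symm hj1)
              rw [G.io_one_ne hj1] at this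
              exact ⟨j, b, hj1, this, Or.inr rfl⟩
          · exact Or.inr (Or.inl h1)
          · by_cases hj1 : j = 1
            · subst hj1
              rw [G.px_one] at h0
              exact absurd h0 (hx b)
            · right; right
              simp only [Geo.vs, if_neg hj1] at h1
              have := G.hgt_pair j b hj1
              exact ⟨j, b, hj1, rfl, h1, by omega⟩
        by_cases hO : ∃ j b, j ≠ 1 ∧ a 1 = G.hgt (.oA j b)
        · obtain ⟨j0, b0, hj0, hO⟩ := hO
          right
          refine ⟨⟨.oA j0 b0, .iB j0 b0, fun ρ h => ?_⟩, hp, ?_, ?_⟩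
          · rcases hall ρ h with ⟨j, b, hj, h1, h2⟩ | h1 | ⟨j, b, hj, h1, h2, h3⟩
            · have := G.hgt_inj (h1.symm.trans hO)
              simp only [Row.oA.injEq] at this
              obtain ⟨rfl, rfl⟩ := this
              exact h2
            · exact Or.inl (G.hgt_inj (h1.symm.trans hO))
            · have e1 := G.hgt_even (.oA j b)
              have e2 := G.hgt_even (.oA j0 b0)
              have p1 := G.hgt_pair j b hj
              have n1 : G.hgt (.iB j b) ≠ G.hgt (.oA j0 b0) := fun h => by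
                have := G.hgt_inj h; simp at this
              have : G.hgt (.oA j b) = G.hgt (.oA j0 b0) := by omega
              have := G.hgt_inj this
              simp only [Row.oA.injEq] at this
              obtain ⟨rfl, rfl⟩ := this
              exact Or.inr h1
          · have := G.XR_pos; omega
          · have := G.hgt_lt_Yt (.oA j0 b0); omega
        · left
          push Not at hO
          refine uniq (fun ρ ρ' h h' => ?_)
          have red : ∀ ρ, G.Vis a ρ → a 1 = G.hgt ρ ∨
              (∃ j b, j ≠ 1 ∧ ρ = .iB j b ∧ (a 1 = G.hgt (.oA j b) + 1 ∨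
                a 1 = G.hgt (.oA j b) + 2)) := by
            intro ρ h
            rcases hall ρ h with ⟨j, b, hj, h1, h2⟩ | h1 | ⟨j, b, hj, h1, h2, h3⟩
            · exact absurd h1 (hO j b hj)
            · exact Or.inl h1
            · right
              have := hO j b hj
              exact ⟨j, b, hj, h1, by omega⟩
          rcases red ρ h with h1 | ⟨j, b, hj, rfl, h1⟩
          · rcases red ρ' h' with h1' | ⟨j', b', hj', rfl, h1'⟩
            · exact G.hgt_inj (h1.symm.trans h1')
            · have e1 := G.hgt_even ρ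
              have e2 := G.hgt_even (.oA j' b')
              have p1 := G.hgt_pair j' b' hj'
              exact G.hgt_inj (by omega)
          · rcases red ρ' h' with h1' | ⟨j', b', hj', rfl, h1'⟩
            · have e1 := G.hgt_even ρ'
              have e2 := G.hgt_even (.oA j b)
              have p1 := G.hgt_pair j b hj
              exact G.hgt_inj (by omega)
            · have e1 := G.hgt_even (.oA j b)
              have e2 := G.hgt_even (.oA j' b')
              have p1 := G.hgt_pair j b hj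
              have p2 := G.hgt_pair j' b' hj'
              exact G.hgt_inj (by omega)
      · -- elsewhere only rows are visible
        left
        have red : ∀ ρ, G.Vis a ρ → a 1 = G.hgt ρ := by
          rintro ρ (⟨j, b, rfl, h1⟩ | ⟨j, b, hj, rfl, h1⟩ | ⟨_, h1, h2⟩ |
            ⟨_, j, b, rfl, h0, h1, h2⟩)
          · by_cases hj0 : j = 0
            · subst hj0
              have := h1 1 ne10
              rwa [G.io_one_ne ne01] at this
            · exfalso
              have := h1 0 (Ne.symm hj0)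
              rw [G.io_zero] at this
              by_cases hj1 : j = 1
              · subst hj1
                rw [G.px_one] at this
                exact hx b this
              · rw [G.px_ne hj1] at this
                exact h00 this
          · exfalso
            by_cases hj0 : j = 0
            · subst hj0; exact h00 hj
            · have := h1 0 (Ne.symm hj0)
              rw [G.io_zero] at this
              by_cases hj1 : j = 1
              · subst hj1
                rw [G.px_one] at this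
                exact hx b this
              · rw [G.px_ne hj1] at this
                exact h00 this
          · exact h1
          · exfalso
            by_cases hj1 : j = 1
            · subst hj1
              rw [G.px_one] at h0
              exact hx b h0
            · rw [G.px_ne hj1] at h0
              exact h00 h0
        exact uniq (fun ρ ρ' h h' => G.hgt_inj ((red ρ h).symm.trans (red ρ' h')))
  · -- outside of the plane
    left
    have hp' := hp
    unfold InPl at hp
    push Not at hp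
    obtain ⟨l0, hl0, hl1, hne⟩ := hp
    have red : ∀ ρ, G.Vis a ρ → ∃ b, ρ = .oA l0 b ∧ ∀ l, l ≠ l0 → a l = G.io l0 b l := by
      rintro ρ (⟨j, b, rfl, h1⟩ | ⟨j, b, hj, rfl, h1⟩ | ⟨h, _⟩ | ⟨h, _⟩)
      · by_cases hj : l0 = j
        · subst hj
          exact ⟨b, rfl, h1⟩
        · exfalso
          have := h1 l0 hj
          rw [G.io_inPl j b l0 hl0 hl1] at this
          exact hne this
      · exfalso
        by_cases hj' : l0 = j
        · subst hj'
          exact hne hj
        · have := h1 l0 hj'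
          rw [G.io_inPl j b l0 hl0 hl1] at this
          exact hne this
      · exact absurd h hp'
      · exact absurd h hp'
    refine uniq (fun ρ ρ' h h' => ?_)
    obtain ⟨b, rfl, h1⟩ := red ρ h
    obtain ⟨b', rfl, h1'⟩ := red ρ' h'
    rw [G.io_unique h1 h1']

/-! ### Goodness -/

theorem Geo.nonCol {R : ℤ} (hR : (G.r0 : ℤ) ≤ R) {s : Pt (e + 2) × St e n} (hs : G.Om 3 R s)
    (hnc : ∀ q, ¬ G.IsCol s.1 q) : G.Attain R (fun t => t = s) := by
  obtain ⟨s', a, hs', ha, rfl⟩ := hs
  change ∀ q, ¬ G.IsCol a q at hnc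
  have hs1 : G.Om 1 (R + 1) s' := Geo.Om.pred G (by omega) hs'
  rcases G.vis_two (ha 0).1 with ⟨ρ1, h1⟩ | ⟨⟨ρ1, ρ2, h12⟩, hp, hx, hy⟩
  · refine (G.row1 (R := R + 1) (by omega) hs1 ρ1).step hR ?_
    rintro t ht ⟨ht1, ht2⟩
    refine ⟨a, ha, ?_⟩
    simp only [Geo.ch]
    rw [ht1]
    congr 1
    exact G.vis_congr hnc (fun ρ hρ => by rw [h1 ρ hρ]; exact ht2)
  · by_cases hcol : ∃ q, G.IsCol s'.1 q
    · obtain ⟨q, hq⟩ := hcol
      refine (G.tl (R := R + 1) (by omega) hs' hq a).step hR ?_
      rintro t ht ⟨ht1, ht2⟩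
      refine ⟨a, ha, ?_⟩
      simp only [Geo.ch]
      rw [ht1]
      rcases ht2 with ht2 | ⟨q', hsim, _⟩
      · rw [ht2]
      · congr 1
        have hfar : ∀ (q : Col enc) (l : Fin (e + 2)), 1 < |a l - G.colx q| := by
          intro q l
          by_cases hl0 : l = 0
          · subst hl0
            have := G.colx_XR q
            rw [lt_abs]; omega
          · by_cases hl1 : l = 1
            · subst hl1; exact G.far_low hy q
            · rw [hp l hl0 hl1]
              exact G.far_low (by have := G.Yt_pos; omega) q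
        refine (G.cell_transfer hR hsim ha (hfar q) (hfar q') (Or.inr ?_)).symm
        have := G.colx_XR q
        have := G.colx_XR q'
        omega
    · push Not at hcol
      refine (G.pair (R := R + 1) (by omega) hs' hcol ρ1 ρ2).step hR ?_
      rintro t ht ⟨ht1, ht2, ht3⟩
      refine ⟨a, ha, ?_⟩
      simp only [Geo.ch]
      rw [ht1]
      congr 1
      refine G.vis_congr hnc (fun ρ hρ => ?_)
      rcases h12 ρ hρ with h | h
      · rw [h]; exact ht2
      · rw [h]; exact ht3

theorem Geo.colGood {R : ℤ} (hR : (G.r0 : ℤ) ≤ R) {s : Pt (e + 2) × St e n} (hs : G.Om 4 R s)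
    {q : Col enc} (hq : G.IsCol s.1 q) : G.Attain R (fun t => t = s) := by
  classical
  obtain ⟨s', a, hs', ha, rfl⟩ := hs
  change G.IsCol a q at hq
  have hs2 : G.Om 2 (R + 1) s' := Geo.Om.pred G (by omega) hs'
  have hs1 : G.Om 1 (R + 1) s' := Geo.Om.pred G (by omega) hs2
  have hok : G.OkZ (R + 1) s' := Geo.Om.ok G (by omega) hs'
  obtain ⟨ρ0, hρ0⟩ : ∃ ρ0 : Row e n, ∀ ρ, (a 1 = G.hgt ρ ∨ a 1 = G.hgt ρ + 1) → ρ = ρ0 := by
    by_cases hN : ∃ ρ, a 1 = G.hgt ρ ∨ a 1 = G.hgt ρ + 1
    · obtain ⟨ρ1, h1⟩ := hN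
      exact ⟨ρ1, fun ρ hρ => G.near_row_unique hρ h1⟩
    · push Not at hN
      exact ⟨.one, fun ρ hρ => by rcases hρ with h | h; exacts [absurd h (hN ρ).1, absurd h (hN ρ).2]⟩
  obtain ⟨hp, h0, h1, h2⟩ := id hq
  set c := code enc s'.2 with hcdef
  by_cases hD : ∀ θ : St e n, Rules enc θ → θ.typ = G.Ty (R + 1) s'.1 →
      code enc θ ρ0 = c ρ0 →
      ((∀ ρ, G.hgt ρ ≤ a 1 - 1 → code enc θ ρ = q.1.1 ρ) ↔
        (∀ ρ, G.hgt ρ ≤ a 1 - 1 → c ρ = q.1.1 ρ))
  · refine (G.row1 (R := R + 1) (by omega) hs1 ρ0).step hR ?_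
    rintro t ht ⟨ht1, ht2⟩
    have hP := hD t.2 ht.2.1 (by rw [ht.2.2, ht1]) ht2
    refine ⟨a, ha, ?_⟩
    simp only [Geo.ch]
    rw [ht1]
    congr 1
    have hc : ∀ ρ, (a 1 = G.hgt ρ ∨ a 1 = G.hgt ρ + 1) → code enc t.2 ρ = c ρ := by
      intro ρ hρ
      rw [hρ0 ρ hρ]; exact ht2
    refine G.cell_col_congr hq (fun ρ hρ => hc ρ (Or.inl hρ)) ?_ ?_
    · rw [G.col_VV hp h0, G.col_VV hp h0]
      constructor
      · rintro ⟨g1, g2, g3⟩
        refine ⟨g1, g2, fun ρ hρ => ?_⟩
        by_cases hρ' : G.hgt ρ ≤ a 1 - 1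
        · exact hP.mp (fun ρ' h' => g3 ρ' (by omega)) ρ hρ'
        · have heq : a 1 = G.hgt ρ := by omega
          change c ρ = _
          rw [← hc ρ (Or.inl heq)]
          exact g3 ρ hρ
      · rintro ⟨g1, g2, g3⟩
        refine ⟨g1, g2, fun ρ hρ => ?_⟩
        by_cases hρ' : G.hgt ρ ≤ a 1 - 1
        · exact hP.mpr (fun ρ' h' => g3 ρ' (by omega)) ρ hρ'
        · have heq : a 1 = G.hgt ρ := by omega
          rw [hc ρ (Or.inl heq)]
          exact g3 ρ hρ
    · have s1 := sub_ev_self a 1
      have s2 := sub_ev_ne a (ne01 (e := e))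
      rw [G.col_VV hp.sub1 (s2.trans h0), G.col_VV hp.sub1 (s2.trans h0), s1]
      rw [hP]
  · push Not at hD
    obtain ⟨θ, hθ, hθt, _, hne⟩ := hD
    -- the type rows of `q` are those of the label
    have hall : ∀ t', c (.ty t') = q.1.1 (.ty t') := by
      have hty : ∀ t', code enc θ (.ty t') = c (.ty t') := by
        intro t'
        simp only [hcdef, code]
        rw [hok.2.2, hθt]
      have aux : ∀ c0 c1 : Row e n → Bool, (∀ t', c0 (.ty t') = c1 (.ty t')) →
          (∀ ρ, G.hgt ρ ≤ a 1 - 1 → c0 ρ = q.1.1 ρ) →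
          (¬ ∀ ρ, G.hgt ρ ≤ a 1 - 1 → c1 ρ = q.1.1 ρ) → ∀ t', c0 (.ty t') = q.1.1 (.ty t') := by
        intro c0 c1 hcc hm hm' t'
        push Not at hm'
        obtain ⟨ρm, k1, k2⟩ := hm'
        have h3 : ∀ t', ρm ≠ .ty t' := by
          rintro t' rfl
          exact k2 (by rw [← hcc, hm _ k1])
        exact hm _ (by have := G.hgt_ty t' ρm h3; omega)
      intro t'
      by_cases hm : ∀ ρ, G.hgt ρ ≤ a 1 - 1 → c ρ = q.1.1 ρ
      · refine aux c (code enc θ) (fun t' => (hty t').symm) hm ?_ t'
        intro hm'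
        rcases hne with ⟨_, k⟩ | ⟨k, _⟩
        · obtain ⟨ρ, k1, k2⟩ := k
          exact k2 (hm ρ k1)
        · obtain ⟨ρ, k1, k2⟩ := k
          exact k2 (hm' ρ k1)
      · rw [← hty]
        refine aux (code enc θ) c hty ?_ hm t'
        by_contra hm'
        rcases hne with ⟨k, _⟩ | ⟨_, k⟩
        · exact hm' k
        · exact hm k
    have hnear : ¬ G.Near s'.1 q := by
      intro hnear
      refine G.mu0_ne_of_near hnear ?_
      funext p
      have := hall (.mu p)
      simp only [muOf]
      rw [← this]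
      simp only [hcdef, code, hok.2.2, tbit, Geo.Ty]
    by_cases hcol : ∃ q1, G.IsCol s'.1 q1
    · obtain ⟨q1, hq1⟩ := hcol
      refine (G.tl (R := R + 1) (by omega) hs2 hq1 a).step hR ?_
      rintro t ht ⟨ht1, ht2⟩
      refine ⟨a, ha, ?_⟩
      simp only [Geo.ch]
      rw [ht1]
      rcases ht2 with ht2 | ⟨q', hsim, hx⟩
      · rw [ht2]
      · congr 1
        refine (G.cell_transfer hR hsim ha ?_ hx (Or.inl ⟨1, ne10, by omega⟩)).symm
        intro l
        by_cases hl0 : l = 0
        · subst hl0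
          rw [h0]
          have hA0 := hq1.2.1
          have : ¬ |s'.1 0 - G.colx q| ≤ 1 := fun h => hnear ⟨0, h⟩
          rw [hA0, abs_sub_comm] at this
          omega
        · by_cases hl1 : l = 1
          · subst hl1; exact G.far_low h2 q1
          · rw [hp l hl0 hl1]
            exact G.far_low (by have := G.Yt_pos; omega) q1
    · push Not at hcol
      refine (G.nonCol (R := R + 1) (by omega) hs' hcol).step hR ?_
      rintro t ht rfl
      exact ⟨a, ha, rfl⟩

/-- Fourfold descendants of admissible states occur below every admissible state. -/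
theorem Geo.good {r : ℤ} (hr : (G.r0 : ℤ) ≤ r) (s : Pt (e + 2) × St e n)
    (hs : G.OkZ (r + 4) s) (t : Pt (e + 2) × St e n) (ht : G.Chain r 4 s t) :
    ∃ M : ℕ, ∀ s', G.OkZ (r + M) s' → G.Chain r M s' t := by
  have hom : G.Om 4 r t := G.om_of_chain hr 4 s t (by simpa using hs) ht
  have hat : G.Attain r (fun t' => t' = t) := by
    by_cases hcol : ∃ q, G.IsCol t.1 q
    · obtain ⟨q, hq⟩ := hcol
      exact G.colGood hr hom hq
    · push Not at hcol
      exact G.nonCol hr (Geo.Om.pred G hr hom) hcol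
  obtain ⟨M, hM⟩ := hat
  refine ⟨M, fun s' hs' => ?_⟩
  obtain ⟨t', h1, _, rfl⟩ := hM s' hs'
  exact h1

end Pool.Agent.Lib.P05dae2
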