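import Pool.Agent.Lib.P05dae2.BEdge

/-!
# The state of a cell determines its block and one more layer (MP_05dae2_an)
-/

namespace Pool.Agent.Lib.P05dae2

variable {e n : ℕ} {enc : Kind e n → Fin n → Bool} (G : Geo enc)

theorem HExt.XZ_nonneg : 0 ≤ G.XZ := by
  have := G.XR_pos
  have := G.XR_XZ
  omega

theorem HExt.HH_far {c : Row e n → Bool} {a : Pt (e + 2)} {l : Fin (e + 2)}
    (hl : G.XZ < a l) : ¬ G.HH c a := by
  have h0 := HExt.XZ_nonneg G
  rintro ⟨hp, ρ, h1, _, h3, _⟩
  by_cases hl0 : l = 0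
  · subst hl0; omega
  · by_cases hl1 : l = 1
    · subst hl1
      have := G.hgt_lt_Yt ρ
      have := G.Yt_XZ
      omega
    · have := hp l hl0 hl1
      omega

theorem HExt.VV_far {c : Row e n → Bool} {a : Pt (e + 2)} {l : Fin (e + 2)}
    (hl : G.XZ < a l) : ¬ G.VV c a := by
  have h0 := HExt.XZ_nonneg G
  have hY := G.Yt_XZ
  have hX := G.XR_XZ
  rintro ⟨hp, h⟩
  by_cases hl0 : l = 0
  · subst hl0
    rcases h with ⟨j, b, h1, _⟩ | ⟨q, h1, _⟩
    · have := G.px_lt_XR j b
      omega
    · have := G.colx_XZ q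
      omega
  · by_cases hl1 : l = 1
    · subst hl1
      rcases h with ⟨j, b, _, _, h1, _⟩ | ⟨q, _, _, h1, _⟩
      · have := G.hgt_lt_Yt (.iB j b)
        omega
      · omega
    · have := hp l hl0 hl1
      omega

theorem HExt.io_le (j : Fin (e + 2)) (b : EB e n) (l : Fin (e + 2)) : G.io j b l ≤ G.XZ :=
  (G.KAt_lt (Geo.KAt.port j b rfl) l).2

theorem HExt.cell_eq {r : ℤ} (hr : (G.r0 : ℤ) ≤ r) (A : Pt (e + 2)) {J : Finset (Fin (e + 2))}
    (hJ : J.Nonempty) {a : Pt (e + 2)} (haJ : ∀ l ∈ J, a l = r - 1) {c c' : Row e n → Bool}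
    (hc : ∀ j, J = {j} → ∀ b, c (.oA j b) = c' (.oA j b)) :
    G.cell r A c a = G.cell r A c' a := by
  have h0 := HExt.XZ_nonneg G
  have hX := G.XZ_r0
  obtain ⟨l, hl⟩ := hJ
  have hal := haJ l hl
  have hfar : ∀ j : Fin (e + 2), G.XZ < (a - ev j) l := by
    intro j
    simp only [Pi.sub_apply, ev]
    split_ifs <;> omega
  apply G.cell_congr
  · intro j
    unfold Geo.WW
    by_cases hJj : J = {j}
    · constructor
      · rintro ⟨b, h1, h2⟩
        exact ⟨b, h1, by rw [← hc j hJj b]; exact h2⟩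
      · rintro ⟨b, h1, h2⟩
        exact ⟨b, h1, by rw [hc j hJj b]; exact h2⟩
    · obtain ⟨l', hl', hne⟩ : ∃ l' ∈ J, l' ≠ j := by
        by_contra hcon
        push Not at hcon
        apply hJj
        ext x
        rw [Finset.mem_singleton]
        constructor
        · intro hx; exact hcon x hx
        · rintro rfl
          rw [← hcon l hl]; exact hl
      have hal' := haJ l' hl'
      constructor
      · rintro ⟨b, h1, _⟩
        have := h1 l' hne
        have := HExt.io_le G j b l'
        omega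
      · rintro ⟨b, h1, _⟩
        have := h1 l' hne
        have := HExt.io_le G j b l'
        omega
  · exact iff_of_false (HExt.HH_far G (l := l) (by omega)) (HExt.HH_far G (l := l) (by omega))
  · exact iff_of_false (HExt.VV_far G (l := l) (by omega)) (HExt.VV_far G (l := l) (by omega))
  · intro j hj
    have hne : l ≠ j := by
      rintro rfl
      omega
    unfold Geo.WI
    constructor
    · rintro ⟨b, h1, _⟩
      have := h1 l hne
      have := HExt.io_le G j b l
      omega
    · rintro ⟨b, h1, _⟩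
      have := h1 l hne
      have := HExt.io_le G j b l
      omega
  · intro _
    exact iff_of_false (HExt.HH_far G (hfar 0)) (HExt.HH_far G (hfar 0))
  · intro _
    exact iff_of_false (HExt.VV_far G (hfar 1)) (HExt.VV_far G (hfar 1))

theorem HExt.lab_adj {k : ℕ} {j : Fin (e + 2)} {s t s' t' : G.SL k} (h : G.AdjL k j s t)
    (h' : G.AdjL k j s' t') (ht : G.lab t = G.lab t') : G.lab s = G.lab s' := by
  funext l
  have h1 := h.1 l
  have h2 := h'.1 l
  rw [ht] at h1
  by_cases hl : l = j
  · rw [if_pos hl] at h1 h2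
    have h3 := BEdge.lab_inB G k s l
    have h4 := BEdge.lab_inB G k s' l
    have h5 : (G.lab s l + 1) % G.rr k = (G.lab s' l + 1) % G.rr k := by rw [← h1, ← h2]
    rcases lt_or_ge (G.lab s l + 1) (G.rr k) with h6 | h6
    · rw [Int.emod_eq_of_lt (by omega) h6] at h5
      rcases lt_or_ge (G.lab s' l + 1) (G.rr k) with h7 | h7
      · rw [Int.emod_eq_of_lt (by omega) h7] at h5
        omega
      · have : G.lab s' l + 1 = G.rr k := by omega
        rw [this, Int.emod_self] at h5
        omega
    · have h8 : G.lab s l + 1 = G.rr k := by omega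
      rw [h8, Int.emod_self] at h5
      rcases lt_or_ge (G.lab s' l + 1) (G.rr k) with h7 | h7
      · rw [Int.emod_eq_of_lt (by omega) h7] at h5
        omega
      · omega
  · rw [if_neg hl] at h1 h2
    rw [← h1, ← h2]

theorem HExt.lab_shift {k : ℕ} {y y' : Cfg (e + 2) (G.SL k)}
    (hy : y ∈ NN (G.OkL k) (G.AdjL k)) (hy' : y' ∈ NN (G.OkL k) (G.AdjL k))
    {u u' : Pt (e + 2)} (h : y u = y' u') (J : Finset (Fin (e + 2))) :
    G.lab (y fun l => u l - if l ∈ J then 1 else 0) =
      G.lab (y' fun l => u' l - if l ∈ J then 1 else 0) := by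
  induction J using Finset.induction_on with
  | empty => simp [h]
  | insert j J hj ih =>
      have e1 : ∀ u : Pt (e + 2), (fun l => u l - if l ∈ insert j J then 1 else 0) =
          (fun l => u l - if l ∈ J then 1 else 0) - ev j := by
        intro u
        funext l
        simp only [Pi.sub_apply, ev, Finset.mem_insert]
        by_cases hl : l = j
        · subst hl
          simp [hj]
        · simp [hl]
      rw [e1, e1]
      exact HExt.lab_adj G (hy.2 _ j) (hy'.2 _ j) ih

theorem Geo.hext (k : ℕ) (y : Cfg (e + 2) (G.SL (k + 1)))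
    (hy : y ∈ NN (G.OkL (k + 1)) (G.AdjL (k + 1))) (y' : Cfg (e + 2) (G.SL (k + 1)))
    (hy' : y' ∈ NN (G.OkL (k + 1)) (G.AdjL (k + 1))) (u u' : Pt (e + 2)) (h : y u = y' u')
    (i : Pt (e + 2)) (hi : ∀ j, -1 ≤ i j ∧ i j < ((G.r0 + k : ℕ) : ℤ)) :
    SubC (G.r0 + k) (G.subL k) y (fun j => ((G.r0 + k : ℕ) : ℤ) * u j + i j) =
      SubC (G.r0 + k) (G.subL k) y' (fun j => ((G.r0 + k : ℕ) : ℤ) * u' j + i j) := by
  have hr : ((G.r0 + k : ℕ) : ℤ) = G.rr k := rfl
  have hpos := BEdge.rr_pos G k
  have hr0 := BEdge.r0_le G k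
  unfold SubC
  rw [hr] at hi ⊢
  classical
  set J : Finset (Fin (e + 2)) := Finset.univ.filter (fun j => i j = -1) with hJ
  have hJm : ∀ l, l ∈ J ↔ i l = -1 := by intro l; simp [hJ]
  have hdiv : ∀ u : Pt (e + 2), (fun l => (G.rr k * u l + i l) / G.rr k) =
      fun l => u l - if l ∈ J then 1 else 0 := by
    intro u
    funext l
    rw [add_comm, Int.add_mul_ediv_left _ _ hpos.ne']
    have h1 := hi l
    by_cases hl : i l = -1
    · rw [if_pos ((hJm l).2 hl), hl]
      have : (-1 : ℤ) / G.rr k = -1 := by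
        rw [Int.ediv_eq_iff_of_pos hpos]
        constructor <;> omega
      omega
    · rw [if_neg (fun h => hl ((hJm l).1 h)), Int.ediv_eq_zero_of_lt (by omega) h1.2]
      omega
  have hmod : ∀ u : Pt (e + 2), (fun l => (G.rr k * u l + i l) % G.rr k) =
      fun l => if l ∈ J then G.rr k - 1 else i l := by
    intro u
    funext l
    rw [Int.mul_add_emod_self_left]
    have h1 := hi l
    by_cases hl : i l = -1
    · rw [if_pos ((hJm l).2 hl), hl]
      have h2 : (-1 : ℤ) % G.rr k = (G.rr k - 1) % G.rr k := by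
        rw [Int.emod_eq_emod_iff_emod_sub_eq_zero]
        have : (-1 : ℤ) - (G.rr k - 1) = - G.rr k := by ring
        rw [this]
        simp
      rw [h2, Int.emod_eq_of_lt (by omega) (by omega)]
    · rw [if_neg (fun h => hl ((hJm l).1 h)), Int.emod_eq_of_lt (by omega) h1.2]
  simp only [hdiv, hmod]
  rcases J.eq_empty_or_nonempty with hJe | hJn
  · simp [hJe, h]
  · have hlab := HExt.lab_shift G hy hy' h J
    refine Prod.ext rfl ?_
    show G.cell (G.rr k) _ _ _ = G.cell (G.rr k) _ _ _
    rw [hlab]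
    apply HExt.cell_eq G hr0 _ hJn
    · intro l hl
      simp [hl]
    · intro j hj b
      have e1 : ∀ u : Pt (e + 2), (fun l => u l - if l ∈ J then 1 else 0) = u - ev j := by
        intro u
        funext l
        rw [hj]
        simp [ev]
      rw [e1, e1]
      have h2 := (hy.2 u j).2
      have h3 := (hy'.2 u' j).2
      simp only [code]
      rw [← h2, ← h3, h]

end Pool.Agent.Lib.P05dae2
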