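import Mathlib
import Pool.Agent.Lib.P05dae2.Compact
import Pool.Agent.Lib.P05dae2.Ent

/-!
# The abstract tower theorem (module Tower of MP_05dae2_an)
-/

namespace Pool.Agent.Lib.P05dae2

open Filter

namespace TowerAux

variable {d : ℕ} {S : ℕ → Type} (r : ℕ → ℕ) (sub : ∀ k, S (k + 1) → Pt d → S k)

/-- Sides of the level `k` cells. -/
def Ls : ℕ → ℕ
  | 0 => 1
  | (k + 1) => r k * Ls k

/-- Substitution down to level `0`. -/
def Dn : ∀ k, Cfg d (S k) → Cfg d (S 0)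
  | 0, y => y
  | (k + 1), y => Dn k (SubC (r k) (sub k) y)

/-- `M`-fold substitution. -/
def SubM (k : ℕ) : ∀ M, Cfg d (S (k + M)) → Cfg d (S k)
  | 0, y => y
  | (M + 1), y => SubM k M (SubC (r (k + M)) (sub (k + M)) y)

variable {r} {sub}

theorem Ls_pos (hr : ∀ k, 2 ≤ r k) (k : ℕ) : 0 < Ls r k := by
  induction k with
  | zero => exact Nat.one_pos
  | succ k ih => exact Nat.mul_pos (by have := hr k; omega) ih

theorem two_pow_le (hr : ∀ k, 2 ≤ r k) (k : ℕ) : 2 ^ k ≤ Ls r k := by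
  induction k with
  | zero => exact le_rfl
  | succ k ih =>
    rw [pow_succ, mul_comm]
    exact Nat.mul_le_mul (hr k) ih

theorem dm {R u a : ℤ} (h0 : 0 ≤ a) (h1 : a < R) :
    (R * u + a) / R = u ∧ (R * u + a) % R = a := by
  have hr : R ≠ 0 := by omega
  constructor
  · rw [add_comm, Int.add_mul_ediv_left _ _ hr, Int.ediv_eq_zero_of_lt h0 h1, zero_add]
  · rw [add_comm, Int.add_mul_emod_self_left, Int.emod_eq_of_lt h0 h1]

theorem subC_block {T T' : Type} (R : ℕ) (sb : T → Pt d → T') (y : Cfg d T) (u i : Pt d)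
    (hi : ∀ j, 0 ≤ i j ∧ i j < (R : ℤ)) :
    SubC R sb y (fun j => (R : ℤ) * u j + i j) = sb (y u) i := by
  unfold SubC
  have h1 : (fun j => ((R : ℤ) * u j + i j) / (R : ℤ)) = u :=
    funext fun j => (dm (hi j).1 (hi j).2).1
  have h2 : (fun j => ((R : ℤ) * u j + i j) % (R : ℤ)) = i :=
    funext fun j => (dm (hi j).1 (hi j).2).2
  simp only [h1, h2]

theorem split_pt {L R : ℕ} (_hL : 0 < L) (u i : Pt d) :
    (fun j => ((R * L : ℕ) : ℤ) * u j + i j) =
      fun j => (L : ℤ) * ((fun j => (R : ℤ) * u j + i j / (L : ℤ)) j) + i j % (L : ℤ) := by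
  funext j
  have := Int.mul_ediv_add_emod (i j) (L : ℤ)
  push_cast
  linarith [this]

/-- The content of the level `0` cells of a level `k` cell depends only on its state. -/
theorem Dn_cell (hr : ∀ k, 2 ≤ r k) : ∀ (k : ℕ) (y y' : Cfg d (S k)) (u u' : Pt d),
    y u = y' u' → ∀ i : Pt d, (∀ j, 0 ≤ i j ∧ i j < (Ls r k : ℤ)) →
      Dn r sub k y (fun j => (Ls r k : ℤ) * u j + i j) =
        Dn r sub k y' (fun j => (Ls r k : ℤ) * u' j + i j) := by
  intro k
  induction k with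
  | zero =>
    intro y y' u u' h i hi
    have hi0 : ∀ j, i j = 0 := fun j => by
      have := hi j
      simp only [Ls, Nat.cast_one] at this
      omega
    simp only [Dn, Ls, Nat.cast_one, one_mul, hi0, add_zero]
    exact h
  | succ k ih =>
    intro y y' u u' h i hi
    have hL := Ls_pos hr k
    have hL' : (0 : ℤ) < (Ls r k : ℤ) := by exact_mod_cast hL
    simp only [Dn, Ls]
    rw [split_pt hL u i, split_pt hL u' i]
    refine ih _ _ _ _ ?_ (fun j => i j % (Ls r k : ℤ)) (fun j =>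
      ⟨Int.emod_nonneg _ hL'.ne', Int.emod_lt_of_pos _ hL'⟩)
    have hi1 : ∀ j, 0 ≤ i j / (Ls r k : ℤ) ∧ i j / (Ls r k : ℤ) < (r k : ℤ) := by
      intro j
      have := hi j
      simp only [Ls] at this
      push_cast at this
      exact ⟨Int.ediv_nonneg this.1 hL'.le, Int.ediv_lt_of_lt_mul hL' this.2⟩
    rw [subC_block (r k) (sub k) y u _ hi1, subC_block (r k) (sub k) y' u' _ hi1, h]

theorem Dn_pt (hr : ∀ k, 2 ≤ r k) (k : ℕ) (y y' : Cfg d (S k)) (p : Pt d)
    (h : y (fun j => p j / (Ls r k : ℤ)) = y' (fun j => p j / (Ls r k : ℤ))) :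
    Dn r sub k y p = Dn r sub k y' p := by
  have hL := Ls_pos hr k
  have hL' : (0 : ℤ) < (Ls r k : ℤ) := by exact_mod_cast hL
  have hp : p = fun j => (Ls r k : ℤ) * ((fun j => p j / (Ls r k : ℤ)) j) +
      (fun j => p j % (Ls r k : ℤ)) j := by
    funext j
    have := Int.mul_ediv_add_emod (p j) (Ls r k : ℤ)
    simp only
    linarith
  rw [hp]
  exact Dn_cell hr k y y' _ _ h _ (fun j =>
      ⟨Int.emod_nonneg _ hL'.ne', Int.emod_lt_of_pos _ hL'⟩)

theorem subC_shift {T T' : Type} {R : ℕ} (hR : 0 < R) (sb : T → Pt d → T') (y : Cfg d T)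
    (v : Pt d) : SubC R sb (fun p => y (p + v)) =
      fun p => SubC R sb y (p + (fun j => (R : ℤ) * v j)) := by
  have hR' : (R : ℤ) ≠ 0 := by exact_mod_cast hR.ne'
  funext p
  have e1 : (fun j => (p + (fun j => (R : ℤ) * v j)) j / (R : ℤ)) =
      (fun j => p j / (R : ℤ)) + v := by
    funext j
    simp only [Pi.add_apply]
    rw [Int.add_mul_ediv_left _ _ hR']
  have e2 : (fun j => (p + (fun j => (R : ℤ) * v j)) j % (R : ℤ)) =
      (fun j => p j % (R : ℤ)) := by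
    funext j
    simp only [Pi.add_apply]
    rw [Int.add_mul_emod_self_left]
  unfold SubC
  rw [e1, e2]

theorem Dn_shift (hr : ∀ k, 2 ≤ r k) : ∀ (k : ℕ) (y : Cfg d (S k)) (v : Pt d),
    Dn r sub k (fun p => y (p + v)) =
      fun p => Dn r sub k y (p + (fun j => (Ls r k : ℤ) * v j)) := by
  intro k
  induction k with
  | zero =>
    intro y v
    funext p
    simp only [Dn, Ls, Nat.cast_one, one_mul]
  | succ k ih =>
    intro y v
    simp only [Dn]
    rw [subC_shift (by have := hr k; omega)]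
    rw [ih]
    funext p
    congr 1
    funext j
    simp only [Pi.add_apply, Ls]
    push_cast
    ring

theorem Dn_SubM (k : ℕ) : ∀ (M : ℕ) (y : Cfg d (S (k + M))),
    Dn r sub (k + M) y = Dn r sub k (SubM r sub k M y) := by
  intro M
  induction M with
  | zero => intro y; rfl
  | succ M ih => intro y; exact ih _

theorem desc_occurs (k : ℕ) : ∀ (M : ℕ) (y : Cfg d (S (k + M))) (u : Pt d) (t : S k),
    Desc r sub k M (y u) t → ∃ p, SubM r sub k M y p = t := by
  intro M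
  induction M with
  | zero =>
    intro y u t h
    have h' : t = y u := h
    exact ⟨u, h'.symm⟩
  | succ M ih =>
    intro y u t h
    obtain ⟨i, hi, h⟩ := h
    refine ih (SubC (r (k + M)) (sub (k + M)) y) (fun j => (r (k + M) : ℤ) * u j + i j) t ?_
    rw [subC_block _ _ _ _ _ hi]
    exact h

theorem occurs_desc (hr : ∀ k, 2 ≤ r k) (k : ℕ) : ∀ (M : ℕ) (y : Cfg d (S (k + M))) (p : Pt d),
    ∃ u, Desc r sub k M (y u) (SubM r sub k M y p) := by
  intro M
  induction M with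
  | zero => intro y p; exact ⟨p, rfl⟩
  | succ M ih =>
    intro y p
    obtain ⟨u, hu⟩ := ih (SubC (r (k + M)) (sub (k + M)) y) p
    have hpos : (0 : ℤ) < (r (k + M) : ℤ) := by have := hr (k + M); omega
    exact ⟨fun j => u j / (r (k + M) : ℤ), fun j => u j % (r (k + M) : ℤ), fun j =>
      ⟨Int.emod_nonneg _ hpos.ne', Int.emod_lt_of_pos _ hpos⟩, hu⟩

theorem nn_shift {T : Type} {Ok : T → Prop} {Adj : Fin d → T → T → Prop}
    {x : Cfg d T} (hx : x ∈ NN Ok Adj) (v : Pt d) : (fun p => x (p + v)) ∈ NN Ok Adj := by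
  refine ⟨fun p => hx.1 _, fun p j => ?_⟩
  have := hx.2 (p + v) j
  have e1 : p + v - ev j = p - ev j + v := by abel
  rw [e1] at this
  exact this

theorem sft_shift {T : Type} {𝓕 : Set (Pat d T)} {x : Cfg d T}
    (hx : x ∈ {x | ∀ p ∈ 𝓕, ∀ v : Pt d, ¬ Occurs p v x}) (v : Pt d) :
    (fun p => x (p + v)) ∈ {x | ∀ p ∈ 𝓕, ∀ v : Pt d, ¬ Occurs p v x} := by
  intro q hq w h
  refine hx q hq (w + v) (fun u => ?_)
  have := h u
  have e1 : w + v + (u : Pt d) = w + (u : Pt d) + v := by abel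
  rw [e1]; exact this

section

variable [∀ k, Finite (S k)] (hr : ∀ k, 2 ≤ r k)
    {Ok : ∀ k, S k → Prop} {Adj : ∀ k, Fin d → S k → S k → Prop}

/-- The step of the tower: desubstitution of a closed invariant set. -/
theorem step_nonempty (hr : ∀ k, 2 ≤ r k)
    (hdesub : ∀ k, ∀ x ∈ NN (Ok k) (Adj k), ∀ N : ℕ, ∃ t : Pt d,
      ∃ y ∈ NN (Ok (k + 1)) (Adj (k + 1)), ∀ u : Pt d, (∀ j, |u j| ≤ (N : ℤ)) →
        ∀ i : Pt d, (∀ j, 0 ≤ i j ∧ i j < (r k : ℤ)) →
          x (fun j => t j + ((r k : ℤ) * u j + i j)) = sub k (y u) i)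
    (𝓕 : Set (Pat d (S 0))) (k : ℕ)
    (h : ∃ x ∈ NN (Ok k) (Adj k), ∀ p ∈ 𝓕, ∀ v : Pt d, ¬ Occurs p v (Dn r sub k x)) :
    ∃ y ∈ NN (Ok (k + 1)) (Adj (k + 1)), ∀ p ∈ 𝓕, ∀ v : Pt d,
      ¬ Occurs p v (Dn r sub (k + 1) y) := by
  classical
  obtain ⟨x, hx, hxB⟩ := h
  -- index type of the local conditions
  let ι : Type := (Pt d) ⊕ (Pt d × Fin d) ⊕ (𝓕 × Pt d) ⊕ (Pt d) ⊕ (Pt d × Fin d) ⊕ (Pt d × Pt d)
  let Q : ι → Cfg d (S k × S (k + 1)) → Prop := fun i z =>
    match i with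
    | .inl p => Ok k (z p).1
    | .inr (.inl (p, j)) => Adj k j (z (p - ev j)).1 (z p).1
    | .inr (.inr (.inl (q, v))) => ¬ Occurs (q : Pat d (S 0)) v (Dn r sub k (fun p => (z p).1))
    | .inr (.inr (.inr (.inl p))) => Ok (k + 1) (z p).2
    | .inr (.inr (.inr (.inr (.inl (p, j))))) => Adj (k + 1) j (z (p - ev j)).2 (z p).2
    | .inr (.inr (.inr (.inr (.inr (u, i))))) => (∀ j, 0 ≤ i j ∧ i j < (r k : ℤ)) →
        (z (fun j => (r k : ℤ) * u j + i j)).1 = sub k (z u).2 i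
  have hloc : ∀ i, ∃ F : Finset (Pt d), ∀ z z' : Cfg d (S k × S (k + 1)),
      (∀ p ∈ F, z p = z' p) → Q i z → Q i z' := by
    rintro (p | ⟨p, j⟩ | ⟨q, v⟩ | p | ⟨p, j⟩ | ⟨u, i⟩)
    · refine ⟨{p}, fun z z' h => ?_⟩
      have := h p (by simp)
      simp only [Q, this]
      exact id
    · refine ⟨{p, p - ev j}, fun z z' h => ?_⟩
      have h1 := h p (by simp)
      have h2 := h (p - ev j) (by simp)
      simp only [Q, h1, h2]
      exact id
    · refine ⟨(q : Pat d (S 0)).1.image (fun u => fun j => (v + u) j / (Ls r k : ℤ)),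
        fun z z' h hQ hocc => hQ (fun u => ?_)⟩
      rw [← hocc u]
      refine Dn_pt hr k _ _ _ ?_
      have := h (fun j => (v + (u : Pt d)) j / (Ls r k : ℤ))
        (Finset.mem_image.mpr ⟨u, u.2, rfl⟩)
      simp only [this]
    · refine ⟨{p}, fun z z' h => ?_⟩
      have := h p (by simp)
      simp only [Q, this]
      exact id
    · refine ⟨{p, p - ev j}, fun z z' h => ?_⟩
      have h1 := h p (by simp)
      have h2 := h (p - ev j) (by simp)
      simp only [Q, h1, h2]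
      exact id
    · refine ⟨{u, fun j => (r k : ℤ) * u j + i j}, fun z z' h => ?_⟩
      have h1 := h u (by simp)
      have h2 := h (fun j => (r k : ℤ) * u j + i j) (by simp)
      simp only [Q, h1, h2]
      exact id
  let bound : ι → ℕ := fun i =>
    match i with
    | .inl _ => 0
    | .inr (.inl _) => 0
    | .inr (.inr (.inl _)) => 0
    | .inr (.inr (.inr (.inl _))) => 0
    | .inr (.inr (.inr (.inr (.inl _)))) => 0
    | .inr (.inr (.inr (.inr (.inr (u, _))))) => ∑ j, (u j).natAbs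
  have hfin : ∀ I : Finset ι, ∃ z, ∀ i ∈ I, Q i z := by
    intro I
    obtain ⟨t, y, hy, hxy⟩ := hdesub k x hx (I.sup bound)
    refine ⟨fun p => (x (p + t), y p), ?_⟩
    have hxt := nn_shift hx t
    rintro (p | ⟨p, j⟩ | ⟨q, v⟩ | p | ⟨p, j⟩ | ⟨u, i⟩) hi
    · exact hxt.1 p
    · exact hxt.2 p j
    · simp only [Q]
      intro hocc
      rw [Dn_shift hr] at hocc
      refine hxB q q.2 (v + (fun j => (Ls r k : ℤ) * t j)) (fun u => ?_)
      rw [← hocc u]
      congr 1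
      abel
    · exact hy.1 p
    · exact hy.2 p j
    · simp only [Q]
      intro hib
      have hb : bound (.inr (.inr (.inr (.inr (.inr (u, i)))))) ≤ I.sup bound :=
        Finset.le_sup (f := bound) hi
      rw [← hxy u (fun j => ?_) i hib]
      · congr 1
        funext j
        simp only [Pi.add_apply]
        ring
      · have h1 : (u j).natAbs ≤ ∑ j, (u j).natAbs :=
          Finset.single_le_sum (f := fun j => (u j).natAbs) (fun _ _ => Nat.zero_le _)
            (Finset.mem_univ j)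
        have h2 : (u j).natAbs ≤ I.sup bound := le_trans h1 hb
        rw [Int.abs_eq_natAbs]
        exact_mod_cast h2
  obtain ⟨z, hz⟩ := compact_ex Q hloc hfin
  have hsubz : SubC (r k) (sub k) (fun p => (z p).2) = fun p => (z p).1 := by
    funext p
    have hpos : (0 : ℤ) < (r k : ℤ) := by have := hr k; omega
    have h1 := hz (.inr (.inr (.inr (.inr (.inr ((fun j => p j / (r k : ℤ)),
      (fun j => p j % (r k : ℤ))))))))
    simp only [Q] at h1
    have h2 := h1 (fun j => ⟨Int.emod_nonneg _ hpos.ne', Int.emod_lt_of_pos _ hpos⟩)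
    have h3 : (fun j => (r k : ℤ) * (p j / (r k : ℤ)) + p j % (r k : ℤ)) = p :=
      funext fun j => Int.mul_ediv_add_emod (p j) (r k : ℤ)
    rw [h3] at h2
    unfold SubC
    exact h2.symm
  refine ⟨fun p => (z p).2, ⟨fun p => hz (.inr (.inr (.inr (.inl p)))),
    fun p j => hz (.inr (.inr (.inr (.inr (.inl (p, j))))))⟩, fun q hq v => ?_⟩
  have h1 := hz (.inr (.inr (.inl (⟨q, hq⟩, v))))
  simp only [Q] at h1
  simp only [Dn, hsubz]
  exact h1

end

end TowerAux

open TowerAux in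
theorem tower {d : ℕ} (hd : 0 < d) (S : ℕ → Type) [∀ k, Finite (S k)] (r : ℕ → ℕ)
    (hr : ∀ k, 2 ≤ r k)
    (Ok : ∀ k, S k → Prop) (Adj : ∀ k, Fin d → S k → S k → Prop)
    (sub : ∀ k, S (k + 1) → Pt d → S k)
    (hsub : ∀ k, ∀ y ∈ NN (Ok (k + 1)) (Adj (k + 1)), SubC (r k) (sub k) y ∈ NN (Ok k) (Adj k))
    (hext : ∀ k, ∀ y ∈ NN (Ok (k + 1)) (Adj (k + 1)), ∀ y' ∈ NN (Ok (k + 1)) (Adj (k + 1)),
      ∀ u u' : Pt d, y u = y' u' → ∀ i : Pt d, (∀ j, -1 ≤ i j ∧ i j < (r k : ℤ)) →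
        SubC (r k) (sub k) y (fun j => (r k : ℤ) * u j + i j) =
          SubC (r k) (sub k) y' (fun j => (r k : ℤ) * u' j + i j))
    (hdesub : ∀ k, ∀ x ∈ NN (Ok k) (Adj k), ∀ N : ℕ, ∃ t : Pt d,
      ∃ y ∈ NN (Ok (k + 1)) (Adj (k + 1)), ∀ u : Pt d, (∀ j, |u j| ≤ (N : ℤ)) →
        ∀ i : Pt d, (∀ j, 0 ≤ i j ∧ i j < (r k : ℤ)) →
          x (fun j => t j + ((r k : ℤ) * u j + i j)) = sub k (y u) i)
    (hgood : ∀ k (s : S (k + 4)), Ok (k + 4) s → ∀ t, Desc r sub k 4 s t →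
      ∃ M, ∀ s' : S (k + M), Ok (k + M) s' → Desc r sub k M s' t)
    (hent : ∀ k, ∃ c : ℝ, 0 < c ∧
      ∃ᶠ n : ℕ in atTop, Real.exp (c * (n : ℝ) ^ d) ≤ (numPat (NN (Ok k) (Adj k)) n : ℝ))
    (hinj : ∀ k (s s' : S (k + 1)), Ok (k + 1) s → Ok (k + 1) s' →
      (∀ i : Pt d, (∀ j, 0 ≤ i j ∧ i j < (r k : ℤ)) → sub k s i = sub k s' i) → s = s')
    (B : Set (Cfg d (S 0))) (hBA : B ⊆ NN (Ok 0) (Adj 0)) (hB : IsSFT B) (hne : B.Nonempty) :
    ∃ h : ℝ, 0 < h ∧ HasEnt B h := by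
  classical
  obtain ⟨𝓕, hfin, rfl⟩ := hB
  -- all levels are nonempty
  have hC : ∀ k, ∃ x ∈ NN (Ok k) (Adj k), ∀ p ∈ 𝓕, ∀ v : Pt d,
      ¬ Occurs p v (Dn r sub k x) := by
    intro k
    induction k with
    | zero =>
      obtain ⟨x, hx⟩ := hne
      exact ⟨x, hBA hx, hx⟩
    | succ k ih => exact step_nonempty hr hdesub 𝓕 k ih
  -- the window
  obtain ⟨w, hw⟩ : ∃ w : ℕ, ∀ q ∈ 𝓕, ∀ u ∈ q.1, ∀ j, |u j| ≤ (w : ℤ) := by
    let U : Finset (Pt d) := hfin.toFinset.biUnion (fun q => q.1)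
    refine ⟨U.sup (fun u => ∑ j, (u j).natAbs), fun q hq u hu j => ?_⟩
    have h1 : (u j).natAbs ≤ ∑ j, (u j).natAbs :=
      Finset.single_le_sum (f := fun j => (u j).natAbs) (fun _ _ => Nat.zero_le _)
        (Finset.mem_univ j)
    have h2 : ∑ j, (u j).natAbs ≤ U.sup (fun u => ∑ j, (u j).natAbs) :=
      Finset.le_sup (f := fun u : Pt d => ∑ j, (u j).natAbs)
        (Finset.mem_biUnion.mpr ⟨q, by simpa using hq, hu⟩)
    rw [Int.abs_eq_natAbs]
    exact_mod_cast le_trans h1 h2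
  obtain ⟨K, hK⟩ : ∃ K : ℕ, 2 * w ≤ Ls r K :=
    ⟨2 * w, le_trans Nat.lt_two_pow_self.le (two_pow_le hr (2 * w))⟩
  have hLK := Ls_pos hr K
  have hLK' : (0 : ℤ) < (Ls r K : ℤ) := by exact_mod_cast hLK
  have hLK1 := Ls_pos hr (K + 1)
  have hLK1' : (0 : ℤ) < (Ls r (K + 1) : ℤ) := by exact_mod_cast hLK1
  -- extended determination
  have hext' : ∀ y ∈ NN (Ok (K + 1)) (Adj (K + 1)), ∀ y' ∈ NN (Ok (K + 1)) (Adj (K + 1)),
      ∀ u u' : Pt d, y u = y' u' → ∀ i : Pt d,
      (∀ j, -(Ls r K : ℤ) ≤ i j ∧ i j < (Ls r (K + 1) : ℤ)) →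
        Dn r sub (K + 1) y (fun j => (Ls r (K + 1) : ℤ) * u j + i j) =
          Dn r sub (K + 1) y' (fun j => (Ls r (K + 1) : ℤ) * u' j + i j) := by
    intro y hy y' hy' u u' h i hi
    simp only [Dn, Ls]
    rw [split_pt hLK u i, split_pt hLK u' i]
    refine Dn_cell hr K _ _ _ _ ?_ (fun j => i j % (Ls r K : ℤ)) (fun j =>
      ⟨Int.emod_nonneg _ hLK'.ne', Int.emod_lt_of_pos _ hLK'⟩)
    refine hext K y hy y' hy' u u' h _ (fun j => ?_)
    have := hi j
    simp only [Ls] at this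
    push_cast at this
    refine ⟨?_, Int.ediv_lt_of_lt_mul hLK' this.2⟩
    rw [Int.le_ediv_iff_mul_le hLK']
    linarith [this.1]
  -- a configuration all of whose states occur in good configurations is good
  have key : ∀ y ∈ NN (Ok (K + 1)) (Adj (K + 1)),
      (∀ u, ∃ y' ∈ NN (Ok (K + 1)) (Adj (K + 1)), (∀ p ∈ 𝓕, ∀ v : Pt d,
        ¬ Occurs p v (Dn r sub (K + 1) y')) ∧ ∃ u', y' u' = y u) →
      ∀ p ∈ 𝓕, ∀ v : Pt d, ¬ Occurs p v (Dn r sub (K + 1) y) := by
    intro y hy hall q hq v hocc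
    set u : Pt d := fun j => (v j + w) / (Ls r (K + 1) : ℤ) with hu
    obtain ⟨y', hy', hgood', u', huu⟩ := hall u
    refine hgood' q hq (v + (fun j => (Ls r (K + 1) : ℤ) * (u' j - u j))) (fun x => ?_)
    rw [← hocc x]
    have hx := hw q hq x x.2
    set i : Pt d := fun j => v j + (x : Pt d) j - (Ls r (K + 1) : ℤ) * u j with hi
    have e1 : v + (x : Pt d) = fun j => (Ls r (K + 1) : ℤ) * u j + i j := by
      funext j
      simp only [Pi.add_apply, hi]
      ring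
    have e2 : v + (fun j => (Ls r (K + 1) : ℤ) * (u' j - u j)) + (x : Pt d) =
        fun j => (Ls r (K + 1) : ℤ) * u' j + i j := by
      funext j
      simp only [Pi.add_apply, hi]
      ring
    rw [e1, e2]
    refine hext' y' hy' y hy u' u huu i (fun j => ?_)
    have h1 := Int.mul_ediv_add_emod (v j + w) (Ls r (K + 1) : ℤ)
    have h2 := Int.emod_nonneg (v j + w) hLK1'.ne'
    have h3 := Int.emod_lt_of_pos (v j + w) hLK1'
    have h4 := hx j
    rw [abs_le] at h4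
    have h5 : (2 * w : ℤ) ≤ (Ls r K : ℤ) := by exact_mod_cast hK
    have h6 : u j = (v j + w) / (Ls r (K + 1) : ℤ) := rfl
    rw [← h6] at h1
    simp only [hi]
    constructor
    · linarith
    · linarith
  -- images under `M`-fold substitution
  have hSubM : ∀ (k M : ℕ) (y : Cfg d (S (k + M))), y ∈ NN (Ok (k + M)) (Adj (k + M)) →
      SubM r sub k M y ∈ NN (Ok k) (Adj k) := by
    intro k M
    induction M with
    | zero => intro y hy; exact hy
    | succ M ih => intro y hy; exact ih _ (hsub (k + M) y hy)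
  have main : ∀ z ∈ NN (Ok (K + 1 + 4)) (Adj (K + 1 + 4)),
      ∀ p ∈ 𝓕, ∀ v : Pt d, ¬ Occurs p v (Dn r sub (K + 1 + 4) z) := by
    intro z hz
    rw [Dn_SubM]
    refine key _ (hSubM (K + 1) 4 z hz) (fun u => ?_)
    obtain ⟨u1, hu1⟩ := occurs_desc (r := r) (sub := sub) hr (K + 1) 4 z u
    obtain ⟨M, hM⟩ := hgood (K + 1) (z u1) (hz.1 u1) _ hu1
    obtain ⟨y', hy', hg'⟩ := hC (K + 1 + M)
    obtain ⟨p, hp⟩ := desc_occurs (K + 1) M y' 0 _ (hM (y' 0) (hy'.1 0))
    refine ⟨SubM r sub (K + 1) M y', hSubM (K + 1) M y' hy', ?_, p, hp⟩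
    rw [← Dn_SubM]
    exact hg'
  -- injectivity
  have hDinj : ∀ (k : ℕ) (y y' : Cfg d (S k)), y ∈ NN (Ok k) (Adj k) → y' ∈ NN (Ok k) (Adj k) →
      ∀ u : Pt d, (∀ i : Pt d, (∀ j, 0 ≤ i j ∧ i j < (Ls r k : ℤ)) →
        Dn r sub k y (fun j => (Ls r k : ℤ) * u j + i j) =
          Dn r sub k y' (fun j => (Ls r k : ℤ) * u j + i j)) → y u = y' u := by
    intro k
    induction k with
    | zero =>
      intro y y' _ _ u h
      have := h 0 (fun j => by simp [Ls])
      simpa [Dn, Ls] using this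
    | succ k ih =>
      intro y y' hy hy' u h
      have hL := Ls_pos hr k
      have hL' : (0 : ℤ) < (Ls r k : ℤ) := by exact_mod_cast hL
      refine hinj k _ _ (hy.1 u) (hy'.1 u) (fun i hi => ?_)
      have h1 := ih _ _ (hsub k y hy) (hsub k y' hy') (fun j => (r k : ℤ) * u j + i j) ?_
      · rwa [subC_block _ _ _ _ _ hi, subC_block _ _ _ _ _ hi] at h1
      · intro i0 hi0
        have h2 := h (fun j => (Ls r k : ℤ) * i j + i0 j) (fun j => by
          have a1 := hi j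
          have a2 := hi0 j
          simp only [Ls]
          push_cast
          constructor
          · have := mul_nonneg hL'.le a1.1
            linarith
          · have : (Ls r k : ℤ) * i j ≤ (Ls r k : ℤ) * ((r k : ℤ) - 1) :=
              mul_le_mul_of_nonneg_left (by linarith [a1.2]) hL'.le
            nlinarith)
        simp only [Dn, Ls] at h2
        have e1 : (fun j => (Ls r k : ℤ) * ((r k : ℤ) * u j + i j) + i0 j) =
            fun j => ((r k * Ls r k : ℕ) : ℤ) * u j + ((Ls r k : ℤ) * i j + i0 j) := by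
          funext j
          push_cast
          ring
        rw [e1]
        exact h2
  -- entropy
  set k1 := K + 1 + 4 with hk1
  have hL1 := Ls_pos hr k1
  obtain ⟨c, hc, hf⟩ := hent k1
  set B : Set (Cfg d (S 0)) := {x | ∀ p ∈ 𝓕, ∀ v : Pt d, ¬ Occurs p v x} with hBdef
  have hcount : ∀ m : ℕ, numPat (NN (Ok k1) (Adj k1)) m ≤ numPat B (Ls r k1 * m) := by
    intro m
    have hch : ∀ q ∈ patSet (NN (Ok k1) (Adj k1)) m, ∃ y ∈ NN (Ok k1) (Adj k1),
        ∀ i : Fin d → Fin m, q i = y (fun j => ((i j : ℕ) : ℤ)) := fun q hq => hq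
    obtain ⟨y0, _⟩ := hC k1
    have : Nonempty (Cfg d (S k1)) := ⟨y0⟩
    choose! Y hY1 hY2 using hch
    unfold numPat
    refine Set.ncard_le_ncard_of_injOn
      (fun q => fun i : Fin d → Fin (Ls r k1 * m) =>
        Dn r sub k1 (Y q) (fun j => ((i j : ℕ) : ℤ))) ?_ ?_ (Set.toFinite _)
    · intro q hq
      exact ⟨Dn r sub k1 (Y q), main _ (hY1 q hq), fun i => rfl⟩
    · intro q hq q' hq' heq
      funext i
      rw [hY2 q hq i, hY2 q' hq' i]
      refine hDinj k1 _ _ (hY1 q hq) (hY1 q' hq') _ (fun i0 hi0 => ?_)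
      have hlt : ∀ j, (Ls r k1) * (i j : ℕ) + (i0 j).toNat < Ls r k1 * m := by
        intro j
        have a1 := (i j).2
        have a2 := hi0 j
        have a3 : (i0 j).toNat < Ls r k1 := by omega
        calc (Ls r k1) * (i j : ℕ) + (i0 j).toNat < (Ls r k1) * (i j : ℕ) + Ls r k1 := by omega
          _ = Ls r k1 * ((i j : ℕ) + 1) := by ring
          _ ≤ Ls r k1 * m := Nat.mul_le_mul_left _ a1
      have h1 := congrFun heq (fun j => ⟨(Ls r k1) * (i j : ℕ) + (i0 j).toNat, hlt j⟩)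
      simp only at h1
      have e1 : (fun j => (((Ls r k1) * (i j : ℕ) + (i0 j).toNat : ℕ) : ℤ)) =
          fun j => (Ls r k1 : ℤ) * ((i j : ℕ) : ℤ) + i0 j := by
        funext j
        push_cast
        rw [Int.toNat_of_nonneg (hi0 j).1]
      rw [e1] at h1
      exact h1
  obtain ⟨h, hh⟩ := exists_hasEnt hd hne (fun x hx v => sft_shift hx v)
  have hLr : (0 : ℝ) < (Ls r k1 : ℝ) := by exact_mod_cast hL1
  refine ⟨h, hh.pos_of_frequently (c := c / (Ls r k1 : ℝ) ^ d) hd (by positivity) ?_, hh⟩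
  have htend : Tendsto (fun m : ℕ => Ls r k1 * m) atTop atTop :=
    tendsto_atTop_mono (fun m => Nat.le_mul_of_pos_left m hL1) tendsto_id
  refine htend.frequently (hf.mono (fun m hm => ?_))
  have e1 : c / (Ls r k1 : ℝ) ^ d * ((Ls r k1 * m : ℕ) : ℝ) ^ d = c * (m : ℝ) ^ d := by
    push_cast
    rw [mul_pow]
    field_simp
  rw [e1]
  exact le_trans hm (by exact_mod_cast hcount m)

end Pool.Agent.Lib.P05dae2
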