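import Mathlib
import Pool.Agent.Lib.P05dae2.Tower
import Pool.Agent.Lib.P05dae2.GeoEx
import Pool.Agent.Lib.P05dae2.HExt
import Pool.Agent.Lib.P05dae2.Desub
import Pool.Agent.Lib.P05dae2.EntLB
import Pool.Agent.Lib.P05dae2.Good5

/-!
# Assembly (MP_05dae2_an)
-/

namespace Pool.Agent.Lib.P05dae2

variable {e n : ℕ} {enc : Kind e n → Fin n → Bool} (G : Geo enc)

namespace FinalAux

open Filter

/-- The labelled state with integer label. -/
def toZ {k : ℕ} (s : G.SL k) : Pt (e + 2) × St e n := (G.lab s, s.2)

theorem lab_inj {k : ℕ} {s s' : G.SL k} (h : G.lab s = G.lab s') : s.1 = s'.1 := by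
  funext j
  have := congrFun h j
  simp only [Geo.lab] at this
  exact Fin.ext (by exact_mod_cast this)

theorem toZ_inj {k : ℕ} {s s' : G.SL k} (h : toZ G s = toZ G s') : s = s' := by
  simp only [toZ, Prod.mk.injEq] at h
  exact Prod.ext (lab_inj G h.1) h.2

theorem lab_mkLab' {k : ℕ} {i : Pt (e + 2)} (hi : InB (G.rr k) i) (θ : St e n) :
    G.lab ((G.mkLab k i, θ) : G.SL k) = i := by
  funext j
  have h0 := (hi j).1
  have h1 := (hi j).2
  simp only [Geo.lab, Geo.mkLab]
  rw [Int.emod_eq_of_lt h0 h1]
  exact Int.toNat_of_nonneg h0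

theorem toZ_sub {k : ℕ} (s : G.SL (k + 1)) {i : Pt (e + 2)} (hi : InB (G.rr k) i) :
    toZ G (G.subL k s i) = (i, G.cell (G.rr k) (toZ G s).1 (code enc (toZ G s).2) i) := by
  unfold toZ Geo.subL
  rw [lab_mkLab' G hi]

theorem rr_add (k M : ℕ) : G.rr (k + M) = G.rr k + M := by
  unfold Geo.rr
  push_cast
  ring

theorem desc_iff (k : ℕ) : ∀ (M : ℕ) (s : G.SL (k + M)) (t : G.SL k),
    Desc (fun k => G.r0 + k) (fun k => G.subL k) k M s t ↔
      G.Chain (G.rr k) M (toZ G s) (toZ G t) := by
  intro M
  induction M with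
  | zero =>
    intro s t
    constructor
    · intro h
      have h' : t = s := h
      rw [h']
      rfl
    · intro h
      have h' : toZ G t = toZ G s := h
      exact toZ_inj G h'
  | succ M ih =>
    intro s t
    have hrr := rr_add G k M
    constructor
    · rintro ⟨i, hi, h⟩
      have hi' : InB (G.rr (k + M)) i := by
        intro j
        have := hi j
        unfold Geo.rr
        exact this
      refine ⟨i, by rw [← hrr]; exact hi', ?_⟩
      have h1 := (ih _ _).mp h
      have h2 := toZ_sub G (k := k + M) s hi'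
      rw [h2] at h1
      rw [← hrr]
      exact h1
    · rintro ⟨i, hi, h⟩
      rw [← hrr] at hi h
      refine ⟨i, ?_, ?_⟩
      · intro j
        have := hi j
        unfold Geo.rr at this
        exact this
      · refine (ih _ _).mpr ?_
        have h2 := toZ_sub G (k := k + M) s hi
        rw [h2]
        exact h

theorem okZ_iff {k : ℕ} (s : G.SL k) : G.OkZ (G.rr k) (toZ G s) ↔ G.OkL k s := by
  constructor
  · intro h; exact ⟨h.2.1, h.2.2⟩
  · intro h; exact ⟨BEdge.lab_inB G k s, h.1, h.2⟩

theorem subC_eq (k : ℕ) (y : Cfg (e + 2) (G.SL (k + 1))) :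
    SubC (G.r0 + k) (G.subL k) y = G.expC k y (fun _ => false) (fun _ _ => false) := by
  funext p
  have hr : ((G.r0 + k : ℕ) : ℤ) = G.rr k := rfl
  unfold SubC Geo.subL Geo.expC
  simp only [hr]
  refine Prod.ext ?_ rfl
  funext j
  simp only [Geo.mkLab, Int.emod_emod_of_dvd _ (dvd_refl _)]

theorem nn_shift {d : ℕ} {S : Type} {Ok : S → Prop} {Adj : Fin d → S → S → Prop}
    {x : Cfg d S} (hx : x ∈ NN Ok Adj) (v : Pt d) : (fun p => x (p + v)) ∈ NN Ok Adj := by
  refine ⟨fun p => hx.1 _, fun p j => ?_⟩
  have := hx.2 (p + v) j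
  have e1 : p + v - ev j = p - ev j + v := by abel
  rw [e1] at this
  exact this

/-- Some cell has label `0`. -/
theorem exists_lab0 {k : ℕ} {y : Cfg (e + 2) (G.SL k)} (hy : y ∈ NN (G.OkL k) (G.AdjL k)) :
    ∃ u, ∀ j, G.lab (y u) j = 0 := by
  obtain ⟨_, hAdj⟩ := hy
  have hpos := BEdge.rr_pos G k
  have hlabB : ∀ p, InB (G.rr k) (G.lab (y p)) := fun p => BEdge.lab_inB G k (y p)
  have hlab0 : ∀ p l, G.lab (y p) l = (G.lab (y 0) l + p l) % G.rr k := by
    intro p l
    have hc := DesubAux.const_of_inv (fun p => (G.lab (y p) l - p l) % G.rr k) (fun j p => by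
      rw [(hAdj p j).1 l]
      by_cases hl : l = j
      · subst hl
        rw [if_pos rfl, Int.emod_sub_emod]
        congr 1
        simp only [Pi.sub_apply, ev, if_true]
        ring
      · rw [if_neg hl]
        simp only [Pi.sub_apply, ev, if_neg hl, sub_zero]) p 0
    simp only [Pi.zero_apply, sub_zero] at hc
    have h1 := hlabB p l
    have h2 : G.lab (y p) l = G.lab (y p) l % G.rr k := (Int.emod_eq_of_lt h1.1 h1.2).symm
    rw [h2]
    have h3 : G.lab (y p) l = (G.lab (y p) l - p l) + p l := by ring
    rw [h3, Int.add_emod, hc, ← Int.add_emod]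
  refine ⟨fun l => - G.lab (y 0) l, fun j => ?_⟩
  rw [hlab0]
  simp

/-- Position of a cell of a block. -/
theorem divmod' {r : ℤ} {u a : ℤ} (h0 : 0 ≤ a) (h1 : a < r) :
    (r * u + a) / r = u ∧ (r * u + a) % r = a := by
  have hr : r ≠ 0 := by omega
  constructor
  · rw [add_comm, Int.add_mul_ediv_left _ _ hr, Int.ediv_eq_zero_of_lt h0 h1, zero_add]
  · rw [add_comm, Int.add_mul_emod_self_left, Int.emod_eq_of_lt h0 h1]

theorem expC_block (k : ℕ) (y : Cfg (e + 2) (G.SL (k + 1))) (m : Pt (e + 2) → Bool)
    (β : Pt (e + 2) → Pt (e + 2) → Bool) (u : Pt (e + 2)) {i : Pt (e + 2)}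
    (hi : InB (G.rr k) i) :
    G.expC k y m β (fun j => G.rr k * u j + i j) =
      (G.mkLab k i, G.cellC (G.rr k) (G.lab (y u)) (code enc (y u).2) (m u) (β u) i) := by
  have h1 : (fun j => (G.rr k * u j + i j) / G.rr k) = u := funext fun j =>
    (divmod' (hi j).1 (hi j).2).1
  have h2 : (fun j => (G.rr k * u j + i j) % G.rr k) = i := funext fun j =>
    (divmod' (hi j).1 (hi j).2).2
  unfold Geo.expC
  simp only [h1, h2]
  refine Prod.ext ?_ rfl
  funext j
  simp only [Geo.mkLab, (divmod' (hi j).1 (hi j).2).2]
  have := hi j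
  simp only [Int.emod_eq_of_lt this.1 this.2]

/-- Large cubes of cells in mode `P`. -/
theorem big_cube : ∀ (K k : ℕ) (x : Cfg (e + 2) (G.SL k)), x ∈ NN (G.OkL k) (G.AdjL k) →
    ∃ t : Pt (e + 2), ∀ p : Pt (e + 2), (∀ j, 0 ≤ p j ∧ p j < 2 ^ K) →
      (x (p + t)).2.own.m = false := by
  intro K
  induction K with
  | zero =>
    intro k x hx
    obtain ⟨t, y, hy, m, β, hm, _, hxy⟩ := G.desubC k x hx
    obtain ⟨u, hu⟩ := exists_lab0 G hy
    have hmu : m u = false := by
      by_contra hcon
      obtain ⟨j, hj⟩ := (hm u (by simpa using hcon)).2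
      exact hj (hu j)
    have hpos := BEdge.rr_pos G k
    refine ⟨(fun j => G.rr k * u j + 0) + t, fun p hp => ?_⟩
    have hp0 : p = 0 := by
      funext j
      have := hp j
      simp only [pow_zero] at this
      change p j = 0
      omega
    rw [hp0, zero_add, hxy]
    have := expC_block G k y m β u (i := fun _ => 0) (fun j => ⟨le_rfl, hpos⟩)
    rw [this]
    exact hmu
  | succ K ih =>
    intro k x hx
    obtain ⟨t, y, hy, m, β, hm, _, hxy⟩ := G.desubC k x hx
    obtain ⟨t', ht'⟩ := ih (k + 1) y hy
    have hpos := BEdge.rr_pos G k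
    have h2r : (2 : ℤ) ≤ G.rr k := by
      have h1 := BEdge.r0_le G k
      have h2 := G.XZ_r0
      have h3 := G.XR_XZ
      have h4 := G.XR_pos
      omega
    refine ⟨(fun j => G.rr k * t' j) + t, fun p hp => ?_⟩
    set u : Pt (e + 2) := fun j => p j / G.rr k with hu
    set i : Pt (e + 2) := fun j => p j % G.rr k with hi
    have hiB : InB (G.rr k) i := fun j =>
      ⟨Int.emod_nonneg _ hpos.ne', Int.emod_lt_of_pos _ hpos⟩
    have hmu : m (u + t') = false := by
      by_contra hcon
      have h1 := (hm (u + t') (by simpa using hcon)).1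
      rw [ht' u (fun j => ?_)] at h1
      · simp at h1
      · constructor
        · exact Int.ediv_nonneg (hp j).1 hpos.le
        · refine Int.ediv_lt_of_lt_mul hpos ?_
          have h3 := (hp j).2
          have h4 : (2 : ℤ) ^ (K + 1) = 2 ^ K * 2 := pow_succ 2 K
          have h5 : (0 : ℤ) < 2 ^ K := by positivity
          nlinarith
    have hpt : p + ((fun j => G.rr k * t' j) + t) =
        (fun j => G.rr k * (u + t') j + i j) + t := by
      funext j
      simp only [Pi.add_apply, hu, hi]
      have := Int.mul_ediv_add_emod (p j) (G.rr k)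
      linarith
    rw [hpt, hxy, expC_block G k y m β (u + t') hiB]
    exact hmu

end FinalAux

open FinalAux Filter

/-- The main theorem for a given picture. -/
theorem Geo.main : ∃ A : Set (Cfg (e + 2) (G.SL 0)), IsSFT A ∧ (∃ h : ℝ, 0 < h ∧ HasEnt A h) ∧
    ∀ B ⊆ A, IsSFT B → B.Nonempty → ∃ h : ℝ, 0 < h ∧ HasEnt B h := by
  refine ⟨NN (G.OkL 0) (G.AdjL 0), isSFT_NN _ _, ?_, ?_⟩
  · obtain ⟨c, hc, hf⟩ := G.entLB 0
    have hne : (NN (G.OkL 0) (G.AdjL 0)).Nonempty := by
      obtain ⟨N, hN⟩ := hf.exists
      have h1 : (0 : ℝ) < (numPat (NN (G.OkL 0) (G.AdjL 0)) N : ℝ) :=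
        lt_of_lt_of_le (Real.exp_pos _) hN
      have h2 : numPat (NN (G.OkL 0) (G.AdjL 0)) N ≠ 0 := by
        intro h; rw [h] at h1; simp at h1
      unfold numPat at h2
      obtain ⟨q, x, hx, _⟩ := Set.nonempty_of_ncard_ne_zero h2
      exact ⟨x, hx⟩
    obtain ⟨h, hh⟩ := exists_hasEnt (by omega) hne (fun x hx v => nn_shift hx v)
    exact ⟨h, hh.pos_of_frequently (by omega) hc hf, hh⟩
  · intro B hBA hB hne
    have h2r : ∀ k, 2 ≤ G.r0 + k := by
      intro k
      have h2 := G.XZ_r0
      have h3 := G.XR_XZ
      have h4 := G.XR_pos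
      omega
    refine tower (d := e + 2) (by omega) (fun k => G.SL k) (fun k => G.r0 + k) h2r
      (fun k => G.OkL k) (fun k => G.AdjL k) (fun k => G.subL k) ?_ ?_ ?_ ?_ ?_ ?_ B hBA hB hne
    · -- substitution
      intro k y hy
      rw [subC_eq]
      have h1 := G.expC_loc k y (fun _ => false) (fun _ _ => false) Set.univ
        ⟨fun p _ => hy.1 p, fun p _ j _ => hy.2 p j⟩ (by simp) (by simp)
      exact ⟨fun p => h1.1 p (Set.mem_univ _),
        fun p j => h1.2 p (Set.mem_univ _) j (Set.mem_univ _)⟩
    · -- extended determination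
      intro k y hy y' hy' u u' h i hi
      exact G.hext k y hy y' hy' u u' h i hi
    · -- desubstitution
      intro k x hx N
      obtain ⟨t, y, hy, m, β, hm, hβ, hxy⟩ := G.desubC k x hx
      obtain ⟨K, hK⟩ : ∃ K : ℕ, 2 * N + 1 ≤ 2 ^ K := ⟨2 * N + 1, Nat.lt_two_pow_self.le⟩
      obtain ⟨t', ht'⟩ := big_cube G K (k + 1) y hy
      set ctr : Pt (e + 2) := fun j => t' j + N with hctr
      refine ⟨(fun j => G.rr k * ctr j) + t, fun u => y (u + ctr), nn_shift hy ctr, ?_⟩
      intro u hu i hi
      have hiB : InB (G.rr k) i := hi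
      have hmu : m (u + ctr) = false := by
        by_contra hcon
        have h1 := (hm (u + ctr) (by simpa using hcon)).1
        have h2 : u + ctr = (fun j => u j + N) + t' := by
          funext j
          simp only [Pi.add_apply, hctr]
          ring
        rw [h2, ht' (fun j => u j + N) (fun j => ?_)] at h1
        · simp at h1
        · have h3 := hu j
          rw [abs_le] at h3
          have h4 : (2 * (N : ℤ) + 1) ≤ 2 ^ K := by exact_mod_cast hK
          constructor
          · omega
          · omega
      have hpt : (fun j => ((fun j => G.rr k * ctr j) + t) j + (((G.r0 + k : ℕ) : ℤ) * u j + i j)) =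
          (fun j => G.rr k * (u + ctr) j + i j) + t := by
        funext j
        simp only [Pi.add_apply]
        have : ((G.r0 + k : ℕ) : ℤ) = G.rr k := rfl
        rw [this]
        ring
      rw [hpt, hxy, expC_block G k y m β (u + ctr) hiB]
      have hβ0 : β (u + ctr) = fun _ => false := by
        funext a
        by_contra hcon
        have := hβ (u + ctr) a (by simpa using hcon)
        rw [hmu] at this
        simp at this
      rw [hmu, hβ0]
      rfl
    · -- goodness
      intro k s hs t ht
      have h1 : G.OkZ (G.rr k + 4) (toZ G s) := by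
        have := (okZ_iff G s).mpr hs
        rw [rr_add] at this
        exact_mod_cast this
      obtain ⟨M, hM⟩ := G.good (BEdge.r0_le G k) (toZ G s) h1 (toZ G t)
        ((desc_iff G k 4 s t).mp ht)
      refine ⟨M, fun s' hs' => (desc_iff G k M s' t).mpr (hM _ ?_)⟩
      have := (okZ_iff G s').mpr hs'
      rwa [rr_add] at this
    · -- entropy
      intro k
      exact G.entLB k
    · -- injectivity
      intro k s s' _ _ h
      have hr := BEdge.rr_pos G k
      have hr0 := BEdge.r0_le G k
      have hsucc := BEdge.rr_succ G k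
      have hcell : ∀ i, InB (G.rr k) i →
          G.cell (G.rr k) (G.lab s) (code enc s.2) i =
            G.cell (G.rr k) (G.lab s') (code enc s'.2) i := by
        intro i hi
        have := h i hi
        unfold Geo.subL at this
        exact (Prod.mk.inj this).2
      have hlab : G.lab s = G.lab s' := by
        funext l
        have hA := BEdge.lab_inB G (k + 1) s l
        have hA' := BEdge.lab_inB G (k + 1) s' l
        rw [hsucc] at hA hA'
        by_cases hlt : G.lab s l < G.rr k
        · have hi : InB (G.rr k) (fun _ : Fin (e + 2) => G.lab s l) := fun j => ⟨hA.1, hlt⟩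
          have h1 := congrArg (fun θ : St e n => θ.own.f l) (hcell _ hi)
          have h2 : nf (G.lab s l) (G.lab s l) = nf (G.lab s l) (G.lab s' l) := h1
          unfold nf at h2
          rw [if_pos rfl] at h2
          by_contra hne
          rw [if_neg (fun h => hne h.symm)] at h2
          split_ifs at h2
        · have hi : InB (G.rr k) (fun _ : Fin (e + 2) => G.rr k - 1) := fun j => by
            constructor
            · show 0 ≤ G.rr k - 1
              omega
            · show G.rr k - 1 < G.rr k
              omega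
          have h1 := congrArg (fun θ : St e n => θ.own.f l) (hcell _ hi)
          have h2 : nf (G.rr k - 1) (G.lab s l) = nf (G.rr k - 1) (G.lab s' l) := h1
          unfold nf at h2
          rw [if_neg (by omega), if_pos (by omega)] at h2
          by_contra hne
          by_cases h3 : G.lab s' l = G.rr k - 1
          · rw [if_pos h3] at h2
            simp at h2
          · rw [if_neg h3, if_neg (by omega)] at h2
            simp at h2
      have hcode : code enc s.2 = code enc s'.2 := by
        classical
        funext ρ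
        set a : Pt (e + 2) := fun l => if l = 0 then G.XR else if l = 1 then G.hgt ρ else 0
          with ha
        have ha0 : a 0 = G.XR := by simp [ha]
        have ha1 : a 1 = G.hgt ρ := by simp [ha]
        have hp : InPl a := by intro l h0 h1; simp [ha, h0, h1]
        have hX := G.XR_XZ
        have hXp := G.XR_pos
        have hZ := G.XZ_r0
        have hge := G.hgt_ge ρ
        have hY := G.hgt_lt_Yt ρ
        have hYZ := G.Yt_XZ
        have hi : InB (G.rr k) a := by
          intro j
          by_cases h0 : j = 0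
          · subst h0; rw [ha0]; omega
          · by_cases h1 : j = 1
            · subst h1; rw [ha1]; omega
            · rw [hp j h0 h1]; omega
        have hH : ∀ c : Row e n → Bool, G.HH c a ↔ c ρ = true := by
          intro c
          constructor
          · rintro ⟨_, ρ', g1, _, _, g4⟩
            have : ρ = ρ' := G.hgt_inj (ha1.symm.trans g1)
            rw [this]; exact g4
          · intro g
            exact ⟨hp, ρ, ha1, by rw [ha0]; exact G.xs_le_XR ρ, by rw [ha0]; omega, g⟩
        have h1 := congrArg (fun θ : St e n => θ.own.h) (hcell a hi)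
        have h2 : decide (G.HH (code enc s.2) a) = decide (G.HH (code enc s'.2) a) := h1
        have h3 : G.HH (code enc s.2) a ↔ G.HH (code enc s'.2) a := decide_eq_decide.mp h2
        rw [hH, hH] at h3
        cases hx : code enc s.2 ρ <;> cases hy : code enc s'.2 ρ <;> simp_all
      exact Prod.ext (lab_inj G hlab) (code_inj G.enc_inj hcode)

end Pool.Agent.Lib.P05dae2
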